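import Pool.Agent.MP_00906f_gt.H46.BW

/-! Row BR: structure of the subgroups of a braid family (pure group theory). -/

namespace Pool.Agent.MP_00906f_gt.H46

open BW

variable {G : Type*} [Group G] {σ : ℕ → G} {N : ℕ}

/-- ordered product of powers of the translations `yy (j+1) * yy 0` -/
def tp (σ : ℕ → G) (a : ℕ → ℤ) : ℕ → G
  | 0 => 1
  | n + 1 => tp σ a n * (yy σ (n + 1) * yy σ 0) ^ a n

theorem mem_BB {i : ℕ} (hi : i < N) : σ i ∈ BB σ N :=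
  Subgroup.subset_closure ⟨i, hi, rfl⟩

theorem BB_mono {M : ℕ} (hM : M ≤ N) : BB σ M ≤ BB σ N :=
  Subgroup.closure_mono (Set.image_mono fun _ hi => lt_of_lt_of_le hi hM)

theorem aa_mem {j : ℕ} (hj : j ≤ N) : aa σ j ∈ BB σ N := by
  induction j with
  | zero => exact one_mem _
  | succ j ih => exact mul_mem (mem_BB (by omega)) (ih (by omega))

theorem B1_le_BB : B1 σ N ≤ BB σ N := by
  refine (Subgroup.closure_le _).2 ?_
  rintro x (⟨h0, rfl⟩ | ⟨i, hi, rfl⟩)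
  · exact pow_mem (mem_BB h0) 2
  · exact mem_BB hi.2

theorem BB_sh_le : BB (sh σ) (N - 2) ≤ BB σ N := by
  refine (Subgroup.closure_le _).2 ?_
  rintro x ⟨i, hi, rfl⟩
  have hi' : i < N - 2 := hi
  exact mem_BB (i := i + 2) (by omega)

theorem mem_Ga {i : ℕ} (h2 : 2 ≤ i) (hi : i < N) : σ i ∈ Ga σ N :=
  Subgroup.subset_closure (Or.inr ⟨i, ⟨h2, hi⟩, rfl⟩)

theorem mem_B1 {i : ℕ} (h1 : 1 ≤ i) (hi : i < N) : σ i ∈ B1 σ N :=
  Subgroup.subset_closure (Or.inr ⟨i, ⟨h1, hi⟩, rfl⟩)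

theorem BB_sh_le_Ga : BB (sh σ) (N - 2) ≤ Ga σ N := by
  refine (Subgroup.closure_le _).2 ?_
  rintro x ⟨i, hi, rfl⟩
  have hi' : i < N - 2 := hi
  exact mem_Ga (i := i + 2) (by omega) (by omega)

theorem yy_eq (j : ℕ) : yy σ j = aa (sh σ) j * yy σ 0 * (aa (sh σ) j)⁻¹ := by
  induction j with
  | zero => simp [aa]
  | succ j ih =>
    have e : yy σ (j + 1) = σ (j + 2) * yy σ j * (σ (j + 2))⁻¹ := rfl
    have e' : aa (sh σ) (j + 1) = σ (j + 2) * aa (sh σ) j := rfl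
    rw [e, e', ih]
    group

theorem s_mem_Ga : σ 0 ∈ Ga σ N :=
  Subgroup.subset_closure (Or.inl (Or.inl rfl))

theorem y0_mem_Ga : yy σ 0 ∈ Ga σ N :=
  Subgroup.subset_closure (Or.inl (Or.inr rfl))

theorem s_mem_FF : σ 0 ∈ FF σ N :=
  Subgroup.subset_closure (Or.inl rfl)

theorem yy_mem_FF {j : ℕ} (hj : j + 2 ≤ N) : yy σ j ∈ FF σ N :=
  Subgroup.subset_closure (Or.inr ⟨j, hj, rfl⟩)

theorem yy_mem_Ga {j : ℕ} (hj : j + 2 ≤ N) : yy σ j ∈ Ga σ N := by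
  have ha : aa (sh σ) j ∈ Ga σ N := BB_sh_le_Ga (aa_mem (by omega))
  rw [yy_eq]
  exact mul_mem (mul_mem ha y0_mem_Ga) (inv_mem ha)

theorem FF_le_Ga : FF σ N ≤ Ga σ N := by
  refine (Subgroup.closure_le _).2 ?_
  rintro x (rfl | ⟨j, hj, rfl⟩)
  · exact s_mem_Ga
  · exact yy_mem_Ga hj

theorem Ga_le_BB (hN : 2 ≤ N) : Ga σ N ≤ BB σ N := by
  refine (Subgroup.closure_le _).2 ?_
  rintro x ((rfl | rfl) | ⟨i, hi, rfl⟩)
  · exact mem_BB (by omega)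
  · exact pow_mem (mul_mem (mem_BB (by omega)) (mem_BB (by omega))) 3
  · exact mem_BB hi.2

theorem conj_closure {S : Set G} {T : Subgroup G} {g : G} (h : ∀ s ∈ S, g * s * g⁻¹ ∈ T) {f : G}
    (hf : f ∈ Subgroup.closure S) : g * f * g⁻¹ ∈ T := by
  induction hf using Subgroup.closure_induction with
  | mem x hx => exact h x hx
  | one => simpa using one_mem T
  | mul x y _ _ hx hy =>
    have : g * (x * y) * g⁻¹ = g * x * g⁻¹ * (g * y * g⁻¹) := by group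
    rw [this]; exact mul_mem hx hy
  | inv x _ hx =>
    have : g * x⁻¹ * g⁻¹ = (g * x * g⁻¹)⁻¹ := by group
    rw [this]; exact inv_mem hx

theorem comm_closure {S : Set G} {g : G} (h : ∀ s ∈ S, g * s = s * g) {f : G}
    (hf : f ∈ Subgroup.closure S) : g * f = f * g := by
  induction hf using Subgroup.closure_induction with
  | mem x hx => exact h x hx
  | one => simp
  | mul x y _ _ hx hy => exact Commute.mul_right hx hy
  | inv x _ hx => exact Commute.inv_right hx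

theorem K0_conj {g k : G} (hg : g ∈ BB σ N) (hk : k ∈ K0 σ N) : g * k * g⁻¹ ∈ K0 σ N := by
  refine conj_closure ?_ hk
  rintro x ⟨g', hg', ⟨h2, rfl⟩ | ⟨h4, rfl⟩⟩
  · exact Subgroup.subset_closure ⟨g * g', mul_mem hg hg', Or.inl ⟨h2, by group⟩⟩
  · exact Subgroup.subset_closure ⟨g * g', mul_mem hg hg', Or.inr ⟨h4, by group⟩⟩

theorem K0_le_BB : K0 σ N ≤ BB σ N := by
  refine (Subgroup.closure_le _).2 ?_
  rintro x ⟨g, hg, ⟨h2, rfl⟩ | ⟨h4, rfl⟩⟩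
  · exact mul_mem (mul_mem hg (pow_mem (mul_mem (mem_BB (by omega)) (mem_BB (by omega))) 6))
      (inv_mem hg)
  · exact mul_mem (mul_mem hg (pow_mem (mul_mem (mul_mem (mul_mem (mem_BB (by omega))
      (mem_BB (by omega))) (mem_BB (by omega))) (mem_BB (by omega))) 10)) (inv_mem hg)

theorem LL_le_FF : LL σ N ≤ FF σ N := by
  refine (Subgroup.closure_le _).2 ?_
  rintro x ⟨f, hf, ⟨j, hj, rfl⟩ | ⟨j, k, hj, hjk, hk, rfl⟩⟩
  · exact mul_mem (mul_mem hf (pow_mem (yy_mem_FF hj) 2)) (inv_mem hf)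
  · exact mul_mem (mul_mem hf (mul_mem (pow_mem (mul_mem (mul_mem (yy_mem_FF (by omega))
      (yy_mem_FF (by omega))) (yy_mem_FF hk)) 2) (inv_mem (pow_mem s_mem_FF 8)))) (inv_mem hf)

theorem LL_conj {g l : G} (hg : g ∈ FF σ N) (hl : l ∈ LL σ N) : g * l * g⁻¹ ∈ LL σ N := by
  refine conj_closure ?_ hl
  rintro x ⟨f, hf, ⟨j, hj, rfl⟩ | ⟨j, k, hj, hjk, hk, rfl⟩⟩
  · exact Subgroup.subset_closure ⟨g * f, mul_mem hg hf, Or.inl ⟨j, hj, by group⟩⟩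
  · exact Subgroup.subset_closure ⟨g * f, mul_mem hg hf, Or.inr ⟨j, k, hj, hjk, hk, by group⟩⟩

theorem IsBF.aa_comm (h : IsBF σ N) {i j : ℕ} (hi : i < N) (hij : j < i) :
    σ i * aa σ j = aa σ j * σ i := by
  induction j with
  | zero => simp [aa]
  | succ j ih =>
    exact Commute.mul_right (h.comm j i (by omega) hi).symm (ih (by omega))

theorem IsBF.aa_shift (h : IsBF σ N) {i j : ℕ} (hj : j ≤ N) (hij : i + 1 < j) :
    σ i * aa σ j = aa σ j * σ (i + 1) := by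
  induction j with
  | zero => omega
  | succ j ih =>
    rcases Nat.lt_or_ge (i + 1) j with h1 | h1
    · have e : aa σ (j + 1) = σ j * aa σ j := rfl
      rw [e, ← mul_assoc, h.comm i j (by omega) (by omega), mul_assoc, ih (by omega) h1, mul_assoc]
    · obtain rfl : j = i + 1 := by omega
      have e : aa σ (i + 1 + 1) = σ (i + 1) * (σ i * aa σ i) := rfl
      have hb := h.braid i (by omega)
      have hc := h.aa_comm (i := i + 1) (j := i) (by omega) (by omega)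
      rw [e]
      calc σ i * (σ (i + 1) * (σ i * aa σ i)) = (σ i * σ (i + 1) * σ i) * aa σ i := by group
        _ = σ (i + 1) * σ i * (σ (i + 1) * aa σ i) := by rw [hb]; group
        _ = _ := by rw [hc]; group

theorem IsBF.aa_sq (h : IsBF σ N) {j : ℕ} (hj : j < N) :
    (aa σ j)⁻¹ * σ j ^ 2 * aa σ j ∈ B1 σ N := by
  induction j with
  | zero =>
    have : σ 0 ^ 2 ∈ B1 σ N := Subgroup.subset_closure (Or.inl ⟨hj, rfl⟩)
    simpa [aa] using this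
  | succ j ih =>
    have e : aa σ (j + 1) = σ j * aa σ j := rfl
    have hb := h.braid j hj
    have hc := h.aa_comm (i := j + 1) (j := j) hj (by omega)
    have h1 : (σ j)⁻¹ * σ (j + 1) * σ j = σ (j + 1) * σ j * (σ (j + 1))⁻¹ := by
      calc (σ j)⁻¹ * σ (j + 1) * σ j
          = (σ j)⁻¹ * (σ (j + 1) * σ j * σ (j + 1)) * (σ (j + 1))⁻¹ := by group
        _ = _ := by rw [← hb]; group
    have h2 : (aa σ j)⁻¹ * σ (j + 1) * aa σ j = σ (j + 1) := by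
      rw [mul_assoc, hc]; group
    have key : (aa σ (j + 1))⁻¹ * σ (j + 1) ^ 2 * aa σ (j + 1)
        = σ (j + 1) * ((aa σ j)⁻¹ * σ j ^ 2 * aa σ j) * (σ (j + 1))⁻¹ := by
      calc (aa σ (j + 1))⁻¹ * σ (j + 1) ^ 2 * aa σ (j + 1)
          = (aa σ j)⁻¹ * (((σ j)⁻¹ * σ (j + 1) * σ j) * ((σ j)⁻¹ * σ (j + 1) * σ j)) * aa σ j := by
            rw [e, pow_two]; group
        _ = ((aa σ j)⁻¹ * σ (j + 1) * aa σ j) * ((aa σ j)⁻¹ * σ j ^ 2 * aa σ j)
            * ((aa σ j)⁻¹ * σ (j + 1) * aa σ j)⁻¹ := by rw [h1, pow_two]; group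
        _ = _ := by rw [h2]
    rw [key]
    have hm : σ (j + 1) ∈ B1 σ N := mem_B1 (by omega) hj
    exact mul_mem (mul_mem hm (ih (by omega))) (inv_mem hm)

theorem IsBF.stab_step (h : IsBF σ N) {i j : ℕ} (hi : i < N) (hj : j ≤ N) :
    (∃ j', j' ≤ N ∧ ∃ b ∈ B1 σ N, σ i * aa σ j = aa σ j' * b) ∧
      ∃ j', j' ≤ N ∧ ∃ b ∈ B1 σ N, (σ i)⁻¹ * aa σ j = aa σ j' * b := by
  rcases lt_trichotomy j i with h1 | rfl | h1
  · have hc := h.aa_comm hi h1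
    have hm : σ i ∈ B1 σ N := mem_B1 (by omega) hi
    exact ⟨⟨j, hj, σ i, hm, hc⟩, j, hj, (σ i)⁻¹, inv_mem hm, Commute.inv_left hc⟩
  · have e : aa σ (j + 1) = σ j * aa σ j := rfl
    refine ⟨⟨j + 1, hi, 1, one_mem _, by rw [e, mul_one]⟩, j + 1, hi, _, inv_mem (h.aa_sq hi), ?_⟩
    rw [e, pow_two]; group
  · rcases Nat.lt_or_ge (i + 1) j with h2 | h2
    · have hc := h.aa_shift hj h2
      have hm : σ (i + 1) ∈ B1 σ N := mem_B1 (by omega) (by omega)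
      refine ⟨⟨j, hj, _, hm, hc⟩, j, hj, _, inv_mem hm, ?_⟩
      calc (σ i)⁻¹ * aa σ j = (σ i)⁻¹ * (aa σ j * σ (i + 1)) * (σ (i + 1))⁻¹ := by group
        _ = _ := by rw [← hc]; group
    · obtain rfl : j = i + 1 := by omega
      have e : aa σ (i + 1) = σ i * aa σ i := rfl
      refine ⟨⟨i, hi.le, _, h.aa_sq hi, ?_⟩, i, hi.le, 1, one_mem _, ?_⟩
      · rw [e, pow_two]; group
      · rw [e]; group

/-- Coset decomposition with respect to the stabiliser of the first point. -/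
theorem IsBF.stab (h : IsBF σ N) {β : G} (hβ : β ∈ BB σ N) :
    ∃ j, j ≤ N ∧ ∃ β0 ∈ B1 σ N, β = aa σ j * β0 := by
  induction hβ using Subgroup.closure_induction_left with
  | one => exact ⟨0, Nat.zero_le _, 1, one_mem _, by simp [aa]⟩
  | mul_left x hx y _ ih =>
    obtain ⟨i, hi, rfl⟩ := hx
    obtain ⟨j, hj, b, hb, rfl⟩ := ih
    obtain ⟨j', hj', b', hb', e⟩ := (h.stab_step hi hj).1
    exact ⟨j', hj', b' * b, mul_mem hb' hb, by rw [← mul_assoc, e, mul_assoc]⟩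
  | inv_mul_cancel x hx y _ ih =>
    obtain ⟨i, hi, rfl⟩ := hx
    obtain ⟨j, hj, b, hb, rfl⟩ := ih
    obtain ⟨j', hj', b', hb', e⟩ := (h.stab_step hi hj).2
    exact ⟨j', hj', b' * b, mul_mem hb' hb, by rw [← mul_assoc, e, mul_assoc]⟩

theorem IsBF.s0_y0 (h : IsBF σ N) (hN : 2 ≤ N) : σ 0 * yy σ 0 = yy σ 0 * σ 0 := by
  have := eq_of_test h 2 100000 (g 0 * Y 0) (Y 0 * g 0) hN (by decide +kernel)
  exact this

theorem IsBF.s1_y0 (h : IsBF σ N) (hN : 2 ≤ N) : σ 1 * yy σ 0 = yy σ 0 * σ 1 := by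
  have := eq_of_test h 2 100000 (g 1 * Y 0) (Y 0 * g 1) hN (by decide +kernel)
  exact this

theorem IsBF.s_comm_Ga (h : IsBF σ N) (hN : 2 ≤ N) {g : G} (hg : g ∈ Ga σ N) :
    σ 0 * g = g * σ 0 := by
  refine comm_closure ?_ hg
  rintro x ((rfl | rfl) | ⟨i, hi, rfl⟩)
  · rfl
  · exact h.s0_y0 hN
  · exact h.comm 0 i hi.1 hi.2

theorem IsBF.far_y0 (h : IsBF σ N) {i : ℕ} (h3 : 3 ≤ i) (hi : i < N) :
    σ i * yy σ 0 = yy σ 0 * σ i :=
  Commute.pow_right (Commute.mul_right (h.comm 0 i (by omega) hi).symm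
    (h.comm 1 i (by omega) hi).symm) 3

theorem IsBF.sh_comm_yy (h : IsBF σ N) {i j : ℕ} (hi : i + 2 < N) (hj : j + 2 ≤ N)
    (h1 : i ≠ j) (h2 : i + 1 ≠ j) : σ (i + 2) * yy σ j = yy σ j * σ (i + 2) := by
  rw [yy_eq]
  rcases Nat.lt_or_ge j i with h3 | h3
  · have hc : Commute (σ (i + 2)) (aa (sh σ) j) := h.shift.aa_comm (i := i) (by omega) h3
    exact (hc.mul_right (h.far_y0 (by omega) hi)).mul_right hc.inv_right
  · have hc : σ (i + 2) * aa (sh σ) j = aa (sh σ) j * σ (i + 3) :=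
      h.shift.aa_shift (i := i) (by omega) (by omega)
    have hy := h.far_y0 (i := i + 3) (by omega) (by omega)
    calc σ (i + 2) * (aa (sh σ) j * yy σ 0 * (aa (sh σ) j)⁻¹)
        = (σ (i + 2) * aa (sh σ) j) * yy σ 0 * (aa (sh σ) j)⁻¹ := by group
      _ = aa (sh σ) j * (σ (i + 3) * yy σ 0) * (aa (sh σ) j)⁻¹ := by rw [hc]; group
      _ = aa (sh σ) j * yy σ 0 * (aa (sh σ) j)⁻¹ * (aa (sh σ) j * σ (i + 3)) * (aa (sh σ) j)⁻¹ := by
          rw [hy]; group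
      _ = _ := by rw [← hc]; group

theorem IsBF.conj_yy (h : IsBF σ N) {i j : ℕ} (hi : i + 2 < N) (hj : j + 2 ≤ N)
    (h1 : i ≠ j) (h2 : i + 1 ≠ j) : σ (i + 2) * yy σ j * (σ (i + 2))⁻¹ = yy σ j := by
  rw [h.sh_comm_yy hi hj h1 h2, mul_inv_cancel_right]

theorem IsBF.hurwitz (h : IsBF σ N) {j : ℕ} (hj : j + 2 < N) :
    σ (j + 2) * (yy σ j * yy σ (j + 1)) = yy σ j * yy σ (j + 1) * σ (j + 2) := by
  induction j with
  | zero =>
    have := eq_of_test h 3 100000 (g 2 * (Y 0 * Y 1)) (Y 0 * Y 1 * g 2) hj (by decide +kernel)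
    exact this
  | succ j ih =>
    have ih' := ih (by omega)
    have hb : σ (j + 2) * σ (j + 3) * σ (j + 2) = σ (j + 3) * σ (j + 2) * σ (j + 3) :=
      h.braid (j + 2) hj
    have c1 : σ (j + 3) * yy σ j * (σ (j + 3))⁻¹ = yy σ j :=
      h.conj_yy (i := j + 1) hj (by omega) (by omega) (by omega)
    have c2 : σ (j + 2) * yy σ (j + 2) * (σ (j + 2))⁻¹ = yy σ (j + 2) :=
      h.conj_yy (i := j) (by omega) (by omega) (by omega) (by omega)
    have e1 : yy σ (j + 1) = σ (j + 2) * yy σ j * (σ (j + 2))⁻¹ := rfl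
    have e2 : yy σ (j + 2) = σ (j + 3) * yy σ (j + 1) * (σ (j + 3))⁻¹ := rfl
    have d0 : σ (j + 3) = (σ (j + 2) * σ (j + 3)) * σ (j + 2) * (σ (j + 2) * σ (j + 3))⁻¹ := by
      rw [hb]; group
    have d1 : yy σ (j + 1) = (σ (j + 2) * σ (j + 3)) * yy σ j * (σ (j + 2) * σ (j + 3))⁻¹ := by
      calc yy σ (j + 1) = σ (j + 2) * (σ (j + 3) * yy σ j * (σ (j + 3))⁻¹) * (σ (j + 2))⁻¹ := by
            rw [c1, e1]
        _ = _ := by group
    have d2 : yy σ (j + 2)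
        = (σ (j + 2) * σ (j + 3)) * yy σ (j + 1) * (σ (j + 2) * σ (j + 3))⁻¹ := by
      calc yy σ (j + 2)
          = σ (j + 2) * (σ (j + 3) * yy σ (j + 1) * (σ (j + 3))⁻¹) * (σ (j + 2))⁻¹ := by
            rw [← e2, c2]
        _ = _ := by group
    change σ (j + 3) * (yy σ (j + 1) * yy σ (j + 2)) = yy σ (j + 1) * yy σ (j + 2) * σ (j + 3)
    generalize σ (j + 2) * σ (j + 3) = c at d0 d1 d2
    calc σ (j + 3) * (yy σ (j + 1) * yy σ (j + 2))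
        = (c * σ (j + 2) * c⁻¹) * ((c * yy σ j * c⁻¹) * (c * yy σ (j + 1) * c⁻¹)) := by
          rw [← d0, ← d1, ← d2]
      _ = c * (σ (j + 2) * (yy σ j * yy σ (j + 1))) * c⁻¹ := by group
      _ = (c * yy σ j * c⁻¹) * (c * yy σ (j + 1) * c⁻¹) * (c * σ (j + 2) * c⁻¹) := by
          rw [ih']; group
      _ = _ := by rw [← d0, ← d1, ← d2]

theorem IsBF.conj_gen (h : IsBF σ N) {i j : ℕ} (hi : i + 2 < N) (hj : j + 2 ≤ N) :
    σ (i + 2) * yy σ j * (σ (i + 2))⁻¹ ∈ FF σ N ∧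
      (σ (i + 2))⁻¹ * yy σ j * (σ (i + 2))⁻¹⁻¹ ∈ FF σ N := by
  have e1 : yy σ (i + 1) = σ (i + 2) * yy σ i * (σ (i + 2))⁻¹ := rfl
  have hu := h.hurwitz hi
  have m0 : yy σ i ∈ FF σ N := yy_mem_FF (by omega)
  have m1 : yy σ (i + 1) ∈ FF σ N := yy_mem_FF (by omega)
  by_cases h1 : i = j
  · subst h1
    refine ⟨m1, ?_⟩
    have : (σ (i + 2))⁻¹ * yy σ i * (σ (i + 2))⁻¹⁻¹ = yy σ i * yy σ (i + 1) * (yy σ i)⁻¹ := by
      calc (σ (i + 2))⁻¹ * yy σ i * (σ (i + 2))⁻¹⁻¹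
          = (σ (i + 2))⁻¹ * (yy σ i * (σ (i + 2) * yy σ i * (σ (i + 2))⁻¹) * σ (i + 2))
            * (yy σ i)⁻¹ := by group
        _ = _ := by rw [← e1, ← hu]; group
    rw [this]
    exact mul_mem (mul_mem m0 m1) (inv_mem m0)
  by_cases h2 : i + 1 = j
  · subst h2
    constructor
    · have : σ (i + 2) * yy σ (i + 1) * (σ (i + 2))⁻¹
          = (yy σ (i + 1))⁻¹ * yy σ i * yy σ (i + 1) := by
        calc σ (i + 2) * yy σ (i + 1) * (σ (i + 2))⁻¹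
            = (σ (i + 2) * yy σ i * (σ (i + 2))⁻¹)⁻¹ * (σ (i + 2) * (yy σ i * yy σ (i + 1)))
              * (σ (i + 2))⁻¹ := by group
          _ = _ := by rw [← e1, hu]; group
      rw [this]
      exact mul_mem (mul_mem (inv_mem m1) m0) m1
    · have : (σ (i + 2))⁻¹ * yy σ (i + 1) * (σ (i + 2))⁻¹⁻¹ = yy σ i := by
        rw [e1]; group
      rw [this]; exact m0
  · have hc : Commute (σ (i + 2)) (yy σ j) := h.sh_comm_yy hi hj h1 h2
    rw [hc.eq, hc.inv_left.eq, mul_inv_cancel_right, mul_inv_cancel_right]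
    exact ⟨yy_mem_FF hj, yy_mem_FF hj⟩

theorem IsBF.conj_FF (h : IsBF σ N) (hN : 2 ≤ N) {g f : G} (hg : g ∈ Ga σ N) (hf : f ∈ FF σ N) :
    g * f * g⁻¹ ∈ FF σ N := by
  have hin : ∀ x ∈ FF σ N, ∀ f ∈ FF σ N, x * f * x⁻¹ ∈ FF σ N :=
    fun x hx f hf => mul_mem (mul_mem hx hf) (inv_mem hx)
  have y0 : yy σ 0 ∈ FF σ N := yy_mem_FF (by omega)
  induction hg using Subgroup.closure_induction'' generalizing f with
  | mem x hx =>
    rcases hx with (rfl | rfl) | ⟨i, hi, rfl⟩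
    · exact hin _ s_mem_FF f hf
    · exact hin _ y0 f hf
    · obtain ⟨i, rfl⟩ : ∃ k, i = k + 2 := ⟨i - 2, by have := hi.1; omega⟩
      refine conj_closure ?_ hf
      rintro s (rfl | ⟨j, hj, rfl⟩)
      · rw [← h.comm 0 _ hi.1 hi.2, mul_inv_cancel_right]; exact s_mem_FF
      · exact (h.conj_gen hi.2 hj).1
  | inv_mem x hx =>
    rcases hx with (rfl | rfl) | ⟨i, hi, rfl⟩
    · exact hin _ (inv_mem s_mem_FF) f hf
    · exact hin _ (inv_mem y0) f hf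
    · obtain ⟨i, rfl⟩ : ∃ k, i = k + 2 := ⟨i - 2, by have := hi.1; omega⟩
      refine conj_closure ?_ hf
      rintro s (rfl | ⟨j, hj, rfl⟩)
      · have hc : Commute (σ 0) (σ (i + 2)) := h.comm 0 _ hi.1 hi.2
        rw [← hc.inv_right.eq, mul_inv_cancel_right]; exact s_mem_FF
      · exact (h.conj_gen hi.2 hj).2
  | one => simpa using hf
  | mul x y _ _ hx hy =>
    have : x * y * f * (x * y)⁻¹ = x * (y * f * y⁻¹) * x⁻¹ := by group
    rw [this]; exact hx (hy hf)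

theorem IsBF.Ga_decomp (h : IsBF σ N) (hN : 2 ≤ N) {g : G} (hg : g ∈ Ga σ N) :
    ∃ f ∈ FF σ N, ∃ β ∈ BB (sh σ) (N - 2), g = f * β := by
  induction hg using Subgroup.closure_induction with
  | mem x hx =>
    rcases hx with (rfl | rfl) | ⟨i, hi, rfl⟩
    · exact ⟨_, s_mem_FF, 1, one_mem _, (mul_one _).symm⟩
    · exact ⟨_, yy_mem_FF (by omega), 1, one_mem _, (mul_one _).symm⟩
    · obtain ⟨i, rfl⟩ : ∃ k, i = k + 2 := ⟨i - 2, by have := hi.1; omega⟩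
      exact ⟨1, one_mem _, sh σ i, mem_BB (by have := hi.2; omega), (one_mul _).symm⟩
  | one => exact ⟨1, one_mem _, 1, one_mem _, (one_mul _).symm⟩
  | mul x y _ _ hx hy =>
    obtain ⟨f, hf, b, hb, rfl⟩ := hx
    obtain ⟨f', hf', b', hb', rfl⟩ := hy
    exact ⟨f * (b * f' * b⁻¹), mul_mem hf (h.conj_FF hN (BB_sh_le_Ga hb) hf'), b * b',
      mul_mem hb hb', by group⟩
  | inv x _ hx =>
    obtain ⟨f, hf, b, hb, rfl⟩ := hx
    exact ⟨b⁻¹ * f⁻¹ * b⁻¹⁻¹, h.conj_FF hN (BB_sh_le_Ga (inv_mem hb)) (inv_mem hf), b⁻¹,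
      inv_mem hb, by group⟩

theorem IsBF.CC_le_Ga (h : IsBF σ N) (hN : 2 ≤ N) : CC σ N ≤ Ga σ N := by
  refine (Subgroup.closure_le _).2 ?_
  rintro x ((rfl | ⟨h2, rfl⟩) | ⟨i, hi, rfl⟩)
  · exact y0_mem_Ga
  · rw [h.D4_eq h2]
    exact mul_mem (mul_mem (mul_mem (inv_mem (pow_mem s_mem_Ga 2)) (yy_mem_Ga (by omega)))
      (yy_mem_Ga (by omega))) (pow_mem (mem_Ga le_rfl h2) 2)
  · exact mem_Ga (by have := hi.1; omega) hi.2

theorem IsBF.CC_comm (h : IsBF σ N) (hN : 2 ≤ N) {c : G} (hc : c ∈ CC σ N) :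
    c * σ 0 = σ 0 * c ∧ c * σ 1 = σ 1 * c := by
  constructor
  · refine (comm_closure ?_ hc).symm
    rintro x ((rfl | ⟨h2, rfl⟩) | ⟨i, hi, rfl⟩)
    · exact h.s0_y0 hN
    · have := eq_of_test h 3 100000 (g 0 * (g 0 * g 1 * g 2) ^ 4) ((g 0 * g 1 * g 2) ^ 4 * g 0) h2
        (by decide +kernel)
      exact this
    · exact h.comm 0 i (by have := hi.1; omega) hi.2
  · refine (comm_closure ?_ hc).symm
    rintro x ((rfl | ⟨h2, rfl⟩) | ⟨i, hi, rfl⟩)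
    · exact h.s1_y0 hN
    · have := eq_of_test h 3 100000 (g 1 * (g 0 * g 1 * g 2) ^ 4) ((g 0 * g 1 * g 2) ^ 4 * g 1) h2
        (by decide +kernel)
      exact this
    · exact h.comm 1 i hi.1 hi.2

theorem IsBF.B1_to_CC (h : IsBF σ N) (hN : 2 ≤ N) {β : G} (hβ : β ∈ B1 (sh σ) (N - 2)) :
    ∃ c ∈ CC σ N, β * c⁻¹ ∈ FF σ N := by
  induction hβ using Subgroup.closure_induction with
  | mem x hx =>
    rcases hx with ⟨h0, rfl⟩ | ⟨i, hi, rfl⟩
    · have h2 : 2 < N := by omega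
      refine ⟨(σ 0 * σ 1 * σ 2) ^ 4, Subgroup.subset_closure (Or.inl (Or.inr ⟨h2, rfl⟩)), ?_⟩
      have e : sh σ 0 ^ 2 * ((σ 0 ^ 2)⁻¹ * yy σ 0 * yy σ 1 * σ 2 ^ 2)⁻¹
          = ((σ 0 ^ 2)⁻¹ * yy σ 0 * yy σ 1)⁻¹ := by
        change σ 2 ^ 2 * _ = _
        group
      rw [h.D4_eq h2, e]
      exact inv_mem (mul_mem (mul_mem (inv_mem (pow_mem s_mem_FF 2)) (yy_mem_FF (by omega)))
        (yy_mem_FF (by omega)))
    · refine ⟨σ (i + 2), Subgroup.subset_closure (Or.inr ⟨i + 2,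
        ⟨by have := hi.1; omega, by have := hi.2; omega⟩, rfl⟩), ?_⟩
      change σ (i + 2) * _ ∈ _
      rw [mul_inv_cancel]; exact one_mem _
  | one => exact ⟨1, one_mem _, by simpa using one_mem (FF σ N)⟩
  | mul x y _ _ hx hy =>
    obtain ⟨c, hc, hx⟩ := hx
    obtain ⟨c', hc', hy⟩ := hy
    refine ⟨c * c', mul_mem hc hc', ?_⟩
    have : x * y * (c * c')⁻¹ = x * c⁻¹ * (c * (y * c'⁻¹) * c⁻¹) := by group
    rw [this]
    exact mul_mem hx (h.conj_FF hN (h.CC_le_Ga hN hc) hy)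
  | inv x _ hx =>
    obtain ⟨c, hc, hx⟩ := hx
    refine ⟨c⁻¹, inv_mem hc, ?_⟩
    have : x⁻¹ * c⁻¹⁻¹ = c⁻¹ * (x * c⁻¹)⁻¹ * c⁻¹⁻¹ := by group
    rw [this]
    exact h.conj_FF hN (h.CC_le_Ga hN (inv_mem hc)) (inv_mem hx)

theorem cc_of_conj {s : G} {i j k i' j' k' : ℕ} (h0 : s * σ 0 * s⁻¹ = σ 0)
    (hi : s * yy σ i * s⁻¹ = yy σ i') (hj : s * yy σ j * s⁻¹ = yy σ j')
    (hk : s * yy σ k * s⁻¹ = yy σ k') : cc σ i' j' k' = s * cc σ i j k * s⁻¹ := by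
  have e8 : σ 0 ^ 8 = s * σ 0 ^ 8 * s⁻¹ := by rw [← conj_pow, h0]
  unfold cc
  rw [← hi, ← hj, ← hk, pow_two, pow_two]
  nth_rewrite 1 [e8]
  group

theorem IsBF.conj_s0 (h : IsBF σ N) {i : ℕ} (hi : i + 2 < N) :
    σ (i + 2) * σ 0 * (σ (i + 2))⁻¹ = σ 0 := by
  rw [← h.comm 0 (i + 2) (by omega) hi, mul_inv_cancel_right]

theorem IsBF.cc_conj (h : IsBF σ N) {i j k : ℕ} (hij : i < j) (hjk : j < k) (hk : k + 2 ≤ N) :
    ∃ β ∈ BB (sh σ) (N - 2), cc σ i j k = β * cc σ 0 1 2 * β⁻¹ := by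
  have step : ∀ (m : ℕ) (x y : G), m + 2 < N → y = σ (m + 2) * x * (σ (m + 2))⁻¹ →
      (∃ β ∈ BB (sh σ) (N - 2), x = β * cc σ 0 1 2 * β⁻¹) →
      ∃ β ∈ BB (sh σ) (N - 2), y = β * cc σ 0 1 2 * β⁻¹ := by
    rintro m x y hm rfl ⟨b, hb, rfl⟩
    refine ⟨sh σ m * b, mul_mem (mem_BB (by omega)) hb, ?_⟩
    change _ = σ (m + 2) * b * _ * (σ (m + 2) * b)⁻¹
    group
  have a1 : ∀ k, 2 ≤ k → k + 2 ≤ N →
      ∃ β ∈ BB (sh σ) (N - 2), cc σ 0 1 k = β * cc σ 0 1 2 * β⁻¹ := by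
    intro k h2
    induction k, h2 using Nat.le_induction with
    | base => intro _; exact ⟨1, one_mem _, by simp⟩
    | succ k h2 ih =>
      intro hk
      exact step k _ _ (by omega) (cc_of_conj (h.conj_s0 (by omega))
        (h.conj_yy (by omega) (by omega) (by omega) (by omega))
        (h.conj_yy (by omega) (by omega) (by omega) (by omega)) rfl) (ih (by omega))
  have a2 : ∀ j, 1 ≤ j → j < k →
      ∃ β ∈ BB (sh σ) (N - 2), cc σ 0 j k = β * cc σ 0 1 2 * β⁻¹ := by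
    intro j h1
    induction j, h1 using Nat.le_induction with
    | base => intro h1; exact a1 k h1 hk
    | succ j h1 ih =>
      intro hj
      exact step j _ _ (by omega) (cc_of_conj (h.conj_s0 (by omega))
        (h.conj_yy (by omega) (by omega) (by omega) (by omega)) rfl
        (h.conj_yy (by omega) (by omega) (by omega) (by omega))) (ih (by omega))
  induction i with
  | zero => exact a2 j hij hjk
  | succ i ih =>
    exact step i _ _ (by omega) (cc_of_conj (h.conj_s0 (by omega)) rfl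
      (h.conj_yy (by omega) (by omega) (by omega) (by omega))
      (h.conj_yy (by omega) (by omega) (by omega) (by omega))) (ih (by omega))

theorem IsBF.T3_sh (h : IsBF σ N) (hN : 4 ≤ N) : T3 (sh σ) = (nn σ)⁻¹ * T3 σ * nn σ := by
  have := eq_of_test h 4 100000 ((g 2 * g 3) ^ 6) (NN⁻¹ * (g 0 * g 1) ^ 6 * NN) hN
    (by decide +kernel)
  exact this

theorem IsBF.T3_comm (h : IsBF σ N) (hN : 2 ≤ N) {b : G} (hb : b ∈ BB σ 2) :
    b * T3 σ = T3 σ * b := by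
  have e : T3 σ = yy σ 0 ^ 2 := by
    change (σ 0 * σ 1) ^ 6 = ((σ 0 * σ 1) ^ 3) ^ 2
    rw [← pow_mul]
  refine (comm_closure ?_ hb).symm
  rintro x ⟨i, hi, rfl⟩
  have hi' : i < 2 := hi
  rw [e]
  interval_cases i
  · exact (Commute.pow_right (h.s0_y0 hN) 2).symm
  · exact (Commute.pow_right (h.s1_y0 hN) 2).symm

theorem IsBF.T5_comm (h : IsBF σ N) (hN : 4 ≤ N) {b : G} (hb : b ∈ BB σ 4) :
    b * T5 σ = T5 σ * b := by
  have e : T5 σ = ((σ 0 * σ 1 * σ 2 * σ 3) ^ 5) ^ 2 := by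
    rw [← pow_mul]; rfl
  refine (comm_closure ?_ hb).symm
  rintro x ⟨i, hi, rfl⟩
  have hi' : i < 4 := hi
  rw [e]
  refine (Commute.pow_right ?_ 2).symm
  interval_cases i
  · have := eq_of_test h 4 100000 (g 0 * (g 0 * g 1 * g 2 * g 3) ^ 5)
      ((g 0 * g 1 * g 2 * g 3) ^ 5 * g 0) hN (by decide +kernel)
    exact this
  · have := eq_of_test h 4 100000 (g 1 * (g 0 * g 1 * g 2 * g 3) ^ 5)
      ((g 0 * g 1 * g 2 * g 3) ^ 5 * g 1) hN (by decide +kernel)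
    exact this
  · have := eq_of_test h 4 100000 (g 2 * (g 0 * g 1 * g 2 * g 3) ^ 5)
      ((g 0 * g 1 * g 2 * g 3) ^ 5 * g 2) hN (by decide +kernel)
    exact this
  · have := eq_of_test h 4 100000 (g 3 * (g 0 * g 1 * g 2 * g 3) ^ 5)
      ((g 0 * g 1 * g 2 * g 3) ^ 5 * g 3) hN (by decide +kernel)
    exact this

theorem nn_mem (hN : 4 ≤ N) : nn σ ∈ BB σ N :=
  mul_mem (mul_mem (mul_mem (mul_mem (mul_mem (mem_BB (by omega)) (mem_BB (by omega)))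
    (mem_BB (by omega))) (mem_BB (by omega))) (mem_BB (by omega))) (mem_BB (by omega))

theorem T3_mem (hN : 2 ≤ N) : T3 σ ∈ K0 σ N :=
  Subgroup.subset_closure ⟨1, one_mem _, Or.inl ⟨hN, by simp⟩⟩

theorem T5_mem (hN : 4 ≤ N) : T5 σ ∈ K0 σ N :=
  Subgroup.subset_closure ⟨1, one_mem _, Or.inr ⟨hN, by simp⟩⟩

theorem IsBF.T3_sh_mem (h : IsBF σ N) (hN : 4 ≤ N) : T3 (sh σ) ∈ K0 σ N := by
  have := K0_conj (inv_mem (nn_mem hN)) (T3_mem (σ := σ) (N := N) (by omega))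
  rwa [inv_inv, ← h.T3_sh hN] at this

theorem IsBF.T5_sh_mem (h : IsBF σ N) (hN : 6 ≤ N) : T5 (sh σ) ∈ K0 σ N := by
  have hD : (σ 0 * σ 1 * σ 2 * σ 3 * σ 4 * σ 5) ^ 2 ∈ BB σ N :=
    pow_mem (mul_mem (mul_mem (mul_mem (mul_mem (mul_mem (mem_BB (by omega)) (mem_BB (by omega)))
      (mem_BB (by omega))) (mem_BB (by omega))) (mem_BB (by omega))) (mem_BB (by omega))) 2
  have e : σ 2 * σ 3 * σ 4 * σ 5 = (σ 0 * σ 1 * σ 2 * σ 3 * σ 4 * σ 5) ^ 2 *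
      (σ 0 * σ 1 * σ 2 * σ 3) * ((σ 0 * σ 1 * σ 2 * σ 3 * σ 4 * σ 5) ^ 2)⁻¹ := by
    have := eq_of_test h 6 100000 (g 2 * g 3 * g 4 * g 5)
      ((g 0 * g 1 * g 2 * g 3 * g 4 * g 5) ^ 2 * (g 0 * g 1 * g 2 * g 3) *
        ((g 0 * g 1 * g 2 * g 3 * g 4 * g 5) ^ 2)⁻¹) hN (by decide +kernel)
    exact this
  have := K0_conj hD (T5_mem (σ := σ) (N := N) (by omega))
  change (σ 2 * σ 3 * σ 4 * σ 5) ^ 10 ∈ _
  rw [e, conj_pow]
  exact this

theorem IsBF.K0_sh_le (h : IsBF σ N) : K0 (sh σ) (N - 2) ≤ K0 σ N := by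
  refine (Subgroup.closure_le _).2 ?_
  rintro x ⟨g, hg, ⟨h2, rfl⟩ | ⟨h4, rfl⟩⟩
  · exact K0_conj (BB_sh_le hg) (h.T3_sh_mem (by omega))
  · exact K0_conj (BB_sh_le hg) (h.T5_sh_mem (by omega))

theorem IsBF.LL_le_K0 (h : IsBF σ N) : LL σ N ≤ K0 σ N := by
  refine (Subgroup.closure_le _).2 ?_
  rintro x ⟨f, hf, ⟨j, hj, rfl⟩ | ⟨j, k, hj, hjk, hk, rfl⟩⟩
  · refine K0_conj (Ga_le_BB (by omega) (FF_le_Ga hf)) ?_
    have e : yy σ 0 ^ 2 = T3 σ := by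
      change ((σ 0 * σ 1) ^ 3) ^ 2 = (σ 0 * σ 1) ^ 6
      rw [← pow_mul]
    rw [yy_eq, conj_pow, e]
    exact K0_conj (BB_sh_le (aa_mem (by omega))) (T3_mem (by omega))
  · refine K0_conj (Ga_le_BB (by omega) (FF_le_Ga hf)) ?_
    obtain ⟨b, hb, e⟩ := h.cc_conj hj hjk hk
    rw [e, h.cc012 (by omega)]
    exact K0_conj (BB_sh_le hb) (mul_mem (T5_mem (by omega)) (inv_mem (h.T3_sh_mem (by omega))))

/-- ordered product of powers -/
def tq {Q : Type*} [Group Q] (t : ℕ → Q) (a : ℕ → ℤ) : ℕ → Q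
  | 0 => 1
  | n + 1 => tq t a n * t n ^ a n

section
variable {Q : Type*} [Group Q] {t : ℕ → Q}

theorem tq_comm (ht : ∀ j k, Commute (t j) (t k)) (a : ℕ → ℤ) (n m : ℕ) :
    Commute (t m) (tq t a n) := by
  induction n with
  | zero => exact Commute.one_right _
  | succ n ih => exact ih.mul_right ((ht m n).zpow_right _)

theorem tq_add (ht : ∀ j k, Commute (t j) (t k)) (a b : ℕ → ℤ) (n : ℕ) :
    tq t (a + b) n = tq t a n * tq t b n := by
  induction n with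
  | zero => simp [tq]
  | succ n ih =>
    have hc : t n ^ a n * tq t b n = tq t b n * t n ^ a n := ((tq_comm ht b n n).zpow_left _).eq
    rw [tq, tq, tq, ih, Pi.add_apply, zpow_add]
    calc tq t a n * tq t b n * (t n ^ a n * t n ^ b n)
        = tq t a n * (tq t b n * t n ^ a n) * t n ^ b n := by simp only [mul_assoc]
      _ = _ := by rw [← hc]; simp only [mul_assoc]

theorem tq_neg {y : Q} (hy : ∀ j, y * t j * y⁻¹ = (t j)⁻¹) (a : ℕ → ℤ) (n : ℕ) :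
    y * tq t a n = tq t (-a) n * y := by
  induction n with
  | zero => simp [tq]
  | succ n ih =>
    have e : y * t n ^ a n * y⁻¹ = t n ^ (-a n) := by
      rw [← conj_zpow, hy, inv_zpow']
    rw [tq, tq, ← mul_assoc, ih, Pi.neg_apply, ← e]
    group

theorem tq_zero (n : ℕ) : tq t 0 n = 1 := by
  induction n with
  | zero => rfl
  | succ n ih => rw [tq, ih]; simp

theorem tq_single (m n : ℕ) : tq t (Pi.single m 1) n = if m < n then t m else 1 := by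
  induction n with
  | zero => simp [tq]
  | succ n ih =>
    rw [tq, ih]
    rcases lt_trichotomy m n with h | rfl | h
    · rw [if_pos h, if_pos (by omega), Pi.single_eq_of_ne (by omega)]; simp
    · simp
    · rw [if_neg (by omega), if_neg (by omega), Pi.single_eq_of_ne (by omega)]; simp

theorem tq_mul (ht : ∀ j k, Commute (t j) (t k)) {y : Q} (hy : ∀ j, y * t j * y⁻¹ = (t j)⁻¹)
    (hyy : y * y = 1) {n : ℕ} {x x' : Q} (hx : ∃ a, x = tq t a n ∨ x = tq t a n * y)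
    (hx' : ∃ a, x' = tq t a n ∨ x' = tq t a n * y) :
    ∃ a, x * x' = tq t a n ∨ x * x' = tq t a n * y := by
  obtain ⟨a, rfl | rfl⟩ := hx <;> obtain ⟨b, rfl | rfl⟩ := hx'
  · exact ⟨a + b, Or.inl (tq_add ht a b n).symm⟩
  · exact ⟨a + b, Or.inr (by rw [tq_add ht, mul_assoc])⟩
  · exact ⟨a + -b, Or.inr (by rw [tq_add ht, mul_assoc, tq_neg hy, mul_assoc])⟩
  · refine ⟨a + -b, Or.inl ?_⟩
    rw [tq_add ht, mul_assoc, ← mul_assoc y, tq_neg hy, mul_assoc, hyy, mul_one]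

end

theorem tp_mem (a : ℕ → ℤ) {n : ℕ} (hn : n + 2 ≤ N) : tp σ a n ∈ FF σ N := by
  induction n with
  | zero => exact one_mem _
  | succ n ih =>
    exact mul_mem (ih (by omega)) (zpow_mem (mul_mem (yy_mem_FF hn) (yy_mem_FF (by omega))) _)

/-- the subgroup of the `l * σ 0 ^ k` inside `FF` -/
def ZZ (h : IsBF σ N) (hN : 2 ≤ N) : Subgroup (FF σ N) where
  carrier := {f | ∃ k : ℤ, ∃ l ∈ LL σ N, (f : G) = l * σ 0 ^ k}
  one_mem' := ⟨0, 1, one_mem _, by simp⟩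
  mul_mem' := by
    rintro x y ⟨k, l, hl, e⟩ ⟨k', l', hl', e'⟩
    refine ⟨k + k', l * l', mul_mem hl hl', ?_⟩
    have hc : Commute (σ 0) l' := h.s_comm_Ga hN (FF_le_Ga (LL_le_FF hl'))
    rw [Subgroup.coe_mul, e, e', zpow_add, mul_assoc, ← mul_assoc _ l', (hc.zpow_left k).eq]
    simp only [mul_assoc]
  inv_mem' := by
    rintro x ⟨k, l, hl, e⟩
    refine ⟨-k, l⁻¹, inv_mem hl, ?_⟩
    have hc : Commute (σ 0) l⁻¹ := h.s_comm_Ga hN (FF_le_Ga (LL_le_FF (inv_mem hl)))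
    rw [Subgroup.coe_inv, e, mul_inv_rev, ← zpow_neg, (hc.zpow_left (-k)).eq]

theorem ZZ_normal (h : IsBF σ N) (hN : 2 ≤ N) : (ZZ h hN).Normal := by
  refine ⟨?_⟩
  rintro x ⟨k, l, hl, e⟩ g
  refine ⟨k, g * l * (g : G)⁻¹, LL_conj g.2 hl, ?_⟩
  have hc : Commute (σ 0) (g : G)⁻¹ := h.s_comm_Ga hN (FF_le_Ga (inv_mem g.2))
  rw [Subgroup.coe_mul, Subgroup.coe_mul, Subgroup.coe_inv, e, mul_assoc, mul_assoc,
    (hc.zpow_left k).eq]
  simp only [mul_assoc]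

/-- Normal form in `FF` modulo `LL`. -/
theorem IsBF.NF (h : IsBF σ N) (hN : 2 ≤ N) {f : G} (hf : f ∈ FF σ N) :
    ∃ (a : ℕ → ℤ) (k : ℤ), ∃ l ∈ LL σ N,
      f = l * σ 0 ^ k * tp σ a (N - 2) ∨ f = l * σ 0 ^ k * tp σ a (N - 2) * yy σ 0 := by
  haveI := ZZ_normal h hN
  let φ : FF σ N →* FF σ N ⧸ ZZ h hN := QuotientGroup.mk' _
  have hφ : ∀ x : FF σ N, φ x = 1 ↔ x ∈ ZZ h hN := fun x => QuotientGroup.eq_one_iff x
  let yF : ℕ → FF σ N := fun j =>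
    if hj : j + 2 ≤ N then ⟨yy σ j, yy_mem_FF hj⟩ else ⟨yy σ 0, yy_mem_FF (by omega)⟩
  have hyF : ∀ j (hj : j + 2 ≤ N), yF j = ⟨yy σ j, yy_mem_FF hj⟩ := fun j hj => dif_pos hj
  have hyF' : ∀ j, ¬ j + 2 ≤ N → yF j = yF 0 := fun j hj => by
    rw [hyF 0 (by omega)]; exact dif_neg hj
  have sq0 : ∀ j, j + 2 ≤ N → φ (yF j) * φ (yF j) = 1 := by
    intro j hj
    rw [← map_mul, hφ, hyF j hj]
    exact ⟨0, yy σ j ^ 2, Subgroup.subset_closure ⟨1, one_mem _, Or.inl ⟨j, hj, by simp⟩⟩,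
      by simp [pow_two]⟩
  have sq : ∀ j, φ (yF j) * φ (yF j) = 1 := by
    intro j
    by_cases hj : j + 2 ≤ N
    · exact sq0 j hj
    · rw [hyF' j hj]; exact sq0 0 (by omega)
  have iv : ∀ j, (φ (yF j))⁻¹ = φ (yF j) := fun j => inv_eq_of_mul_eq_one_right (sq j)
  have tri : ∀ j k, 0 < j → j < k → k + 2 ≤ N →
      Commute (φ (yF j) * φ (yF 0)) (φ (yF k) * φ (yF 0)) := by
    intro j k hj hjk hk
    have h1 : φ (yF 0 * yF j * yF k * (yF 0 * yF j * yF k)) = 1 := by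
      rw [hφ, hyF 0 (by omega), hyF j (by omega), hyF k hk]
      refine ⟨8, cc σ 0 j k, Subgroup.subset_closure
        ⟨1, one_mem _, Or.inr ⟨j, k, hj, hjk, hk, by simp⟩⟩, ?_⟩
      change yy σ 0 * yy σ j * yy σ k * (yy σ 0 * yy σ j * yy σ k) = _
      unfold cc
      rw [pow_two]
      group
    simp only [map_mul] at h1
    have i0 := iv 0
    have ij := iv j
    have ik := iv k
    generalize φ (yF 0) = p at *
    generalize φ (yF j) = q at *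
    generalize φ (yF k) = r at *
    have h2 : r * p * q = (r * p * q)⁻¹ := by
      refine eq_inv_of_mul_eq_one_left ?_
      calc r * p * q * (r * p * q) = r * (p * q * r * (p * q * r)) * r⁻¹ := by group
        _ = 1 := by rw [h1]; group
    rw [mul_inv_rev, mul_inv_rev, i0, ij, ik] at h2
    change q * p * (r * p) = r * p * (q * p)
    calc q * p * (r * p) = q * (p * r) * p := by group
      _ = _ := by rw [← h2]; group
  have tri' : ∀ j k, j < k →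
      Commute (φ (yF (j + 1)) * φ (yF 0)) (φ (yF (k + 1)) * φ (yF 0)) := by
    intro j k hjk
    by_cases hk : k + 1 + 2 ≤ N
    · exact tri _ _ (by omega) (by omega) hk
    · rw [hyF' _ hk, sq 0]; exact Commute.one_right _
  let t : ℕ → FF σ N ⧸ ZZ h hN := fun j => φ (yF (j + 1)) * φ (yF 0)
  have ht : ∀ j k, Commute (t j) (t k) := by
    intro j k
    rcases lt_trichotomy j k with h1 | rfl | h1
    · exact tri' j k h1
    · exact Commute.refl _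
    · exact (tri' k j h1).symm
  have hy : ∀ j, φ (yF 0) * t j * (φ (yF 0))⁻¹ = (t j)⁻¹ := by
    intro j
    change φ (yF 0) * (φ (yF (j + 1)) * φ (yF 0)) * (φ (yF 0))⁻¹ = (φ (yF (j + 1)) * φ (yF 0))⁻¹
    rw [mul_inv_rev (φ (yF (j + 1))), iv (j + 1), ← mul_assoc, mul_inv_cancel_right, iv 0]
  have gen : ∀ j, j + 2 ≤ N →
      ∃ a, φ (yF j) = tq t a (N - 2) ∨ φ (yF j) = tq t a (N - 2) * φ (yF 0) := by
    intro j hj
    rcases j with _ | j
    · exact ⟨0, Or.inr (by rw [tq_zero, one_mul])⟩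
    · refine ⟨Pi.single j 1, Or.inr ?_⟩
      rw [tq_single, if_pos (by omega)]
      change _ = φ (yF (j + 1)) * φ (yF 0) * φ (yF 0)
      rw [mul_assoc, sq 0, mul_one]
  have s0 : φ ⟨σ 0, s_mem_FF⟩ = 1 := (hφ _).2 ⟨1, 1, one_mem _, by simp⟩
  have main : ∃ a, φ ⟨f, hf⟩ = tq t a (N - 2) ∨ φ ⟨f, hf⟩ = tq t a (N - 2) * φ (yF 0) := by
    induction hf using Subgroup.closure_induction'' with
    | mem x hx =>
      rcases hx with rfl | ⟨j, hj, rfl⟩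
      · exact ⟨0, Or.inl (by rw [tq_zero]; exact s0)⟩
      · have := gen j hj
        rwa [hyF j hj] at this
    | inv_mem x hx =>
      rcases hx with rfl | ⟨j, hj, rfl⟩
      · refine ⟨0, Or.inl ?_⟩
        rw [tq_zero, ← inv_one, ← s0, ← map_inv]; rfl
      · have := gen j hj
        rw [← iv j, ← map_inv, hyF j hj] at this
        exact this
    | one => exact ⟨0, Or.inl (by rw [tq_zero]; exact map_one φ)⟩
    | mul x y hx hy' ihx ihy =>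
      have := tq_mul ht hy (sq 0) ihx ihy
      rw [← map_mul] at this
      exact this
  have htp : ∀ a n (hn : n + 2 ≤ N), φ ⟨tp σ a n, tp_mem a hn⟩ = tq t a n := by
    intro a n
    induction n with
    | zero => intro _; exact map_one φ
    | succ n ih =>
      intro hn
      rw [tq, ← ih (by omega)]
      change _ = _ * (φ (yF (n + 1)) * φ (yF 0)) ^ a n
      rw [← map_mul, ← map_zpow, ← map_mul, hyF _ hn, hyF 0 (by omega)]
      rfl
  have fin : ∀ x y : FF σ N, φ x = φ y → ∃ k : ℤ, ∃ l ∈ LL σ N, (x : G) = l * σ 0 ^ k * y := by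
    intro x y hxy
    have : φ (x * y⁻¹) = 1 := by rw [map_mul, map_inv, hxy, mul_inv_cancel]
    obtain ⟨k, l, hl, e⟩ := (hφ _).1 this
    refine ⟨k, l, hl, ?_⟩
    rw [← e]; simp
  obtain ⟨a, e | e⟩ := main
  · rw [← htp a _ (by omega)] at e
    obtain ⟨k, l, hl, e'⟩ := fin _ _ e
    exact ⟨a, k, l, hl, Or.inl e'⟩
  · rw [← htp a _ (by omega), ← map_mul, hyF 0 (by omega)] at e
    obtain ⟨k, l, hl, e'⟩ := fin _ _ e
    exact ⟨a, k, l, hl, Or.inr (by rw [mul_assoc]; exact e')⟩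

theorem IsBF.nn_conj (h : IsBF σ N) (hN : 4 ≤ N) :
    nn σ * σ 0 * (nn σ)⁻¹ = σ 3 ∧ nn σ * σ 2 * (nn σ)⁻¹ = σ 0 ∧ nn σ * σ 3 * (nn σ)⁻¹ = σ 1 := by
  refine ⟨?_, ?_, ?_⟩
  · have := eq_of_test h 4 100000 (NN * g 0 * NN⁻¹) (g 3) hN (by decide +kernel)
    exact this
  · have := eq_of_test h 4 100000 (NN * g 2 * NN⁻¹) (g 0) hN (by decide +kernel)
    exact this
  · have := eq_of_test h 4 100000 (NN * g 3 * NN⁻¹) (g 1) hN (by decide +kernel)
    exact this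

theorem IsBF.nn_far (h : IsBF σ N) {i : ℕ} (h4 : 4 ≤ i) (hi : i < N) :
    nn σ * σ i * (nn σ)⁻¹ ∈ Ga σ N := by
  rcases h4.eq_or_lt with rfl | h5
  · have e : nn σ * σ 4 * (nn σ)⁻¹ = (σ 4)⁻¹ * (σ 3)⁻¹ * σ 2 * σ 3 * σ 4 := by
      have := eq_of_test h 5 100000 (NN * g 4 * NN⁻¹) ((g 4)⁻¹ * (g 3)⁻¹ * g 2 * g 3 * g 4) hi
        (by decide +kernel)
      exact this
    have m2 : σ 2 ∈ Ga σ N := mem_Ga (by omega) (by omega)
    have m3 : σ 3 ∈ Ga σ N := mem_Ga (by omega) (by omega)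
    have m4 : σ 4 ∈ Ga σ N := mem_Ga (by omega) (by omega)
    rw [e]
    exact mul_mem (mul_mem (mul_mem (mul_mem (inv_mem m4) (inv_mem m3)) m2) m3) m4
  · have c : ∀ j, j ≤ 3 → Commute (σ j) (σ i) := fun j hj => h.comm j i (by omega) hi
    have hc : Commute (nn σ) (σ i) :=
      (((((c 2 (by omega)).mul_left (c 3 (by omega))).mul_left (c 1 (by omega))).mul_left
        (c 2 (by omega))).mul_left (c 0 (by omega))).mul_left (c 1 (by omega))
    rw [hc.eq, mul_inv_cancel_right]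
    exact mem_Ga (by omega) hi

theorem IsBF.nn_Ga_sh (h : IsBF σ N) (hN : 4 ≤ N) (hN' : Even N) {g : G}
    (hg : g ∈ Ga (sh σ) (N - 2)) : nn σ * g * (nn σ)⁻¹ ∈ Ga σ N := by
  have _ := hN'
  obtain ⟨-, e2, e3⟩ := h.nn_conj hN
  refine conj_closure ?_ hg
  rintro x ((rfl | rfl) | ⟨i, hi, rfl⟩)
  · change nn σ * σ 2 * _ ∈ _
    rw [e2]; exact s_mem_Ga
  · change nn σ * (σ 2 * σ 3) ^ 3 * _ ∈ _
    have : nn σ * (σ 2 * σ 3) * (nn σ)⁻¹ = σ 0 * σ 1 := by rw [← e2, ← e3]; group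
    rw [← conj_pow, this]
    exact y0_mem_Ga
  · exact h.nn_far (i := i + 2) (by have := hi.1; omega) (by have := hi.2; omega)

theorem IsBF.nn_y01 (h : IsBF σ N) (hN : 4 ≤ N) :
    nn σ * (yy σ 0 * yy σ 1) * (nn σ)⁻¹ ∈ Ga σ N := by
  have e : nn σ * (yy σ 0 * yy σ 1) * (nn σ)⁻¹ = yy σ 1 * yy σ 2 * (σ 0 ^ 4)⁻¹ * σ 3 ^ 4 := by
    have := eq_of_test h 4 100000 (NN * (Y 0 * Y 1) * NN⁻¹) (Y 1 * Y 2 * (g 0 ^ 4)⁻¹ * g 3 ^ 4) hN
      (by decide +kernel)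
    exact this
  rw [e]
  exact mul_mem (mul_mem (mul_mem (yy_mem_Ga (by omega)) (yy_mem_Ga (by omega)))
    (inv_mem (pow_mem s_mem_Ga 4))) (pow_mem (mem_Ga (by omega) (by omega)) 4)

theorem IsBF.nn_yy (h : IsBF σ N) (hN : 4 ≤ N) {j : ℕ} (h2 : 2 ≤ j) (hj : j + 2 ≤ N) :
    nn σ * yy σ j * (nn σ)⁻¹ ∈ Ga σ N := by
  induction j, h2 using Nat.le_induction with
  | base =>
    have e : nn σ * yy σ 2 * (nn σ)⁻¹ = (σ 2 * σ 3) ^ 3 := by
      have := eq_of_test h 4 100000 (NN * Y 2 * NN⁻¹) ((g 2 * g 3) ^ 3) hN (by decide +kernel)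
      exact this
    rw [e]
    exact pow_mem (mul_mem (mem_Ga (by omega) (by omega)) (mem_Ga (by omega) (by omega))) 3
  | succ j h2 ih =>
    have e1 : yy σ (j + 1) = σ (j + 2) * yy σ j * (σ (j + 2))⁻¹ := rfl
    have e : nn σ * yy σ (j + 1) * (nn σ)⁻¹ = (nn σ * σ (j + 2) * (nn σ)⁻¹) *
        (nn σ * yy σ j * (nn σ)⁻¹) * (nn σ * σ (j + 2) * (nn σ)⁻¹)⁻¹ := by
      rw [e1]; group
    have hm := h.nn_far (i := j + 2) (by omega) (by omega)
    rw [e]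
    exact mul_mem (mul_mem hm (ih (by omega))) (inv_mem hm)

end Pool.Agent.MP_00906f_gt.H46
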