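import Pool.Agent.MP_00906f_gt.H46.Defs

/-! Row LAT: the lattice of a system. -/

namespace Pool.Agent.MP_00906f_gt.H46.Sys

variable {G H : Type*} [Group G] [AddCommGroup H] (S : Sys G H)

theorem skew (x y : H) : S.ω x y = -S.ω y x := by
  have h := S.alt (x + y)
  simp only [map_add, LinearMap.add_apply, S.alt] at h
  linarith

theorem c_mem {i : ℕ} (hi : i < S.N) : S.c i ∈ S.L :=
  Submodule.subset_span ⟨i, hi, rfl⟩

theorem lat_ρ_inv_ρ (b : G) (x : H) : S.ρ b⁻¹ (S.ρ b x) = x := by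
  rw [← Module.End.mul_apply, ← map_mul, inv_mul_cancel, map_one, Module.End.one_apply]

theorem lat_ρ_ρ_inv (b : G) (x : H) : S.ρ b (S.ρ b⁻¹ x) = x := by
  rw [← Module.End.mul_apply, ← map_mul, mul_inv_cancel, map_one, Module.End.one_apply]

theorem lat_ρ_mul (a b : G) (x : H) : S.ρ (a * b) x = S.ρ a (S.ρ b x) := by
  rw [map_mul, Module.End.mul_apply]

theorem ρσ_inv {i : ℕ} (hi : i < S.N) (x : H) :
    S.ρ (S.σ i)⁻¹ x = x - S.ω x (S.c i) • S.c i := by
  have h : S.ρ (S.σ i) (x - S.ω x (S.c i) • S.c i) = x := by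
    rw [S.ρσ i hi]
    simp only [map_sub, map_zsmul, LinearMap.sub_apply, LinearMap.smul_apply, S.alt, smul_zero,
      sub_zero]
    abel
  conv_lhs => rw [← h]
  exact S.lat_ρ_inv_ρ _ _

theorem ρσ_zpow {i : ℕ} (hi : i < S.N) (k : ℤ) (x : H) :
    S.ρ (S.σ i ^ k) x = x + (k * S.ω x (S.c i)) • S.c i := by
  induction k using Int.induction_on generalizing x with
  | zero => simp
  | succ n ih =>
    rw [zpow_add_one, S.lat_ρ_mul, ih, S.ρσ i hi]
    simp only [map_add, map_zsmul, LinearMap.add_apply, LinearMap.smul_apply, S.alt, smul_zero,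
      add_zero]
    module
  | pred n ih =>
    rw [zpow_sub_one, S.lat_ρ_mul, ih, S.ρσ_inv hi]
    simp only [map_sub, map_zsmul, LinearMap.sub_apply, LinearMap.smul_apply, S.alt, smul_zero,
      sub_zero]
    module

theorem ρ_ω {b : G} (hb : b ∈ S.B) (x y : H) : S.ω (S.ρ b x) (S.ρ b y) = S.ω x y := by
  unfold B BB at hb
  induction hb using Subgroup.closure_induction generalizing x y with
  | mem g hg =>
    obtain ⟨i, hi, rfl⟩ := hg
    rw [S.ρσ i hi, S.ρσ i hi]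
    simp only [map_add, map_zsmul, LinearMap.add_apply, LinearMap.smul_apply, S.alt, smul_eq_mul]
    rw [S.skew (S.c i) y]
    ring
  | one => simp
  | mul a b _ _ ha hb => rw [S.lat_ρ_mul, S.lat_ρ_mul, ha, hb]
  | inv a _ ha => rw [← ha, S.lat_ρ_ρ_inv, S.lat_ρ_ρ_inv]

theorem ρ_sub_L {b : G} (hb : b ∈ S.B) (x : H) : S.ρ b x - x ∈ S.L := by
  unfold B BB at hb
  induction hb using Subgroup.closure_induction generalizing x with
  | mem g hg =>
    obtain ⟨i, hi, rfl⟩ := hg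
    rw [S.ρσ i hi, add_sub_cancel_left]
    exact S.L.smul_mem _ (S.c_mem hi)
  | one => simp
  | mul a b _ _ ha hb =>
    rw [S.lat_ρ_mul]
    have := S.L.add_mem (ha (S.ρ b x)) (hb x)
    rwa [sub_add_sub_cancel] at this
  | inv a _ ha =>
    have := S.L.neg_mem (ha (S.ρ a⁻¹ x))
    rwa [S.lat_ρ_ρ_inv, neg_sub] at this

theorem ρ_L {b : G} (hb : b ∈ S.B) {x : H} (hx : x ∈ S.L) : S.ρ b x ∈ S.L := by
  have := S.L.add_mem (S.ρ_sub_L hb x) hx
  rwa [sub_add_cancel] at this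

theorem ρ_fix {b : G} (hb : b ∈ S.B) {x : H} (hx : ∀ i, i < S.N → S.ω x (S.c i) = 0) :
    S.ρ b x = x := by
  unfold B BB at hb
  induction hb using Subgroup.closure_induction with
  | mem g hg =>
    obtain ⟨i, hi, rfl⟩ := hg
    rw [S.ρσ i hi, hx i hi, zero_smul, add_zero]
  | one => simp
  | mul a b _ _ ha hb => rw [S.lat_ρ_mul, hb, ha]
  | inv a _ ha =>
    conv_lhs => rw [← ha]
    exact S.lat_ρ_inv_ρ _ _

theorem pt_zsmul (k : ℕ) (n : ℤ) (x : H) : S.pt k (n • x) = (n : ZMod 2) * S.pt k x := by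
  rw [map_zsmul, zsmul_eq_mul]

theorem pt_two (k : ℕ) (x : H) : S.pt k ((2 : ℤ) • x) = 0 := by
  rw [S.pt_zsmul]
  have : ((2 : ℤ) : ZMod 2) = 0 := by decide
  rw [this, zero_mul]

theorem pair_c {i : ℕ} (hi : i < S.N) : S.Pair (S.c i) i (i + 1) := S.pt_c i hi

/-- Induction over the lattice. -/
theorem lat_ind {P : H → Prop} (hc : ∀ i, i < S.N → P (S.c i)) (h0 : P 0)
    (ha : ∀ x y, x ∈ S.L → y ∈ S.L → P x → P y → P (x + y))
    (hs : ∀ (n : ℤ) x, x ∈ S.L → P x → P (n • x)) {x : H} (hx : x ∈ S.L) : P x := by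
  unfold L at hx
  induction hx using Submodule.span_induction with
  | mem g hg =>
    obtain ⟨i, hi, rfl⟩ := hg
    exact hc i hi
  | zero => exact h0
  | add a b h1 h2 h3 h4 => exact ha a b h1 h2 h3 h4
  | smul n a h1 h2 => exact hs n a h1 h2

theorem pt_gt {x : H} (hx : x ∈ S.L) {k : ℕ} (hk : S.N < k) : S.pt k x = 0 := by
  refine S.lat_ind (P := fun x => S.pt k x = 0) ?_ ?_ ?_ ?_ hx
  · intro i hi
    rw [S.pt_c i hi, if_neg (by omega)]
  · simp
  · intro a b _ _ ha hb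
    rw [map_add, ha, hb, add_zero]
  · intro n a _ ha
    rw [S.pt_zsmul, ha, mul_zero]

theorem lat_sum_pair (f : ℕ → ZMod 2) {M i j : ℕ} (hij : i ≠ j) (hi : i < M) (hj : j < M) :
    ∑ k ∈ Finset.range M, f k * (if k = i ∨ k = j then 1 else 0) = f i + f j := by
  have h : ∀ k, f k * (if k = i ∨ k = j then 1 else 0) =
      (if k = i then f k else 0) + (if k = j then f k else 0) := by
    intro k
    by_cases h1 : k = i
    · have h2 : ¬ k = j := fun h => hij (h1.symm.trans h)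
      simp [h1, hij]
    · by_cases h2 : k = j
      · simp [h2, hij.symm]
      · simp [h1, h2]
  simp only [h, Finset.sum_add_distrib, Finset.sum_ite_eq', Finset.mem_range, hi, hj, if_true]

theorem pt_sum {x : H} (hx : x ∈ S.L) : ∑ k ∈ Finset.range (S.N + 1), S.pt k x = 0 := by
  refine S.lat_ind (P := fun x => ∑ k ∈ Finset.range (S.N + 1), S.pt k x = 0) ?_ ?_ ?_ ?_ hx
  · intro i hi
    have h := lat_sum_pair (fun _ => 1) (M := S.N + 1) (i := i) (j := i + 1) (by omega) (by omega)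
      (by omega)
    simp only [one_mul] at h
    simp only [S.pt_c i hi]
    rw [h]
    decide
  · simp
  · intro a b _ _ ha hb
    simp only [map_add, Finset.sum_add_distrib, ha, hb, add_zero]
  · intro n a _ ha
    simp only [S.pt_zsmul, ← Finset.mul_sum, ha, mul_zero]

theorem lat_ωcc {i j : ℕ} (hi : i < S.N) (hj : j < S.N) :
    S.ω (S.c i) (S.c j) = (if j = i + 1 then 1 else 0) - (if i = j + 1 then 1 else 0) := by
  by_cases h1 : j = i + 1
  · subst h1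
    rw [S.ch1 i hj, if_pos rfl, if_neg (by omega)]
    rfl
  · by_cases h2 : i = j + 1
    · subst h2
      rw [S.skew, S.ch1 j hi, if_neg h1, if_pos rfl]
      rfl
    · rw [if_neg h1, if_neg h2, sub_zero]
      rcases lt_trichotomy i j with h | h | h
      · exact S.ch2 i j (by omega) hj
      · subst h
        exact S.alt _
      · rw [S.skew, S.ch2 j i (by omega) hi, neg_zero]

theorem lat_ω_c {x : H} (hx : x ∈ S.L) {j : ℕ} (hj : j < S.N) :
    ((S.ω x (S.c j) : ℤ) : ZMod 2) = S.pt j x + S.pt (j + 1) x := by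
  refine S.lat_ind (P := fun x => ((S.ω x (S.c j) : ℤ) : ZMod 2) = S.pt j x + S.pt (j + 1) x)
    ?_ ?_ ?_ ?_ hx
  · intro i hi
    rw [S.lat_ωcc hi hj, S.pt_c i hi, S.pt_c i hi]
    by_cases h1 : j = i + 1
    · rw [if_pos h1, if_neg (by omega), if_pos (by omega), if_neg (by omega)]
      decide
    · by_cases h2 : i = j + 1
      · rw [if_neg h1, if_pos h2, if_neg (by omega), if_pos (by omega)]
        decide
      · by_cases h3 : i = j
        · rw [if_neg h1, if_neg h2, if_pos (by omega), if_pos (by omega)]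
          decide
        · rw [if_neg h1, if_neg h2, if_neg (by omega), if_neg (by omega)]
          decide
  · simp
  · intro a b _ _ ha hb
    simp only [map_add, LinearMap.add_apply, Int.cast_add, ha, hb]
    ring
  · intro n a _ ha
    simp only [S.pt_zsmul, map_zsmul S.ω, LinearMap.smul_apply, smul_eq_mul, Int.cast_mul, ha]
    ring

theorem lat_ω_pt {x y : H} (hx : x ∈ S.L) (hy : y ∈ S.L) :
    ((S.ω x y : ℤ) : ZMod 2) = ∑ k ∈ Finset.range (S.N + 1), S.pt k x * S.pt k y := by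
  refine S.lat_ind (P := fun y =>
    ((S.ω x y : ℤ) : ZMod 2) = ∑ k ∈ Finset.range (S.N + 1), S.pt k x * S.pt k y) ?_ ?_ ?_ ?_ hy
  · intro i hi
    simp only [S.pt_c i hi]
    rw [lat_sum_pair (fun k => S.pt k x) (by omega) (by omega) (by omega), S.lat_ω_c hx hi]
  · simp
  · intro a b _ _ ha hb
    simp only [map_add, Int.cast_add, ha, hb, mul_add, Finset.sum_add_distrib]
  · intro n a _ ha
    simp only [S.pt_zsmul, map_zsmul (S.ω x), smul_eq_mul, Int.cast_mul, ha, Finset.mul_sum]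
    exact Finset.sum_congr rfl fun k _ => by ring

theorem lat_pair_symm {x : H} {i j : ℕ} (hp : S.Pair x i j) : S.Pair x j i := by
  intro k
  rw [hp k]
  exact if_congr or_comm rfl rfl

theorem lat_pair_le {x : H} (hx : x ∈ S.L) {i j : ℕ} (hp : S.Pair x i j) : i ≤ S.N := by
  by_contra h
  have h1 := S.pt_gt hx (k := i) (by omega)
  rw [hp i, if_pos (Or.inl rfl)] at h1
  exact one_ne_zero h1

theorem ω_pair {x y : H} (hx : x ∈ S.L) (hy : y ∈ S.L) {i j : ℕ} (hij : i ≠ j)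
    (hp : S.Pair y i j) : ((S.ω x y : ℤ) : ZMod 2) = S.pt i x + S.pt j x := by
  have hi := S.lat_pair_le hy hp
  have hj := S.lat_pair_le hy (S.lat_pair_symm hp)
  rw [S.lat_ω_pt hx hy]
  simp only [hp _]
  exact lat_sum_pair (fun k => S.pt k x) hij (by omega) (by omega)

/-- The basic way to enter `V`. -/
theorem lat_V_of {x y : H} (hx : x ∈ S.L) (hy : y ∈ S.L) (h : |S.ω x y| = 1) {i j : ℕ}
    (hij : i ≠ j) (hp : S.Pair x i j) : S.V x := by
  refine ⟨hx, ?_, ?_⟩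
  · rcases abs_eq (by norm_num : (0 : ℤ) ≤ 1) |>.1 h with h | h
    · exact ⟨y, hy, h⟩
    · exact ⟨-y, S.L.neg_mem hy, by rw [map_neg, h, neg_neg]⟩
  · rcases lt_or_gt_of_ne hij with h1 | h1
    · exact ⟨i, j, h1, S.lat_pair_le hx (S.lat_pair_symm hp), hp⟩
    · exact ⟨j, i, h1, S.lat_pair_le hx hp, S.lat_pair_symm hp⟩

/-- A transvection permutes the points. -/
theorem lat_pt_swap {x v : H} (hx : x ∈ S.L) (hv : v ∈ S.L) {i j : ℕ} (hij : i ≠ j)
    (hp : S.Pair v i j) {n : ℤ} (hn : (n : ZMod 2) = ((S.ω x v : ℤ) : ZMod 2)) (k : ℕ) :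
    S.pt k (x + n • v) = S.pt (Equiv.swap i j k) x := by
  rw [map_add, S.pt_zsmul, hn, S.ω_pair hx hv hij hp, hp k]
  have h2 : ∀ a b : ZMod 2, a + (a + b) * 1 = b := by decide
  have h3 : ∀ a b : ZMod 2, b + (a + b) * 1 = a := by decide
  by_cases h1 : k = i
  · subst h1
    rw [Equiv.swap_apply_left, if_pos (Or.inl rfl), h2]
  · by_cases h4 : k = j
    · subst h4
      rw [Equiv.swap_apply_right, if_pos (Or.inr rfl), h3]
    · rw [Equiv.swap_apply_of_ne_of_ne h1 h4, if_neg (by tauto), mul_zero, add_zero]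

theorem lat_V_trans {x v y : H} (hx : S.V x) (hv : v ∈ S.L) {i j : ℕ} (hij : i ≠ j)
    (hp : S.Pair v i j) {n : ℤ} (hn : (n : ZMod 2) = ((S.ω x v : ℤ) : ZMod 2)) (hy : y ∈ S.L)
    (h : |S.ω (x + n • v) y| = 1) : S.V (x + n • v) := by
  obtain ⟨hxL, -, p, q, hpq, -, hP⟩ := hx
  refine S.lat_V_of (S.L.add_mem hxL (S.L.smul_mem _ hv)) hy h
    (i := Equiv.swap i j p) (j := Equiv.swap i j q)
    (fun h => hpq.ne ((Equiv.swap i j).injective h)) ?_
  intro k
  rw [S.lat_pt_swap hxL hv hij hp hn, hP]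
  refine if_congr ?_ rfl rfl
  rw [Equiv.swap_apply_eq_iff, Equiv.swap_apply_eq_iff]

theorem ρ_V {b : G} (hb : b ∈ S.B) {x : H} (hx : S.V x) : S.V (S.ρ b x) := by
  unfold B BB at hb
  induction hb using Subgroup.closure_induction'' generalizing x with
  | mem g hg =>
    obtain ⟨i, hi, rfl⟩ := hg
    have hB : S.σ i ∈ S.B := Subgroup.subset_closure ⟨i, hi, rfl⟩
    obtain ⟨y, hy, hxy⟩ := hx.2.1
    have h1 := S.ρ_ω hB x y
    rw [S.ρσ i hi x] at h1 ⊢
    exact S.lat_V_trans hx (S.c_mem hi) (by omega) (S.pair_c hi) rfl (S.ρ_L hB hy)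
      (by rw [h1, hxy, abs_one])
  | inv_mem g hg =>
    obtain ⟨i, hi, rfl⟩ := hg
    have hB : (S.σ i)⁻¹ ∈ S.B := S.B.inv_mem (Subgroup.subset_closure ⟨i, hi, rfl⟩)
    obtain ⟨y, hy, hxy⟩ := hx.2.1
    have h1 := S.ρ_ω hB x y
    rw [S.ρσ_inv hi x, sub_eq_add_neg, ← neg_smul] at h1 ⊢
    exact S.lat_V_trans hx (S.c_mem hi) (by omega) (S.pair_c hi)
      (by rw [Int.cast_neg, ZMod.neg_eq_self_mod_two]) (S.ρ_L hB hy)
      (by rw [h1, hxy, abs_one])
  | one => simpa using hx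
  | mul a b _ _ ha hb =>
    rw [S.lat_ρ_mul]
    exact ha (hb hx)

/-- Coordinates. -/
theorem lat_coord {x : H} (hx : x ∈ S.L) :
    ∃ a : ℕ → ℤ, x = ∑ i ∈ Finset.range S.N, a i • S.c i := by
  refine S.lat_ind (P := fun x => ∃ a : ℕ → ℤ, x = ∑ i ∈ Finset.range S.N, a i • S.c i)
    ?_ ?_ ?_ ?_ hx
  · intro i hi
    refine ⟨fun k => if k = i then 1 else 0, ?_⟩
    simp [ite_smul, hi]
  · exact ⟨fun _ => 0, by simp⟩
  · rintro _ _ _ _ ⟨a, rfl⟩ ⟨b, rfl⟩
    exact ⟨fun k => a k + b k, by simp only [add_smul, Finset.sum_add_distrib]⟩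
  · rintro n _ _ ⟨a, rfl⟩
    exact ⟨fun k => n * a k, by simp only [mul_smul, Finset.smul_sum]⟩

theorem lat_sum_mem (a : ℕ → ℤ) : ∑ i ∈ Finset.range S.N, a i • S.c i ∈ S.L :=
  S.L.sum_mem fun _ hi => S.L.smul_mem _ (S.c_mem (Finset.mem_range.1 hi))

theorem lat_pt_coord (a : ℕ → ℤ) {k : ℕ} (hk : k < S.N) :
    S.pt k (∑ i ∈ Finset.range S.N, a i • S.c i) =
      (a k : ZMod 2) + if 0 < k then (a (k - 1) : ZMod 2) else 0 := by
  rw [map_sum]
  have h : ∀ i ∈ Finset.range S.N, S.pt k (a i • S.c i) =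
      (if i = k then (a i : ZMod 2) else 0) +
        (if i = k - 1 then (if 0 < k then (a i : ZMod 2) else 0) else 0) := by
    intro i hi
    rw [S.pt_zsmul, S.pt_c i (Finset.mem_range.1 hi)]
    split_ifs <;> first | omega | simp
  rw [Finset.sum_congr rfl h, Finset.sum_add_distrib, Finset.sum_ite_eq', Finset.sum_ite_eq',
    if_pos (Finset.mem_range.2 hk), if_pos (Finset.mem_range.2 (by omega))]

theorem two_of_pt {x : H} (hx : x ∈ S.L) (h : ∀ k, S.pt k x = 0) :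
    ∃ y ∈ S.L, x = (2 : ℤ) • y := by
  obtain ⟨a, rfl⟩ := S.lat_coord hx
  have h1 : ∀ k, k < S.N → (a k : ZMod 2) = 0 := by
    intro k
    induction k with
    | zero =>
      intro hk
      have := h 0
      rwa [S.lat_pt_coord a hk, if_neg (by omega), add_zero] at this
    | succ k ih =>
      intro hk
      have := h (k + 1)
      rwa [S.lat_pt_coord a hk, if_pos (by omega), Nat.add_sub_cancel, ih (by omega),
        add_zero] at this
  refine ⟨∑ i ∈ Finset.range S.N, (a i / 2) • S.c i, S.lat_sum_mem _, ?_⟩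
  rw [Finset.smul_sum]
  refine Finset.sum_congr rfl fun i hi => ?_
  have h2 := (ZMod.intCast_zmod_eq_zero_iff_dvd (a i) 2).1 (h1 i (Finset.mem_range.1 hi))
  rw [← mul_smul]
  congr 1
  push_cast at h2
  omega

theorem lat_pair_add {x y : H} {i j k : ℕ} (hij : i ≠ j) (hjk : j ≠ k) (hik : i ≠ k)
    (hx : S.Pair x i j) (hy : S.Pair y j k) : S.Pair (x + y) i k := by
  intro m
  rw [map_add, hx m, hy m]
  split_ifs <;> first | omega | decide

theorem lat_pair_two {x : H} {i j : ℕ} (hx : S.Pair x i j) (y : H) :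
    S.Pair (x + (2 : ℤ) • y) i j := by
  intro m
  rw [map_add, S.pt_two, add_zero, hx m]

/-- A vector for each pair of points, orthogonal to the far chain vectors. -/
theorem exists_pair {i j : ℕ} (hij : i < j) (hj : j ≤ S.N) :
    ∃ e ∈ S.L, S.Pair e i j ∧ ∀ k, k + 2 ≤ i → S.ω (S.c k) e = 0 := by
  induction j, hij using Nat.le_induction with
  | base =>
    exact ⟨S.c i, S.c_mem (by omega), S.pair_c (by omega), fun k hk => S.ch2 k i hk (by omega)⟩
  | succ j hij ih =>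
    obtain ⟨e, he, hp, ho⟩ := ih (by omega)
    refine ⟨e + S.c j, S.L.add_mem he (S.c_mem (by omega)),
      S.lat_pair_add (by omega) (by omega) (by omega) hp (S.pair_c (by omega)), fun k hk => ?_⟩
    rw [map_add, ho k hk, S.ch2 k j (by omega) (by omega), add_zero]

theorem lat_exists_pair {i j : ℕ} (hij : i ≠ j) (hi : i ≤ S.N) (hj : j ≤ S.N) :
    ∃ e ∈ S.L, S.Pair e i j := by
  rcases lt_or_gt_of_ne hij with h | h
  · obtain ⟨e, he, hp, -⟩ := S.exists_pair h hj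
    exact ⟨e, he, hp⟩
  · obtain ⟨e, he, hp, -⟩ := S.exists_pair h hi
    exact ⟨e, he, S.lat_pair_symm hp⟩

theorem lat_ω_coord (a : ℕ → ℤ) {j : ℕ} (hj : j < S.N) :
    S.ω (S.c j) (∑ i ∈ Finset.range S.N, a i • S.c i) =
      (if j + 1 < S.N then a (j + 1) else 0) - if 0 < j then a (j - 1) else 0 := by
  rw [map_sum]
  have h : ∀ i ∈ Finset.range S.N, S.ω (S.c j) (a i • S.c i) =
      (if i = j + 1 then a i else 0) - (if i = j - 1 then (if 0 < j then a i else 0) else 0) := by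
    intro i hi
    rw [map_zsmul, S.lat_ωcc hj (Finset.mem_range.1 hi), smul_eq_mul]
    split_ifs <;> omega
  rw [Finset.sum_congr rfl h, Finset.sum_sub_distrib, Finset.sum_ite_eq', Finset.sum_ite_eq',
    if_pos (show j - 1 ∈ Finset.range S.N from Finset.mem_range.2 (by omega))]
  simp only [Finset.mem_range]

/-- The dual basis. -/
theorem lat_dual (hN : Even S.N) {i : ℕ} (hi : i < S.N) :
    ∃ d ∈ S.L, ∀ j, j < S.N → S.ω (S.c j) d = if j = i then 1 else 0 := by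
  obtain ⟨n, hn⟩ := hN
  by_cases h : i % 2 = 0
  · refine ⟨_, S.lat_sum_mem (fun m => if m % 2 = 1 ∧ i < m then 1 else 0), fun j hj => ?_⟩
    rw [S.lat_ω_coord _ hj]
    split_ifs <;> omega
  · refine ⟨_, S.lat_sum_mem (fun m => if m % 2 = 0 ∧ m < i then -1 else 0), fun j hj => ?_⟩
    rw [S.lat_ω_coord _ hj]
    split_ifs <;> omega

theorem lat_ω_dual (a : ℕ → ℤ) {i : ℕ} (hi : i < S.N) {d : H}
    (hd : ∀ j, j < S.N → S.ω (S.c j) d = if j = i then 1 else 0) :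
    S.ω (∑ j ∈ Finset.range S.N, a j • S.c j) d = a i := by
  rw [map_sum, LinearMap.sum_apply]
  have h : ∀ j ∈ Finset.range S.N, S.ω (a j • S.c j) d = if j = i then a j else 0 := by
    intro j hj
    rw [map_zsmul, LinearMap.smul_apply, hd j (Finset.mem_range.1 hj), smul_eq_mul]
    split_ifs <;> simp
  rw [Finset.sum_congr rfl h, Finset.sum_ite_eq', if_pos (Finset.mem_range.2 hi)]

theorem lat_orth {x : H} (h : ∀ i, i < S.N → S.ω x (S.c i) = 0) {y : H} (hy : y ∈ S.L) :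
    S.ω x y = 0 := by
  refine S.lat_ind (P := fun y => S.ω x y = 0) h ?_ ?_ ?_ hy
  · simp
  · intro a b _ _ ha hb
    rw [map_add, ha, hb, add_zero]
  · intro n a _ ha
    rw [map_zsmul, ha, smul_zero]

theorem nondeg (hN : Even S.N) {x : H} (hx : x ∈ S.L) (h : ∀ i, i < S.N → S.ω x (S.c i) = 0) :
    x = 0 := by
  obtain ⟨a, rfl⟩ := S.lat_coord hx
  refine Finset.sum_eq_zero fun i hi => ?_
  obtain ⟨d, hd, hd'⟩ := S.lat_dual hN (Finset.mem_range.1 hi)
  rw [← S.lat_ω_dual a (Finset.mem_range.1 hi) hd', S.lat_orth h hd, zero_smul]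

theorem cont (hN : Even S.N) {x : H} (hx : x ∈ S.L) (h0 : x ≠ 0) :
    ∃ (d : ℤ) (ξ ζ : H), 0 < d ∧ ξ ∈ S.L ∧ ζ ∈ S.L ∧ x = d • ξ ∧ S.ω ξ ζ = 1 := by
  obtain ⟨g, hg⟩ : ∃ g : ℤ, S.L.map (S.ω x) = Submodule.span ℤ {g} :=
    (IsPrincipalIdealRing.principal (S.L.map (S.ω x))).principal
  have hdvd : ∀ y ∈ S.L, |g| ∣ S.ω x y := by
    intro y hy
    have : S.ω x y ∈ Submodule.span ℤ {g} := hg ▸ Submodule.mem_map_of_mem hy
    obtain ⟨t, ht⟩ := Submodule.mem_span_singleton.1 this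
    rw [abs_dvd, ← ht, smul_eq_mul]
    exact dvd_mul_left _ _
  have hex : ∃ ζ ∈ S.L, S.ω x ζ = |g| := by
    have : g ∈ S.L.map (S.ω x) := hg ▸ Submodule.mem_span_singleton_self g
    obtain ⟨ζ, hζ, h⟩ := this
    rcases abs_choice g with h1 | h1
    · exact ⟨ζ, hζ, by rw [h, h1]⟩
    · exact ⟨-ζ, S.L.neg_mem hζ, by rw [map_neg, h, h1]⟩
  have hg0 : 0 < |g| := by
    rcases (abs_nonneg g).lt_or_eq with h | h
    · exact h
    · exfalso
      refine h0 (S.nondeg hN hx fun i hi => ?_)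
      have := hdvd _ (S.c_mem hi)
      rwa [← h, zero_dvd_iff] at this
  obtain ⟨ζ, hζ, hxζ⟩ := hex
  obtain ⟨a, rfl⟩ := S.lat_coord hx
  have he : ∑ i ∈ Finset.range S.N, a i • S.c i =
      |g| • ∑ i ∈ Finset.range S.N, (a i / |g|) • S.c i := by
    rw [Finset.smul_sum]
    refine Finset.sum_congr rfl fun i hi => ?_
    obtain ⟨d, hd, hd'⟩ := S.lat_dual hN (Finset.mem_range.1 hi)
    have h1 := hdvd d hd
    rw [S.lat_ω_dual a (Finset.mem_range.1 hi) hd'] at h1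
    rw [← mul_smul, Int.mul_ediv_cancel' h1]
  refine ⟨|g|, _, ζ, hg0, S.lat_sum_mem _, hζ, he, ?_⟩
  rw [he, map_zsmul, LinearMap.smul_apply, smul_eq_mul] at hxζ
  exact mul_left_cancel₀ hg0.ne' (by rw [hxζ, mul_one])

theorem torsionFree (hN : Even S.N) {x : H} (hx : x ∈ S.L) {n : ℤ} (hn : n ≠ 0)
    (h : n • x = 0) : x = 0 := by
  refine S.nondeg hN hx fun i _ => ?_
  have h1 : S.ω (n • x) (S.c i) = 0 := by rw [h]; simp
  rw [map_zsmul, LinearMap.smul_apply, smul_eq_mul] at h1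
  exact (mul_eq_zero.1 h1).resolve_left hn

theorem ρ_eq_one (hN : Even S.N) {b : G} (hb : b ∈ S.B)
    (h : ∀ i, i < S.N → S.ρ b (S.c i) = S.c i) : S.ρ b = 1 := by
  refine LinearMap.ext fun x => ?_
  rw [Module.End.one_apply, ← sub_eq_zero]
  refine S.nondeg hN (S.ρ_sub_L hb x) fun i hi => ?_
  have h1 := S.ρ_ω hb x (S.c i)
  rw [h i hi] at h1
  rw [map_sub, LinearMap.sub_apply, h1, sub_self]

theorem V_c (hN : Even S.N) {i : ℕ} (hi : i < S.N) : S.V (S.c i) := by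
  obtain ⟨d, hd, hd'⟩ := S.lat_dual hN hi
  exact ⟨S.c_mem hi, ⟨d, hd, by rw [hd' i hi, if_pos rfl]⟩, i, i + 1, by omega, by omega,
    S.pair_c hi⟩

theorem V_neg {x : H} (hx : S.V x) : S.V (-x) := by
  obtain ⟨hL, ⟨y, hy, hxy⟩, i, j, hij, hj, hp⟩ := hx
  refine ⟨S.L.neg_mem hL, ⟨-y, S.L.neg_mem hy, by simpa using hxy⟩, i, j, hij, hj, fun k => ?_⟩
  rw [map_neg, ZMod.neg_eq_self_mod_two, hp k]

theorem V_add {v w : H} (hv : S.V v) (hw : S.V w) (h : |S.ω v w| = 1) : S.V (w + v) := by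
  obtain ⟨hL, -, i, j, hij, -, hp⟩ := hv
  have h1 : |S.ω w v| = 1 := by rw [S.skew, abs_neg, h]
  have h2 : ((1 : ℤ) : ZMod 2) = ((S.ω w v : ℤ) : ZMod 2) := by
    rcases abs_eq (by norm_num : (0 : ℤ) ≤ 1) |>.1 h1 with h3 | h3 <;> rw [h3] <;> decide
  have h3 := S.lat_V_trans hw hL hij.ne hp h2 hL
    (by rw [one_smul, map_add, LinearMap.add_apply, S.alt, add_zero, h1])
  rwa [one_smul] at h3

theorem V_two {w x y : H} (hw : S.V w) (hx : x ∈ S.L) (hy : y ∈ S.L)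
    (h : |S.ω (w + (2 : ℤ) • x) y| = 1) : S.V (w + (2 : ℤ) • x) := by
  obtain ⟨hL, -, i, j, hij, -, hp⟩ := hw
  exact S.lat_V_of (S.L.add_mem hL (S.L.smul_mem _ hx)) hy h hij.ne (S.lat_pair_two hp x)

/-- A neighbour with a prescribed pair. -/
theorem lat_nb {v : H} (hv : S.V v) {p q r : ℕ} (hpq : p ≠ q) (hp : S.Pair v p q) (hr : r ≤ S.N)
    (hrp : r ≠ p) (hrq : r ≠ q) : ∃ w, S.V w ∧ S.ω v w = 1 ∧ S.Pair w q r := by
  obtain ⟨hL, ⟨y, hy, hvy⟩, -⟩ := hv
  obtain ⟨e, he, hpe⟩ := S.lat_exists_pair hrq.symm (S.lat_pair_le hL (S.lat_pair_symm hp)) hr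
  have h1 := S.ω_pair hL he hrq.symm hpe
  rw [hp q, hp r, if_pos (Or.inr rfl), if_neg (by omega), add_zero] at h1
  obtain ⟨m, hm⟩ := (ZMod.intCast_eq_one_iff_odd).1 h1
  have h2 : S.ω v (e + (2 : ℤ) • ((-m) • y)) = 1 := by
    simp only [map_add, map_zsmul, smul_eq_mul, hvy, hm]
    ring
  have h3 := S.lat_pair_two hpe ((-m) • y)
  refine ⟨e + (2 : ℤ) • ((-m) • y), ?_, h2, h3⟩
  exact S.lat_V_of (S.L.add_mem he (S.L.smul_mem _ (S.L.smul_mem _ hy))) hL
    (by rw [S.skew, h2]; rfl) hrq.symm h3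

theorem lat_V_nb (hN : Even S.N) {v : H} (hv : S.V v) : ∃ w, S.V w ∧ S.ω v w = 1 := by
  obtain ⟨p, q, hpq, hq, hp⟩ := hv.2.2
  obtain ⟨n, hn⟩ := hN
  obtain ⟨r, h1, h2, h3⟩ : ∃ r, r ≤ S.N ∧ r ≠ p ∧ r ≠ q := by
    by_cases h0 : p = 0
    · by_cases h1 : q = 1
      · exact ⟨2, by omega, by omega, by omega⟩
      · exact ⟨1, by omega, by omega, by omega⟩
    · exact ⟨0, by omega, by omega, by omega⟩
  obtain ⟨w, hw, h, -⟩ := S.lat_nb hv hpq.ne hp h1 h2 h3
  exact ⟨w, hw, h⟩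

theorem lat_not_const (hN : Even S.N) {ξ ζ : H} (hξ : ξ ∈ S.L) (h : S.ω ξ ζ = 1) (t : ZMod 2) :
    ∃ j, j ≤ S.N ∧ S.pt j ξ ≠ t := by
  by_contra hc
  push Not at hc
  have ht : t = 0 ∨ t = 1 := (by decide : ∀ t : ZMod 2, t = 0 ∨ t = 1) t
  rcases ht with rfl | rfl
  · obtain ⟨y, -, rfl⟩ := S.two_of_pt hξ fun k => by
      by_cases hk : k ≤ S.N
      · exact hc k hk
      · exact S.pt_gt hξ (by omega)
    rw [map_zsmul, LinearMap.smul_apply, smul_eq_mul] at h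
    omega
  · have h1 := S.pt_sum hξ
    rw [Finset.sum_congr rfl fun k hk => hc k (by have := Finset.mem_range.1 hk; omega),
      Finset.sum_const, Finset.card_range, nsmul_eq_mul, mul_one, Nat.cast_add,
      (ZMod.natCast_eq_zero_iff_even).2 hN, zero_add, Nat.cast_one] at h1
    exact one_ne_zero h1

theorem lat_V_odd (hN : Even S.N) {v ξ ζ : H} (hv : S.V v) (hξ : ξ ∈ S.L) (h0 : S.ω v ξ = 0)
    (h : S.ω ξ ζ = 1) : ∃ w', S.V w' ∧ S.ω v w' = 1 ∧ Odd (S.ω ξ w') := by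
  obtain ⟨p, q, hpq, hq, hp⟩ := hv.2.2
  have h1 := S.ω_pair hξ hv.1 hpq.ne hp
  rw [S.skew, h0, neg_zero, Int.cast_zero] at h1
  obtain ⟨j, hj, hne⟩ := S.lat_not_const hN hξ h (S.pt q ξ)
  have h2 : ∀ a b : ZMod 2, 0 = a + b → a = b := by decide
  have h3 : ∀ a b : ZMod 2, b ≠ a → a + b = 1 := by decide
  have hjq : j ≠ q := fun e => hne (by rw [e])
  have hjp : j ≠ p := fun e => hne (by rw [e, h2 _ _ h1])
  obtain ⟨w, hw, hvw, hpw⟩ := S.lat_nb hv hpq.ne hp hj hjp hjq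
  refine ⟨w, hw, hvw, (ZMod.intCast_eq_one_iff_odd).1 ?_⟩
  rw [S.ω_pair hξ hw.1 hjq.symm hpw, h3 _ _ hne]

/-- The lattice of a system of even length. -/
theorem exists_lat (hN : Even S.N) : ∃ Λ : Lat S.L,
    (∀ x y : S.L, Λ.ω x y = S.ω x y) ∧ ∀ x : S.L, Λ.V x ↔ S.V x := by
  refine ⟨⟨S.ω.domRestrict₁₂ S.L S.L, fun x => S.V x, fun x => S.alt x, ?_, ?_, ?_, ?_, ?_, ?_⟩,
    fun x y => rfl, fun x => Iff.rfl⟩
  · intro x hx
    obtain ⟨d, ξ, ζ, hd, hξ, hζ, he, h⟩ := S.cont hN x.2 (fun h => hx (Subtype.ext h))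
    exact ⟨d, ⟨ξ, hξ⟩, ⟨ζ, hζ⟩, hd, Subtype.ext he, h⟩
  · intro x hx
    exact S.V_neg hx
  · intro v hv
    obtain ⟨w, hw, h⟩ := S.lat_V_nb hN hv
    exact ⟨⟨w, hw.1⟩, hw, h⟩
  · intro v w hv hw h
    exact S.V_add hv hw (by rw [show S.ω v w = 1 from h, abs_one])
  · intro w x y hw h
    exact S.V_two hw x.2 y.2
      (by rw [show S.ω ((w : H) + (2 : ℤ) • (x : H)) y = 1 from h, abs_one])
  · intro v w ξ ζ hv _ _ h0 _ h
    obtain ⟨w', hw', h1, h2⟩ := S.lat_V_odd hN hv ξ.2 h0 (ζ := ζ) h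
    exact ⟨⟨w', hw'.1⟩, hw', h1, h2⟩

theorem lat_shift_c (i : ℕ) : S.shift.c i = S.c (i + 2) := rfl

theorem lat_shift_N : S.shift.N = S.N - 2 := rfl

theorem shift_L_le : S.shift.L ≤ S.L := by
  refine Submodule.span_le.2 ?_
  rintro _ ⟨i, hi, rfl⟩
  have hi' : i < S.N - 2 := hi
  exact S.c_mem (i := i + 2) (by omega)

theorem lat_shift_orth {y : H} (h : ∀ i, 2 ≤ i → i < S.N → S.ω y (S.c i) = 0) {x : H}
    (hx : x ∈ S.shift.L) : S.ω y x = 0 := by
  refine S.shift.lat_orth (x := y) (fun i hi => ?_) hx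
  have hi' : i < S.N - 2 := hi
  exact h (i + 2) (by omega) (by omega)

theorem ω_c0_shift {x : H} (hx : x ∈ S.shift.L) : S.ω (S.c 0) x = 0 :=
  S.lat_shift_orth (fun i h1 h2 => S.ch2 0 i (by omega) h2) hx

/-- A dual vector to `c 0` orthogonal to the shifted lattice. -/
theorem exists_w' (hN : Even S.N) (h2 : 2 ≤ S.N) :
    ∃ w' ∈ S.L, S.ω (S.c 0) w' = 1 ∧ ∀ x ∈ S.shift.L, S.ω x w' = 0 := by
  obtain ⟨d, hd, hd'⟩ := S.lat_dual hN (i := 0) (by omega)
  refine ⟨d, hd, by rw [hd' 0 (by omega), if_pos rfl], fun x hx => ?_⟩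
  rw [S.skew, S.lat_shift_orth (fun i h1 h3 => ?_) hx, neg_zero]
  rw [S.skew, hd' i h3, if_neg (by omega), neg_zero]

theorem lat_c_shift {i : ℕ} (h1 : 2 ≤ i) (h2 : i < S.N) : S.c i ∈ S.shift.L := by
  have h := S.shift.c_mem (i := i - 2) (by rw [lat_shift_N]; omega)
  rwa [lat_shift_c, Nat.sub_add_cancel h1] at h

theorem lat_decomp {x : H} (hx : x ∈ S.L) :
    ∃ x' ∈ S.shift.L, ∃ a b : ℤ, x = x' + a • S.c 0 + b • S.c 1 := by
  refine S.lat_ind (P := fun x => ∃ x' ∈ S.shift.L, ∃ a b : ℤ, x = x' + a • S.c 0 + b • S.c 1)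
    ?_ ?_ ?_ ?_ hx
  · intro i hi
    by_cases h0 : i = 0
    · exact ⟨0, zero_mem _, 1, 0, by simp [h0]⟩
    · by_cases h1 : i = 1
      · exact ⟨0, zero_mem _, 0, 1, by simp [h1]⟩
      · exact ⟨S.c i, S.lat_c_shift (by omega) hi, 0, 0, by simp⟩
  · exact ⟨0, zero_mem _, 0, 0, by simp⟩
  · rintro _ _ _ _ ⟨x, hx, a, b, rfl⟩ ⟨y, hy, a', b', rfl⟩
    exact ⟨x + y, add_mem hx hy, a + a', b + b', by module⟩
  · rintro n _ _ ⟨x, hx, a, b, rfl⟩
    exact ⟨n • x, Submodule.smul_mem _ _ hx, n * a, n * b, by module⟩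

theorem decomp (hN : Even S.N) (h2 : 2 ≤ S.N) {x : H} (hx : x ∈ S.L) (h : S.ω (S.c 0) x = 0) :
    ∃ x' ∈ S.shift.L, ∃ j : ℤ, x = x' + j • S.c 0 := by
  have _ := hN
  obtain ⟨x', hx', a, b, rfl⟩ := S.lat_decomp hx
  have h1 : S.ω (S.c 0) (S.c 1) = 1 := S.ch1 0 (by omega)
  simp only [map_add, map_zsmul, S.ω_c0_shift hx', S.alt, h1, smul_eq_mul, mul_zero, mul_one,
    zero_add] at h
  exact ⟨x', hx', a, by rw [h, zero_smul, add_zero]⟩

theorem decomp_uniq (hN : Even S.N) (h2 : 2 ≤ S.N) {x : H} (hx : x ∈ S.shift.L) {j : ℤ}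
    (h : x = j • S.c 0) : j = 0 ∧ x = 0 := by
  obtain ⟨w, -, h1, h3⟩ := S.exists_w' hN h2
  have h4 := h3 x hx
  rw [h, map_zsmul, LinearMap.smul_apply, h1, smul_eq_mul, mul_one] at h4
  exact ⟨h4, by rw [h, h4, zero_smul]⟩

theorem pt_shift_L {x : H} (hx : x ∈ S.shift.L) : S.pt 0 x = 0 ∧ S.pt 1 x = 0 := by
  refine S.shift.lat_ind (P := fun x => S.pt 0 x = 0 ∧ S.pt 1 x = 0) ?_ ?_ ?_ ?_ hx
  · intro i hi
    have hi' : i < S.N - 2 := hi
    rw [lat_shift_c, S.pt_c _ (by omega), S.pt_c _ (by omega), if_neg (by omega),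
      if_neg (by omega)]
    exact ⟨rfl, rfl⟩
  · simp
  · intro a b _ _ ha hb
    rw [map_add, map_add, ha.1, ha.2, hb.1, hb.2, add_zero]
    exact ⟨rfl, rfl⟩
  · intro n a _ ha
    rw [S.pt_zsmul, S.pt_zsmul, ha.1, ha.2, mul_zero]
    exact ⟨rfl, rfl⟩

theorem V_shift (hN : Even S.N) (h2 : 2 ≤ S.N) {x : H} (hx : x ∈ S.shift.L) :
    S.shift.V x ↔ S.V x := by
  obtain ⟨p0, p1⟩ := S.pt_shift_L hx
  constructor
  · rintro ⟨-, ⟨y, hy, hxy⟩, i, j, hij, hj, hp⟩
    have hj' : j ≤ S.N - 2 := hj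
    refine ⟨S.shift_L_le hx, ⟨y, S.shift_L_le hy, hxy⟩, i + 2, j + 2, by omega, by omega,
      fun k => ?_⟩
    rcases k with _ | _ | k
    · rw [p0, if_neg (by omega)]
    · rw [p1, if_neg (by omega)]
    · have h : S.pt (k + 2) x = _ := hp k
      rw [h]
      exact if_congr (by omega) rfl rfl
  · rintro ⟨-, ⟨y, hy, hxy⟩, i, j, hij, hj, hp⟩
    obtain ⟨w, hw, h1, h3⟩ := S.exists_w' hN h2
    obtain ⟨y', hy', t, ht⟩ := S.decomp hN h2 (x := y - S.ω (S.c 0) y • w)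
      (S.L.sub_mem hy (S.L.smul_mem _ hw)) (by rw [map_sub, map_zsmul, h1, smul_eq_mul]; ring)
    have h4 : S.ω x y' = 1 := by
      have h5 := congrArg (S.ω x) ht
      rw [map_sub, map_add, map_zsmul, map_zsmul, hxy, h3 x hx, S.skew x (S.c 0),
        S.ω_c0_shift hx] at h5
      simpa using h5.symm
    have hi0 : i ≠ 0 := by
      rintro rfl
      rw [hp 0, if_pos (Or.inl rfl)] at p0
      exact one_ne_zero p0
    have hi1 : i ≠ 1 := by
      rintro rfl
      rw [hp 1, if_pos (Or.inl rfl)] at p1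
      exact one_ne_zero p1
    refine ⟨hx, ⟨y', hy', h4⟩, i - 2, j - 2, by omega, by rw [lat_shift_N]; omega, fun k => ?_⟩
    change S.pt (k + 2) x = _
    rw [hp (k + 2)]
    exact if_congr (by omega) rfl rfl

theorem trunc_L_le (M : ℕ) (hM : M ≤ S.N) : (S.trunc M hM).L ≤ S.L := by
  refine Submodule.span_le.2 ?_
  rintro _ ⟨i, hi, rfl⟩
  have hi' : i < M := hi
  exact S.c_mem (i := i) (by omega)

/-- In rank two every primitive vector is distinguished. -/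
theorem V_two_dim (hN : S.N = 2) (a b : ℤ) (hab : IsCoprime a b) : S.V (a • S.c 0 + b • S.c 1) := by
  obtain ⟨u, v, huv⟩ := hab
  have m0 := S.c_mem (i := 0) (by omega)
  have m1 := S.c_mem (i := 1) (by omega)
  have h1 : S.ω (S.c 0) (S.c 1) = 1 := S.ch1 0 (by omega)
  have h2 : S.ω (S.c 1) (S.c 0) = -1 := by rw [S.skew, h1]
  refine ⟨add_mem (S.L.smul_mem _ m0) (S.L.smul_mem _ m1),
    ⟨(-v) • S.c 0 + u • S.c 1, add_mem (S.L.smul_mem _ m0) (S.L.smul_mem _ m1), ?_⟩, ?_⟩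
  · simp only [map_add, map_zsmul, LinearMap.add_apply, LinearMap.smul_apply, S.alt, h1, h2,
      smul_eq_mul]
    linear_combination huv
  · have hp : ∀ k, S.pt k (a • S.c 0 + b • S.c 1) =
        (a : ZMod 2) * (if k = 0 ∨ k = 1 then 1 else 0) +
          (b : ZMod 2) * (if k = 1 ∨ k = 2 then 1 else 0) := by
      intro k
      rw [map_add, S.pt_zsmul, S.pt_zsmul, S.pt_c 0 (by omega), S.pt_c 1 (by omega)]
    have h3 : (u : ZMod 2) * a + v * b = 1 := by exact_mod_cast congrArg (Int.cast : ℤ → ZMod 2) huv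
    have h4 : ∀ u v a b : ZMod 2, u * a + v * b = 1 →
        (a = 1 ∧ b = 0) ∨ (a = 0 ∧ b = 1) ∨ (a = 1 ∧ b = 1) := by decide
    rcases h4 _ _ _ _ h3 with ⟨ha, hb⟩ | ⟨ha, hb⟩ | ⟨ha, hb⟩
    · refine ⟨0, 1, by omega, by omega, fun k => ?_⟩
      rw [hp, ha, hb]
      split_ifs <;> first | omega | decide
    · refine ⟨1, 2, by omega, by omega, fun k => ?_⟩
      rw [hp, ha, hb]
      split_ifs <;> first | omega | decide
    · refine ⟨0, 2, by omega, by omega, fun k => ?_⟩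
      rw [hp, ha, hb]
      split_ifs <;> first | omega | decide

theorem lat_ww_succ (j : ℕ) : S.ww (j + 1) = S.ww j + S.c (j + 2) := rfl

theorem lat_ww_zero : S.ww 0 = S.c 1 := rfl

theorem ww_sub_mem {j : ℕ} (hj : j + 2 ≤ S.N) : S.ww j - S.c 1 ∈ S.shift.L := by
  induction j with
  | zero => rw [lat_ww_zero, sub_self]; exact zero_mem _
  | succ j ih =>
    rw [lat_ww_succ, add_sub_right_comm]
    exact add_mem (ih (by omega)) (S.lat_c_shift (by omega) (by omega))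

theorem ww_mem {j : ℕ} (hj : j + 2 ≤ S.N) : S.ww j ∈ S.L := by
  have := S.L.add_mem (S.shift_L_le (S.ww_sub_mem hj)) (S.c_mem (i := 1) (by omega))
  rwa [sub_add_cancel] at this

theorem ω_c0_ww {j : ℕ} (hj : j + 2 ≤ S.N) : S.ω (S.c 0) (S.ww j) = 1 := by
  have h := S.ω_c0_shift (S.ww_sub_mem hj)
  rw [map_sub, S.ch1 0 (by omega)] at h
  omega

theorem pair_ww {j : ℕ} (hj : j + 2 ≤ S.N) : S.Pair (S.ww j) 1 (j + 2) := by
  induction j with
  | zero => exact S.pair_c (i := 1) (by omega)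
  | succ j ih =>
    rw [lat_ww_succ]
    exact S.lat_pair_add (by omega) (by omega) (by omega) (ih (by omega))
      (S.pair_c (i := j + 2) (by omega))

theorem lat_ω_ww (j : ℕ) {m : ℕ} (h1 : j + 2 ≤ m) (h2 : m < S.N) :
    S.ω (S.ww j) (S.c m) = if m = j + 2 then 1 else 0 := by
  induction j with
  | zero =>
    rw [lat_ww_zero, S.lat_ωcc (by omega) h2]
    split_ifs <;> omega
  | succ j ih =>
    rw [lat_ww_succ, map_add, LinearMap.add_apply, ih (by omega), S.lat_ωcc (by omega) h2]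
    split_ifs <;> omega

theorem ρ_aa_c1 {j : ℕ} (hj : j + 2 ≤ S.N) : S.ρ (aa (sh S.σ) j) (S.c 1) = S.ww j := by
  induction j with
  | zero =>
    change S.ρ 1 (S.c 1) = S.c 1
    simp
  | succ j ih =>
    change S.ρ (S.σ (j + 2) * aa (sh S.σ) j) (S.c 1) = _
    rw [S.lat_ρ_mul, ih (by omega), S.ρσ _ (by omega), S.lat_ω_ww j le_rfl (by omega), if_pos rfl,
      one_smul, lat_ww_succ]

theorem lat_ww_dual {m : ℕ} {d : H}
    (hd : ∀ j, j < S.N → S.ω (S.c j) d = if j = m then 1 else 0) {j : ℕ} (hj : j + 2 ≤ S.N) :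
    S.ω (S.ww j) d = if 1 ≤ m ∧ m ≤ j + 1 then 1 else 0 := by
  induction j with
  | zero =>
    rw [lat_ww_zero, hd 1 (by omega)]
    split_ifs <;> omega
  | succ j ih =>
    rw [lat_ww_succ, map_add, LinearMap.add_apply, ih (by omega), hd _ (by omega)]
    split_ifs <;> omega

/-- The vectors `ww (j+1) - c 1` are linearly independent. -/
theorem ww_indep (hN : Even S.N) (a : ℕ → ℤ)
    (h : ∑ j ∈ Finset.range (S.N - 2), a j • (S.ww (j + 1) - S.c 1) = 0) :
    ∀ j, j < S.N - 2 → a j = 0 := by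
  have key : ∀ M, M ≤ S.N - 2 → ∑ j ∈ Finset.range M, a j • (S.ww (j + 1) - S.c 1) = 0 →
      ∀ j, j < M → a j = 0 := by
    intro M
    induction M with
    | zero => intro _ _ j hj; omega
    | succ M ih =>
      intro hM hs
      obtain ⟨d, -, hd⟩ := S.lat_dual hN (i := M + 2) (by omega)
      have h1 : ∀ j, j ≤ M → S.ω (a j • (S.ww (j + 1) - S.c 1)) d = if j = M then a j else 0 := by
        intro j hj
        rw [map_zsmul, LinearMap.smul_apply, map_sub, LinearMap.sub_apply,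
          S.lat_ww_dual hd (by omega), hd 1 (by omega), smul_eq_mul]
        split_ifs <;> omega
      have h2 : a M = 0 := by
        have h3 := congrArg (fun x => S.ω x d) hs
        simp only [map_sum, LinearMap.sum_apply, map_zero, LinearMap.zero_apply] at h3
        rw [Finset.sum_congr rfl fun j hj => h1 j (by have := Finset.mem_range.1 hj; omega),
          Finset.sum_ite_eq', if_pos (Finset.mem_range.2 (by omega))] at h3
        exact h3
      rw [Finset.sum_range_succ, h2, zero_smul, add_zero] at hs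
      intro j hj
      by_cases hjM : j = M
      · rw [hjM, h2]
      · exact ih (by omega) hs j (by omega)
  exact key _ le_rfl h

/-- Existence of an orthogonal distinguished vector. -/
theorem exists_eta (hN : Even S.N) {ξ ζ : H} (hξ : ξ ∈ S.L) (hζ : ζ ∈ S.L) (h : S.ω ξ ζ = 1)
    (h0 : S.ω (S.c 0) ξ = 0) (h1 : S.ω (S.c 1) ξ = 0) :
    (∃ η, S.V η ∧ S.ω (S.c 0) η = 0 ∧ S.ω (S.c 1) η = 0 ∧ S.ω ξ η = 0) ∨
    (∃ j, 2 < j ∧ j ≤ S.N ∧ S.Pair (ξ + S.c 0) 2 j) := by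
  have h0' : S.ω ξ (S.c 0) = 0 := by rw [S.skew, h0, neg_zero]
  have h1' : S.ω ξ (S.c 1) = 0 := by rw [S.skew, h1, neg_zero]
  have h4 : 4 ≤ S.N := by
    by_contra hc
    have hz : ξ = 0 := by
      refine S.nondeg hN hξ fun i hi => ?_
      obtain ⟨n, hn⟩ := hN
      have : i = 0 ∨ i = 1 := by omega
      rcases this with rfl | rfl
      · exact h0'
      · exact h1'
    rw [hz] at h
    simp at h
  have m0 := S.c_mem (i := 0) (by omega)
  have m1 := S.c_mem (i := 1) (by omega)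
  have e1 : S.ω (S.c 0) (S.c 1) = 1 := S.ch1 0 (by omega)
  have e2 : S.ω (S.c 1) (S.c 0) = -1 := by rw [S.skew, e1]
  by_cases hA : ∃ j k, 3 ≤ j ∧ j < k ∧ k ≤ S.N ∧ S.pt j ξ = S.pt k ξ
  · left
    obtain ⟨j, k, hj, hjk, hk, he⟩ := hA
    obtain ⟨e, heL, hp, ho⟩ := S.exists_pair hjk hk
    have h2 := S.ω_pair hξ heL hjk.ne hp
    rw [he, CharTwo.add_self_eq_zero] at h2
    obtain ⟨m, hm⟩ := (ZMod.intCast_eq_zero_iff_even).1 h2
    obtain ⟨z, hz, z0, z1, z2⟩ : ∃ z ∈ S.L, S.ω (S.c 0) z = 0 ∧ S.ω (S.c 1) z = 0 ∧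
        S.ω ξ z = 1 := by
      refine ⟨ζ + S.ω (S.c 1) ζ • S.c 0 - S.ω (S.c 0) ζ • S.c 1,
        sub_mem (add_mem hζ (S.L.smul_mem _ m0)) (S.L.smul_mem _ m1), ?_, ?_, ?_⟩ <;>
      simp only [map_sub, map_add, map_zsmul, S.alt, e1, e2, h, h0', h1', smul_eq_mul] <;> ring
    have hL : e + (2 : ℤ) • ((-m) • z) ∈ S.L := add_mem heL (S.L.smul_mem _ (S.L.smul_mem _ hz))
    have hp' := S.lat_pair_two hp ((-m) • z)
    have hne : e + (2 : ℤ) • ((-m) • z) ≠ 0 := by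
      intro hc
      have := hp' j
      rw [hc, if_pos (Or.inl rfl), map_zero] at this
      exact zero_ne_one this
    obtain ⟨d, η, y, hd, hη, hy, hde, hηy⟩ := S.cont hN hL hne
    have hd1 : (d : ZMod 2) = 1 := by
      have h5 := hp' j
      rw [hde, if_pos (Or.inl rfl), S.pt_zsmul] at h5
      have h6 : ∀ a b : ZMod 2, a * b = 1 → a = 1 := by decide
      exact h6 _ _ h5
    have horth : ∀ x, S.ω x (e + (2 : ℤ) • ((-m) • z)) = 0 → S.ω x η = 0 := by
      intro x hx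
      rw [hde, map_zsmul, smul_eq_mul] at hx
      exact (mul_eq_zero.1 hx).resolve_left hd.ne'
    refine ⟨η, ⟨hη, ⟨y, hy, hηy⟩, j, k, hjk, hk, fun t => ?_⟩, horth _ ?_, horth _ ?_, horth _ ?_⟩
    · rw [← hp' t, hde, S.pt_zsmul, hd1, one_mul]
    · simp only [map_add, map_zsmul, ho 0 (by omega), z0, smul_zero, add_zero]
    · simp only [map_add, map_zsmul, ho 1 (by omega), z1, smul_zero, add_zero]
    · simp only [map_add, map_zsmul, hm, z2, smul_eq_mul]
      ring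
  · right
    push Not at hA
    have hN4 : S.N = 4 := by
      by_contra hc
      have h5 : ∀ a b c : ZMod 2, a ≠ b → a ≠ c → b ≠ c → False := by decide
      exact h5 _ _ _ (hA 3 4 (by omega) (by omega) (by omega))
        (hA 3 5 (by omega) (by omega) (by omega)) (hA 4 5 (by omega) (by omega) (by omega))
    have q0 := S.lat_ω_c hξ (j := 0) (by omega)
    have q1 := S.lat_ω_c hξ (j := 1) (by omega)
    rw [h0', Int.cast_zero] at q0
    rw [h1', Int.cast_zero] at q1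
    have q2 := S.pt_sum hξ
    rw [hN4] at q2
    simp only [Finset.sum_range_succ, Finset.sum_range_zero, zero_add] at q2 q0
    have q3 := hA 3 4 (by omega) (by omega) (by omega)
    have h5 : ∀ a b c d e : ZMod 2, 0 = a + b → 0 = b + c → a + b + c + d + e = 0 → d ≠ e →
        a = 1 ∧ b = 1 ∧ c = 1 ∧ ((d = 1 ∧ e = 0) ∨ (d = 0 ∧ e = 1)) := by decide
    obtain ⟨r0, r1, r2, r3⟩ := h5 _ _ _ _ _ q0 q1 q2 q3
    have hk : ∀ k : ℕ, k = 0 ∨ k = 1 ∨ k = 2 ∨ k = 3 ∨ k = 4 ∨ 4 < k := by omega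
    rcases r3 with ⟨r3, r4⟩ | ⟨r3, r4⟩
    · refine ⟨3, by omega, by omega, fun k => ?_⟩
      rw [map_add, S.pt_c 0 (by omega)]
      rcases hk k with rfl | rfl | rfl | rfl | rfl | hk'
      · rw [r0]; decide
      · rw [r1]; decide
      · rw [r2]; decide
      · rw [r3]; decide
      · rw [r4]; decide
      · rw [S.pt_gt hξ (by omega), if_neg (by omega), if_neg (by omega), add_zero]
    · refine ⟨4, by omega, by omega, fun k => ?_⟩
      rw [map_add, S.pt_c 0 (by omega)]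
      rcases hk k with rfl | rfl | rfl | rfl | rfl | hk'
      · rw [r0]; decide
      · rw [r1]; decide
      · rw [r2]; decide
      · rw [r3]; decide
      · rw [r4]; decide
      · rw [S.pt_gt hξ (by omega), if_neg (by omega), if_neg (by omega), add_zero]

end Pool.Agent.MP_00906f_gt.H46.Sys
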