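import Pool.Agent.MP_00906f_gt.H46.Stmt
import Pool.Agent.MP_00906f_gt.H46.BraidStr
import Pool.Agent.MP_00906f_gt.H46.SysLat

/-! Row FIN: from the abstract theorem to the hyperelliptic Torelli group. -/

namespace Pool.Agent.MP_00906f_gt.H46

namespace FinAux

section grp
variable {G : Type*} [Group G]

/-- `up τ j = τ 0 * ⋯ * τ (j-1)`. -/
def up (τ : ℕ → G) : ℕ → G
  | 0 => 1
  | j + 1 => up τ j * τ j

theorem up_succ (τ : ℕ → G) (j : ℕ) : up τ (j + 1) = τ 0 * up (fun i => τ (i + 1)) j := by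
  induction j with
  | zero => simp [up]
  | succ j ih => rw [up, ih, up, mul_assoc]

theorem aa_succ (τ : ℕ → G) (j : ℕ) : aa τ (j + 1) = aa (fun i => τ (i + 1)) j * τ 0 := by
  induction j with
  | zero => simp [aa]
  | succ j ih => rw [aa, ih, aa, mul_assoc]

theorem up_mem {τ : ℕ → G} {N j : ℕ} (hj : j ≤ N) : up τ j ∈ BB τ N := by
  induction j with
  | zero => exact one_mem _
  | succ j ih => exact mul_mem (ih (by omega)) (mem_BB (by omega))

theorem up_comm {τ : ℕ → G} {x : G} {j : ℕ} (h : ∀ i, i < j → x * τ i = τ i * x) :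
    x * up τ j = up τ j * x := by
  induction j with
  | zero => simp [up]
  | succ j ih =>
    rw [up, ← mul_assoc, ih fun i hi => h i (by omega), mul_assoc, h j (by omega), mul_assoc]

theorem ofFn_up (τ : ℕ → G) (n : ℕ) : (List.ofFn fun i : Fin n => τ i).prod = up τ n := by
  induction n with
  | zero => simp [up]
  | succ n ih => rw [List.ofFn_succ_last, List.prod_append, up, ← ih]; simp

theorem ofFn_aa (τ : ℕ → G) (n : ℕ) : (List.ofFn fun i : Fin n => τ i).reverse.prod = aa τ n := by
  induction n with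
  | zero => simp [aa]
  | succ n ih => rw [List.ofFn_succ_last, List.reverse_append, List.prod_append, aa, ← ih]; simp

/-- The relations of the presentation. -/
structure BH (τ : ℕ → G) (n : ℕ) : Prop where
  bf : IsBF τ n
  pw : up τ n ^ (n + 1) = 1
  sq : (up τ n * aa τ n) ^ 2 = 1
  ce : ∀ i, i < n → up τ n * aa τ n * τ i = τ i * (up τ n * aa τ n)

theorem rels_iff (g : ℕ) (F : FreeGroup (Fin (2 * g + 1)) →* G) (τ : ℕ → G)
    (hτ : ∀ i : Fin (2 * g + 1), F (.of i) = τ i) :
    (∀ r ∈ bhRels g, F r = 1) ↔ BH τ (2 * g + 1) := by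
  have hf : F ∘ FreeGroup.of = fun i : Fin (2 * g + 1) => τ i := funext hτ
  have hu : F (upWord g) = up τ (2 * g + 1) := by
    rw [upWord, map_list_prod, List.map_ofFn, hf, ofFn_up]
  have hi : F (iota g) = up τ (2 * g + 1) * aa τ (2 * g + 1) := by
    rw [iota, map_mul, hu, map_list_prod, List.map_reverse, List.map_ofFn, hf, ofFn_aa]
  constructor
  · intro h
    refine ⟨⟨fun i hi => ?_, fun i j hij hj => ?_⟩, ?_, ?_, fun i hi' => ?_⟩
    · have := h _ (Or.inl ⟨⟨i, by omega⟩, ⟨i + 1, hi⟩, rfl, rfl⟩)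
      simpa only [map_mul, map_inv, hτ, mul_inv_eq_one] using this
    · have := h _ (Or.inr (Or.inl ⟨⟨i, by omega⟩, ⟨j, hj⟩, hij, rfl⟩))
      simpa only [map_mul, map_inv, hτ, mul_inv_eq_one] using this
    · have := h _ (Or.inr (Or.inr (Or.inl rfl)))
      rwa [map_pow, hu] at this
    · have := h _ (Or.inr (Or.inr (Or.inr (Or.inl rfl))))
      rwa [map_pow, hi] at this
    · have := h _ (Or.inr (Or.inr (Or.inr (Or.inr ⟨⟨i, hi'⟩, rfl⟩))))
      simpa only [map_mul, map_inv, hτ, hi, mul_inv_eq_one] using this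
  · rintro h r (⟨i, j, hij, rfl⟩ | ⟨i, j, hij, rfl⟩ | rfl | rfl | ⟨i, rfl⟩)
    · simp only [map_mul, map_inv, hτ, mul_inv_eq_one, ← hij]
      exact h.bf.braid i (by omega)
    · simp only [map_mul, map_inv, hτ, mul_inv_eq_one]
      exact h.bf.comm i j hij j.2
    · rw [map_pow, hu]; exact h.pw
    · rw [map_pow, hi]; exact h.sq
    · simp only [map_mul, map_inv, hτ, hi, mul_inv_eq_one]
      exact h.ce i i.2

theorem up_conj {τ : ℕ → G} {n : ℕ} (h : IsBF τ n) {i m : ℕ} (hi : i + 2 ≤ m) (hm : m ≤ n) :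
    up τ m * τ i = τ (i + 1) * up τ m := by
  induction m, hi using Nat.le_induction with
  | base =>
    have h1 := up_comm (τ := τ) (x := τ (i + 1)) (j := i) fun l hl =>
      (h.comm l (i + 1) (by omega) (by omega)).symm
    have h2 := h.braid i (by omega)
    calc up τ (i + 2) * τ i = up τ i * (τ i * τ (i + 1) * τ i) := by simp only [up, mul_assoc]
      _ = up τ i * τ (i + 1) * (τ i * τ (i + 1)) := by rw [h2]; simp only [mul_assoc]
      _ = _ := by rw [← h1]; simp only [up, mul_assoc]
  | succ m hi ih =>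
    rw [up, mul_assoc, ← h.comm i m hi (by omega), ← mul_assoc, ih (by omega), mul_assoc]

theorem sq_mem {τ : ℕ → G} {m : ℕ} (h : BH τ (m + 1)) :
    τ 0 ^ 2 ∈ BB (fun i => τ (i + 1)) m := by
  have h1 : ∀ k, k < m + 1 → up τ (m + 1) ^ k * τ 0 = τ k * up τ (m + 1) ^ k := by
    intro k hk
    induction k with
    | zero => simp
    | succ k ih =>
      rw [pow_succ', mul_assoc, ih (by omega), ← mul_assoc, up_conj h.bf (by omega) le_rfl,
        mul_assoc]
  have h2 : ∀ k, k ≤ m + 1 → aa τ k * up (fun i => τ (i + 1)) m ^ k = up τ (m + 1) ^ k := by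
    intro k hk
    induction k with
    | zero => simp [aa]
    | succ k ih =>
      rw [aa, pow_succ, mul_assoc, ← mul_assoc (aa τ k), ih (by omega), ← mul_assoc,
        ← h1 k (by omega), mul_assoc, ← up_succ, pow_succ]
  have h3 : up τ (m + 1) * aa τ (m + 1) = (up (fun i => τ (i + 1)) m ^ (m + 1))⁻¹ := by
    rw [eq_inv_iff_mul_eq_one, mul_assoc, h2 _ le_rfl, ← pow_succ', h.pw]
  have h4 : aa τ (m + 1) * up τ (m + 1) = up τ (m + 1) * aa τ (m + 1) := by
    have := up_comm h.ce
    rwa [mul_assoc, mul_left_cancel_iff] at this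
  have h5 : τ 0 ^ 2 = (aa (fun i => τ (i + 1)) m)⁻¹ * (up (fun i => τ (i + 1)) m ^ (m + 1))⁻¹ *
      (up (fun i => τ (i + 1)) m)⁻¹ := by
    rw [← h3, ← h4, aa_succ, up_succ, pow_two]; group
  rw [h5]
  exact mul_mem (mul_mem (inv_mem (aa_mem le_rfl)) (inv_mem (pow_mem (up_mem le_rfl) _)))
    (inv_mem (up_mem le_rfl))

theorem B1_le {τ : ℕ → G} {m : ℕ} (h : BH τ (m + 1)) :
    B1 τ (m + 1) ≤ BB (fun i => τ (i + 1)) m := by
  rw [B1, Subgroup.closure_le]
  rintro x (⟨-, rfl⟩ | ⟨i, ⟨h1, h2⟩, rfl⟩)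
  · exact sq_mem h
  · obtain ⟨i, rfl⟩ : ∃ l, i = l + 1 := ⟨i - 1, by omega⟩
    exact mem_BB (σ := fun i => τ (i + 1)) (by omega)

end grp

variable {g : ℕ}

/-- The intersection form as a bilinear map. -/
def om (g : ℕ) : Hom1 g →ₗ[ℤ] Hom1 g →ₗ[ℤ] ℤ :=
  LinearMap.mk₂ ℤ form
    (fun x y z => by
      simp only [form, ← Finset.sum_add_distrib]
      exact Finset.sum_congr rfl fun i _ => by simp; ring)
    (fun c x y => by
      simp only [form, smul_eq_mul, Finset.mul_sum]
      exact Finset.sum_congr rfl fun i _ => by simp; ring)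
    (fun x y z => by
      simp only [form, ← Finset.sum_add_distrib]
      exact Finset.sum_congr rfl fun i _ => by simp; ring)
    (fun c x y => by
      simp only [form, smul_eq_mul, Finset.mul_sum]
      exact Finset.sum_congr rfl fun i _ => by simp; ring)

theorem om_skew (x y : Hom1 g) : om g x y = -om g y x := by
  show form x y = -form y x
  simp only [form, ← Finset.sum_neg_distrib]
  exact Finset.sum_congr rfl fun i _ => by ring

theorem om_self (x : Hom1 g) : om g x x = 0 := by have := om_skew x x; omega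

theorem om_ch1 {i : ℕ} (hi : i < 2 * g) : om g (chain g i) (chain g (i + 1)) = 1 := by
  show form _ _ = _
  rw [form, Finset.sum_eq_single (⟨i / 2, by omega⟩ : Fin g)]
  · simp only [chain]; split_ifs <;> omega
  · intro k _ hk
    have : k.val ≠ i / 2 := fun e => hk (Fin.ext e)
    simp only [chain]; split_ifs <;> omega
  · simp

theorem om_ch2 {i j : ℕ} (hij : i + 2 ≤ j) : om g (chain g i) (chain g j) = 0 := by
  show form _ _ = _
  refine Finset.sum_eq_zero fun k _ => ?_
  simp only [chain]; split_ifs <;> omega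

/-- The vector `a_m`. -/
def avec (g m : ℕ) : Hom1 g := (fun k => if m = k.val then 1 else 0, 0)

theorem sum_even (m : ℕ) : ∑ j ∈ Finset.range (m + 1), chain g (2 * j) = avec g m := by
  induction m with
  | zero =>
    rw [Finset.sum_range_one]
    refine Prod.ext (funext fun k => ?_) (funext fun k => ?_) <;>
      simp only [chain, avec, Pi.zero_apply] <;> split_ifs <;> first | omega | contradiction
  | succ m ih =>
    rw [Finset.sum_range_succ, ih]
    refine Prod.ext (funext fun k => ?_) (funext fun k => ?_) <;>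
      simp only [chain, avec, Prod.fst_add, Prod.snd_add, Pi.add_apply, Pi.zero_apply] <;>
      split_ifs <;> omega

theorem sum_zero : ∑ j ∈ Finset.range (g + 1), chain g (2 * j) = 0 := by
  rw [sum_even]
  refine Prod.ext (funext fun k => ?_) rfl
  have := k.2
  simp only [avec, Prod.fst_zero, Pi.zero_apply]; split_ifs <;> omega

theorem chain_zero : chain g 0 = -∑ j ∈ Finset.range g, chain g (2 * (j + 1)) := by
  have := sum_zero (g := g)
  rw [Finset.sum_range_succ'] at this
  exact eq_neg_of_add_eq_zero_right this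

theorem mem_of_chain (P : Submodule ℤ (Hom1 g)) (h : ∀ i, i < 2 * g → chain g (i + 1) ∈ P)
    (x : Hom1 g) : x ∈ P := by
  have h0 : ∀ i, i ≤ 2 * g → chain g i ∈ P := by
    intro i hi
    cases i with
    | zero =>
      rw [chain_zero]
      exact neg_mem (sum_mem fun j hj => h (2 * j + 1) (by have := Finset.mem_range.1 hj; omega))
    | succ i => exact h i hi
  have hx : x = ∑ k : Fin g, (x.1 k • avec g k + x.2 k • chain g (2 * k + 1)) := by
    refine Prod.ext (funext fun l => ?_) (funext fun l => ?_)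
    · rw [Prod.fst_sum, Finset.sum_apply, Finset.sum_eq_single l]
      · simp [avec, chain]
      · intro k _ hk
        have : k.val ≠ l.val := fun e => hk (Fin.ext e)
        simp only [avec, chain, Prod.fst_add, Prod.smul_fst, Pi.add_apply, Pi.smul_apply,
          smul_eq_mul]
        split_ifs <;> omega
      · simp
    · rw [Prod.snd_sum, Finset.sum_apply, Finset.sum_eq_single l]
      · simp [avec, chain]
      · intro k _ hk
        have : k.val ≠ l.val := fun e => hk (Fin.ext e)
        simp only [avec, chain, Prod.snd_add, Prod.smul_snd, Pi.add_apply, Pi.smul_apply,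
          smul_eq_mul, Pi.zero_apply]
        split_ifs <;> omega
      · simp
  rw [hx]
  refine sum_mem fun k _ => add_mem (P.smul_mem _ ?_) (P.smul_mem _ (h0 _ (by omega)))
  rw [← sum_even]
  exact sum_mem fun j hj => h0 _ (by have := Finset.mem_range.1 hj; omega)

theorem ext_chain {e f : Hom1 g ≃ₗ[ℤ] Hom1 g}
    (h : ∀ i, i < 2 * g → e (chain g (i + 1)) = f (chain g (i + 1))) : e = f :=
  LinearEquiv.ext fun x => mem_of_chain (LinearMap.eqLocus e.toLinearMap f.toLinearMap) h x

/-- The transvection in `c`. -/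
def tv (c : Hom1 g) : Hom1 g ≃ₗ[ℤ] Hom1 g where
  toFun x := x + om g x c • c
  invFun x := x - om g x c • c
  map_add' x y := by simp only [map_add, LinearMap.add_apply]; module
  map_smul' a x := by
    simp only [map_smul, LinearMap.smul_apply, smul_eq_mul, RingHom.id_apply]; module
  left_inv x := by
    simp only [map_add, map_smul, LinearMap.add_apply, LinearMap.smul_apply, om_self]; module
  right_inv x := by
    simp only [map_sub, map_smul, LinearMap.sub_apply, LinearMap.smul_apply, om_self]; module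

theorem tv_apply (c x : Hom1 g) : tv c x = x + om g x c • c := rfl

/-- The transvections of the chain. -/
def TT (g i : ℕ) : Hom1 g ≃ₗ[ℤ] Hom1 g := tv (chain g i)

theorem TT_bf : IsBF (TT g) (2 * g + 1) := by
  refine ⟨fun i hi => LinearEquiv.ext fun x => ?_, fun i j hij _ => LinearEquiv.ext fun x => ?_⟩
  · have h1 := om_ch1 (g := g) (i := i) (by omega)
    have h2 := om_skew (chain g (i + 1)) (chain g i)
    rw [h1] at h2
    simp only [TT, LinearEquiv.mul_apply, tv_apply, map_add, map_smul, h1, h2, om_self]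
    module
  · have h1 := om_ch2 (g := g) hij
    have h2 := om_skew (chain g j) (chain g i)
    rw [h1, neg_zero] at h2
    simp only [TT, LinearEquiv.mul_apply, tv_apply, map_add, map_smul, h1, h2]
    module

theorem TT_lo {i j : ℕ} (h : i + 2 ≤ j) : TT g i (chain g j) = chain g j := by
  rw [TT, tv_apply, om_skew, om_ch2 h]; simp

theorem TT_hi {i j : ℕ} (h : i + 2 ≤ j) : TT g j (chain g i) = chain g i := by
  rw [TT, tv_apply, om_ch2 h]; simp

theorem up_fix {j m : ℕ} (h : j + 1 ≤ m) : up (TT g) j (chain g m) = chain g m := by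
  induction j with
  | zero => rfl
  | succ j ih => rw [up, LinearEquiv.mul_apply, TT_lo h, ih (by omega)]

theorem aa_fix {j m : ℕ} (h : j + 1 ≤ m) : aa (TT g) j (chain g m) = chain g m := by
  induction j with
  | zero => rfl
  | succ j ih => rw [aa, LinearEquiv.mul_apply, ih (by omega), TT_lo h]

theorem up_c {i m : ℕ} (hi : i < 2 * g) (hm : i + 2 ≤ m) :
    up (TT g) m (chain g i) = chain g (i + 1) := by
  induction m, hm using Nat.le_induction with
  | base =>
    have h1 := om_ch1 hi
    have h2 := om_skew (chain g (i + 1)) (chain g i)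
    rw [h1] at h2
    have : TT g i (TT g (i + 1) (chain g i)) = chain g (i + 1) := by
      simp only [TT, tv_apply, map_add, map_smul, h1, h2, om_self]
      module
    rw [up, up, LinearEquiv.mul_apply, LinearEquiv.mul_apply, this, up_fix le_rfl]
  | succ m hm ih => rw [up, LinearEquiv.mul_apply, TT_hi hm, ih]

theorem aa_c {i m : ℕ} (hi : i < 2 * g) (hm : i + 2 ≤ m) :
    aa (TT g) m (chain g (i + 1)) = -chain g i := by
  induction m, hm using Nat.le_induction with
  | base =>
    have h1 := om_ch1 hi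
    have h2 := om_skew (chain g (i + 1)) (chain g i)
    rw [h1] at h2
    rw [aa, aa, LinearEquiv.mul_apply, LinearEquiv.mul_apply, aa_fix le_rfl]
    simp only [TT, tv_apply, map_add, map_smul, h1, h2, om_self]
    module
  | succ m hm ih => rw [aa, LinearEquiv.mul_apply, ih, map_neg, TT_hi hm]

theorem TT_BH : BH (TT g) (2 * g + 1) := by
  have hi : up (TT g) (2 * g + 1) * aa (TT g) (2 * g + 1) = LinearEquiv.neg ℤ :=
    ext_chain fun i hi => by
      rw [LinearEquiv.mul_apply, aa_c hi (by omega), map_neg, up_c hi (by omega)]; rfl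
  have hk : ∀ k, k ≤ 2 * g → (up (TT g) (2 * g + 1) ^ k) (chain g 0) = chain g k := by
    intro k hk
    induction k with
    | zero => rfl
    | succ k ih => rw [pow_succ', LinearEquiv.mul_apply, ih (by omega), up_c hk (by omega)]
  have h0 : (up (TT g) (2 * g + 1) ^ (2 * g + 1 + 1)) (chain g 0) = chain g 0 := by
    have := sum_zero (g := g)
    rw [Finset.sum_range_succ] at this
    rw [pow_succ', pow_succ', LinearEquiv.mul_apply, LinearEquiv.mul_apply, hk _ le_rfl,
      eq_neg_of_add_eq_zero_right this, map_neg, map_neg, map_sum, map_sum, chain_zero]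
    refine congrArg _ (Finset.sum_congr rfl fun j hj => ?_)
    have := Finset.mem_range.1 hj
    rw [up_c (by omega) (by omega), up_c (by omega) (by omega)]; rfl
  refine ⟨TT_bf, ext_chain fun i hi => ?_, ?_, fun i _ => ?_⟩
  · rw [← hk (i + 1) hi, ← LinearEquiv.mul_apply, pow_mul_comm, LinearEquiv.mul_apply, h0]
    rfl
  · rw [hi]; exact LinearEquiv.ext fun x => by simp [pow_two]
  · rw [hi]; exact LinearEquiv.ext fun x => by simp

/-- The points mod two. -/
def pt (g k : ℕ) : Hom1 g →+ ZMod 2 where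
  toFun x := if k ≤ 2 * g then ((∑ l : Fin g, ((if k = 2 * l.val ∨ k = 2 * l.val + 1 then x.2 l else 0) +
    if 2 * l.val + 1 ≤ k then x.1 l else 0) : ℤ) : ZMod 2) else 0
  map_zero' := by simp
  map_add' x y := by
    split_ifs
    · rw [← Int.cast_add, ← Finset.sum_add_distrib]
      refine congrArg _ (Finset.sum_congr rfl fun l _ => ?_)
      simp only [Prod.fst_add, Prod.snd_add, Pi.add_apply]
      split_ifs <;> ring
    · simp

theorem pt_avec {m : ℕ} (k : ℕ) :
    pt g k (avec g m) = if k ≤ 2 * g ∧ m < g ∧ 2 * m + 1 ≤ k then 1 else 0 := by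
  show (if k ≤ 2 * g then _ else _) = _
  by_cases hm : m < g
  · rw [Finset.sum_eq_single (⟨m, hm⟩ : Fin g)]
    · simp only [avec, Pi.zero_apply]
      split_ifs <;> first | omega | simp
    · intro l _ hl
      have : l.val ≠ m := fun e => hl (Fin.ext e)
      simp only [avec, Pi.zero_apply]
      split_ifs <;> omega
    · simp
  · rw [Finset.sum_eq_zero]
    · simp [hm]
    · intro l _
      have := l.2
      simp only [avec, Pi.zero_apply]
      split_ifs <;> omega

theorem pt_c {i : ℕ} (hi : i < 2 * g) (k : ℕ) :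
    pt g k (chain g (i + 1)) = if k = i ∨ k = i + 1 then 1 else 0 := by
  obtain ⟨m, rfl | rfl⟩ := Nat.even_or_odd' i
  · show (if k ≤ 2 * g then _ else _) = _
    rw [Finset.sum_eq_single (⟨m, by omega⟩ : Fin g)]
    · simp only [chain]
      split_ifs <;> first | omega | simp
    · intro l _ hl
      have : l.val ≠ m := fun e => hl (Fin.ext e)
      simp only [chain]
      split_ifs <;> omega
    · simp
  · have h1 := sum_even (g := g) (m + 1)
    rw [Finset.sum_range_succ, sum_even] at h1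
    have h2 : chain g (2 * m + 1 + 1) = avec g (m + 1) - avec g m := eq_sub_of_add_eq' h1
    rw [h2, map_sub, pt_avec, pt_avec]
    split_ifs <;> first | omega | decide

variable {G : Type} [Group G]

/-- The system of the last `2 g` twists. -/
def sys (τ : ℕ → G) (h : IsBF τ (2 * g + 1)) (ρ : G →* Module.End ℤ (Hom1 g))
    (hρ : ∀ i, i < 2 * g + 1 → ∀ x, ρ (τ i) x = x + om g x (chain g i) • chain g i) :
    Sys G (Hom1 g) where
  N := 2 * g
  σ i := τ (i + 1)
  c i := chain g (i + 1)
  ω := om g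
  ρ := ρ
  pt := pt g
  bf := ⟨fun i hi => h.braid (i + 1) (by omega),
    fun i j hij hj => h.comm (i + 1) (j + 1) (by omega) (by omega)⟩
  alt := om_self
  ch1 i hi := om_ch1 hi
  ch2 i j hij _ := om_ch2 (by omega)
  ρσ i hi := hρ (i + 1) (by omega)
  pt_c i hi := pt_c hi

theorem ker_le (hg : 3 ≤ g) (τ : ℕ → G) (h : BH τ (2 * g + 1)) (ρ : G →* Module.End ℤ (Hom1 g))
    (hρ : ∀ i, i < 2 * g + 1 → ∀ x, ρ (τ i) x = x + om g x (chain g i) • chain g i)
    (htop : ∀ x, x ∈ BB τ (2 * g + 1)) : ρ.ker ≤ (sys τ h.bf ρ hρ).B := by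
  intro k hk
  obtain ⟨j, hj, β, hβ, rfl⟩ := h.bf.stab (htop k)
  have hβ' : β ∈ (sys τ h.bf ρ hρ).B := B1_le h hβ
  cases j with
  | zero => exact mul_mem (one_mem _) hβ'
  | succ j =>
    exfalso
    have hb : aa (fun i => τ (i + 1)) j ∈ (sys τ h.bf ρ hρ).B :=
      aa_mem (σ := fun i => τ (i + 1)) (N := 2 * g) (by omega)
    have e : ρ (τ 0) = ρ ((aa (fun i => τ (i + 1)) j)⁻¹ * β⁻¹) := by
      have : τ 0 = (aa (fun i => τ (i + 1)) j)⁻¹ * (aa τ (j + 1) * β) * β⁻¹ := by
        rw [aa_succ]; group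
      rw [this, map_mul, map_mul, MonoidHom.mem_ker.1 hk, mul_one, map_mul]
    have hV := (sys τ h.bf ρ hρ).ρ_V (mul_mem (inv_mem hb) (inv_mem hβ'))
      ((sys τ h.bf ρ hρ).V_c (even_two_mul g) (i := 0) (show 0 < 2 * g by omega))
    obtain ⟨-, -, a, b, -, -, hp⟩ := hV
    have h1 := om_skew (chain g (0 + 1)) (chain g 0)
    rw [om_ch1 (by omega)] at h1
    have h0 : chain g 0 = avec g 0 := by simpa using sum_even (g := g) 0
    have hq : ∀ l, l = 0 ∨ l = 2 ∨ l = 3 → l = a ∨ l = b := by
      intro l hl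
      have h2 : pt g l (ρ ((aa (fun i => τ (i + 1)) j)⁻¹ * β⁻¹) (chain g (0 + 1))) = _ := hp l
      rw [← e, hρ 0 (by omega), h1, neg_one_smul, map_add, map_neg, pt_c (by omega), h0,
        pt_avec] at h2
      by_contra hn
      rw [if_neg hn] at h2
      revert h2
      split_ifs <;> first | omega | decide
    have := hq 0 (by omega)
    have := hq 2 (by omega)
    have := hq 3 (by omega)
    omega

end FinAux

open FinAux

/-- The action on homology exists. -/
theorem exists_action (g : ℕ) :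
    ∃ ρ : HypMCG g →* (Hom1 g ≃ₗ[ℤ] Hom1 g), IsHomologyAction g ρ := by
  have h := (rels_iff g (FreeGroup.lift fun i : Fin (2 * g + 1) => TT g i) (TT g)
    fun i => FreeGroup.lift_apply_of).2 TT_BH
  exact ⟨PresentedGroup.toGroup h, fun i x => by rw [PresentedGroup.toGroup.of]; rfl⟩

/-- The abstract theorem (proved in the file `FG`), as a hypothesis. -/
def AbstractFG : Prop :=
  ∀ (G H : Type) [Group G] [AddCommGroup H] (S : Sys G H) (g : ℕ), 3 ≤ g → S.N = 2 * g →
    (∀ a ∈ S.ρ.ker, ∀ b ∈ S.ρ.ker, a * b = b * a) → S.ρ.ker ≤ S.B → S.ρ.ker.FG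

theorem reduction (hA : AbstractFG) (g : ℕ) (hg : 3 ≤ g)
    (ρ : HypMCG g →* (Hom1 g ≃ₗ[ℤ] Hom1 g)) (hρ : IsHomologyAction g ρ) :
    Group.FG (Abelianization ρ.ker) := by
  let π := QuotientGroup.mk' ⁅ρ.ker, ρ.ker⁆
  let ρ₀ : HypMCG g →* Module.End ℤ (Hom1 g) :=
    LinearEquiv.automorphismGroup.toLinearMapMonoidHom.comp ρ
  have hk : ∀ x, ρ₀ x = 1 ↔ x ∈ ρ.ker := fun x =>
    ⟨fun h => LinearEquiv.ext fun y => LinearMap.congr_fun h y, fun h => by
      simp only [ρ₀, MonoidHom.comp_apply, MonoidHom.mem_ker.1 h, map_one]⟩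
  let ρ₁ : HypMCG g ⧸ ⁅ρ.ker, ρ.ker⁆ →* Module.End ℤ (Hom1 g) :=
    QuotientGroup.lift _ ρ₀ fun x hx => (hk x).2 (Subgroup.commutator_le_left _ _ hx)
  let τ : ℕ → HypMCG g ⧸ ⁅ρ.ker, ρ.ker⁆ := fun i =>
    if h : i < 2 * g + 1 then π (PresentedGroup.of ⟨i, h⟩) else 1
  have hτ : ∀ i : Fin (2 * g + 1), π (PresentedGroup.of i) = τ i := fun i => by
    simp only [τ, dif_pos i.2]
  have hB : BH τ (2 * g + 1) := (rels_iff g (π.comp (PresentedGroup.mk _)) τ hτ).1 fun r hr => by
    rw [MonoidHom.comp_apply, PresentedGroup.one_of_mem hr, map_one]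
  have h1 : ∀ i, i < 2 * g + 1 → ∀ x, ρ₁ (τ i) x = x + om g x (chain g i) • chain g i :=
    fun i hi x => by rw [← hτ ⟨i, hi⟩]; exact hρ ⟨i, hi⟩ x
  have htop : ∀ x, x ∈ BB τ (2 * g + 1) := fun x => by
    obtain ⟨y, rfl⟩ := QuotientGroup.mk'_surjective _ x
    exact PresentedGroup.generated_by _ ((BB τ (2 * g + 1)).comap π)
      (fun i => by rw [Subgroup.mem_comap, hτ]; exact mem_BB i.2) y
  have hfg : ρ₁.ker.FG := hA _ _ (sys τ hB.bf ρ₁ h1) g hg rfl (fun a ha b hb => by
    obtain ⟨x, rfl⟩ := QuotientGroup.mk'_surjective _ a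
    obtain ⟨y, rfl⟩ := QuotientGroup.mk'_surjective _ b
    rw [← commutatorElement_eq_one_iff_mul_comm, ← map_commutatorElement]
    exact (QuotientGroup.eq_one_iff _).2
      (Subgroup.commutator_mem_commutator ((hk x).1 ha) ((hk y).1 hb)))
    (ker_le hg τ hB ρ₁ h1 htop)
  let ψ : ρ.ker →* ρ₁.ker := (π.comp ρ.ker.subtype).codRestrict _ fun x => (hk x).2 x.2
  have hψ : Function.Surjective ψ := fun ⟨a, ha⟩ => by
    obtain ⟨x, rfl⟩ := QuotientGroup.mk'_surjective _ a
    exact ⟨⟨x, (hk x).1 ha⟩, rfl⟩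
  have hle : ψ.ker ≤ (Abelianization.of : ρ.ker →* _).ker := fun x hx => by
    have h2 : (x : HypMCG g) ∈ ⁅ρ.ker, ρ.ker⁆ :=
      (QuotientGroup.eq_one_iff _).1 (congrArg Subtype.val (MonoidHom.mem_ker.1 hx))
    rw [← Subgroup.map_subtype_commutator] at h2
    obtain ⟨y, hy, e⟩ := h2
    rw [Abelianization.ker_of, ← Subtype.ext e]
    exact hy
  have := (Group.fg_iff_subgroup_fg _).2 hfg
  refine Group.fg_of_surjective (f := (QuotientGroup.lift ψ.ker Abelianization.of hle).comp
    (QuotientGroup.quotientKerEquivOfSurjective ψ hψ).symm.toMonoidHom) fun z => ?_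
  obtain ⟨x, rfl⟩ : ∃ x, Abelianization.of x = z := Quot.exists_rep z
  exact ⟨QuotientGroup.quotientKerEquivOfSurjective ψ hψ x, by simp⟩

end Pool.Agent.MP_00906f_gt.H46
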