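import Pool.Agent.MP_00906f_gt.H46.Defs

/-! A checker for identities between braid words (double word reversing). -/

namespace Pool.Agent.MP_00906f_gt.H46

/-- Braid expressions. -/
inductive BW : Type
  | g : ℕ → BW
  | one : BW
  | mul : BW → BW → BW
  | inv : BW → BW
  | pow : BW → ℕ → BW

namespace BW

instance : Mul BW := ⟨BW.mul⟩
instance : Inv BW := ⟨BW.inv⟩
instance : Pow BW ℕ := ⟨BW.pow⟩

def eval {G : Type*} [Group G] (σ : ℕ → G) : BW → G
  | g i => σ i
  | one => 1
  | mul a b => eval σ a * eval σ b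
  | inv a => (eval σ a)⁻¹
  | pow a n => eval σ a ^ n

def invL (w : List (ℕ × Bool)) : List (ℕ × Bool) := (w.map fun x => (x.1, !x.2)).reverse

def powL (w : List (ℕ × Bool)) : ℕ → List (ℕ × Bool)
  | 0 => []
  | n + 1 => w ++ powL w n

def toL : BW → List (ℕ × Bool)
  | g i => [(i, true)]
  | one => []
  | mul a b => toL a ++ toL b
  | inv a => invL (toL a)
  | pow a n => powL (toL a) n

def lt1 {G : Type*} [Group G] (σ : ℕ → G) (x : ℕ × Bool) : G :=
  match x.2 with
  | true => σ x.1
  | false => (σ x.1)⁻¹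

def ev {G : Type*} [Group G] (σ : ℕ → G) (w : List (ℕ × Bool)) : G := (w.map (lt1 σ)).prod

variable {G : Type*} [Group G] (σ : ℕ → G)

@[simp] theorem ev_nil : ev σ [] = 1 := rfl
@[simp] theorem ev_cons (x : ℕ × Bool) (w : List (ℕ × Bool)) :
    ev σ (x :: w) = lt1 σ x * ev σ w := by simp [ev]
theorem ev_append (u w : List (ℕ × Bool)) : ev σ (u ++ w) = ev σ u * ev σ w := by simp [ev]

theorem ev_invL (w : List (ℕ × Bool)) : ev σ (invL w) = (ev σ w)⁻¹ := by
  induction w with
  | nil => simp [invL]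
  | cons x w ih =>
    have : invL (x :: w) = invL w ++ [(x.1, !x.2)] := by simp [invL]
    rw [this, ev_append, ih]
    obtain ⟨i, b⟩ := x
    cases b <;> simp [lt1]

theorem ev_powL (w : List (ℕ × Bool)) (n : ℕ) : ev σ (powL w n) = ev σ w ^ n := by
  induction n with
  | zero => simp [powL]
  | succ n ih => rw [powL, ev_append, ih, pow_succ']

theorem ev_toL (e : BW) : ev σ (toL e) = eval σ e := by
  induction e with
  | g i => simp [toL, eval, lt1]
  | one => simp [toL, eval]
  | mul a b iha ihb => rw [toL, ev_append, iha, ihb, eval]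
  | inv a ih => rw [toL, ev_invL, ih, eval]
  | pow a n ih => rw [toL, ev_powL, ih, eval]

/-- product of a stack of positive letters (top of the stack on the right) -/
def evP : List ℕ → G
  | [] => 1
  | i :: l => evP l * σ i

/-- product of a stack of negative letters (top of the stack on the right) -/
def evN : List ℕ → G
  | [] => 1
  | i :: l => evN l * (σ i)⁻¹

/-- word reversing with fuel -/
def rev : ℕ → List ℕ → List ℕ → List (ℕ × Bool) → Option (List ℕ × List ℕ)
  | 0, _, _, _ => none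
  | _ + 1, p, n, [] => some (p, n)
  | f + 1, p, n, (i, false) :: r => rev f p (i :: n) r
  | f + 1, p, [], (i, true) :: r => rev f (i :: p) [] r
  | f + 1, p, k :: n, (i, true) :: r =>
    if k = i then rev f p n r
    else if k + 1 = i ∨ i + 1 = k then
      rev f p n ((i, true) :: (k, true) :: (i, false) :: (k, false) :: r)
    else rev f p n ((i, true) :: (k, false) :: r)

variable {σ} {N : ℕ}

theorem adj_rule (h : IsBF σ N) {i k : ℕ} (hi : i < N) (hk : k < N) (hik : k + 1 = i ∨ i + 1 = k) :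
    (σ k)⁻¹ * σ i = σ i * (σ k * ((σ i)⁻¹ * (σ k)⁻¹)) := by
  have key : σ k * σ i * σ k = σ i * σ k * σ i := by
    rcases hik with rfl | rfl
    · exact h.braid k hi
    · exact (h.braid i hk).symm
  calc (σ k)⁻¹ * σ i = (σ k)⁻¹ * (σ i * σ k * σ i) * ((σ i)⁻¹ * (σ k)⁻¹) := by group
    _ = (σ k)⁻¹ * (σ k * σ i * σ k) * ((σ i)⁻¹ * (σ k)⁻¹) := by rw [key]
    _ = _ := by group

theorem far_rule (h : IsBF σ N) {i k : ℕ} (hi : i < N) (hk : k < N) (h1 : k ≠ i)
    (hik : ¬ (k + 1 = i ∨ i + 1 = k)) : (σ k)⁻¹ * σ i = σ i * (σ k)⁻¹ := by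
  have key : σ k * σ i = σ i * σ k := by
    rcases lt_or_gt_of_ne h1 with h2 | h2
    · exact h.comm k i (by omega) hi
    · exact (h.comm i k (by omega) hk).symm
  calc (σ k)⁻¹ * σ i = (σ k)⁻¹ * (σ i * σ k) * (σ k)⁻¹ := by group
    _ = (σ k)⁻¹ * (σ k * σ i) * (σ k)⁻¹ := by rw [key]
    _ = _ := by group

theorem rev_sound (h : IsBF σ N) : ∀ (f : ℕ) (p n : List ℕ) (r : List (ℕ × Bool))
    (p' n' : List ℕ), (∀ i ∈ p, i < N) → (∀ i ∈ n, i < N) → (∀ x ∈ r, x.1 < N) →
    rev f p n r = some (p', n') →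
    evP σ p * evN σ n * ev σ r = evP σ p' * evN σ n' ∧ (∀ i ∈ p', i < N) ∧ (∀ i ∈ n', i < N) := by
  intro f
  induction f with
  | zero => intro p n r p' n' _ _ _ hr; simp [rev] at hr
  | succ f ih =>
    intro p n r p' n' hp hn hr hrev
    match r, n with
    | [], n =>
      simp only [rev, Option.some.injEq, Prod.mk.injEq] at hrev
      obtain ⟨rfl, rfl⟩ := hrev
      exact ⟨by simp, hp, hn⟩
    | (i, false) :: r, n =>
      simp only [rev] at hrev
      have hi : i < N := hr (i, false) (by simp)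
      obtain ⟨h1, h2⟩ := ih p (i :: n) r p' n' hp
        (by intro j hj; rcases List.mem_cons.1 hj with rfl | hj; exacts [hi, hn j hj])
        (fun x hx => hr x (List.mem_cons_of_mem _ hx)) hrev
      refine ⟨?_, h2⟩
      rw [← h1]; simp [evN, lt1, mul_assoc]
    | (i, true) :: r, [] =>
      simp only [rev] at hrev
      have hi : i < N := hr (i, true) (by simp)
      obtain ⟨h1, h2⟩ := ih (i :: p) [] r p' n'
        (by intro j hj; rcases List.mem_cons.1 hj with rfl | hj; exacts [hi, hp j hj]) hn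
        (fun x hx => hr x (List.mem_cons_of_mem _ hx)) hrev
      refine ⟨?_, h2⟩
      rw [← h1]; simp [evN, evP, lt1, mul_assoc]
    | (i, true) :: r, k :: n =>
      simp only [rev] at hrev
      have hi : i < N := hr (i, true) (by simp)
      have hk : k < N := hn k (by simp)
      have hn' : ∀ j ∈ n, j < N := fun j hj => hn j (List.mem_cons_of_mem _ hj)
      have hr' : ∀ x ∈ r, x.1 < N := fun x hx => hr x (List.mem_cons_of_mem _ hx)
      split_ifs at hrev with h1 h2
      · subst h1
        obtain ⟨h1, h2⟩ := ih p n r p' n' hp hn' hr' hrev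
        refine ⟨?_, h2⟩
        rw [← h1]; simp [evN, lt1, mul_assoc]
      · obtain ⟨h3, h4⟩ := ih p n _ p' n' hp hn' (by
          intro x hx
          simp only [List.mem_cons] at hx
          rcases hx with rfl | rfl | rfl | rfl | hx
          exacts [hi, hk, hi, hk, hr' x hx]) hrev
        refine ⟨?_, h4⟩
        rw [← h3]
        have := adj_rule h hi hk h2
        simp only [evN, ev_cons, lt1, mul_assoc]
        rw [← mul_assoc (σ k)⁻¹, this]; simp only [mul_assoc]
      · obtain ⟨h3, h4⟩ := ih p n _ p' n' hp hn' (by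
          intro x hx
          simp only [List.mem_cons] at hx
          rcases hx with rfl | rfl | hx
          exacts [hi, hk, hr' x hx]) hrev
        refine ⟨?_, h4⟩
        rw [← h3]
        have := far_rule h hi hk h1 h2
        simp only [evN, ev_cons, lt1, mul_assoc]
        rw [← mul_assoc (σ k)⁻¹, this]; simp only [mul_assoc]

theorem ev_pos (p : List ℕ) : ev σ (p.reverse.map fun i => (i, true)) = evP σ p := by
  induction p with
  | nil => rfl
  | cons i p ih => rw [List.reverse_cons, List.map_append, ev_append, ih]; simp [evP, lt1]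

/-- The test: `M` bounds the letters, `f` is the fuel. -/
def test (M f : ℕ) (a b : BW) : Bool :=
  let w := toL a ++ invL (toL b)
  w.all (fun x => decide (x.1 < M)) &&
  match rev f [] [] w with
  | none => false
  | some (p, n) =>
    match rev f [] n (p.reverse.map fun i => (i, true)) with
    | some ([], []) => true
    | _ => false

theorem eq_of_test (h : IsBF σ N) (M f : ℕ) (a b : BW) (hM : M ≤ N) (ht : test M f a b = true) :
    eval σ a = eval σ b := by
  unfold test at ht
  simp only [Bool.and_eq_true, List.all_eq_true, decide_eq_true_eq] at ht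
  obtain ⟨hw, ht⟩ := ht
  have hw' : ∀ x ∈ toL a ++ invL (toL b), x.1 < N := fun x hx => lt_of_lt_of_le (hw x hx) hM
  split at ht
  · simp at ht
  · rename_i p n h1
    obtain ⟨e1, hp, hn⟩ := rev_sound h f [] [] _ p n (by simp) (by simp) hw' h1
    split at ht
    · rename_i h2
      obtain ⟨e2, -⟩ := rev_sound h f [] n _ [] [] (by simp) hn (by
        intro x hx
        simp only [List.mem_map, List.mem_reverse] at hx
        obtain ⟨i, hi, rfl⟩ := hx
        exact hp i hi) h2
      rw [ev_pos] at e2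
      rw [ev_append, ev_invL, ev_toL, ev_toL] at e1
      simp only [evP, evN, one_mul, mul_one] at e1 e2
      have e3 : evP σ p * evN σ n = 1 := by
        rw [mul_eq_one_iff_eq_inv] at e2 ⊢
        rw [e2, inv_inv]
      rw [e3, mul_inv_eq_one] at e1
      exact e1
    · simp at ht

/-- `yy` as a braid expression. -/
def Y : ℕ → BW
  | 0 => (g 0 * g 1) ^ 3
  | j + 1 => g (j + 2) * Y j * (g (j + 2))⁻¹

/-- `nn` as a braid expression. -/
def NN : BW := g 2 * g 3 * g 1 * g 2 * g 0 * g 1

end BW

open BW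

variable {G : Type*} [Group G] {σ : ℕ → G} {N : ℕ}

/- Usage pattern: `have := eq_of_test h M fuel lhs rhs hM (by decide +kernel); exact this`. -/

theorem IsBF.D4_eq (h : IsBF σ N) (hN : 3 ≤ N) :
    (σ 0 * σ 1 * σ 2) ^ 4 = (σ 0 ^ 2)⁻¹ * yy σ 0 * yy σ 1 * σ 2 ^ 2 := by
  have := eq_of_test h 3 100000 ((g 0 * g 1 * g 2) ^ 4) ((g 0 ^ 2)⁻¹ * Y 0 * Y 1 * g 2 ^ 2) hN
    (by decide +kernel)
  exact this

theorem IsBF.cc012 (h : IsBF σ N) (hN : 4 ≤ N) : cc σ 0 1 2 = T5 σ * (T3 (sh σ))⁻¹ := by
  have := eq_of_test h 4 100000 ((Y 0 * Y 1 * Y 2) ^ 2 * (g 0 ^ 8)⁻¹)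
    ((g 0 * g 1 * g 2 * g 3) ^ 10 * ((g 2 * g 3) ^ 6)⁻¹) hN (by decide +kernel)
  exact this

end Pool.Agent.MP_00906f_gt.H46
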