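import Pool.Agent.MP_00906f_gt.H46.GA3

/-! The double coset of adjacent arcs and the lifting of triangles, in group form. -/

set_option linter.unusedSimpArgs false

namespace Pool.Agent.MP_00906f_gt.H46

namespace Sys

open BW

variable {G H : Type*} [Group G] [AddCommGroup H] (S : Sys G H)

/-- `σ 0 * σ 1` -/
abbrev δ : G := S.σ 0 * S.σ 1

/-- The double coset `J δ J`. -/
def D (x : G) : Prop := ∃ j ∈ S.J, ∃ j' ∈ S.J, x = j * S.δ * j'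

variable {S}

theorem D.left {x j : G} (h : S.D x) (hj : j ∈ S.J) : S.D (j * x) := by
  obtain ⟨a, ha, b, hb, rfl⟩ := h
  exact ⟨j * a, mul_mem hj ha, b, hb, by group⟩

theorem D.right {x j : G} (h : S.D x) (hj : j ∈ S.J) : S.D (x * j) := by
  obtain ⟨a, ha, b, hb, rfl⟩ := h
  exact ⟨a, ha, b * j, mul_mem hb hj, by group⟩

variable (S)

theorem D_δ : S.D S.δ := ⟨1, one_mem _, 1, one_mem _, by simp⟩

theorem s_mem_J : S.σ 0 ∈ S.J := S.Ga_mem_J s_mem_Ga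

theorem δ_mem (h2 : 2 ≤ S.N) : S.δ ∈ S.B := mul_mem (mem_BB (by omega)) (mem_BB (by omega))

variable {S}

theorem D.mem_B (h2 : 2 ≤ S.N) {x : G} (h : S.D x) : x ∈ S.B := by
  obtain ⟨a, ha, b, hb, rfl⟩ := h
  exact mul_mem (mul_mem (S.J_le_B h2 ha) (S.δ_mem h2)) (S.J_le_B h2 hb)

theorem D.inv (h2 : 2 ≤ S.N) {x : G} (h : S.D x) : S.D x⁻¹ := by
  obtain ⟨a, ha, b, hb, rfl⟩ := h
  have e : S.δ⁻¹ = (yy S.σ 0)⁻¹ * S.σ 0 * S.δ * S.σ 0 := by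
    have := eq_of_test S.bf 2 1000 ((g 0 * g 1)⁻¹) ((Y 0)⁻¹ * g 0 * (g 0 * g 1) * g 0) h2
      (by decide +kernel)
    exact this
  have h1 : S.D S.δ⁻¹ := by
    rw [e]
    exact ⟨_, mul_mem (inv_mem (S.Ga_mem_J y0_mem_Ga)) S.s_mem_J, _, S.s_mem_J, rfl⟩
  have := (h1.left (inv_mem hb)).right (inv_mem ha)
  simpa [mul_assoc] using this

theorem D.vec (h2 : 2 ≤ S.N) {x : G} (h : S.D x) :
    ∃ j ∈ S.J, PM (S.ρ x (S.c 0)) (S.ρ j (S.c 1)) ∧ ∃ j' ∈ S.J, x = j * S.δ * j' := by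
  obtain ⟨a, ha, b, hb, rfl⟩ := h
  refine ⟨a, ha, ?_, b, hb, rfl⟩
  rw [ρ_mul, ρ_mul, ← S.ρ_δ_c0 h2]
  exact ((S.J_c0 h2 hb).map _).map _

theorem D.omega (h2 : 2 ≤ S.N) {x : G} (h : S.D x) : |S.ω (S.c 0) (S.ρ x (S.c 0))| = 1 := by
  obtain ⟨j, hj, h1, -⟩ := h.vec h2
  rw [S.PM_ω (S.J_c0 h2 hj).symm h1, S.ρ_ω (S.J_le_B h2 hj), S.ω01 h2, abs_one]

theorem CC_δ (h2 : 2 ≤ S.N) {c : G} (hc : c ∈ CC S.σ S.N) : c * S.δ = S.δ * c := by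
  obtain ⟨h0, h1⟩ := S.bf.CC_comm h2 hc
  rw [← mul_assoc, h0, mul_assoc, h1, mul_assoc]

theorem CC_mem_J (h2 : 2 ≤ S.N) {c : G} (hc : c ∈ CC S.σ S.N) : c ∈ S.J :=
  S.Ga_mem_J (S.bf.CC_le_Ga h2 hc)

theorem D.uniq (hN : Even S.N) (h2 : 2 ≤ S.N) {b b' : G} (h : S.D b) (h' : S.D b')
    (e : PM (S.ρ b (S.c 0)) (S.ρ b' (S.c 0))) : b⁻¹ * b' ∈ S.J := by
  obtain ⟨j, hj, h1, j1, hj1, rfl⟩ := h.vec h2
  obtain ⟨j', hj', h1', j2, hj2, rfl⟩ := h'.vec h2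
  have h3 : PM (S.ρ (j⁻¹ * j') (S.c 1)) (S.c 1) := by
    have := (h1'.symm.trans (e.symm.trans h1)).map (S.ρ j⁻¹)
    rwa [ρ_inv_ρ, ← ρ_mul] at this
  obtain ⟨k, hk, g, hg, e1⟩ := S.J_form h2 (mul_mem (inv_mem hj) hj')
  rw [e1, ρ_mul, S.ρ_of_ker (S.K0_le_ker hk)] at h3
  obtain ⟨k', hk', c, hc, rfl⟩ := S.C2 hN h2 hg h3
  have e2 : (j * S.δ * j1)⁻¹ * (j' * S.δ * j2) =
      j1⁻¹ * (S.δ⁻¹ * (k * k') * S.δ⁻¹⁻¹) * c * j2 := by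
    calc (j * S.δ * j1)⁻¹ * (j' * S.δ * j2) = j1⁻¹ * S.δ⁻¹ * (j⁻¹ * j') * S.δ * j2 := by group
      _ = j1⁻¹ * S.δ⁻¹ * (k * k') * (c * S.δ) * j2 := by rw [e1]; group
      _ = _ := by rw [CC_δ h2 hc]; group
  rw [e2]
  exact mul_mem (mul_mem (mul_mem (inv_mem hj1) (S.K0_mem_J (K0_conj (inv_mem (S.δ_mem h2))
    (mul_mem hk (S.bf.LL_le_K0 hk'))))) (CC_mem_J h2 hc)) hj2

theorem D_lift (hN : Even S.N) (h2 : 2 ≤ S.N) {w : H} (hw : S.V w) (h : |S.ω (S.c 0) w| = 1) :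
    ∃ b, S.D b ∧ PM (S.ρ b (S.c 0)) w := by
  obtain ⟨g, hg, e⟩ := S.C1 hN h2 hw h
  exact ⟨g * S.δ, S.D_δ.left (S.Ga_mem_J hg), by rw [ρ_mul, S.ρ_δ_c0 h2]; exact e⟩

theorem D.std_of (hN : Even S.N) (h2 : 2 ≤ S.N) {b b' : G} (h : S.D b) (h' : S.D b')
    (e : PM (S.ρ b' (S.c 0)) (S.ρ b (S.c 0))) (h3 : S.D (S.δ⁻¹ * b')) : S.D (S.δ⁻¹ * b) := by
  have := h3.right (h'.uniq hN h2 h e)
  simpa [mul_assoc] using this

theorem D.std_CC (h2 : 2 ≤ S.N) {b c : G} (hc : c ∈ CC S.σ S.N) (h : S.D (S.δ⁻¹ * (c⁻¹ * b))) :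
    S.D (S.δ⁻¹ * b) := by
  have := h.left (CC_mem_J h2 hc)
  have e : c * (S.δ⁻¹ * (c⁻¹ * b)) = S.δ⁻¹ * b := by
    calc c * (S.δ⁻¹ * (c⁻¹ * b)) = c * (c * S.δ)⁻¹ * b := by group
      _ = _ := by rw [CC_δ h2 hc]; group
  rwa [e] at this

theorem D_conj_zpow (h2 : 2 ≤ S.N) {a : G} (h : S.D (S.δ⁻¹ * (a * S.δ))) {e : ℤ} (he : |e| = 1) :
    S.D (S.δ⁻¹ * (a ^ e * S.δ)) := by
  rcases abs_one_cases he with rfl | rfl
  · simpa using h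
  · have := h.inv h2
    simpa [mul_assoc] using this

/-- The additive triangle lifts. -/
theorem D.std_zero (hN : Even S.N) (h2 : 2 ≤ S.N) {b : G} (h : S.D b) {e : ℤ} (he : |e| = 1)
    (hb : PM (S.ρ b (S.c 0)) (S.c 1 + e • S.c 0)) : S.D (S.δ⁻¹ * b) := by
  refine h.std_of hN h2 (b' := S.σ 0 ^ (-e) * S.δ) (S.D_δ.left (zpow_mem S.s_mem_J _)) ?_ ?_
  · refine PM.trans (Or.inl ?_) hb.symm
    rw [ρ_mul, S.ρ_δ_c0 h2, S.ρσ_zpow (by omega), S.ω10 h2]; module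
  · refine D_conj_zpow h2 ?_ (by rw [abs_neg, he])
    have e1 : S.δ⁻¹ * (S.σ 0 * S.δ) = S.δ * (S.σ 0)⁻¹ := by
      have := eq_of_test S.bf 2 1000 ((g 0 * g 1)⁻¹ * (g 0 * (g 0 * g 1)))
        ((g 0 * g 1) * (g 0)⁻¹) h2 (by decide +kernel)
      exact this
    rw [e1]
    exact S.D_δ.right (inv_mem S.s_mem_J)

theorem D.std_c2 (hN : Even S.N) (h4 : 4 ≤ S.N) {b : G} (h : S.D b) {e : ℤ} (he : |e| = 1)
    (hb : PM (S.ρ b (S.c 0)) (S.c 1 + e • S.c 2)) : S.D (S.δ⁻¹ * b) := by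
  have h2 : 2 ≤ S.N := by omega
  have hs : S.σ 2 ∈ S.J :=
    S.Ga_mem_J (Subgroup.subset_closure (Or.inr ⟨2, ⟨by omega, by omega⟩, rfl⟩))
  refine h.std_of hN h2 (b' := S.σ 2 ^ e * S.δ) (S.D_δ.left (zpow_mem hs _)) ?_ ?_
  · refine PM.trans (Or.inl ?_) hb.symm
    rw [ρ_mul, S.ρ_δ_c0 h2, S.ρσ_zpow (by omega), S.ch1 1 (by omega), mul_one]
  · refine D_conj_zpow h2 ?_ he
    have e1 : S.δ⁻¹ * (S.σ 2 * S.δ) = S.σ 2 * (S.σ 0)⁻¹ * S.δ * (S.σ 2)⁻¹ := by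
      have := eq_of_test S.bf 3 1000 ((g 0 * g 1)⁻¹ * (g 2 * (g 0 * g 1)))
        (g 2 * (g 0)⁻¹ * (g 0 * g 1) * (g 2)⁻¹) (by omega) (by decide +kernel)
      exact this
    rw [e1]
    exact ⟨_, mul_mem hs (inv_mem S.s_mem_J), _, inv_mem hs, rfl⟩

variable (S)

/-- Projection of a dual vector to the orthogonal complement of `c 0, c 1`. -/
theorem proj_dual (h2 : 2 ≤ S.N) {x ζ : H} (hζ : ζ ∈ S.L) (h0 : S.ω (S.c 0) x = 0)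
    (h1 : S.ω (S.c 1) x = 0) :
    ∃ ζ' ∈ S.L, S.ω (S.c 0) ζ' = 0 ∧ S.ω (S.c 1) ζ' = 0 ∧ S.ω x ζ' = S.ω x ζ := by
  refine ⟨ζ - S.ω (S.c 0) ζ • S.c 1 + S.ω (S.c 1) ζ • S.c 0,
    add_mem (sub_mem hζ (Submodule.smul_mem _ _ (S.c_mem (by omega))))
      (Submodule.smul_mem _ _ (S.c_mem (by omega))), ?_, ?_, ?_⟩
  · simp [S.ω01 h2, S.alt]
  · simp [S.ω10 h2, S.alt]
  · simp [S.skew x (S.c 0), S.skew x (S.c 1), h0, h1]

theorem four_le (hN : Even S.N) {x : H} (hx : S.shift.V x) : 4 ≤ S.N := by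
  obtain ⟨-, -, i, j, hij, hj, -⟩ := hx
  obtain ⟨k, hk⟩ := hN
  have : j ≤ S.N - 2 := hj
  omega

theorem eq_of_perp_c1 (h2 : 2 ≤ S.N) {x y : H} {j : ℤ} (e : x = y + j • S.c 0)
    (hx : S.ω (S.c 1) x = 0) (hy : S.ω (S.c 1) y = 0) : x = y := by
  rw [e, map_add, map_smul, hy, S.ω10 h2] at hx
  have : j = 0 := by simpa using hx
  rw [e, this, zero_smul, add_zero]

theorem CC_perp (h2 : 2 ≤ S.N) {c : G} (hc : c ∈ CC S.σ S.N) {x : H} (hx : S.ω (S.c 1) x = 0) :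
    S.ω (S.c 1) (S.ρ c x) = 0 := by
  have := S.PM_ω (S.CC_c1 h2 hc).symm (PM.refl (S.ρ c x))
  rw [S.ρ_ω (Ga_le_BB h2 (S.bf.CC_le_Ga h2 hc)), hx, abs_zero, abs_eq_zero] at this
  exact this

variable {S}

/-- Triangles with primitive radical lift. -/
theorem D.std_prim (hN : Even S.N) (h2 : 2 ≤ S.N)
    (hTr : ∀ z, S.shift.V z → ∃ b ∈ S.shift.B, PM (S.ρ b (S.c 2)) z)
    {b : G} (h : S.D b) {e : ℤ} (he : |e| = 1) {x ζ : H} (hζ : ζ ∈ S.L)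
    (h0 : S.ω (S.c 0) x = 0) (h1 : S.ω (S.c 1) x = 0) (hx : S.ω x ζ = 1)
    (hb : PM (S.ρ b (S.c 0)) (S.c 1 + e • S.c 0 + x)) : S.D (S.δ⁻¹ * b) := by
  have hV : S.V (S.c 1 + e • S.c 0 + x) := by
    have := S.ρ_V (h.mem_B h2) (S.V_c hN (by omega : 0 < S.N))
    rcases hb with hb | hb
    · rwa [hb] at this
    · rw [hb] at this; simpa using S.V_neg this
  obtain ⟨ζ', hζ', z0, z1, z2⟩ := S.proj_dual h2 hζ h0 h1
  rw [hx] at z2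
  obtain ⟨j, hj, y, hy, hy0, e', hw⟩ := S.nb_form h2 hV (by simp [S.ω01 h2, S.alt, h0])
  obtain ⟨y', hy', i, rfl⟩ := S.decomp hN h2 hy hy0
  have hx' : x = (S.ww j - S.c 1 + (2 : ℤ) • y') + (2 * i + e' - e) • S.c 0 := by
    have : x = S.c 1 + e • S.c 0 + x - S.c 1 - e • S.c 0 := by abel
    rw [this, hw]; module
  have hL : S.ww j - S.c 1 + (2 : ℤ) • y' ∈ S.shift.L :=
    add_mem (S.ww_sub_mem hj) (Submodule.smul_mem _ _ hy')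
  have z3 : S.ω (S.ww j - S.c 1 + (2 : ℤ) • y') ζ' = 1 := by
    rw [hx', map_add, LinearMap.add_apply, map_smul, LinearMap.smul_apply, z0] at z2
    simpa using z2
  have hj0 : j ≠ 0 := by
    rintro rfl
    simp only [ww, sub_self, zero_add, map_smul, LinearMap.smul_apply, smul_eq_mul] at z3
    omega
  have hp : S.Pair (S.ww j - S.c 1 + (2 : ℤ) • y') 2 (j + 2) := by
    intro k
    rw [map_add, S.pt_two, map_sub, S.pair_ww hj, S.pt_c 1 (by omega)]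
    split_ifs <;> first | omega | decide
  have hV' : S.shift.V (S.ww j - S.c 1 + (2 : ℤ) • y') :=
    (S.V_shift hN h2 hL).2 ⟨S.shift_L_le hL, ⟨ζ', hζ', z3⟩, 2, j + 2, by omega, hj, hp⟩
  have h4 := S.four_le hN hV'
  obtain ⟨β, hβ, hc | hc⟩ := S.shift.TR (by simp only [shift]; omega) hTr hV'
  swap
  · exfalso
    have h5 : S.pt 2 (S.ww j - S.c 1 + (2 : ℤ) • y') = 0 := hc.1
    rw [hp, if_pos (Or.inl rfl)] at h5
    exact absurd h5 (by decide)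
  obtain ⟨c, hcC, hc'⟩ := S.CC_lift h2 hβ
  obtain ⟨m, hm⟩ := hc' (S.c 2) (S.shift.c_mem (i := 0) (by simp only [shift]; omega))
  have hβ2 : PM (S.ρ β (S.c 2)) (S.ww j - S.c 1 + (2 : ℤ) • y') := hc.2
  have p0 : S.ω (S.c 1) (S.c 2 + S.c 0) = 0 := by
    simp [S.ch1 1 (by omega), S.ω10 h2]
  obtain ⟨t, ht⟩ : ∃ t : ℤ, S.ρ c (S.c 0) = t • S.c 0 := by
    rcases S.Ga_c0 h2 (S.bf.CC_le_Ga h2 hcC) with h | h
    exacts [⟨1, by rw [h, one_smul]⟩, ⟨-1, by rw [h]; simp⟩]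
  have hh : PM (S.ρ c (S.c 2 + S.c 0)) x := by
    have q := S.CC_perp h2 hcC p0
    rcases hβ2 with h5 | h5
    · left
      refine S.eq_of_perp_c1 h2 (j := 2 * m + t - (2 * i + e' - e)) ?_ q h1
      rw [map_add, hm, h5, ht, hx']; module
    · right
      refine S.eq_of_perp_c1 h2 (j := 2 * m + t + (2 * i + e' - e)) ?_ q (by simp [h1])
      rw [map_add, hm, h5, ht, hx']; module
  -- the two possible signs
  have hy0 : S.ρ (yy S.σ 0) (S.c 2 + S.c 0) = S.c 2 + S.c 0 := by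
    rw [S.ρ_y0 h2, Rf, p0]
    simp [S.alt, S.ch2 0 2 (by omega) (by omega)]
  have key : ∀ c ∈ CC S.σ S.N, ∀ t : ℤ, S.ρ c (S.c 0) = t • S.c 0 → S.ρ c (S.c 1) = t • S.c 1 →
      |t| = 1 → S.ρ c (S.c 2 + S.c 0) = (-e * t) • x → S.D (S.δ⁻¹ * b) := by
    intro c hc t t0 t1 ht hcx
    refine D.std_CC h2 hc (D.std_c2 hN h4 (h.left (inv_mem (CC_mem_J h2 hc))) (e := -e)
      (by rw [abs_neg, he]) ?_)
    rw [ρ_mul]
    refine (hb.map _).trans ?_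
    have e1 : S.ρ c (S.c 1 + (-e) • S.c 2) = t • (S.c 1 + e • S.c 0 + x) := by
      have e2 : S.c 1 + (-e) • S.c 2 = S.c 1 + e • S.c 0 + (-e) • (S.c 2 + S.c 0) := by module
      rw [e2, map_add, map_add, map_smul, map_smul, t0, t1, hcx]
      rcases abs_one_cases he with rfl | rfl <;> module
    rcases abs_one_cases ht with rfl | rfl
    · left; rw [one_smul] at e1; rw [← e1, ρ_inv_ρ]
    · right
      have : S.c 1 + e • S.c 0 + x = -S.ρ c (S.c 1 + (-e) • S.c 2) := by rw [e1]; module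
      rw [this, map_neg, ρ_inv_ρ]
  have hcy : c * yy S.σ 0 ∈ CC S.σ S.N := mul_mem hcC S.y0_mem_CC
  have y00 : S.ρ (yy S.σ 0) (S.c 0) = -S.c 0 := by rw [S.ρ_y0 h2, S.Rf_c0 (S.ω01 h2)]
  have y01 : S.ρ (yy S.σ 0) (S.c 1) = -S.c 1 := by rw [S.ρ_y0 h2, S.Rf_self (S.ω01 h2)]
  obtain ⟨t, t0, t1, ht⟩ : ∃ t : ℤ, S.ρ c (S.c 0) = t • S.c 0 ∧ S.ρ c (S.c 1) = t • S.c 1 ∧
      |t| = 1 := by
    rcases S.CC_c h2 hcC with ⟨a0, a1⟩ | ⟨a0, a1⟩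
    exacts [⟨1, by simp [a0], by simp [a1], rfl⟩, ⟨-1, by simp [a0], by simp [a1], rfl⟩]
  have hcase : S.ρ c (S.c 2 + S.c 0) = (-e * t) • x ∨ S.ρ c (S.c 2 + S.c 0) = (-e * -t) • x := by
    rcases abs_one_cases he with rfl | rfl <;> rcases abs_one_cases ht with rfl | rfl <;>
      rcases hh with hh | hh <;> simp [hh]
  rcases hcase with hc1 | hc1
  · exact key c hcC t t0 t1 ht hc1
  · refine key _ hcy (-t) ?_ ?_ (by rw [abs_neg, ht]) ?_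
    · rw [ρ_mul, y00, map_neg, t0, neg_smul]
    · rw [ρ_mul, y01, map_neg, t1, neg_smul]
    · rw [ρ_mul, hy0, hc1]

variable (S)

theorem conj_vec (hN : Even S.N) {g : G} (hg : g ∈ S.B) {i j : ℕ} (hi : i < S.N) (hj : j < S.N)
    (e : g * S.σ i * g⁻¹ = S.σ j) : PM (S.ρ g (S.c i)) (S.c j) := by
  obtain ⟨-, ⟨y, -, hy⟩, -⟩ := S.V_c hN hj
  have h1 := S.ρσ j hj y
  rw [← e, ρ_mul, ρ_mul, S.ρσ i hi, map_add, ρ_ρ_inv, map_smul, ← S.ρ_ω hg, ρ_ρ_inv,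
    add_right_inj, S.skew y (S.c j), hy] at h1
  have h3 := congrArg (S.ω y) h1
  rw [map_smul, map_smul, S.skew y (S.c j), hy, smul_eq_mul] at h3
  have h4 : S.ω y (S.ρ g (S.c i)) = 1 ∨ S.ω y (S.ρ g (S.c i)) = -1 :=
    Int.eq_one_or_neg_one_of_mul_eq_one (by simpa using h3)
  rcases h4 with h4 | h4 <;> rw [h4] at h1
  · right; simpa using h1
  · left; simpa using h1

variable {S}

/-- Triangles orthogonal to a distinguished vector lift. -/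
theorem D.std_cone (hN : Even S.N) (h2 : 2 ≤ S.N)
    (hTr : ∀ z, S.shift.V z → ∃ b ∈ S.shift.B, PM (S.ρ b (S.c 2)) z)
    (hSt : ∀ β ∈ S.shift.B, PM (S.ρ β (S.c 2)) (S.c 2) → β ∈ S.shift.J)
    {b : G} (h : S.D b) (hb : |S.ω (S.c 1) (S.ρ b (S.c 0))| = 1) {η : H} (hη : S.V η)
    (h0 : S.ω (S.c 0) η = 0) (h1 : S.ω (S.c 1) η = 0) (h3 : S.ω η (S.ρ b (S.c 0)) = 0) :
    S.D (S.δ⁻¹ * b) := by
  obtain ⟨ζ, hζ, hz⟩ := hη.2.1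
  obtain ⟨ζ', hζ', z0, -, z2⟩ := S.proj_dual h2 hζ h0 h1
  have q01 := S.pt01_of_perp h2 hη.1 h0
  have q12 : S.pt 1 η = S.pt 2 η := by
    have h5 := S.ω_pair hη.1 (S.c_mem (by omega : 1 < S.N)) (by omega : 1 ≠ 1 + 1)
      (S.pair_c (by omega : 1 < S.N))
    rw [S.skew, h1] at h5
    simp only [neg_zero, Int.cast_zero] at h5
    change 0 = S.pt 1 η + S.pt 2 η at h5
    generalize S.pt 1 η = a at *
    generalize S.pt 2 η = b at *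
    clear q01
    revert a b; decide
  have q0 : S.pt 0 η = 0 := by
    rcases zmod2_cases (S.pt 0 η) with q | q
    · exact q
    · exfalso
      have hp := S.pair_of_pt01 hη q (by rw [← q01, q])
      rw [hp, hp] at q12
      exact absurd q12 (by decide)
  obtain ⟨η0, hη0L, hη0V, i, e0⟩ := S.V_split hN h2 hη h0 q0 hζ' z0 (by rw [z2, hz]; rfl)
  have h4 := S.four_le hN hη0V
  have h2' : 2 ≤ S.shift.N := by simp only [shift]; omega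
  obtain ⟨β, hβ, hc | hc⟩ := S.shift.TR h2' hTr hη0V
  · exfalso
    have h5 : S.pt 2 η0 = 1 := hc.1
    have h6 : S.pt 2 η = 0 := by rw [← q12, ← q01, q0]
    rw [e0, map_add, S.pt_two_mul, add_zero, h5] at h6
    exact absurd h6 (by decide)
  obtain ⟨c, hcC, hc'⟩ := S.CC_lift h2 hβ
  obtain ⟨m, hm⟩ := hc' (S.c 3) (S.shift.c_mem (i := 1) (by simp only [shift]; omega))
  have hβ3 : PM (S.ρ β (S.c 3)) η0 := hc.2
  have hcB : c ∈ S.B := Ga_le_BB h2 (S.bf.CC_le_Ga h2 hcC)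
  have hh : PM (S.ρ c (S.c 3)) η := by
    have q := S.CC_perp h2 hcC (S.ch2 1 3 (by omega) (by omega))
    rcases hβ3 with h5 | h5
    · left
      refine S.eq_of_perp_c1 h2 (j := 2 * m - 2 * i) ?_ q h1
      rw [hm, h5, e0]; module
    · right
      refine S.eq_of_perp_c1 h2 (j := 2 * m + 2 * i) ?_ q (by simp [h1])
      rw [hm, h5, e0]; module
  refine D.std_CC h2 hcC ?_
  have hD : S.D (c⁻¹ * b) := h.left (inv_mem (CC_mem_J h2 hcC))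
  have r1 : |S.ω (S.c 1) (S.ρ (c⁻¹ * b) (S.c 0))| = 1 := by
    rw [← S.ρ_ω hcB, ρ_mul, ρ_ρ_inv, S.PM_ω (S.CC_c1 h2 hcC) (PM.refl _), hb]
  have r3 : S.ω (S.c 3) (S.ρ (c⁻¹ * b) (S.c 0)) = 0 := by
    rw [← abs_eq_zero, ← S.ρ_ω hcB, ρ_mul, ρ_ρ_inv, S.PM_ω hh (PM.refl _), h3, abs_zero]
  generalize c⁻¹ * b = b2 at hD r1 r3 ⊢
  have r0 := hD.omega h2
  have hn : nn S.σ ∈ S.B := nn_mem h4
  obtain ⟨n0, n2, n3⟩ := S.bf.nn_conj h4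
  have v0 := S.conj_vec hN hn (by omega) (by omega) n0
  have v2 := S.conj_vec hN hn (by omega) (by omega) n2
  have v3 := S.conj_vec hN hn (by omega) (by omega) n3
  set u := S.ρ (nn S.σ)⁻¹ (S.ρ b2 (S.c 0)) with hu
  have hnu : S.ρ (nn S.σ) u = S.ρ b2 (S.c 0) := S.ρ_ρ_inv _ _
  have uV : S.V u := S.ρ_V (inv_mem hn) (S.ρ_V (hD.mem_B h2) (S.V_c hN (by omega)))
  have u0 : S.ω (S.c 0) u = 0 := by
    rw [← abs_eq_zero, ← S.ρ_ω hn, hnu, S.PM_ω v0 (PM.refl _), r3, abs_zero]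
  have u2 : |S.ω (S.c 2) u| = 1 := by rw [← S.ρ_ω hn, hnu, S.PM_ω v2 (PM.refl _), r0]
  have u3 : |S.ω (S.c 3) u| = 1 := by rw [← S.ρ_ω hn, hnu, S.PM_ω v3 (PM.refl _), r1]
  obtain ⟨g1, hg1, a1, a2⟩ := S.O2 hN h4 hTr (S.V_c hN (by omega : 2 < S.N)) uV
    (S.ch2 0 2 (by omega) (by omega)) u0 u2
  obtain ⟨g2, hg2, b1, b3⟩ := S.O2 hN h4 hTr (S.V_c hN (by omega : 3 < S.N)) uV
    (S.ch2 0 3 (by omega) (by omega)) u0 u3
  have hδ' : S.σ 2 * S.σ 3 ∈ Ga S.σ S.N := BB_sh_le_Ga (S.shift.δ_mem h2')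
  have dδ' : S.ρ (S.σ 2 * S.σ 3) (S.c 2) = S.c 3 := S.shift.ρ_δ_c0 h2'
  have eδ : nn S.σ * (S.σ 2 * S.σ 3) * (nn S.σ)⁻¹ = S.δ := by
    rw [δ, ← n2, ← n3]; group
  have j1 := S.O1 hN h4 hSt hg1 a1
  have j2 := S.O1 hN h4 hSt (mul_mem (inv_mem hδ') hg2) (by
    rw [ρ_mul]
    have := b1.map (S.ρ (S.σ 2 * S.σ 3)⁻¹)
    rwa [← dδ', ρ_inv_ρ] at this)
  have j3 := S.O1 hN h4 hSt (mul_mem (inv_mem (mul_mem hg1 hδ')) (mul_mem hg2 hδ')) (by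
    rw [ρ_mul, ρ_mul, dδ']
    have := (b3.trans a2.symm).map (S.ρ (g1 * (S.σ 2 * S.σ 3))⁻¹)
    rw [← dδ', ← S.ρ_mul g1, ρ_inv_ρ, dδ'] at this
    exact this)
  refine hD.std_of hN h2 (S.D_δ.left j1) ?_ ?_
  · rw [ρ_mul, S.ρ_δ_c0 h2, ρ_mul, ρ_mul, ← hnu]
    refine PM.map (PM.trans ?_ a2) _
    refine PM.map ?_ _
    have := v3.map (S.ρ (nn S.σ)⁻¹)
    rw [ρ_inv_ρ] at this
    exact this.symm
  · refine ⟨_, j2, _, inv_mem j3, ?_⟩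
    rw [← eδ]; group

end Sys

end Pool.Agent.MP_00906f_gt.H46
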