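import Pool.Agent.MP_00906f_gt.H46.CoverAux2

/-! Row A1: the flag complex of the graph on `V / ±` is connected and simply connected. -/

namespace Pool.Agent.MP_00906f_gt.H46

namespace Cv

variable {H : Type*} [AddCommGroup H] {Λ : Lat H}

open Classical in
/-- The height function: `0` at `± b`, the level where it is positive, `⊤` elsewhere. -/
noncomputable def ht (Λ : Lat H) (b v : H) : ℕ∞ :=
  if PM b v then 0 else if Λ.ω b v = 0 then ⊤ else ((Λ.ω b v).natAbs : ℕ∞)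

theorem pm_zero {b v : H} (h : PM b v) : Λ.ω b v = 0 := by
  rw [← abs_eq_zero, ← pm_abs (pm_refl b) h, Λ.alt, abs_zero]

theorem ht_pm {b v : H} (h : PM b v) : ht Λ b v = 0 := if_pos h

theorem ht_top {b v : H} (h : ¬ PM b v) (h' : Λ.ω b v = 0) : ht Λ b v = ⊤ := by
  rw [ht, if_neg h, if_pos h']

theorem ht_ne {b v : H} (h : Λ.ω b v ≠ 0) : ht Λ b v = ((Λ.ω b v).natAbs : ℕ∞) := by
  rw [ht, if_neg fun h' => h (pm_zero h'), if_neg h]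

theorem ht_neg (b v : H) : ht Λ b (-v) = ht Λ b v := by
  have : PM b (-v) ↔ PM b v :=
    ⟨fun h => pm_trans h (Or.inr rfl), fun h => pm_trans h (Or.inr (neg_neg v).symm)⟩
  by_cases h : PM b v
  · rw [ht_pm h, ht_pm (this.2 h)]
  · simp only [ht, if_neg h, if_neg fun h' => h (this.1 h'), map_neg, neg_eq_zero, Int.natAbs_neg]

theorem ht_lt {b v u : H} (hv : Λ.ω b v ≠ 0) (hu : ¬ PM b u) :
    ht Λ b u < ht Λ b v ↔ Λ.ω b u ≠ 0 ∧ |Λ.ω b u| < |Λ.ω b v| := by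
  rw [ht_ne hv]
  by_cases h : Λ.ω b u = 0
  · simp [ht_top hu h, h]
  · rw [ht_ne h, Nat.cast_lt, Int.abs_eq_natAbs, Int.abs_eq_natAbs, Nat.cast_lt]
    simp [h]

theorem ht_lt_top {b u : H} (h : Λ.ω b u ≠ 0) : ht Λ b u < ⊤ := by
  rw [ht_ne h]
  exact ENat.natCast_lt_top _

theorem norm_sign {v u : H} (hu : Λ.V u) (h : |Λ.ω v u| = 1) :
    ∃ w, Λ.V w ∧ Λ.ω v w = 1 ∧ PM w u := by
  rcases (abs_eq zero_le_one).1 h with h | h
  · exact ⟨u, hu, h, pm_refl u⟩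
  · exact ⟨-u, Λ.V_neg u hu, by simp [h], Or.inr rfl⟩

theorem path_pm {f : H → ℕ∞} {z u u' : H} {n : ℕ∞} (h : PM u' u) (hu : Low Λ f z n u') :
    Path Λ f z n u u' := by
  rcases h with rfl | rfl
  · exact Relation.ReflTransGen.refl
  · exact Relation.ReflTransGen.single ⟨hu, Or.inr rfl⟩

theorem low_pm {b z u u' : H} {n : ℕ∞} (hu : Low Λ (ht Λ b) z n u) (hu' : Λ.V u') (h : PM u' u) :
    Low Λ (ht Λ b) z n u' :=
  ⟨hu', by rw [pm_abs (pm_refl z) h, hu.2.1], (pm_f (ht_neg b) h).trans_lt hu.2.2⟩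

/-- The link of a vertex of level zero. -/
theorem conn_zero {b z u u' : H} {n : ℕ∞} (hz : Λ.V z) (h0 : Λ.ω b z = 0)
    (hu : Low Λ (ht Λ b) z n u) (hu' : Low Λ (ht Λ b) z n u') : Path Λ (ht Λ b) z n u u' := by
  obtain ⟨w, hw, hw1, hwu⟩ := norm_sign hu.1 hu.2.1
  obtain ⟨w', hw', hw1', hwu'⟩ := norm_sign hu'.1 hu'.2.1
  have np : ∀ x, Λ.ω z x = 1 → ¬ PM b x := fun x hx h => by
    have := pm_abs (Λ := Λ) (pm_refl z) h
    rw [hx, abs_comm, h0] at this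
    simp at this
  have l1 : ∀ t : ℤ, Low Λ (ht Λ b) z n (w' + t • z) := fun t => by
    have h1 : Λ.ω z (w' + t • z) = 1 := by simp [hw1', Λ.alt]
    refine ⟨V_shift hz hw' hw1' t, by rw [h1, abs_one],
      lt_of_eq_of_lt ?_ (low_pm hu' hw' hwu').2.2⟩
    simp [ht, np _ h1, np _ hw1', h0]
  have l2 : ∀ t : ℤ, Path Λ (ht Λ b) z n (w' + t • z) w' := fun t => by
    induction t using Int.induction_on with
    | zero => rw [zero_smul, add_zero]; exact Relation.ReflTransGen.refl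
    | succ i ih =>
      refine Relation.ReflTransGen.head ⟨l1 _, Or.inl ?_⟩ ih
      simp [Λ.alt, skew w' z, hw1', add_smul]
    | pred i ih =>
      refine Relation.ReflTransGen.head ⟨l1 _, Or.inl ?_⟩ ih
      simp [Λ.alt, skew w' z, hw1', sub_smul, add_sub_left_comm, ← add_sub_assoc]
  refine ((path_pm hwu (low_pm hu hw hwu)).tail ⟨l1 (Λ.ω w w' - 1), Or.inl ?_⟩).trans
    ((l2 _).trans (path_pm (pm_symm hwu') hu'))
  simp [skew w z, hw1]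

theorem sgn_abs (v b : H) : Λ.ω v b = |Λ.ω b v| ∨ Λ.ω v b = -|Λ.ω b v| := by
  rw [skew v b]
  rcases abs_choice (Λ.ω b v) with h | h <;> rw [h] <;> simp

theorem nb_low {b v u : H} (hv : Λ.ω b v ≠ 0) (h : Nb Λ b v |Λ.ω b v| u) :
    Low Λ (ht Λ b) v (ht Λ b v) u :=
  ⟨h.1, by rw [h.2.1, abs_one], (ht_lt hv fun h' => h.2.2.1 (pm_zero h')).2 h.2.2⟩

theorem conn_all {b v u u' : H} (hv : Λ.V v) (hu : Low Λ (ht Λ b) v (ht Λ b v) u)
    (hu' : Low Λ (ht Λ b) v (ht Λ b v) u') : Path Λ (ht Λ b) v (ht Λ b v) u u' := by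
  by_cases h0 : Λ.ω b v = 0
  · exact conn_zero hv h0 hu hu'
  have hpos := abs_pos.2 h0
  by_cases h1 : |Λ.ω b v| = 1
  · have key : ∀ x, Low Λ (ht Λ b) v (ht Λ b v) x → PM b x := fun x hx => by
      by_contra hc
      have := (ht_lt h0 hc).1 hx.2.2
      have h2 := abs_pos.2 this.1
      omega
    exact path_pm (pm_trans (pm_symm (key _ hu')) (key _ hu)) hu'
  have key : ∀ x, Low Λ (ht Λ b) v (ht Λ b v) x → ∃ w, Nb Λ b v |Λ.ω b v| w ∧ PM w x := by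
    intro x hx
    obtain ⟨w, hw, hw1, hwx⟩ := norm_sign hx.1 hx.2.1
    refine ⟨w, ⟨hw, hw1, (ht_lt h0 fun h => h1 ?_).1 (low_pm hx hw hwx).2.2⟩, hwx⟩
    rw [pm_abs h (pm_refl v), abs_comm, hw1, abs_one]
  obtain ⟨w, hw, hwu⟩ := key u hu
  obtain ⟨w', hw', hwu'⟩ := key u' hu'
  refine (path_pm hwu (nb_low h0 hw)).trans
    (Relation.ReflTransGen.trans ?_ (path_pm (pm_symm hwu') hu'))
  have hp := pt_conn hv hpos (sgn_abs v b) hw hw'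
  clear hwu' hw'
  induction hp with
  | refl => exact Relation.ReflTransGen.refl
  | tail _ h ih => exact ih.tail ⟨nb_low h0 h.1, Or.inl h.2⟩

theorem low_exists {b v : H} (hb : Λ.V b) (hv : Λ.V v) (h : ¬ PM b v) :
    ∃ u, Low Λ (ht Λ b) v (ht Λ b v) u := by
  by_cases h0 : Λ.ω b v = 0
  · rw [ht_top h h0]
    obtain ⟨u, hu, h1⟩ := Λ.V_nb v hv
    by_cases h2 : Λ.ω b u = 0
    · obtain ⟨c, -, hc⟩ := Λ.V_nb b hb
      obtain ⟨w, hw, hw1, hw2, -⟩ := nbr hv hu h1 (by rw [skew, h0, neg_zero])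
        (by rw [skew, h2, neg_zero]) hc 1 0
      exact ⟨w, hw, by rw [hw1, abs_one], ht_lt_top (by simp [hw2])⟩
    · exact ⟨u, hu, by rw [h1, abs_one], ht_lt_top h2⟩
  have hpos := abs_pos.2 h0
  by_cases h1 : |Λ.ω b v| = 1
  · refine ⟨b, hb, by rw [abs_comm, h1], ?_⟩
    rw [ht_pm (pm_refl b), ht_ne h0]
    simpa using h0
  obtain ⟨u, hu⟩ := nb_exists hb hv (R := |Λ.ω b v|) (by omega) (sgn_abs v b)
  exact ⟨u, nb_low h0 hu⟩

theorem tie_all {b v v' : H} (hb : Λ.V b) (hv : Λ.V v) (hv' : Λ.V v') (h : |Λ.ω v v'| = 1)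
    (he : ht Λ b v = ht Λ b v') :
    ∃ z, Λ.V z ∧ |Λ.ω v z| = 1 ∧ |Λ.ω v' z| = 1 ∧ (ht Λ b z < ht Λ b v ∨ ∃ u u',
      Low Λ (ht Λ b) z (ht Λ b v) u ∧ Low Λ (ht Λ b) z (ht Λ b v) u' ∧ |Λ.ω v u| = 1 ∧
      |Λ.ω v' u'| = 1 ∧ Path Λ (ht Λ b) z (ht Λ b v) u u') := by
  obtain ⟨w, hw, hw1, hwv⟩ := norm_sign hv' h
  have he' : ht Λ b v = ht Λ b w := he.trans (pm_f (ht_neg b) hwv).symm
  simp only [← pm_abs hwv (pm_refl _)]
  have zero : ∀ x y, |Λ.ω x y| = 1 → ht Λ b x = ht Λ b y → Λ.ω b x = 0 →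
      ht Λ b x = ⊤ ∧ Λ.ω b y = 0 := by
    intro x y hxy hh hx
    have h1 : ¬ PM b x := fun hp => by
      have h2 : Λ.ω b y ≠ 0 := fun h3 => by
        rw [← pm_abs hp (pm_refl y), h3] at hxy
        simp at hxy
      rw [ht_pm hp, ht_ne h2] at hh
      exact h2 (by simpa using hh.symm)
    refine ⟨ht_top h1 hx, by_contra fun h2 => (ht_lt_top h2).ne ?_⟩
    rw [← hh, ht_top h1 hx]
  by_cases h0 : Λ.ω b v = 0
  · obtain ⟨h1, h2⟩ := zero v w (by rw [hw1, abs_one]) he' h0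
    obtain ⟨c, -, hc⟩ := Λ.V_nb b hb
    obtain ⟨z, hz, hz1, hz2, hz3⟩ := nbr hv hw hw1 (by rw [skew, h0, neg_zero])
      (by rw [skew, h2, neg_zero]) hc 1 1
    exact ⟨z, hz, by rw [hz1, abs_one], by rw [hz3, abs_one],
      Or.inl (h1 ▸ ht_lt_top (by simp [hz2]))⟩
  have h0' : Λ.ω b w ≠ 0 := fun h1 =>
    h0 (zero w v (by rw [abs_comm, hw1, abs_one]) he'.symm h1).2
  have hab : |Λ.ω b w| = |Λ.ω b v| := by
    rw [ht_ne h0, ht_ne h0', Nat.cast_inj] at he'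
    rw [Int.abs_eq_natAbs, Int.abs_eq_natAbs, he']
  have hpos := abs_pos.2 h0
  by_cases h1 : |Λ.ω b v| = 1
  · refine ⟨b, hb, by rw [abs_comm, h1], by rw [abs_comm, hab, h1], Or.inl ?_⟩
    rw [ht_pm (pm_refl b), ht_ne h0]
    simpa using h0
  obtain ⟨z, u, u', hz, z0, z1, z2, ⟨u1, u2, u3, u4⟩, w1, w2, w3, w4⟩ :=
    tie_high hb hv hw hw1 (R := |Λ.ω b v|) (by omega) (sgn_abs v b) (hab ▸ sgn_abs w b)
  have l1 : Low Λ (ht Λ b) z (ht Λ b v) u :=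
    ⟨u1, u3, (ht_lt h0 fun h' => u4.1 (pm_zero h')).2 u4⟩
  have l2 : Low Λ (ht Λ b) z (ht Λ b v) u' :=
    ⟨w1, w3, (ht_lt h0 fun h' => w4.1 (pm_zero h')).2 w4⟩
  exact ⟨z, hz, z1, z2, Or.inr ⟨u, u', l1, l2, u2, w2, conn_zero hz z0 l1 l2⟩⟩

end Cv

theorem Lat.cover {H X : Type*} [AddCommGroup H] (Λ : Lat H) (C : Cov Λ X)
    (hT : ∀ x y z, C.adj x y → C.adj y z → |Λ.ω (C.p x) (C.p z)| = 1 → C.adj x z) (x0 : X) :
    ∃ Gd : Set X, x0 ∈ Gd ∧ (∀ x ∈ Gd, ∀ y, C.adj x y → y ∈ Gd) ∧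
      (∀ x ∈ Gd, ∀ y ∈ Gd, PM (C.p x) (C.p y) → x = y) ∧
      (∀ v, Λ.V v → ∃ x ∈ Gd, PM (C.p x) v) :=
  Cv.morse C hT x0 (Cv.ht Λ (C.p x0)) (Cv.ht_neg _)
    (fun _ => (Cv.ht_pm (Cv.pm_refl _)).trans_le zero_le)
    (fun _ hv h => Cv.low_exists (C.p_V x0) hv h) (fun _ _ _ hv hu hu' => Cv.conn_all hv hu hu')
    fun _ _ hv hv' h he => Cv.tie_all (C.p_V x0) hv hv' h he

end Pool.Agent.MP_00906f_gt.H46
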