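import Pool.Agent.MP_00906f_gt.H46.Defs

/-! Row A2: diameter, generic vectors, zigzag. -/

namespace Pool.Agent.MP_00906f_gt.H46

variable {H : Type*} [AddCommGroup H]

namespace LatMisc

theorem skew (Λ : Lat H) (x y : H) : Λ.ω x y = -Λ.ω y x := by
  have h := Λ.alt (x + y)
  simp only [map_add, LinearMap.add_apply, Λ.alt] at h
  linarith

theorem V_two' (Λ : Lat H) (v u h : H) (hu : Λ.V u) (hvu : Λ.ω v u = 1) (hh : Λ.ω v h = 0) :
    Λ.V (u + (2 : ℤ) • h) := by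
  refine Λ.V_two u h (-v) hu ?_
  rw [skew Λ]
  simp only [map_add, map_neg, map_smul, LinearMap.neg_apply, smul_eq_mul, hvu, hh]
  ring

theorem V_shift (Λ : Lat H) (v u : H) (hv : Λ.V v) (hu : Λ.V u) (hvu : Λ.ω v u = 1) (t : ℤ) :
    Λ.V (u + t • v) := by
  rcases Int.even_or_odd' t with ⟨k, hk | hk⟩
  · have h := V_two' Λ v u (k • v) hu hvu (by simp [Λ.alt])
    rwa [smul_smul, ← hk] at h
  · have h := V_two' Λ v (u + v) (k • v) (Λ.V_add v u hv hu hvu) (by simp [Λ.alt, hvu])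
      (by simp [Λ.alt])
    have e : u + v + (2 : ℤ) • k • v = u + t • v := by
      rw [hk]; module
    rwa [e] at h

theorem V_nbr (Λ : Lat H) (v u ξ ζ : H) (hv : Λ.V v) (hu : Λ.V u) (hvu : Λ.ω v u = 1)
    (h1 : Λ.ω v ξ = 0) (h2 : Λ.ω u ξ = 0) (h3 : Λ.ω ξ ζ = 1) (m : ℤ) :
    ∃ u', Λ.V u' ∧ Λ.ω v u' = 1 ∧ Λ.ω ξ u' = m := by
  have h2' : Λ.ω ξ u = 0 := by rw [skew Λ, h2, neg_zero]
  obtain ⟨ζ', e1, e2⟩ : ∃ ζ', Λ.ω v ζ' = 0 ∧ Λ.ω ξ ζ' = 1 :=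
    ⟨ζ - Λ.ω v ζ • u, by simp [hvu], by simp [h2', h3]⟩
  rcases Int.even_or_odd' m with ⟨k, hk | hk⟩
  · refine ⟨u + (2 : ℤ) • k • ζ', V_two' Λ v u _ hu hvu (by simp [e1]), by simp [hvu, e1], ?_⟩
    simp only [map_add, map_smul, smul_eq_mul, h2', e2, hk]
    ring
  · obtain ⟨w', a1, a2, j, hj⟩ := Λ.V_odd v u ξ ζ hv hu hvu h1 h2 h3
    refine ⟨w' + (2 : ℤ) • (k - j) • ζ', V_two' Λ v w' _ a1 a2 (by simp [e1]),
      by simp [a2, e1], ?_⟩
    simp only [map_add, map_smul, smul_eq_mul, hj, e2, hk]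
    ring

theorem exists_coprime (c a b p q r : ℤ) (hc : c ≠ 0) (h : c * p + a * q + b * r = 1) :
    ∃ t, IsCoprime c (b - a * t) := by
  classical
  refine ⟨∏ n ∈ c.natAbs.primeFactors.filter (fun n : ℕ => ¬ (n : ℤ) ∣ b), (n : ℤ), ?_⟩
  refine isCoprime_of_prime_dvd (fun h => hc h.1) fun z hz hzc hzb => ?_
  have hzn : z.natAbs.Prime := Int.prime_iff_natAbs_prime.1 hz
  by_cases hb : z ∣ b
  · have h1 : z ∣ a * ∏ n ∈ c.natAbs.primeFactors.filter (fun n : ℕ => ¬ (n : ℤ) ∣ b), (n : ℤ) := by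
      have := dvd_sub hb hzb
      rwa [sub_sub_cancel] at this
    rcases hz.dvd_or_dvd h1 with h2 | h2
    · apply hz.not_isUnit
      refine isUnit_of_dvd_one ?_
      rw [← h]
      exact dvd_add (dvd_add (hzc.mul_right _) (h2.mul_right _)) (hb.mul_right _)
    · obtain ⟨n, hn, hzn'⟩ := (Prime.dvd_finsetProd_iff hz _).1 h2
      rw [Finset.mem_filter] at hn
      have hnp : n.Prime := Nat.prime_of_mem_primeFactors hn.1
      have h3 : z.natAbs ∣ n := by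
        have := Int.natAbs_dvd_natAbs.2 hzn'
        rwa [Int.natAbs_natCast] at this
      have h4 : z.natAbs = n := (Nat.prime_dvd_prime_iff_eq hzn hnp).1 h3
      apply hn.2
      rw [← h4]
      exact Int.natAbs_dvd.2 hb
  · apply hb
    have h1 : z ∣ ∏ n ∈ c.natAbs.primeFactors.filter (fun n : ℕ => ¬ (n : ℤ) ∣ b), (n : ℤ) := by
      refine (Int.dvd_natAbs.2 dvd_rfl).trans (Finset.dvd_prod_of_mem (fun n : ℕ => (n : ℤ)) ?_)
      rw [Finset.mem_filter]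
      refine ⟨Nat.mem_primeFactors.2 ⟨hzn, Int.natAbs_dvd_natAbs.2 hzc, Int.natAbs_ne_zero.2 hc⟩, ?_⟩
      rwa [Int.natAbs_dvd]
    have := dvd_add hzb (h1.mul_left a)
    rwa [sub_add_cancel] at this

theorem diam_main (Λ : Lat H) (v z w₀ : H) (hv : Λ.V v) (hz : Λ.V z) (hw₀ : Λ.V w₀)
    (h : Λ.ω v w₀ = 1) (hX : z - Λ.ω v z • w₀ + Λ.ω w₀ z • v ≠ 0) :
    ∃ w w', Λ.V w ∧ Λ.V w' ∧ |Λ.ω v w| = 1 ∧ |Λ.ω w w'| = 1 ∧ |Λ.ω w' z| = 1 := by
  obtain ⟨c, ξ, ζ, hc, hX', hζ⟩ := Λ.cont _ hX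
  have h' : Λ.ω w₀ v = -1 := by rw [skew Λ, h]
  have e1 : Λ.ω v ξ = 0 := by
    have := congrArg (Λ.ω v) hX'
    simp only [map_add, map_sub, map_smul, smul_eq_mul, h, Λ.alt] at this
    have h0 : c * Λ.ω v ξ = 0 := by linarith
    exact (mul_eq_zero.1 h0).resolve_left hc.ne'
  have e2 : Λ.ω w₀ ξ = 0 := by
    have := congrArg (Λ.ω w₀) hX'
    simp only [map_add, map_sub, map_smul, smul_eq_mul, h', Λ.alt] at this
    have h0 : c * Λ.ω w₀ ξ = 0 := by linarith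
    exact (mul_eq_zero.1 h0).resolve_left hc.ne'
  obtain ⟨a, ha⟩ : ∃ a, a = Λ.ω v z := ⟨_, rfl⟩
  obtain ⟨b, hb⟩ : ∃ b, b = -Λ.ω w₀ z := ⟨_, rfl⟩
  have ez : z = c • ξ + a • w₀ + b • v := by
    rw [← hX', ha, hb]; module
  obtain ⟨y, -, hy⟩ := Λ.V_nb z hz
  have hy' : c * Λ.ω ξ y + a * Λ.ω w₀ y + b * Λ.ω v y = 1 := by
    rw [ez] at hy
    simpa only [map_add, map_smul, LinearMap.add_apply, LinearMap.smul_apply, smul_eq_mul] using hy
  obtain ⟨t, p, q, hpq⟩ := exists_coprime c a b _ _ _ hc.ne' hy'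
  have hw : Λ.V (w₀ + t • v) := V_shift Λ v w₀ hv hw₀ h t
  have f1 : Λ.ω v (w₀ + t • v) = 1 := by simp [h, Λ.alt]
  have f2 : Λ.ω (w₀ + t • v) (-v) = 1 := by simp [h', Λ.alt]
  have f3 : Λ.ω (w₀ + t • v) ξ = 0 := by simp [e1, e2]
  obtain ⟨u, hu, g1, g2⟩ := V_nbr Λ (w₀ + t • v) (-v) ξ ζ hw (Λ.V_neg v hv) f2 f3 (by simp [e1]) hζ
    (p * (1 - a))
  have ez' : z = c • ξ + a • (w₀ + t • v) + (b - a * t) • v := by
    rw [ez]; module
  generalize w₀ + t • v = w at *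
  refine ⟨w, u + (q * (1 - a) - Λ.ω v u) • w, hw, V_shift Λ w u hw hu g1 _, by rw [f1, abs_one],
    by simp [g1, Λ.alt], ?_⟩
  have f4 : Λ.ω ξ w = 0 := by rw [skew Λ, f3, neg_zero]
  have : Λ.ω z (u + (q * (1 - a) - Λ.ω v u) • w) = 1 := by
    rw [ez']
    simp only [map_add, map_smul, LinearMap.add_apply, LinearMap.smul_apply, smul_eq_mul, g1, g2,
      f1, f4, Λ.alt]
    linear_combination (1 - a) * hpq
  rw [skew Λ, this, abs_neg, abs_one]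

theorem exists_far {ι : Type*} (l : List ι) (A B : ι → ℤ) (h : ∀ i ∈ l, A i ≠ 0 ∨ B i ≠ 0) :
    ∃ K : ℤ, ∀ k, K ≤ k → ∀ i ∈ l, A i + k * B i ≠ 0 := by
  induction l with
  | nil => exact ⟨0, fun _ _ i hi => by simp at hi⟩
  | cons j l ih =>
    obtain ⟨K, hK⟩ := ih fun i hi => h i (List.mem_cons_of_mem _ hi)
    refine ⟨max K (|A j| + 1), fun k hk i hi => ?_⟩
    rcases List.mem_cons.1 hi with rfl | hi
    · by_cases hB : B i = 0
      · rw [hB, mul_zero, add_zero]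
        exact (h i List.mem_cons_self).resolve_right (fun h => h hB)
      · intro h0
        have h1 : |A i| + 1 ≤ k := (le_max_right _ _).trans hk
        have h2 : 1 ≤ |B i| := Int.one_le_abs hB
        have h3 : |A i| = k * |B i| := by
          have : A i = -(k * B i) := by linarith
          rw [this, abs_neg, abs_mul, abs_of_nonneg (by linarith [abs_nonneg (A i)])]
        nlinarith [abs_nonneg (A i)]
    · exact hK k ((le_max_left _ _).trans hk) i hi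

end LatMisc

open LatMisc

theorem Lat.diam (Λ : Lat H) (v z : H) (hv : Λ.V v) (hz : Λ.V z)
    (hr : ∀ w, Λ.ω v w = 1 → ∃ ξ, ξ ≠ 0 ∧ Λ.ω v ξ = 0 ∧ Λ.ω w ξ = 0) :
    ∃ w w', Λ.V w ∧ Λ.V w' ∧ |Λ.ω v w| = 1 ∧ |Λ.ω w w'| = 1 ∧ |Λ.ω w' z| = 1 := by
  obtain ⟨w₀, hw₀, h⟩ := Λ.V_nb v hv
  have h' : Λ.ω w₀ v = -1 := by rw [skew Λ, h]
  by_cases hX : z - Λ.ω v z • w₀ + Λ.ω w₀ z • v = 0
  swap
  · exact diam_main Λ v z w₀ hv hz hw₀ h hX
  by_cases ha : Λ.ω v z = 0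
  · obtain ⟨b, hb⟩ : ∃ b, b = -Λ.ω w₀ z := ⟨_, rfl⟩
    have ez : z = b • v := by
      rw [ha] at hX
      rw [hb, ← sub_eq_zero, ← hX]; module
    obtain ⟨y, -, hy⟩ := Λ.V_nb z hz
    rw [ez, map_smul, LinearMap.smul_apply, smul_eq_mul] at hy
    have hb1 : |b| = 1 := by
      rcases Int.eq_one_or_neg_one_of_mul_eq_one hy with h1 | h1 <;> simp [h1]
    refine ⟨w₀, w₀ + v, hw₀, Λ.V_add v w₀ hv hw₀ h, by rw [h, abs_one], by simp [h', Λ.alt], ?_⟩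
    rw [ez]
    simp [h', Λ.alt, hb1]
  · obtain ⟨ξ, hξ, e1, e2⟩ := hr w₀ h
    refine diam_main Λ v z (w₀ + (2 : ℤ) • ξ) hv hz (V_two' Λ v w₀ ξ hw₀ h e1) (by simp [h, e1]) ?_
    obtain ⟨d, ξ', ζ, hd, hξ', hζ⟩ := Λ.cont ξ hξ
    have e3 : Λ.ω ξ z = 0 := by
      have := congrArg (Λ.ω ξ) hX
      have e1' : Λ.ω ξ v = 0 := by rw [skew Λ, e1, neg_zero]
      have e2' : Λ.ω ξ w₀ = 0 := by rw [skew Λ, e2, neg_zero]
      simpa [e1', e2'] using this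
    have e4 : z - Λ.ω v z • (w₀ + (2 : ℤ) • ξ) + Λ.ω (w₀ + (2 : ℤ) • ξ) z • v
        = (-2 * Λ.ω v z) • ξ := by
      have e5 : Λ.ω (w₀ + (2 : ℤ) • ξ) z = Λ.ω w₀ z := by simp [e3]
      rw [e5, ← sub_eq_zero, ← hX]; module
    rw [e4]
    intro h0
    have h1 := congrArg (fun x => Λ.ω x ζ) h0
    simp only [hξ', map_smul, LinearMap.smul_apply, smul_eq_mul, hζ, map_zero,
      LinearMap.zero_apply, mul_one, mul_eq_zero] at h1
    rcases h1 with (h1 | h1) | h1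
    · norm_num at h1
    · exact ha h1
    · exact hd.ne' h1

theorem Lat.generic (Λ : Lat H) (v : H) (hv : Λ.V v) (l : List H) (hl : ∀ h ∈ l, h ≠ 0) :
    ∃ u, Λ.V u ∧ ∀ h ∈ l, Λ.ω h u ≠ 0 := by
  obtain ⟨w, hw, hvw⟩ := Λ.V_nb v hv
  suffices hh : ∃ z, Λ.ω v z = 0 ∧ ∀ h ∈ l, Λ.ω h (w + (2 : ℤ) • z) ≠ 0 by
    obtain ⟨z, hz, h⟩ := hh
    exact ⟨_, V_two' Λ v w z hw hvw hz, h⟩
  induction l with
  | nil => exact ⟨0, by simp, fun h hh => by simp at hh⟩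
  | cons g l ih =>
    obtain ⟨z, hz, h⟩ := ih fun h hh => hl h (List.mem_cons_of_mem _ hh)
    by_cases hg : ∃ z₁, Λ.ω v z₁ = 0 ∧ Λ.ω g z₁ ≠ 0
    · obtain ⟨z₁, a1, a2⟩ := hg
      obtain ⟨K, hK⟩ := exists_far (g :: l) (fun h => Λ.ω h (w + (2 : ℤ) • z))
        (fun h => 2 * Λ.ω h z₁) (fun i hi => by
          rcases List.mem_cons.1 hi with rfl | hi
          · exact Or.inr (mul_ne_zero two_ne_zero a2)
          · exact Or.inl (h i hi))
      refine ⟨z + K • z₁, by simp [hz, a1], fun i hi h0 => hK K le_rfl i hi ?_⟩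
      simp only [map_add, map_smul, smul_eq_mul] at h0 ⊢
      linarith
    · push Not at hg
      refine ⟨z, hz, fun i hi => ?_⟩
      rcases List.mem_cons.1 hi with rfl | hi
      · intro h0
        have h1 : Λ.ω i w = 0 := by simpa [hg z hz] using h0
        obtain ⟨d, ξ, ζ, hd, hξ, hζ⟩ := Λ.cont i (hl i List.mem_cons_self)
        have h2 := hg (ζ - Λ.ω v ζ • w) (by simp [hvw])
        rw [map_sub, map_smul, h1, smul_zero, sub_zero, hξ, map_smul, LinearMap.smul_apply, hζ,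
          smul_eq_mul, mul_one] at h2
        exact hd.ne' h2
      · exact h i hi

/-- The radical vector of a triple. -/
def Lat.rad (Λ : Lat H) (a b c : H) : H := Λ.ω b c • a + Λ.ω c a • b + Λ.ω a b • c

/-- Triples whose radical vector is zero or primitive. -/
def Lat.Small (Λ : Lat H) (a b c : H) : Prop :=
  Λ.rad a b c = 0 ∨ ∃ ζ, Λ.ω (Λ.rad a b c) ζ = 1

namespace LatMisc

theorem small_of_PM (Λ : Lat H) {a b c a' b' c' : H} (h : PM (Λ.rad a b c) (Λ.rad a' b' c'))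
    (hs : Λ.Small a' b' c') : Λ.Small a b c := by
  unfold Lat.Small at hs ⊢
  rcases h with h | h <;> rw [h]
  · exact hs
  · rcases hs with hs | ⟨ζ, hs⟩
    · exact Or.inl (by rw [hs, neg_zero])
    · exact Or.inr ⟨-ζ, by simpa using hs⟩

theorem small_swap₁ (Λ : Lat H) {a b c : H} (hs : Λ.Small a b c) : Λ.Small b a c := by
  refine small_of_PM Λ (Or.inr ?_) hs
  unfold Lat.rad
  rw [skew Λ a c, skew Λ c b, skew Λ b a]
  module

theorem small_swap₂ (Λ : Lat H) {a b c : H} (hs : Λ.Small a b c) : Λ.Small a c b := by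
  refine small_of_PM Λ (Or.inr ?_) hs
  unfold Lat.rad
  rw [skew Λ a c, skew Λ c b, skew Λ b a]
  module

theorem small_sign (Λ : Lat H) {a b c a' b' c' : H} (ha : PM a a') (hb : PM b b') (hc : PM c c')
    (hs : Λ.Small a' b' c') : Λ.Small a b c := by
  refine small_of_PM Λ ?_ hs
  unfold Lat.rad PM
  rcases ha with rfl | rfl <;> rcases hb with rfl | rfl <;> rcases hc with rfl | rfl <;>
    simp only [map_neg, LinearMap.neg_apply] <;>
    first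
      | (left; module)
      | (left; trivial)
      | (right; module)

theorem abs_sign (Λ : Lat H) {a c a' c' : H} (ha : PM a a') (hc : PM c c') :
    |Λ.ω a c| = |Λ.ω a' c'| := by
  rcases ha with rfl | rfl <;> rcases hc with rfl | rfl <;> simp

theorem small_std (Λ : Lat H) (v w ξ ζ : H) (hvw : |Λ.ω v w| = 1) (hv : Λ.ω v ξ = 0)
    (hw : Λ.ω w ξ = 0) (hζ : Λ.ω ξ ζ = 1) (i j k : ℤ) (h1 : k - i - j ≤ 1) (h2 : -1 ≤ k - i - j) :
    Λ.Small (v + i • ξ) (w + j • ξ) (v + w + k • ξ) := by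
  have hv' : Λ.ω ξ v = 0 := by rw [skew Λ, hv, neg_zero]
  have hw' : Λ.ω ξ w = 0 := by rw [skew Λ, hw, neg_zero]
  have e : Λ.rad (v + i • ξ) (w + j • ξ) (v + w + k • ξ) = (Λ.ω v w * (k - i - j)) • ξ := by
    unfold Lat.rad
    simp only [map_add, map_smul, LinearMap.add_apply, LinearMap.smul_apply, smul_eq_mul, hv, hw,
      hv', hw', Λ.alt, skew Λ w v]
    module
  unfold Lat.Small
  rw [e]
  by_cases h0 : k - i - j = 0
  · exact Or.inl (by rw [h0, mul_zero, zero_smul])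
  · refine Or.inr ⟨(Λ.ω v w * (k - i - j)) • ζ, ?_⟩
    simp only [map_smul, LinearMap.smul_apply, smul_eq_mul, hζ]
    have h3 : k - i - j = 1 ∨ k - i - j = -1 := by omega
    rcases h3 with h3 | h3 <;> rcases (abs_eq zero_le_one).1 hvw with h4 | h4 <;>
      rw [h3, h4] <;> norm_num

theorem zigzag_nat {Λ : Lat H} {X : Type*} (C : Cov Λ X)
    (hs : ∀ x y z, C.adj x y → C.adj y z → |Λ.ω (C.p x) (C.p z)| = 1 →
      Λ.Small (C.p x) (C.p y) (C.p z) → C.adj x z)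
    (v w ξ ζ : H) (hvw : |Λ.ω v w| = 1) (hv : Λ.ω v ξ = 0) (hw : Λ.ω w ξ = 0)
    (hζ : Λ.ω ξ ζ = 1)
    (hV : ∀ i : ℤ, Λ.V (v + i • ξ) ∧ Λ.V (w + i • ξ) ∧ Λ.V (v + w + i • ξ))
    (y : X) (hy : PM (C.p y) (v + (0 : ℤ) • ξ)) (n : ℕ) :
    ∀ (j k : ℤ) (x z : X), k = j + n → C.adj y x → C.adj y z → PM (C.p x) (w + j • ξ) →
      PM (C.p z) (v + w + k • ξ) → C.adj x z := by
  have hv' : Λ.ω ξ v = 0 := by rw [skew Λ, hv, neg_zero]
  have hw' : Λ.ω ξ w = 0 := by rw [skew Λ, hw, neg_zero]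
  have tri : ∀ (x y z : X) (a b c : H), C.adj x y → C.adj y z → PM (C.p x) a → PM (C.p y) b →
      PM (C.p z) c → |Λ.ω a c| = 1 → Λ.Small a b c → C.adj x z :=
    fun x y z a b c h1 h2 ha hb hc h3 h4 =>
      hs x y z h1 h2 (by rw [abs_sign Λ ha hc, h3]) (small_sign Λ ha hb hc h4)
  have sm := small_std Λ v w ξ ζ hvw hv hw hζ
  have oAB : ∀ i j : ℤ, |Λ.ω (v + i • ξ) (w + j • ξ)| = 1 := fun i j => by
    simp [hv, hw', Λ.alt, hvw]
  have oBA : ∀ i j : ℤ, |Λ.ω (w + j • ξ) (v + i • ξ)| = 1 := fun i j => by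
    rw [skew Λ, abs_neg, oAB]
  have oAD : ∀ i k : ℤ, |Λ.ω (v + i • ξ) (v + w + k • ξ)| = 1 := fun i j => by
    simp [hv, hv', hw', Λ.alt, hvw]
  have oBD : ∀ j k : ℤ, |Λ.ω (w + j • ξ) (v + w + k • ξ)| = 1 := fun i j => by
    simp [hw, hv', hw', Λ.alt, hvw, skew Λ w v]
  have refl : ∀ a : H, PM a a := fun a => Or.inl rfl
  induction n using Nat.twoStepInduction with
  | zero =>
    intro j k x z hk hx hz px pz
    exact tri x y z _ _ _ (C.symm _ _ hx) hz px hy pz (oBD j k)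
      (small_swap₁ Λ (sm 0 j k (by omega) (by omega)))
  | one =>
    intro j k x z hk hx hz px pz
    exact tri x y z _ _ _ (C.symm _ _ hx) hz px hy pz (oBD j k)
      (small_swap₁ Λ (sm 0 j k (by omega) (by omega)))
  | more n ih0 ih1 =>
    intro j k x z hk hx hz px pz
    obtain ⟨z₁, hz₁, pz₁⟩ := C.lift y (v + w + (k - 1) • ξ) (hV _).2.2
      (by rw [abs_sign Λ hy (refl _), oAD])
    obtain ⟨x₁, hx₁, px₁⟩ := C.lift y (w + (j + 1) • ξ) (hV _).2.1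
      (by rw [abs_sign Λ hy (refl _), oAB])
    obtain ⟨u, hu, pu⟩ := C.lift x (v + ((n : ℤ) + 1) • ξ) (hV _).1
      (by rw [abs_sign Λ px (refl _), oBA])
    have a1 : C.adj x z₁ := ih1 j (k - 1) x z₁ (by push_cast at hk ⊢; omega) hx hz₁ px pz₁
    have a2 : C.adj x₁ z₁ := ih0 (j + 1) (k - 1) x₁ z₁ (by push_cast at hk ⊢; omega) hx₁ hz₁ px₁ pz₁
    have a3 : C.adj x₁ z := ih1 (j + 1) k x₁ z (by push_cast at hk ⊢; omega) hx₁ hz px₁ pz
    push_cast at hk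
    have b1 : C.adj u z₁ := tri u x z₁ _ _ _ (C.symm _ _ hu) a1 pu px pz₁ (oAD _ _)
      (sm _ _ _ (by omega) (by omega))
    have b2 : C.adj u x₁ := tri u z₁ x₁ _ _ _ b1 (C.symm _ _ a2) pu pz₁ px₁ (oAB _ _)
      (small_swap₂ Λ (sm _ _ _ (by omega) (by omega)))
    have b3 : C.adj u z := tri u x₁ z _ _ _ b2 a3 pu px₁ pz (oAD _ _)
      (sm _ _ _ (by omega) (by omega))
    exact tri x u z _ _ _ hu b3 px pu pz (oBD _ _)
      (small_swap₁ Λ (sm _ _ _ (by omega) (by omega)))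

end LatMisc

theorem Cov.zigzag {Λ : Lat H} {X : Type*} (C : Cov Λ X)
    (hs : ∀ x y z, C.adj x y → C.adj y z → |Λ.ω (C.p x) (C.p z)| = 1 →
      Λ.Small (C.p x) (C.p y) (C.p z) → C.adj x z)
    (v w ξ ζ : H) (hvw : |Λ.ω v w| = 1) (hv : Λ.ω v ξ = 0) (hw : Λ.ω w ξ = 0)
    (hζ : Λ.ω ξ ζ = 1)
    (hV : ∀ i : ℤ, Λ.V (v + i • ξ) ∧ Λ.V (w + i • ξ) ∧ Λ.V (v + w + i • ξ))
    (d : ℤ) (x y z : X) (hxy : C.adj x y) (hyz : C.adj y z)
    (hy : PM (C.p y) v) (hx : PM (C.p x) w) (hz : PM (C.p z) (v + w + d • ξ)) : C.adj x z := by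
  rcases le_total 0 d with hd | hd
  · exact zigzag_nat C hs v w ξ ζ hvw hv hw hζ hV y (by simpa using hy) d.toNat 0 d x z
      (by omega) (C.symm _ _ hxy) hyz (by simpa using hx) hz
  · refine zigzag_nat C hs v w (-ξ) (-ζ) hvw (by simp [hv]) (by simp [hw]) (by simp [hζ])
      (fun i => by simpa using hV (-i)) y (by simpa using hy) (-d).toNat 0 (-d) x z
      (by omega) (C.symm _ _ hxy) hyz (by simpa using hx) (by simpa using hz)

end Pool.Agent.MP_00906f_gt.H46
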