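import Pool.Agent.MP_00906f_gt.H46.Cov1
import Pool.Agent.MP_00906f_gt.H46.Cover
import Pool.Agent.MP_00906f_gt.H46.LatMisc

/-! Transitivity, stabilisers and generation of the kernel, by induction on the genus. -/

set_option linter.unusedSimpArgs false

namespace Pool.Agent.MP_00906f_gt.H46

namespace Sys

variable {G H : Type*} [Group G] [AddCommGroup H] (S : Sys G H)

/-- The cosets of `J` in the braid group. -/
abbrev XX : Type _ := S.B ⧸ S.J.subgroupOf S.B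

theorem out_mk (g : S.B) : ∃ j ∈ S.J, (((g : S.XX).out : S.B) : G) = g * j := by
  obtain ⟨h, hh⟩ := QuotientGroup.mk_out_eq_mul (S.J.subgroupOf S.B) g
  exact ⟨(h : S.B), Subgroup.mem_subgroupOf.1 h.2, by rw [hh]; rfl⟩

theorem PM_coe {x y : S.L} : PM x y ↔ PM (x : H) (y : H) := by
  constructor
  · rintro (rfl | rfl)
    exacts [Or.inl rfl, Or.inr rfl]
  · rintro (h | h)
    exacts [Or.inl (Subtype.ext h), Or.inr (Subtype.ext h)]

/-- representative -/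
noncomputable def rep (x : S.XX) : G := ((x.out : S.B) : G)

theorem rep_mem (x : S.XX) : S.rep x ∈ S.B := x.out.2

theorem XX_eq {x y : S.XX} (h : (S.rep x)⁻¹ * S.rep y ∈ S.J) : x = y := by
  rw [← x.out_eq, ← y.out_eq]
  exact QuotientGroup.eq.2 (Subgroup.mem_subgroupOf.2 h)

theorem ω_rep (a : G) (ha : a ∈ S.B) (x y : H) : S.ω (S.ρ a x) y = S.ω x (S.ρ a⁻¹ y) := by
  rw [← S.ρ_ω ha x, ρ_ρ_inv]

/-- The covering of the graph of distinguished vectors by the cosets. -/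
noncomputable def cov (hN : Even S.N) (h2 : 2 ≤ S.N) (Λ : Lat S.L)
    (hω : ∀ x y : S.L, Λ.ω x y = S.ω x y) (hV : ∀ x : S.L, Λ.V x ↔ S.V x) : Cov Λ S.XX where
  p x := ⟨S.ρ (S.rep x) (S.c 0), S.ρ_L (S.rep_mem x) (S.c_mem (by omega))⟩
  adj x y := S.D ((S.rep x)⁻¹ * S.rep y)
  p_V x := (hV _).2 (S.ρ_V (S.rep_mem x) (S.V_c hN (by omega)))
  symm x y h := by simpa using h.inv h2
  adj_ω x y h := by
    rw [hω]
    have := h.omega h2
    rw [ρ_mul, ← S.ω_rep _ (S.rep_mem x)] at this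
    exact this
  lift x w hw h := by
    rw [hω] at h
    change |S.ω (S.ρ (S.rep x) (S.c 0)) w| = 1 at h
    rw [S.ω_rep _ (S.rep_mem x)] at h
    obtain ⟨b, hb, e⟩ := D_lift hN h2 (S.ρ_V (inv_mem (S.rep_mem x)) ((hV w).1 hw)) h
    obtain ⟨j, hj, ej⟩ := S.out_mk ⟨S.rep x * b, mul_mem (S.rep_mem x) (hb.mem_B h2)⟩
    refine ⟨((⟨S.rep x * b, mul_mem (S.rep_mem x) (hb.mem_B h2)⟩ : S.B) : S.XX), ?_, ?_⟩
    · change S.D ((S.rep x)⁻¹ * ((Quotient.out _ : S.B) : G))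
      rw [ej]
      simpa [mul_assoc] using hb.right hj
    · rw [PM_coe]
      change PM (S.ρ (S.rep _) _) _
      rw [rep, ej]
      simp only [ρ_mul]
      have := (((S.J_c0 h2 hj).map (S.ρ b)).trans e).map (S.ρ (S.rep x))
      rwa [ρ_ρ_inv] at this
  uniq x y y' h h' e := by
    rw [PM_coe] at e
    have e' := e.map (S.ρ (S.rep x)⁻¹)
    simp only [← ρ_mul] at e'
    apply S.XX_eq
    simpa [mul_assoc] using h.uniq hN h2 h' e'

variable {S}

/-- Reduction of a triangle to standard position. -/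
theorem tri_reduce (h2 : 2 ≤ S.N) {a b c : G} (hb : b ∈ S.B)
    (h1 : S.D (a⁻¹ * b)) (h3 : S.D (b⁻¹ * c)) :
    ∃ g ∈ S.B, ∃ b', S.D b' ∧ c = g * b' ∧ (∃ j ∈ S.J, b = g * j) ∧
      (∃ j ∈ S.J, a = g * S.δ * j) := by
  obtain ⟨j, hj, j', hj', e⟩ := h1.inv h2
  refine ⟨b * j, mul_mem hb (S.J_le_B h2 hj), j⁻¹ * (b⁻¹ * c), h3.left (inv_mem hj), by group,
    ⟨j⁻¹, inv_mem hj, by group⟩, j', hj', ?_⟩
  calc a = b * (a⁻¹ * b)⁻¹ := by group
    _ = _ := by rw [e]; group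

theorem std_form (h2 : 2 ≤ S.N) {b : G} (h : S.D b) (hb : |S.ω (S.c 1) (S.ρ b (S.c 0))| = 1) :
    ∃ e : ℤ, |e| = 1 ∧ ∃ x ∈ S.L, S.ω (S.c 0) x = 0 ∧ S.ω (S.c 1) x = 0 ∧
      PM (S.ρ b (S.c 0)) (S.c 1 + e • S.c 0 + x) := by
  have hL : S.ρ b (S.c 0) ∈ S.L := S.ρ_L (h.mem_B h2) (S.c_mem (by omega))
  have key : ∀ w ∈ S.L, S.ω (S.c 0) w = 1 → |S.ω (S.c 1) w| = 1 →
      ∃ e : ℤ, |e| = 1 ∧ ∃ x ∈ S.L, S.ω (S.c 0) x = 0 ∧ S.ω (S.c 1) x = 0 ∧
        w = S.c 1 + e • S.c 0 + x := by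
    intro w hw a0 a1
    refine ⟨-S.ω (S.c 1) w, by rw [abs_neg, a1], w - S.c 1 + S.ω (S.c 1) w • S.c 0,
      add_mem (sub_mem hw (S.c_mem (by omega))) (Submodule.smul_mem _ _ (S.c_mem (by omega))),
      by simp [a0, S.ω01 h2, S.alt], by simp [S.ω10 h2, S.alt], by module⟩
  rcases abs_one_cases (h.omega h2) with a | a
  · obtain ⟨e, he, x, hx, b0, b1, b2⟩ := key _ hL a hb
    exact ⟨e, he, x, hx, b0, b1, Or.inl b2⟩
  · obtain ⟨e, he, x, hx, b0, b1, b2⟩ := key _ (neg_mem hL) (by rw [map_neg, a, neg_neg])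
      (by rw [map_neg, abs_neg, hb])
    exact ⟨e, he, x, hx, b0, b1, Or.inr (by rw [← b2, neg_neg])⟩

variable (S)

/-- radical vector in the ambient lattice -/
def radS (a b c : H) : H := S.ω b c • a + S.ω c a • b + S.ω a b • c

theorem radS_PM {a a' b b' c c' : H} (ha : PM a a') (hb : PM b b') (hc : PM c c') :
    PM (S.radS a b c) (S.radS a' b' c') := by
  rcases ha with rfl | rfl <;> rcases hb with rfl | rfl <;> rcases hc with rfl | rfl <;>
    simp only [radS, map_neg, LinearMap.neg_apply, neg_neg] <;>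
    first | (left; module) | (right; module)

theorem radS_ρ {g : G} (hg : g ∈ S.B) (a b c : H) :
    S.radS (S.ρ g a) (S.ρ g b) (S.ρ g c) = S.ρ g (S.radS a b c) := by
  simp only [radS, S.ρ_ω hg, map_add, map_smul]

theorem radS_std (h2 : 2 ≤ S.N) (e : ℤ) {x : H} (h0 : S.ω (S.c 0) x = 0)
    (h1 : S.ω (S.c 1) x = 0) : S.radS (S.c 1) (S.c 0) (S.c 1 + e • S.c 0 + x) = -x := by
  simp only [radS, map_add, map_smul, LinearMap.add_apply, LinearMap.smul_apply, S.ω01 h2,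
    S.ω10 h2, S.alt, h0, h1, S.skew x (S.c 1), smul_eq_mul]
  module

theorem V_line {x ξ y : H} (hξ : ξ ∈ S.L) (hy : y ∈ S.L) (h0 : S.V x) (h1 : S.V (x + ξ))
    (hxy : |S.ω x y| = 1) (hξy : S.ω ξ y = 0) (i : ℤ) : S.V (x + i • ξ) := by
  obtain ⟨m, rfl | rfl⟩ := Int.even_or_odd' i
  · rw [mul_smul]
    exact S.V_two h0 (Submodule.smul_mem _ _ hξ) hy (by simpa [hξy] using hxy)
  · have e : x + (2 * m + 1) • ξ = x + ξ + (2 : ℤ) • (m • ξ) := by module
    rw [e]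
    exact S.V_two h1 (Submodule.smul_mem _ _ hξ) hy (by simpa [hξy] using hxy)

/-- The three statements proved by induction. -/
def Main : Prop :=
  (∀ z, S.V z → ∃ b ∈ S.B, PM (S.ρ b (S.c 0)) z) ∧
  (∀ b ∈ S.B, PM (S.ρ b (S.c 0)) (S.c 0) → b ∈ S.J) ∧
  (∀ b ∈ S.B, b ∈ S.ρ.ker → b ∈ K0 S.σ S.N)

theorem main_step (hN : Even S.N) (h2 : 2 ≤ S.N) (ih : S.shift.Main) : S.Main := by
  obtain ⟨hTr, hSt, hKer⟩ := ih
  obtain ⟨Λ, hω, hV⟩ := S.exists_lat hN
  set C := S.cov hN h2 Λ hω hV with hC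
  have hp : ∀ x, ((C.p x : S.L) : H) = S.ρ (S.rep x) (S.c 0) := fun _ => rfl
  have hadj : ∀ x y, C.adj x y ↔ S.D ((S.rep x)⁻¹ * S.rep y) := fun _ _ => Iff.rfl
  have c0L : S.c 0 ∈ S.L := S.c_mem (by omega)
  have c1L : S.c 1 ∈ S.L := S.c_mem (by omega)
  -- reduction to standard position
  have red : ∀ x y z, C.adj x y → C.adj y z → |Λ.ω (C.p x) (C.p z)| = 1 →
      ∃ g ∈ S.B, ∃ b, S.D b ∧ |S.ω (S.c 1) (S.ρ b (S.c 0))| = 1 ∧
        PM (S.ρ (S.rep x) (S.c 0)) (S.ρ g (S.c 1)) ∧ PM (S.ρ (S.rep y) (S.c 0)) (S.ρ g (S.c 0)) ∧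
        S.ρ (S.rep z) (S.c 0) = S.ρ g (S.ρ b (S.c 0)) ∧ (S.D (S.δ⁻¹ * b) → C.adj x z) := by
    intro x y z hxy hyz hxz
    obtain ⟨g, hg, b, hb, ez, ⟨j, hj, ey⟩, j', hj', ex⟩ :=
      tri_reduce h2 (S.rep_mem y) hxy hyz
    have px : PM (S.ρ (S.rep x) (S.c 0)) (S.ρ g (S.c 1)) := by
      rw [ex, ρ_mul, ρ_mul, ← S.ρ_δ_c0 h2]
      exact ((S.J_c0 h2 hj').map _).map _
    have pz : S.ρ (S.rep z) (S.c 0) = S.ρ g (S.ρ b (S.c 0)) := by rw [ez, ρ_mul]
    refine ⟨g, hg, b, hb, ?_, px, ?_, pz, fun h => ?_⟩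
    · rw [hω, hp, hp, pz, S.PM_ω px (PM.refl _), S.ρ_ω hg] at hxz
      exact hxz
    · rw [ey, ρ_mul]; exact (S.J_c0 h2 hj).map _
    · rw [hadj, ex, ez]
      have := h.left (inv_mem hj')
      simpa [mul_assoc] using this
  have hs : ∀ x y z, C.adj x y → C.adj y z → |Λ.ω (C.p x) (C.p z)| = 1 →
      Λ.Small (C.p x) (C.p y) (C.p z) → C.adj x z := by
    intro x y z hxy hyz hxz hsm
    obtain ⟨g, hg, b, hb, hb1, px, py, pz, fin⟩ := red x y z hxy hyz hxz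
    apply fin
    obtain ⟨e, he, t, ht, t0, t1, hbt⟩ := std_form h2 hb hb1
    have hr : ((Λ.rad (C.p x) (C.p y) (C.p z) : S.L) : H) =
        S.radS (S.ρ (S.rep x) (S.c 0)) (S.ρ (S.rep y) (S.c 0)) (S.ρ (S.rep z) (S.c 0)) := by
      simp only [Lat.rad, radS, hω, hp, Submodule.coe_add, Submodule.coe_smul]
    have hr2 : PM ((Λ.rad (C.p x) (C.p y) (C.p z) : S.L) : H) (S.ρ g t) := by
      rw [hr]
      have := S.radS_PM px py (pz ▸ hbt.map (S.ρ g))
      rw [S.radS_ρ hg, S.radS_std h2 e t0 t1, map_neg] at this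
      simpa using this.neg_right
    rcases hsm with h0 | ⟨ζ, hζ⟩
    · rw [h0] at hr2
      have : t = 0 := by
        have := hr2.map (S.ρ g⁻¹)
        rw [ρ_inv_ρ] at this
        rcases this with h | h
        · simpa using h.symm
        · simpa using h.symm
      rw [this, add_zero] at hbt
      exact hb.std_zero hN h2 he hbt
    · rw [hω] at hζ
      have h5 : |S.ω t (S.ρ g⁻¹ ζ)| = 1 := by
        rw [← S.ω_rep _ hg, ← S.PM_ω hr2 (PM.refl _), hζ, abs_one]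
      have hζL : S.ρ g⁻¹ ζ ∈ S.L := S.ρ_L (inv_mem hg) ζ.2
      rcases abs_one_cases h5 with h5 | h5
      · exact hb.std_prim hN h2 hTr he hζL t0 t1 h5 hbt
      · exact hb.std_prim hN h2 hTr he (neg_mem hζL) t0 t1 (by rw [map_neg, h5, neg_neg]) hbt
  have hT : ∀ x y z, C.adj x y → C.adj y z → |Λ.ω (C.p x) (C.p z)| = 1 → C.adj x z := by
    intro x y z hxy hyz hxz
    obtain ⟨g, hg, b, hb, hb1, px, py, pz, fin⟩ := red x y z hxy hyz hxz
    obtain ⟨e, he, t, ht, t0, t1, hbt⟩ := std_form h2 hb hb1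
    by_cases ht0 : t = 0
    · rw [ht0, add_zero] at hbt
      exact fin (hb.std_zero hN h2 he hbt)
    obtain ⟨d, ξ, ζ, hd, hξ, hζ, rfl, hξζ⟩ := S.cont hN ht ht0
    have x0 : S.ω (S.c 0) ξ = 0 := by
      rw [map_smul, smul_eq_mul] at t0
      exact (mul_eq_zero.1 t0).resolve_left hd.ne'
    have x1 : S.ω (S.c 1) ξ = 0 := by
      rw [map_smul, smul_eq_mul] at t1
      exact (mul_eq_zero.1 t1).resolve_left hd.ne'
    rcases S.exists_eta hN hξ hζ hξζ x0 x1 with ⟨η, hη, e0, e1, e2⟩ | ⟨j, hj2, hj, hpair⟩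
    · refine fin (hb.std_cone hN h2 hTr hSt hb1 hη e0 e1 ?_)
      rw [← abs_eq_zero, S.PM_ω (PM.refl _) hbt]
      simp [S.skew η (S.c 0), S.skew η (S.c 1), S.skew η ξ, e0, e1, e2]
    · have x0' : S.ω ξ (S.c 0) = 0 := by rw [S.skew, x0, neg_zero]
      have x1' : S.ω ξ (S.c 1) = 0 := by rw [S.skew, x1, neg_zero]
      have V0 : S.V (S.c 0) := S.V_c hN (by omega)
      have V1 : S.V (S.c 1) := S.V_c hN (by omega)
      have Ve : S.V (e • S.c 0) := by
        rcases abs_one_cases he with rfl | rfl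
        · simpa using V0
        · simpa using S.V_neg V0
      have Va : S.V (S.c 0 + ξ) :=
        ⟨add_mem c0L hξ, ⟨S.c 1, c1L, by simp [S.ω01 h2, x1']⟩, 2, j, hj2, hj,
          by rw [add_comm]; exact hpair⟩
      have Vb : S.V (e • S.c 0 + ξ) := by
        rcases abs_one_cases he with rfl | rfl
        · simpa using Va
        · have e3 : (-1 : ℤ) • S.c 0 + ξ = S.c 0 + ξ + (2 : ℤ) • (-S.c 0) := by module
          rw [e3]
          refine S.V_two Va (neg_mem c0L) c1L ?_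
          rw [← e3]; simp [S.ω01 h2, x1']
      have Vc : S.V (S.c 1 + ξ) := by
        refine ⟨add_mem c1L hξ, ⟨-S.c 0, neg_mem c0L, by simp [S.ω10 h2, x0']⟩, 0, j, by omega,
          hj, fun k => ?_⟩
        have e3 : S.c 1 + ξ = ξ + S.c 0 - S.c 0 + S.c 1 := by abel
        rw [e3, map_add, map_sub, hpair, S.pt_c 0 (by omega), S.pt_c 1 (by omega)]
        split_ifs <;> first | omega | decide
      have L0 := S.V_line hξ c1L Ve Vb (by simpa [S.ω01 h2] using he) x1'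
      have L1 := S.V_line hξ c0L V1 Vc (by simp [S.ω10 h2]) x0'
      have L2 : ∀ i : ℤ, S.V (e • S.c 0 + S.c 1 + i • ξ) := by
        intro i
        have e3 : e • S.c 0 + S.c 1 + i • ξ = S.c 1 + i • ξ + e • S.c 0 := by abel
        rw [e3]
        exact S.V_add Ve (L1 i) (by simpa [S.ω01 h2, x0] using he)
      have gL : ∀ x ∈ S.L, S.ρ g x ∈ S.L := fun x hx => S.ρ_L hg hx
      refine C.zigzag hs ⟨S.ρ g (e • S.c 0), gL _ (Submodule.smul_mem _ _ c0L)⟩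
        ⟨S.ρ g (S.c 1), gL _ c1L⟩ ⟨S.ρ g ξ, gL _ hξ⟩ ⟨S.ρ g ζ, gL _ hζ⟩ ?_ ?_ ?_ ?_ ?_ d x y z
        hxy hyz ?_ ?_ ?_
      · rw [hω]; simp only [S.ρ_ω hg]; simpa [S.ω01 h2] using he
      · rw [hω]; simp only [S.ρ_ω hg]; simp [x0]
      · rw [hω]; simp only [S.ρ_ω hg]; exact x1
      · rw [hω]; simp only [S.ρ_ω hg]; exact hξζ
      · intro i
        simp only [hV, Submodule.coe_add, Submodule.coe_smul, ← map_smul, ← map_add]
        exact ⟨S.ρ_V hg (L0 i), S.ρ_V hg (L1 i), S.ρ_V hg (L2 i)⟩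
      · rw [PM_coe, hp]
        refine py.trans (PM.map ?_ _)
        rcases abs_one_cases he with rfl | rfl
        · left; simp
        · right; simp
      · rw [PM_coe, hp]; exact px
      · rw [PM_coe, hp, pz]
        simp only [Submodule.coe_add, Submodule.coe_smul, ← map_smul, ← map_add]
        rw [add_comm (e • S.c 0)]
        exact hbt.map _
  obtain ⟨Gd, h0, hcl, hinj, hsurj⟩ := Λ.cover C hT ((1 : S.B) : S.XX)
  have hall : ∀ g : G, ∀ hg : g ∈ S.B, ((⟨g, hg⟩ : S.B) : S.XX) ∈ Gd := by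
    have step : ∀ a : S.B, ∀ t : S.B, ((t : G) ∈ S.J ∨ S.D t) → (a : S.XX) ∈ Gd →
        ((a * t : S.B) : S.XX) ∈ Gd := by
      intro a t ht ha
      obtain ⟨j, hj, ej⟩ := S.out_mk a
      obtain ⟨j', hj', ej'⟩ := S.out_mk (a * t)
      have e : (S.rep (a : S.XX))⁻¹ * S.rep ((a * t : S.B) : S.XX) = j⁻¹ * t * j' := by
        rw [rep, rep, ej, ej', Subgroup.coe_mul]; group
      rcases ht with ht | ht
      · have := S.XX_eq (x := (a : S.XX)) (y := ((a * t : S.B) : S.XX))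
          (by rw [e]; exact mul_mem (mul_mem (inv_mem hj) ht) hj')
        rw [← this]
        exact ha
      · exact hcl _ ha _ (by rw [hadj, e]; exact (ht.left (inv_mem hj)).right hj')
    have gen : ∀ i, i < S.N → S.σ i ∈ S.J ∨ S.D (S.σ i) := by
      intro i hi
      rcases Nat.lt_or_ge i 2 with h | h
      · interval_cases i
        · exact Or.inl S.s_mem_J
        · right
          simpa using S.D_δ.left (inv_mem S.s_mem_J)
      · exact Or.inl (S.Ga_mem_J (Subgroup.subset_closure (Or.inr ⟨i, ⟨h, hi⟩, rfl⟩)))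
    intro g hg
    induction hg using Subgroup.closure_induction_right with
    | one => exact h0
    | mul_right x hx y hy ih =>
      obtain ⟨i, hi, rfl⟩ := hy
      exact step ⟨x, hx⟩ ⟨S.σ i, mem_BB hi⟩ (gen i hi) ih
    | mul_inv_cancel x hx y hy ih =>
      obtain ⟨i, hi, rfl⟩ := hy
      refine step ⟨x, hx⟩ ⟨(S.σ i)⁻¹, inv_mem (mem_BB hi)⟩ ?_ ih
      rcases gen i hi with h | h
      exacts [Or.inl (inv_mem h), Or.inr (h.inv h2)]
  have St : ∀ b ∈ S.B, PM (S.ρ b (S.c 0)) (S.c 0) → b ∈ S.J := by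
    intro b hb h
    obtain ⟨j, hj, ej⟩ := S.out_mk ⟨b, hb⟩
    obtain ⟨j', hj', ej'⟩ := S.out_mk 1
    have e := hinj _ h0 _ (hall b hb) (by
      rw [PM_coe, hp, hp, rep, rep, ej, ej', ρ_mul, ρ_mul]
      refine PM.trans ?_ ((h.symm).trans ((S.J_c0 h2 hj).map _).symm)
      simp only [OneMemClass.coe_one, ρ_one]
      exact S.J_c0 h2 hj')
    have := Subgroup.mem_subgroupOf.1 (QuotientGroup.eq.1 e)
    simpa using this
  refine ⟨fun z hz => ?_, St, fun b hb hk => ?_⟩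
  · obtain ⟨x, -, hx⟩ := hsurj ⟨z, hz.1⟩ ((hV _).2 hz)
    exact ⟨S.rep x, S.rep_mem x, S.PM_coe.1 hx⟩
  · obtain ⟨k, hk0, g, hg, rfl⟩ := S.J_form h2 (St b hb (Or.inl (S.ρ_of_ker hk _)))
    refine mul_mem hk0 (S.GA4 hN h2 hKer hg ?_)
    have := mul_mem (inv_mem (S.K0_le_ker hk0)) hk
    simpa using this

theorem main (g : ℕ) : ∀ S : Sys G H, S.N = 2 * g → S.Main := by
  induction g with
  | zero =>
    intro S hS
    have hB : ∀ b ∈ S.B, b = 1 := by
      intro b hb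
      have : S.B = ⊥ := by
        rw [B, BB, hS]
        simp
      rwa [this, Subgroup.mem_bot] at hb
    refine ⟨fun z hz => ?_, fun b hb _ => ?_, fun b hb _ => ?_⟩
    · obtain ⟨-, -, i, j, hij, hj, -⟩ := hz
      omega
    · rw [hB b hb]; exact one_mem _
    · rw [hB b hb]; exact one_mem _
  | succ g ih =>
    intro S hS
    exact S.main_step ⟨g + 1, by omega⟩ (by omega) (ih S.shift (by simp only [shift]; omega))

end Sys

end Pool.Agent.MP_00906f_gt.H46
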