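import Pool.Agent.MP_00906f_gt.H46.Defs

/-! Row A1, part one: an abstract Morse lemma for coverings of the graph on `V / ±`, and three
facts about integers. -/

namespace Pool.Agent.MP_00906f_gt.H46.Cv

section morse

variable {H X ι : Type*} [AddCommGroup H] {Λ : Lat H} [LinearOrder ι]

theorem pm_refl (x : H) : PM x x := Or.inl rfl

theorem pm_symm {x y : H} (h : PM x y) : PM y x := by
  rcases h with rfl | rfl
  · exact Or.inl rfl
  · exact Or.inr (neg_neg _).symm

theorem pm_trans {x y z : H} (h : PM x y) (h' : PM y z) : PM x z := by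
  rcases h with rfl | rfl
  · exact h'
  · rcases h' with rfl | rfl
    · exact Or.inr rfl
    · exact Or.inl (neg_neg _)

theorem pm_abs {x x' y y' : H} (h : PM x x') (h' : PM y y') : |Λ.ω x y| = |Λ.ω x' y'| := by
  rcases h with rfl | rfl <;> rcases h' with rfl | rfl <;> simp

omit [LinearOrder ι] in
theorem pm_f {f : H → ι} (hf : ∀ v, f (-v) = f v) {x y : H} (h : PM x y) : f x = f y := by
  rcases h with rfl | rfl
  · rfl
  · exact hf _

theorem skew (x y : H) : Λ.ω x y = -Λ.ω y x := by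
  have h := Λ.alt (x + y)
  simp only [map_add, LinearMap.add_apply, Λ.alt] at h
  omega

theorem abs_comm (x y : H) : |Λ.ω x y| = |Λ.ω y x| := by rw [skew x y, abs_neg]

/-- Neighbours of `z` of height below `n`. -/
def Low (Λ : Lat H) (f : H → ι) (z : H) (n : ι) (u : H) : Prop :=
  Λ.V u ∧ |Λ.ω z u| = 1 ∧ f u < n

/-- Paths through neighbours of `z` of height below `n`. -/
def Path (Λ : Lat H) (f : H → ι) (z : H) (n : ι) : H → H → Prop :=
  Relation.ReflTransGen fun u u' => Low Λ f z n u' ∧ (|Λ.ω u u'| = 1 ∨ u' = -u)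

/-- The elements reached from `x0` by ascending paths. -/
inductive Up (C : Cov Λ X) (f : H → ι) (x0 : X) : X → Prop
  | base : Up C f x0 x0
  | step {x y : X} : Up C f x0 x → C.adj x y → f (C.p x) < f (C.p y) → Up C f x0 y

theorem morse [WellFoundedLT ι] (C : Cov Λ X)
    (hT : ∀ x y z, C.adj x y → C.adj y z → |Λ.ω (C.p x) (C.p z)| = 1 → C.adj x z) (x0 : X)
    (f : H → ι) (hf : ∀ v, f (-v) = f v) (hmin : ∀ v, f (C.p x0) ≤ f v)
    (hne : ∀ v, Λ.V v → ¬ PM (C.p x0) v → ∃ u, Low Λ f v (f v) u)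
    (conn : ∀ v u u', Λ.V v → Low Λ f v (f v) u → Low Λ f v (f v) u' → Path Λ f v (f v) u u')
    (tie : ∀ v v', Λ.V v → Λ.V v' → |Λ.ω v v'| = 1 → f v = f v' →
      ∃ z, Λ.V z ∧ |Λ.ω v z| = 1 ∧ |Λ.ω v' z| = 1 ∧ (f z < f v ∨ ∃ u u', Low Λ f z (f v) u ∧
        Low Λ f z (f v) u' ∧ |Λ.ω v u| = 1 ∧ |Λ.ω v' u'| = 1 ∧ Path Λ f z (f v) u u')) :
    ∃ Gd : Set X, x0 ∈ Gd ∧ (∀ x ∈ Gd, ∀ y, C.adj x y → y ∈ Gd) ∧
      (∀ x ∈ Gd, ∀ y ∈ Gd, PM (C.p x) (C.p y) → x = y) ∧
      (∀ v, Λ.V v → ∃ x ∈ Gd, PM (C.p x) v) := by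
  have ex : ∀ (n : ι) v, Λ.V v → f v = n → ∃ x, Up C f x0 x ∧ PM (C.p x) v := by
    intro n
    induction n using WellFoundedLT.induction with
    | ind n ih =>
      intro v hv hn
      by_cases h : PM (C.p x0) v
      · exact ⟨x0, Up.base, h⟩
      obtain ⟨u, hu, hu1, hu2⟩ := hne v hv h
      obtain ⟨x, hx, hxu⟩ := ih _ (hn ▸ hu2) u hu rfl
      obtain ⟨y, hy, hyv⟩ := C.lift x v hv (by rw [pm_abs hxu (pm_refl v), abs_comm, hu1])
      exact ⟨y, hx.step hy (by rwa [pm_f hf hxu, pm_f hf hyv]), hyv⟩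
  have main : ∀ (n : ι) x y, Up C f x0 x → Up C f x0 y → f (C.p x) ≤ n → f (C.p y) ≤ n →
      (PM (C.p x) (C.p y) → x = y) ∧ (|Λ.ω (C.p x) (C.p y)| = 1 → C.adj x y) := by
    intro n
    induction n using WellFoundedLT.induction with
    | ind n ih =>
      have prop : ∀ m ≤ n, ∀ e z u u', PM (C.p e) z → Low Λ f z m u → Path Λ f z m u u' →
          ∀ x, Up C f x0 x → PM (C.p x) u → C.adj e x →
          Low Λ f z m u' ∧ ∀ x', Up C f x0 x' → PM (C.p x') u' → C.adj e x' := by
        intro m hm e z u u' he hu hp x hx hxu hex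
        induction hp with
        | refl =>
          refine ⟨hu, fun x' hx' hx'u => ?_⟩
          have := (ih _ (hu.2.2.trans_le hm) x x' hx hx' (pm_f hf hxu).le (pm_f hf hx'u).le).1
            (pm_trans hxu (pm_symm hx'u))
          exact this ▸ hex
        | @tail w w' _ hs ih' =>
          refine ⟨hs.1, fun x' hx' hx'w => ?_⟩
          rcases hs.2 with h1 | rfl
          · obtain ⟨x1, hx1, hx1w⟩ := ex _ w ih'.1.1 rfl
            refine hT e x1 x' (ih'.2 x1 hx1 hx1w) ?_ (by rw [pm_abs he hx'w, hs.1.2.1])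
            refine (ih (max (f w) (f w')) ((max_lt ih'.1.2.2 hs.1.2.2).trans_le hm) x1 x' hx1 hx'
              ((pm_f hf hx1w).le.trans (le_max_left _ _))
              ((pm_f hf hx'w).le.trans (le_max_right _ _))).2 ?_
            rw [pm_abs hx1w hx'w, h1]
          · exact ih'.2 x' hx' (pm_trans hx'w (Or.inr rfl))
      have K : ∀ y x', Up C f x0 y → Up C f x0 x' → f (C.p y) ≤ n → f (C.p x') < f (C.p y) →
          |Λ.ω (C.p y) (C.p x')| = 1 → C.adj y x' := by
        intro y x' hy hx' hn hlt h1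
        cases hy with
        | base => exact absurd hlt (not_lt.2 (hmin _))
        | @step x _ hx hxy hlt' =>
          have hl : Low Λ f (C.p y) (f (C.p y)) (C.p x) :=
            ⟨C.p_V x, C.adj_ω _ _ (C.symm _ _ hxy), hlt'⟩
          exact (prop _ hn y _ _ _ (pm_refl _) hl (conn _ _ _ (C.p_V y) hl ⟨C.p_V x', h1, hlt⟩)
            x hx (pm_refl _) (C.symm _ _ hxy)).2 x' hx' (pm_refl _)
      intro x y hx hy hxn hyn
      refine ⟨fun h => ?_, fun h => ?_⟩
      · have hfe := pm_f hf h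
        cases hx with
        | base =>
          cases hy with
          | base => rfl
          | step _ _ hlt => exact absurd (hlt.trans_eq hfe.symm) (not_lt.2 (hmin _))
        | @step x1 _ hx1 hx1x hlt =>
          refine C.uniq x1 x y hx1x (C.symm _ _ (K y x1 hy hx1 hyn (hlt.trans_eq hfe) ?_)) h
          rw [← pm_abs h (pm_refl _), abs_comm, C.adj_ω _ _ hx1x]
      · rcases lt_trichotomy (f (C.p x)) (f (C.p y)) with hlt | heq | hlt
        · exact C.symm _ _ (K y x hy hx hyn hlt (by rw [abs_comm, h]))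
        · obtain ⟨z, hz, hxz, hyz, hc⟩ := tie _ _ (C.p_V x) (C.p_V y) h heq
          rcases hc with hlt | ⟨u, u', hu, hu', hxu, hyu, hp⟩
          · obtain ⟨e, he, hez⟩ := ex _ z hz rfl
            have h1 := K x e hx he hxn ((pm_f hf hez).trans_lt hlt)
              (by rw [pm_abs (pm_refl _) hez, hxz])
            have h2 := K y e hy he hyn ((pm_f hf hez).trans_lt (hlt.trans_eq heq))
              (by rw [pm_abs (pm_refl _) hez, hyz])
            exact hT x e y h1 (C.symm _ _ h2) h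
          · obtain ⟨e, hxe, hez⟩ := C.lift x z hz hxz
            obtain ⟨a, ha, hau⟩ := ex _ u hu.1 rfl
            obtain ⟨a', ha', hau'⟩ := ex _ u' hu'.1 rfl
            have h1 := K x a hx ha hxn ((pm_f hf hau).trans_lt hu.2.2)
              (by rw [pm_abs (pm_refl _) hau, hxu])
            have h2 := K y a' hy ha' hyn ((pm_f hf hau').trans_lt (hu'.2.2.trans_eq heq))
              (by rw [pm_abs (pm_refl _) hau', hyu])
            have h3 := hT e x a (C.symm _ _ hxe) h1 (by rw [pm_abs hez hau, hu.2.1])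
            have h4 := (prop _ hxn e z u u' hez hu hp a ha hau h3).2 a' ha' hau'
            have h5 := hT e a' y h4 (C.symm _ _ h2)
              (by rw [pm_abs hez (pm_refl _), abs_comm, hyz])
            exact hT x e y hxe h5 h
        · exact K x y hx hy hxn hlt h
  refine ⟨{x | Up C f x0 x}, Up.base, fun x hx y hxy => ?_, fun x hx y hy =>
    (main _ x y hx hy (le_max_left _ _) (le_max_right _ _)).1, fun v hv => ex _ v hv rfl⟩
  obtain ⟨y', hy', hyy⟩ := ex _ _ (C.p_V y) rfl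
  have h := (main _ x y' hx hy' (le_max_left _ _) (le_max_right _ _)).2
    (by rw [pm_abs (pm_refl _) hyy, C.adj_ω _ _ hxy])
  rw [← C.uniq x y' y h hxy hyy]
  exact hy'

end morse

theorem window (m L σ : ℤ) (hm : 0 < m) : ∃ l, L < σ + l * m ∧ σ + l * m ≤ L + m := by
  have h1 := Int.emod_add_mul_ediv (σ - L - 1) m
  have h2 := Int.emod_nonneg (σ - L - 1) hm.ne'
  have h3 := Int.emod_lt_of_pos (σ - L - 1) hm
  refine ⟨-((σ - L - 1) / m), ?_, ?_⟩ <;> linarith

theorem arith_base {R a ρ ρ' p : ℤ} (ha : a = R ∨ a = -R) (h0 : ρ ≠ 0) (h1 : |ρ| < R)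
    (h0' : ρ' ≠ 0) (h1' : |ρ'| < R) (h : |ρ' - ρ - a * p| ≤ 2 * R) :
    ∃ i i' : ℤ, (i = 0 ∨ |i| = 1) ∧ (i' = 0 ∨ |i'| = 1) ∧ (ρ - i * a ≠ 0 ∧ |ρ - i * a| < R) ∧
      (ρ' - i' * a ≠ 0 ∧ |ρ' - i' * a| < R) ∧ |p + i - i'| = 1 := by
  rw [abs_lt] at h1 h1'
  rw [abs_le] at h
  have hp : -4 < p ∧ p < 4 := by
    rcases ha with rfl | rfl <;> constructor <;> by_contra hc <;> nlinarith
  obtain ⟨hp1, hp2⟩ := hp
  simp only [abs_lt, abs_eq (zero_le_one' ℤ)]
  rcases ha with rfl | rfl <;> rcases lt_or_gt_of_ne h0 with h2 | h2 <;>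
    rcases lt_or_gt_of_ne h0' with h3 | h3 <;> interval_cases p <;>
    first
    | exact ⟨0, 0, by omega⟩
    | exact ⟨1, 0, by omega⟩
    | exact ⟨-1, 0, by omega⟩
    | exact ⟨0, 1, by omega⟩
    | exact ⟨0, -1, by omega⟩
    | exact ⟨1, -1, by omega⟩
    | exact ⟨-1, 1, by omega⟩

theorem arith_pos {R k m ρ : ℤ} (σ : ℤ) (hR : 0 < R) (hk : 0 < k) (hm : 2 * R < k * m)
    (h0 : ¬ R ∣ ρ) (h1 : ¬ R ∣ ρ + k * m) :
    ∃ i l : ℤ, |i * σ + l * m| < k * m ∧ |k * m - (i * σ + l * m) - 2 * i * k * R| < k * m ∧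
      ¬ R ∣ ρ + (i * σ + l * m) := by
  have hm0 : 0 < m := by by_contra hc; nlinarith
  simp only [abs_lt]
  obtain rfl | rfl | hk3 : k = 1 ∨ k = 2 ∨ 3 ≤ k := by omega
  · obtain ⟨l, hl1, hl2⟩ := window m (-(2 * R)) σ hm0
    by_cases hc : R ∣ ρ + (σ + l * m)
    swap
    · exact ⟨1, l, by constructor <;> linarith, by constructor <;> linarith, by rwa [one_mul]⟩
    rcases lt_trichotomy (σ + l * m) 0 with hs | hs | hs
    · by_cases hd : R ∣ m
      · obtain ⟨l', h3, h4⟩ := window m (max (-m) (-(4 * R))) (2 * σ) hm0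
        have h5 := le_max_left (-m) (-(4 * R))
        have h6 := le_max_right (-m) (-(4 * R))
        have h7 : max (-m) (-(4 * R)) < 0 := max_lt (by linarith) (by linarith)
        have h8 : max (-m) (-(4 * R)) < m - 4 * R := max_lt (by linarith) (by linarith)
        refine ⟨2, l', by constructor <;> linarith, by constructor <;> linarith, fun h => h0 ?_⟩
        have := ((hc.mul_left 2).sub h).add (hd.mul_left (l' - 2 * l))
        exact (congrArg (R ∣ ·) (by ring)).mp this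
      · refine ⟨1, l + 1, by constructor <;> linarith, by constructor <;> linarith,
          fun h => hd ?_⟩
        exact (congrArg (R ∣ ·) (by ring)).mp (h.sub hc)
    · exact absurd (by simpa [hs] using hc) h0
    · by_cases hd : 2 * (σ + l * m) ≤ m - 4 * R
      · refine ⟨2, 2 * l, by constructor <;> linarith, by constructor <;> linarith,
          fun h => h0 ?_⟩
        exact (congrArg (R ∣ ·) (by ring)).mp ((hc.mul_left 2).sub h)
      · refine ⟨2, 2 * l - 1, by constructor <;> linarith, by constructor <;> linarith,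
          fun h => h1 ?_⟩
        exact (congrArg (R ∣ ·) (by ring)).mp ((hc.mul_left 2).sub h)
  · by_cases hc : R ∣ ρ + m
    swap
    · exact ⟨0, 1, by constructor <;> linarith, by constructor <;> linarith, by simpa using hc⟩
    obtain ⟨l, h3, h4⟩ := window m (max (-(2 * m)) (-(4 * R))) σ hm0
    have h5 := le_max_left (-(2 * m)) (-(4 * R))
    have h6 := le_max_right (-(2 * m)) (-(4 * R))
    have h7 : max (-(2 * m)) (-(4 * R)) < 0 := max_lt (by linarith) (by linarith)
    have h8 : max (-(2 * m)) (-(4 * R)) < 2 * m - 4 * R := max_lt (by linarith) (by linarith)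
    by_cases hd : R ∣ ρ + (1 * σ + l * m)
    swap
    · exact ⟨1, l, by constructor <;> linarith, by constructor <;> linarith, hd⟩
    refine ⟨1, l + 1, by constructor <;> linarith, by constructor <;> linarith, fun h => h0 ?_⟩
    exact (congrArg (R ∣ ·) (by ring)).mp ((hc.add hd).sub h)
  · have h3 : 3 * m ≤ k * m := mul_le_mul_of_nonneg_right hk3 hm0.le
    by_cases hc : R ∣ ρ + m
    swap
    · exact ⟨0, 1, by constructor <;> linarith, by constructor <;> linarith, by simpa using hc⟩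
    refine ⟨0, 2, by constructor <;> linarith, by constructor <;> linarith, fun h => h0 ?_⟩
    exact (congrArg (R ∣ ·) (by ring)).mp ((hc.mul_left 2).sub h)

theorem arith_step {R a k m ρ : ℤ} (σ : ℤ) (hR : 0 < R) (ha : a = R ∨ a = -R) (hk : 0 < k)
    (hm : 2 * R < |k * m|) (h0 : ¬ R ∣ ρ) (h1 : ¬ R ∣ ρ + k * m) :
    ∃ i l : ℤ, |i * σ + l * m| < |k * m| ∧
      |k * m - (i * σ + l * m) + 2 * i * k * a| < |k * m| ∧ ¬ R ∣ ρ + (i * σ + l * m) := by
  rcases le_total 0 (k * m) with h | h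
  · rw [abs_of_nonneg h] at hm ⊢
    rcases ha with rfl | rfl
    · obtain ⟨i, l, h2, h3, h4⟩ := arith_pos (-σ) hR hk hm h0 h1
      exact ⟨-i, l, (congrArg (|·| < k * m) (by ring)).mp h2,
        (congrArg (|·| < k * m) (by ring)).mp h3, (congrArg (¬ a ∣ ·) (by ring)).mp h4⟩
    · obtain ⟨i, l, h2, h3, h4⟩ := arith_pos σ hR hk hm h0 h1
      exact ⟨i, l, h2, (congrArg (|·| < k * m) (by ring)).mp h3, h4⟩
  · rw [abs_of_nonpos h, ← mul_neg] at hm ⊢
    have h0' : ¬ R ∣ -ρ := by rwa [dvd_neg]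
    have h1' : ¬ R ∣ -ρ + k * -m := fun h => h1 ((congrArg (R ∣ ·) (by ring)).mp h.neg_right)
    rcases ha with rfl | rfl
    · obtain ⟨i, l, h2, h3, h4⟩ := arith_pos (-σ) hR hk hm h0' h1'
      rw [← abs_neg] at h2 h3
      exact ⟨i, l, (congrArg (|·| < k * -m) (by ring)).mp h2,
        (congrArg (|·| < k * -m) (by ring)).mp h3,
        fun h => h4 ((congrArg (a ∣ ·) (by ring)).mp h.neg_right)⟩
    · obtain ⟨i, l, h2, h3, h4⟩ := arith_pos σ hR hk hm h0' h1'
      rw [← abs_neg] at h2 h3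
      exact ⟨-i, l, (congrArg (|·| < k * -m) (by ring)).mp h2,
        (congrArg (|·| < k * -m) (by ring)).mp h3,
        fun h => h4 ((congrArg (R ∣ ·) (by ring)).mp h.neg_right)⟩

end Pool.Agent.MP_00906f_gt.H46.Cv
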