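import Pool.Agent.MP_00906f_gt.H46.CoverAux1

/-! Row A1, part two: neighbours of a vertex and the connectivity of descending links. -/

namespace Pool.Agent.MP_00906f_gt.H46.Cv

variable {H : Type*} [AddCommGroup H] {Λ : Lat H}

theorem V_par {v u u' : H} (x : H) (hu : Λ.V u) (h : Λ.ω v u' = 1) (e : u' = u + (2 : ℤ) • x) :
    Λ.V u' := by
  subst e
  exact Λ.V_two u x (-v) hu (by rw [map_neg, ← skew, h])

theorem V_comb {v u α γ : H} (hu : Λ.V u) (hα : Λ.V (u + α)) (h : Λ.ω v u = 1)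
    (h1 : Λ.ω v α = 0) (h2 : Λ.ω v γ = 0) (i : ℤ) : Λ.V (u + i • α + (2 : ℤ) • γ) := by
  have h3 : Λ.ω v (u + i • α + (2 : ℤ) • γ) = 1 := by simp [h, h1, h2]
  obtain ⟨j, rfl | rfl⟩ := Int.even_or_odd' i
  · exact V_par (j • α + γ) hu h3 (by module)
  · exact V_par (j • α + γ) hα h3 (by module)

theorem V_shift {v u : H} (hv : Λ.V v) (hu : Λ.V u) (h : Λ.ω v u = 1) (t : ℤ) :
    Λ.V (u + t • v) := by
  simpa using V_comb (γ := 0) hu (Λ.V_add v u hv hu h) h (Λ.alt v) (map_zero _) t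

/-- A dual vector orthogonal to the plane of `v` and `u`. -/
theorem dual {v u ξ ζ : H} (h : Λ.ω v u = 1) (h1 : Λ.ω v ξ = 0) (h2 : Λ.ω u ξ = 0)
    (h3 : Λ.ω ξ ζ = 1) : ∃ ζ', Λ.ω ξ ζ' = 1 ∧ Λ.ω v ζ' = 0 ∧ Λ.ω u ζ' = 0 :=
  ⟨ζ - Λ.ω v ζ • u + Λ.ω u ζ • v, by simp [skew ξ u, skew ξ v, h1, h2, h3],
    by simp [h, Λ.alt], by simp [skew u v, h, Λ.alt]⟩

theorem nbr {v u ξ ζ : H} (hv : Λ.V v) (hu : Λ.V u) (h : Λ.ω v u = 1) (h1 : Λ.ω v ξ = 0)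
    (h2 : Λ.ω u ξ = 0) (h3 : Λ.ω ξ ζ = 1) (m k : ℤ) :
    ∃ w, Λ.V w ∧ Λ.ω v w = 1 ∧ Λ.ω ξ w = m ∧ Λ.ω u w = k := by
  obtain ⟨ζ', h4, h5, -⟩ := dual h h1 h2 h3
  have : ∃ w, Λ.V w ∧ Λ.ω v w = 1 ∧ Λ.ω ξ w = m := by
    obtain ⟨j, rfl | rfl⟩ := Int.even_or_odd' m
    · have h6 : Λ.ω v (u + (2 : ℤ) • j • ζ') = 1 := by simp [h, h5]
      exact ⟨_, V_par _ hu h6 rfl, h6, by simp [skew ξ u, h2, h4]⟩
    · obtain ⟨w, hw, hw1, i, hi⟩ := Λ.V_odd v u ξ ζ hv hu h h1 h2 h3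
      have h6 : Λ.ω v (w + (2 : ℤ) • (j - i) • ζ') = 1 := by simp [hw1, h5]
      exact ⟨_, V_par _ hw h6 rfl, h6, by simp [hi, h4]; ring⟩
  obtain ⟨w, hw, hw1, hw2⟩ := this
  exact ⟨_, V_shift hv hw hw1 (Λ.ω u w - k), by simp [hw1, Λ.alt], by simp [hw2, skew ξ v, h1],
    by simp [skew u v, h]⟩

/-- Decomposition along the plane of `v` and `u`. -/
theorem split {v u : H} (h : Λ.ω v u = 1) (x : H) (hx : x ≠ Λ.ω v x • u - Λ.ω u x • v) :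
    ∃ (d : ℤ) (ξ ζ : H), 0 < d ∧ Λ.ω ξ ζ = 1 ∧ Λ.ω v ξ = 0 ∧ Λ.ω u ξ = 0 ∧
      x = d • ξ + Λ.ω v x • u - Λ.ω u x • v := by
  obtain ⟨d, ξ, ζ, hd, e, h1⟩ := Λ.cont (x - (Λ.ω v x • u - Λ.ω u x • v)) (sub_ne_zero.2 hx)
  have h2 : Λ.ω v (d • ξ) = 0 := by rw [← e]; simp [h, Λ.alt]
  have h3 : Λ.ω u (d • ξ) = 0 := by rw [← e]; simp [skew u v, h, Λ.alt]
  simp only [map_smul, smul_eq_mul, mul_eq_zero, hd.ne', false_or] at h2 h3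
  exact ⟨d, ξ, ζ, hd, h1, h2, h3, by rw [← e]; abel⟩

/-- A vector of `V` is not divisible. -/
theorem prim {b x y z : H} (hb : Λ.V b) {R c a β : ℤ} (e : b = c • x + a • y + β • z)
    (h1 : R ∣ c) (h2 : R ∣ a) (h3 : R ∣ β) : R ∣ 1 := by
  obtain ⟨w, -, hw⟩ := Λ.V_nb b hb
  rw [← hw, e]
  simp only [map_add, map_smul, LinearMap.add_apply, LinearMap.smul_apply, smul_eq_mul]
  exact ((h1.mul_right _).add (h2.mul_right _)).add (h3.mul_right _)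

theorem split' {b v u : H} (hb : Λ.V b) (h : Λ.ω v u = 1) {R : ℤ} (hR : 2 ≤ R)
    (h1 : R ∣ Λ.ω v b) (h2 : R ∣ Λ.ω u b) :
    ∃ (d : ℤ) (ξ ζ : H), ¬ R ∣ d ∧ Λ.ω ξ ζ = 1 ∧ Λ.ω v ξ = 0 ∧ Λ.ω u ξ = 0 ∧
      b = d • ξ + Λ.ω v b • u - Λ.ω u b • v := by
  have key : ∀ (d : ℤ) (ξ : H), b = d • ξ + Λ.ω v b • u - Λ.ω u b • v → ¬ R ∣ d := by
    intro d ξ e hd
    have := Int.le_of_dvd one_pos
      (prim hb (x := ξ) (y := u) (z := v) (e.trans (by module)) hd h1 h2.neg_right)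
    omega
  obtain ⟨d, ξ, ζ, -, h3, h4, h5, e⟩ := split h b fun e =>
    key 0 0 (e.trans (by module)) (dvd_zero R)
  exact ⟨d, ξ, ζ, key d ξ e, h3, h4, h5, e⟩

theorem shift_low {R a ρ : ℤ} (hR : 0 < R) (ha : a = R ∨ a = -R) (h : ¬ R ∣ ρ) :
    ∃ t : ℤ, ρ - t * a ≠ 0 ∧ |ρ - t * a| < R := by
  have h1 := Int.emod_add_mul_ediv ρ R
  have h2 := Int.emod_nonneg ρ hR.ne'
  have h3 := Int.emod_lt_of_pos ρ hR
  have h4 : ρ % R ≠ 0 := fun h0 => h (Int.dvd_of_emod_eq_zero h0)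
  have h5 : ρ % R ≠ 0 ∧ |ρ % R| < R := ⟨h4, by rwa [abs_of_nonneg h2]⟩
  rcases ha with rfl | rfl
  · exact ⟨ρ / a, (congrArg (fun s => s ≠ 0 ∧ |s| < a) (by linarith)).mp h5⟩
  · exact ⟨-(ρ / R), (congrArg (fun s => s ≠ 0 ∧ |s| < R) (by linarith)).mp h5⟩

/-- Normalised neighbours of `v` of level strictly between `0` and `R`. -/
def Nb (Λ : Lat H) (b v : H) (R : ℤ) (u : H) : Prop :=
  Λ.V u ∧ Λ.ω v u = 1 ∧ Λ.ω b u ≠ 0 ∧ |Λ.ω b u| < R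

theorem Nb.not_dvd {b v u : H} {R : ℤ} (h : Nb Λ b v R u) : ¬ R ∣ Λ.ω b u := fun hd =>
  h.2.2.1 (Int.eq_zero_of_abs_lt_dvd hd h.2.2.2)

theorem nb_shift {b v u : H} {R : ℤ} (hv : Λ.V v) (hu : Λ.V u) (h : Λ.ω v u = 1) (t : ℤ)
    (ht : Λ.ω b u - t * Λ.ω v b ≠ 0 ∧ |Λ.ω b u - t * Λ.ω v b| < R) : Nb Λ b v R (u + t • v) := by
  have e : Λ.ω b (u + t • v) = Λ.ω b u - t * Λ.ω v b := by simp [skew b v]; ring
  exact ⟨V_shift hv hu h t, by simp [h, Λ.alt], e ▸ ht⟩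

theorem nb_exists {b v : H} {R : ℤ} (hb : Λ.V b) (hv : Λ.V v) (hR : 2 ≤ R)
    (ha : Λ.ω v b = R ∨ Λ.ω v b = -R) : ∃ u, Nb Λ b v R u := by
  have hd : R ∣ Λ.ω v b := by rcases ha with h | h <;> simp [h]
  obtain ⟨u, hu, h, h1⟩ : ∃ u, Λ.V u ∧ Λ.ω v u = 1 ∧ ¬ R ∣ Λ.ω b u := by
    obtain ⟨u, hu, h⟩ := Λ.V_nb v hv
    by_cases h1 : R ∣ Λ.ω b u
    swap
    · exact ⟨u, hu, h, h1⟩
    have h2 : R ∣ Λ.ω u b := by rw [skew u b]; exact h1.neg_right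
    obtain ⟨d, ξ, ζ, h3, h4, h5, h6, e⟩ := split' hb h hR hd h2
    obtain ⟨w, hw, hw1, hw2, hw3⟩ := nbr hv hu h h5 h6 h4 1 0
    refine ⟨w, hw, hw1, fun h7 => h3 ?_⟩
    have e1 : Λ.ω b w = d - Λ.ω u b := by
      conv_lhs => rw [e]
      simp [hw1, hw2, hw3]
    rw [e1] at h7
    simpa using h7.add h2
  obtain ⟨t, ht⟩ := shift_low (by omega) ha h1
  exact ⟨_, nb_shift hv hu h t ht⟩

/-- Paths through normalised neighbours. -/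
def Pt (Λ : Lat H) (b v : H) (R : ℤ) : H → H → Prop :=
  Relation.ReflTransGen fun u u' => Nb Λ b v R u' ∧ |Λ.ω u u'| = 1

theorem pt_base {b v u u' : H} {R : ℤ} (hv : Λ.V v) (ha : Λ.ω v b = R ∨ Λ.ω v b = -R)
    (hu : Nb Λ b v R u) (hu' : Nb Λ b v R u')
    (h : |Λ.ω b u' - Λ.ω b u - Λ.ω v b * Λ.ω u u'| ≤ 2 * R) : Pt Λ b v R u u' := by
  obtain ⟨i, i', hi, hi', h1, h2, h3⟩ := arith_base ha hu.2.2.1 hu.2.2.2 hu'.2.2.1 hu'.2.2.2 h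
  have n1 := nb_shift hv hu.1 hu.2.1 i h1
  have n2 := nb_shift hv hu'.1 hu'.2.1 i' h2
  have p1 : Pt Λ b v R u (u + i • v) := by
    rcases hi with rfl | hi
    · rw [zero_smul, add_zero]
      exact Relation.ReflTransGen.refl
    · exact Relation.ReflTransGen.single ⟨n1, by simp [Λ.alt, skew u v, hu.2.1, hi]⟩
  have p2 : Pt Λ b v R (u' + i' • v) u' := by
    rcases hi' with rfl | hi'
    · rw [zero_smul, add_zero]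
      exact Relation.ReflTransGen.refl
    · exact Relation.ReflTransGen.single ⟨hu', by simp [Λ.alt, hu'.2.1, hi']⟩
  refine (p1.tail ⟨n2, ?_⟩).trans p2
  rw [← h3]
  simp only [map_add, map_smul, LinearMap.add_apply, LinearMap.smul_apply, smul_eq_mul, Λ.alt,
    skew u v, hu.2.1, hu'.2.1]
  exact congrArg _ (by ring)

/-- The directions in which `u` can be moved towards `u'`. -/
theorem moves {v u η : H} (hv : Λ.V v) (hu : Λ.V u) (h : Λ.ω v u = 1) (hη : Λ.V (u + η))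
    (h0 : η ≠ 0) (h1 : Λ.ω v η = 0) (h2 : Λ.ω u η = 0) :
    ∃ (k : ℤ) (θ ζ : H), 0 < k ∧ η = k • θ ∧ Λ.ω θ ζ = 2 ∧ Λ.ω v θ = 0 ∧ Λ.ω u θ = 0 ∧
      Λ.ω v ζ = 0 ∧ Λ.ω u ζ = 0 ∧ ∀ i l : ℤ, Λ.V (u + i • ζ + l • θ) := by
  obtain ⟨e, ξ, ζ, he, h3, h4, h5, rfl⟩ : ∃ (e : ℤ) (ξ ζ : H), 0 < e ∧ Λ.ω ξ ζ = 1 ∧
      Λ.ω v ξ = 0 ∧ Λ.ω u ξ = 0 ∧ η = e • ξ := by
    simpa [h1, h2] using split h η (by simpa [h1, h2] using h0)
  obtain ⟨j, rfl | rfl⟩ := Int.even_or_odd' e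
  · obtain ⟨w, hw, hw1, hw2, hw3⟩ := nbr hv hu h h4 h5 h3 1 0
    have h6 : Λ.ω v (w - u) = 0 := by simp [hw1, h]
    refine ⟨j, (2 : ℤ) • ξ, w - u, by omega, by module, by simp [hw2, skew ξ u, h5],
      by simp [h4], by simp [h5], h6, by simp [hw3, Λ.alt], fun i l => ?_⟩
    exact (congrArg Λ.V (by module)).mp
      (V_comb (γ := l • ξ) hu (by simpa using hw) h h6 (by simp [h4]) i)
  · obtain ⟨ζ', h6, h7, h8⟩ := dual h h4 h5 h3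
    have h9 : Λ.V (u + ξ) := V_par (-j • ξ) hη (v := v) (by simp [h, h4]) (by module)
    refine ⟨_, ξ, (2 : ℤ) • ζ', he, rfl, by simp [h6], h4, h5, by simp [h7], by simp [h8],
      fun i l => ?_⟩
    exact (congrArg Λ.V (by module)).mp (V_comb (γ := i • ζ') hu h9 h h4 (by simp [h7]) l)

theorem pt_all {b v : H} {R : ℤ} (hv : Λ.V v) (hR : 0 < R) (ha : Λ.ω v b = R ∨ Λ.ω v b = -R)
    (M : ℕ) : ∀ u u', Nb Λ b v R u → Nb Λ b v R u' →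
      |Λ.ω b u' - Λ.ω b u - Λ.ω v b * Λ.ω u u'| < M → Pt Λ b v R u u' := by
  induction M with
  | zero => exact fun u u' _ _ h => absurd h (not_lt.2 (abs_nonneg _))
  | succ M ih =>
    intro u u' hu hu' hM
    by_cases hc : |Λ.ω b u' - Λ.ω b u - Λ.ω v b * Λ.ω u u'| ≤ 2 * R
    · exact pt_base hv ha hu hu' hc
    have hd : R ∣ Λ.ω v b := by rcases ha with h | h <;> simp [h]
    have e0 : Λ.ω b (u' - u + Λ.ω u u' • v) = Λ.ω b u' - Λ.ω b u - Λ.ω v b * Λ.ω u u' := by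
      simp [skew b v]; ring
    obtain ⟨k, θ, ζ, hk, e, h1, h2, h3, h4, h5, hV⟩ := moves (η := u' - u + Λ.ω u u' • v) hv hu.1
      hu.2.1 ((congrArg Λ.V (by module)).mp (V_shift hv hu'.1 hu'.2.1 (Λ.ω u u')))
      (fun h0 => hc (by rw [← e0, h0, map_zero, abs_zero]; omega))
      (by simp [hu.2.1, hu'.2.1, Λ.alt]) (by simp [skew u v, hu.2.1, Λ.alt])
    have e1 : Λ.ω b u' - Λ.ω b u - Λ.ω v b * Λ.ω u u' = k * Λ.ω b θ := by rw [← e0, e]; simp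
    have e2 : u' = u + k • θ - Λ.ω u u' • v := by rw [← e]; abel
    rw [e1] at hM hc
    obtain ⟨i, l, a1, a2, a3⟩ := arith_step (Λ.ω b ζ) hR ha hk (not_le.1 hc) hu.not_dvd fun h =>
      hu'.not_dvd ((congrArg (R ∣ ·) (by linarith)).mp (h.add (hd.mul_right (Λ.ω u u'))))
    have b1 : Λ.ω v (u + i • ζ + l • θ) = 1 := by simp [hu.2.1, h2, h4]
    have b2 : Λ.ω b (u + i • ζ + l • θ) = Λ.ω b u + (i * Λ.ω b ζ + l * Λ.ω b θ) := by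
      simp [add_assoc]
    obtain ⟨t, ht⟩ := shift_low hR ha (b2 ▸ a3)
    have hw := nb_shift hv (hV i l) b1 t ht
    have b3 : Λ.ω b (u + i • ζ + l • θ + t • v) =
        Λ.ω b u + (i * Λ.ω b ζ + l * Λ.ω b θ) - t * Λ.ω v b := by
      rw [map_add, b2]; simp [skew b v]; ring
    have b4 : Λ.ω u (u + i • ζ + l • θ + t • v) = -t := by
      simp [Λ.alt, h3, h5, skew u v, hu.2.1]
    have b5 : Λ.ω (u + i • ζ + l • θ + t • v) u' = Λ.ω u u' - 2 * i * k + t := by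
      have c1 : Λ.ω ζ u' = -(2 * k) := by
        rw [e2]; simp [skew ζ u, skew ζ v, skew ζ θ, h1, h4, h5]; ring
      have c2 : Λ.ω θ u' = 0 := by rw [e2]; simp [skew θ u, skew θ v, h2, h3, Λ.alt]
      simp [c1, c2, hu'.2.1]; ring
    have hM' : |k * Λ.ω b θ| ≤ M := by push_cast at hM; omega
    refine (ih u _ hu hw ?_).trans (ih _ u' hw hu' ?_)
    · rw [b3, b4]
      exact (congrArg (|·| < (M : ℤ)) (by ring)).mp (a1.trans_le hM')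
    · rw [b3, b5]
      exact (congrArg (|·| < (M : ℤ)) (by linarith)).mp (a2.trans_le hM')

theorem pt_conn {b v u u' : H} {R : ℤ} (hv : Λ.V v) (hR : 0 < R)
    (ha : Λ.ω v b = R ∨ Λ.ω v b = -R) (hu : Nb Λ b v R u) (hu' : Nb Λ b v R u') :
    Pt Λ b v R u u' :=
  pt_all hv hR ha (Int.natAbs _ + 1) u u' hu hu' (by push_cast; exact lt_add_one _)

/-- A low common neighbour of `w` and of a vertex `z` of level zero. -/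
theorem low_common {b w z ξ ζ : H} {R c a : ℤ} (hw : Λ.V w) (hz : Λ.V z) (h : Λ.ω w z = 1)
    (h1 : Λ.ω w ξ = 0) (h2 : Λ.ω z ξ = 0) (h3 : Λ.ω ξ ζ = 1) (e : b = c • ξ + a • z)
    (ha : a = R ∨ a = -R) (hc : c ≠ 0) (hc' : |c| < R) :
    ∃ u, Λ.V u ∧ Λ.ω w u = 1 ∧ |Λ.ω z u| = 1 ∧ Λ.ω b u ≠ 0 ∧ |Λ.ω b u| < R := by
  obtain ⟨k, hk, hk'⟩ : ∃ k : ℤ, |k| = 1 ∧ c + a * k ≠ 0 ∧ |c + a * k| < R := by
    simp only [abs_lt, abs_eq (zero_le_one' ℤ)] at hc' ⊢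
    rcases ha with rfl | rfl <;> rcases lt_or_gt_of_ne hc with h4 | h4 <;>
      first
      | exact ⟨1, by omega⟩
      | exact ⟨-1, by omega⟩
  obtain ⟨u, hu, hu1, hu2, hu3⟩ := nbr hw hz h h1 h2 h3 1 k
  have e1 : Λ.ω b u = c + a * k := by rw [e]; simp [hu2, hu3]
  exact ⟨u, hu, hu1, hu3 ▸ hk, e1 ▸ hk'⟩

/-- An edge between two vertices of level `R ≥ 2`. -/
theorem tie_high {b v v' : H} {R : ℤ} (hb : Λ.V b) (hv : Λ.V v) (hv' : Λ.V v')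
    (h : Λ.ω v v' = 1) (hR : 2 ≤ R) (ha : Λ.ω v b = R ∨ Λ.ω v b = -R)
    (ha' : Λ.ω v' b = R ∨ Λ.ω v' b = -R) :
    ∃ z u u', Λ.V z ∧ Λ.ω b z = 0 ∧ |Λ.ω v z| = 1 ∧ |Λ.ω v' z| = 1 ∧
      (Λ.V u ∧ |Λ.ω v u| = 1 ∧ |Λ.ω z u| = 1 ∧ Λ.ω b u ≠ 0 ∧ |Λ.ω b u| < R) ∧
      Λ.V u' ∧ |Λ.ω v' u'| = 1 ∧ |Λ.ω z u'| = 1 ∧ Λ.ω b u' ≠ 0 ∧ |Λ.ω b u'| < R := by
  obtain ⟨d, ξ, ζ, hd, h1, h2, h3, e⟩ := split' hb h hR (by rcases ha with h | h <;> simp [h])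
    (by rcases ha' with h | h <;> simp [h])
  obtain ⟨ε, hε, hε'⟩ : ∃ ε : ℤ, (ε = 1 ∨ ε = -1) ∧ Λ.ω v' b = -(ε * Λ.ω v b) := by
    rcases ha with h | h <;> rcases ha' with h' | h' <;> rw [h, h'] <;>
      first
      | exact ⟨1, by omega⟩
      | exact ⟨-1, by omega⟩
  obtain ⟨k, hk, hk'⟩ : ∃ k : ℤ, d - 2 * k * Λ.ω v b ≠ 0 ∧ |d - 2 * k * Λ.ω v b| < R := by
    obtain ⟨l, l1, l2⟩ := window (2 * R) (-R) d (by omega)
    have l3 : ¬ R ∣ d + l * (2 * R) := fun h =>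
      hd (by simpa using h.sub (Dvd.intro_left (l * 2) (by ring) : R ∣ l * (2 * R)))
    have l4 : d + l * (2 * R) ≠ 0 := fun h => l3 (h ▸ dvd_zero R)
    have l5 : d + l * (2 * R) ≠ R := fun h => l3 (h.symm ▸ dvd_refl R)
    have l6 : d + l * (2 * R) ≠ 0 ∧ |d + l * (2 * R)| < R := ⟨l4, abs_lt.2 ⟨l1, by omega⟩⟩
    rcases ha with h | h <;> rw [h]
    · exact ⟨-l, (congrArg (fun s => s ≠ 0 ∧ |s| < R) (by ring)).mp l6⟩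
    · exact ⟨l, (congrArg (fun s => s ≠ 0 ∧ |s| < R) (by ring)).mp l6⟩
  obtain ⟨z, hz⟩ : ∃ z, z = v' + ε • v + (2 : ℤ) • k • ξ := ⟨_, rfl⟩
  have z1 : Λ.ω v z = 1 := by simp [hz, h, h2, Λ.alt]
  have z2 : Λ.ω v' z = -ε := by simp [hz, skew v' v, h, h3, Λ.alt]
  have z3 : Λ.ω z ξ = 0 := by simp [hz, h2, h3, Λ.alt]
  have z4 : Λ.V z := V_par _ (V_shift hv hv' h ε) z1 hz
  have e' : b = (d - 2 * k * Λ.ω v b) • ξ + Λ.ω v b • z := by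
    refine e.trans ?_
    rw [hε', hz]
    module
  have z5 : Λ.ω b z = 0 := by
    conv_lhs => rw [e']
    simp [skew ξ z, z3, Λ.alt]
  obtain ⟨u, u1, u2, u3⟩ := low_common hv z4 z1 h2 z3 h1 e' ha hk hk'
  have hw : Λ.V (-ε • v') := by
    rcases hε with rfl | rfl
    · simpa using Λ.V_neg _ hv'
    · simpa using hv'
  obtain ⟨u', w1, w2, w3⟩ := low_common hw z4 (by rcases hε with rfl | rfl <;> simp [z2])
    (by simp [h3]) z3 h1 e' ha hk hk'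
  refine ⟨z, u, u', z4, z5, by simp [z1], by rcases hε with rfl | rfl <;> simp [z2],
    ⟨u1, by simp [u2], u3⟩, w1, ?_, w3⟩
  rw [← abs_one, ← w2]
  rcases hε with rfl | rfl <;> simp

end Pool.Agent.MP_00906f_gt.H46.Cv
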