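import Mathlib

/-! Internal definitions for the finite generation of the abelianised hyperelliptic Torelli group. -/

namespace Pool.Agent.MP_00906f_gt.H46

/-- `σ 0, …, σ (N-1)` satisfy the braid relations. -/
structure IsBF {G : Type*} [Group G] (σ : ℕ → G) (N : ℕ) : Prop where
  braid : ∀ i, i + 1 < N → σ i * σ (i + 1) * σ i = σ (i + 1) * σ i * σ (i + 1)
  comm : ∀ i j, i + 2 ≤ j → j < N → σ i * σ j = σ j * σ i

/-- A unimodular alternating lattice with a distinguished set `V` of vectors. -/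
structure Lat (H : Type*) [AddCommGroup H] where
  ω : H →ₗ[ℤ] H →ₗ[ℤ] ℤ
  V : H → Prop
  alt : ∀ x, ω x x = 0
  cont : ∀ x, x ≠ 0 → ∃ (d : ℤ) (ξ ζ : H), 0 < d ∧ x = d • ξ ∧ ω ξ ζ = 1
  V_neg : ∀ x, V x → V (-x)
  V_nb : ∀ v, V v → ∃ w, V w ∧ ω v w = 1
  V_add : ∀ v w, V v → V w → ω v w = 1 → V (w + v)
  V_two : ∀ w x y, V w → ω (w + (2 : ℤ) • x) y = 1 → V (w + (2 : ℤ) • x)
  V_odd : ∀ v w ξ ζ, V v → V w → ω v w = 1 → ω v ξ = 0 → ω w ξ = 0 → ω ξ ζ = 1 →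
    ∃ w', V w' ∧ ω v w' = 1 ∧ Odd (ω ξ w')

/-- Equality up to sign. -/
def PM {H : Type*} [AddCommGroup H] (x y : H) : Prop := x = y ∨ x = -y

/-- A graph `X` lying over the graph on `V / ±` whose edges are the pairs with pairing `± 1`,
bijective on links. -/
structure Cov {H : Type*} [AddCommGroup H] (Λ : Lat H) (X : Type*) where
  p : X → H
  adj : X → X → Prop
  p_V : ∀ x, Λ.V (p x)
  symm : ∀ x y, adj x y → adj y x
  adj_ω : ∀ x y, adj x y → |Λ.ω (p x) (p y)| = 1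
  lift : ∀ x w, Λ.V w → |Λ.ω (p x) w| = 1 → ∃ y, adj x y ∧ PM (p y) w
  uniq : ∀ x y y', adj x y → adj x y' → PM (p y) (p y') → y = y'

/-- A braid family acting on a lattice by the transvections of a chain. -/
structure Sys (G H : Type*) [Group G] [AddCommGroup H] where
  N : ℕ
  σ : ℕ → G
  c : ℕ → H
  ω : H →ₗ[ℤ] H →ₗ[ℤ] ℤ
  ρ : G →* Module.End ℤ H
  pt : ℕ → (H →+ ZMod 2)
  bf : IsBF σ N
  alt : ∀ x, ω x x = 0
  ch1 : ∀ i, i + 1 < N → ω (c i) (c (i + 1)) = 1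
  ch2 : ∀ i j, i + 2 ≤ j → j < N → ω (c i) (c j) = 0
  ρσ : ∀ i, i < N → ∀ x, ρ (σ i) x = x + ω x (c i) • c i
  pt_c : ∀ i, i < N → ∀ k, pt k (c i) = if k = i ∨ k = i + 1 then 1 else 0

/-- `aa σ j = σ (j-1) * ⋯ * σ 0`. -/
def aa {G : Type*} [Group G] (σ : ℕ → G) : ℕ → G
  | 0 => 1
  | j + 1 => σ j * aa σ j

/-- The subgroup generated by `σ 0, …, σ (N-1)`. -/
def BB {G : Type*} [Group G] (σ : ℕ → G) (N : ℕ) : Subgroup G :=
  Subgroup.closure (σ '' {i | i < N})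

/-- The subgroup generated by `σ 0 ^ 2, σ 1, …, σ (N-1)`. -/
def B1 {G : Type*} [Group G] (σ : ℕ → G) (N : ℕ) : Subgroup G :=
  Subgroup.closure ({x | 0 < N ∧ x = σ 0 ^ 2} ∪ σ '' {i | 1 ≤ i ∧ i < N})

/-- `yy σ j` : the pair `{0,1}` pushed round the point `j + 2`, times `σ 0 ^ 2`. -/
def yy {G : Type*} [Group G] (σ : ℕ → G) : ℕ → G
  | 0 => (σ 0 * σ 1) ^ 3
  | j + 1 => σ (j + 2) * yy σ j * (σ (j + 2))⁻¹

/-- The subgroup generated by `σ 0` and the `yy j`. -/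
def FF {G : Type*} [Group G] (σ : ℕ → G) (N : ℕ) : Subgroup G :=
  Subgroup.closure ({σ 0} ∪ yy σ '' {j | j + 2 ≤ N})

/-- The stabiliser of the first arc. -/
def Ga {G : Type*} [Group G] (σ : ℕ → G) (N : ℕ) : Subgroup G :=
  Subgroup.closure ({σ 0, yy σ 0} ∪ σ '' {i | 2 ≤ i ∧ i < N})

/-- A subgroup of the centraliser of `σ 0` and `σ 1`. -/
def CC {G : Type*} [Group G] (σ : ℕ → G) (N : ℕ) : Subgroup G :=
  Subgroup.closure
    ({yy σ 0} ∪ {x | 2 < N ∧ x = (σ 0 * σ 1 * σ 2) ^ 4} ∪ σ '' {i | 3 ≤ i ∧ i < N})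

def T3 {G : Type*} [Group G] (σ : ℕ → G) : G := (σ 0 * σ 1) ^ 6

def T5 {G : Type*} [Group G] (σ : ℕ → G) : G := (σ 0 * σ 1 * σ 2 * σ 3) ^ 10

def cc {G : Type*} [Group G] (σ : ℕ → G) (i j k : ℕ) : G :=
  (yy σ i * yy σ j * yy σ k) ^ 2 * (σ 0 ^ 8)⁻¹

/-- The normal closure of `T3` and `T5` in `BB σ N`. -/
def K0 {G : Type*} [Group G] (σ : ℕ → G) (N : ℕ) : Subgroup G :=
  Subgroup.closure {x | ∃ g ∈ BB σ N,
    (2 ≤ N ∧ x = g * T3 σ * g⁻¹) ∨ (4 ≤ N ∧ x = g * T5 σ * g⁻¹)}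

/-- The normal closure in `FF` of the squares of the `yy j` and of the `cc 0 j k`. -/
def LL {G : Type*} [Group G] (σ : ℕ → G) (N : ℕ) : Subgroup G :=
  Subgroup.closure {x | ∃ f ∈ FF σ N,
    (∃ j, j + 2 ≤ N ∧ x = f * yy σ j ^ 2 * f⁻¹) ∨
    (∃ j k, 0 < j ∧ j < k ∧ k + 2 ≤ N ∧ x = f * cc σ 0 j k * f⁻¹)}

/-- The braid that carries the arcs `2, 3` to the arcs `0, 1` and the arc `0` to the arc `3`. -/
def nn {G : Type*} [Group G] (σ : ℕ → G) : G := σ 2 * σ 3 * σ 1 * σ 2 * σ 0 * σ 1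

/-- The family shifted by two. -/
def sh {α : Type*} (σ : ℕ → α) : ℕ → α := fun i => σ (i + 2)

theorem IsBF.shift {G : Type*} [Group G] {σ : ℕ → G} {N : ℕ} (h : IsBF σ N) :
    IsBF (sh σ) (N - 2) :=
  ⟨fun i hi => h.braid (i + 2) (by omega), fun i j hij hj => h.comm (i + 2) (j + 2) (by omega) (by omega)⟩

theorem IsBF.mono {G : Type*} [Group G] {σ : ℕ → G} {N M : ℕ} (h : IsBF σ N) (hM : M ≤ N) :
    IsBF σ M :=
  ⟨fun i hi => h.braid i (by omega), fun i j hij hj => h.comm i j hij (by omega)⟩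

namespace Sys

variable {G H : Type*} [Group G] [AddCommGroup H] (S : Sys G H)

/-- The system on the strands `2, 3, …`. -/
def shift : Sys G H where
  N := S.N - 2
  σ := sh S.σ
  c := sh S.c
  ω := S.ω
  ρ := S.ρ
  pt := sh S.pt
  bf := S.bf.shift
  alt := S.alt
  ch1 := fun i hi => S.ch1 (i + 2) (by omega)
  ch2 := fun i j hij hj => S.ch2 (i + 2) (j + 2) (by omega) (by omega)
  ρσ := fun i hi => S.ρσ (i + 2) (by omega)
  pt_c := fun i hi k => by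
    have h := S.pt_c (i + 2) (by omega) (k + 2)
    simp only [sh]
    rw [h]
    exact if_congr (by omega) rfl rfl

/-- The system on the first `M + 1` strands. -/
def trunc (M : ℕ) (hM : M ≤ S.N) : Sys G H where
  N := M
  σ := S.σ
  c := S.c
  ω := S.ω
  ρ := S.ρ
  pt := S.pt
  bf := S.bf.mono hM
  alt := S.alt
  ch1 := fun i hi => S.ch1 i (by omega)
  ch2 := fun i j hij hj => S.ch2 i j hij (by omega)
  ρσ := fun i hi => S.ρσ i (by omega)
  pt_c := fun i hi => S.pt_c i (by omega)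

/-- The braid group of the system. -/
def B : Subgroup G := BB S.σ S.N

/-- The lattice of the system. -/
def L : Submodule ℤ H := Submodule.span ℤ (S.c '' {i | i < S.N})

/-- `x` reduces mod 2 to the pair of points `i, j`. -/
def Pair (x : H) (i j : ℕ) : Prop := ∀ k, S.pt k x = if k = i ∨ k = j then 1 else 0

/-- Primitive vectors that reduce mod 2 to a pair of points. -/
def V (x : H) : Prop :=
  x ∈ S.L ∧ (∃ y ∈ S.L, S.ω x y = 1) ∧ ∃ i j, i < j ∧ j ≤ S.N ∧ S.Pair x i j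

/-- `ww j = c 1 + ⋯ + c (j+1)`. -/
def ww : ℕ → H
  | 0 => S.c 1
  | j + 1 => ww j + S.c (j + 2)

/-- The unipotent map `E l k`. -/
def E (l : H) (k : ℤ) (x : H) : H :=
  x + (2 * S.ω (S.c 0) x) • l + (2 * S.ω l x + k * S.ω (S.c 0) x) • S.c 0

/-- Minus one on the plane spanned by `c 0` and `w`, identity on its orthogonal complement. -/
def Rf (w x : H) : H := x - (2 * S.ω (S.c 0) x) • w + (2 * S.ω w x) • S.c 0

/-- The vectors of the lattice orthogonal to `c 0`. -/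
def A : Submodule ℤ H := S.L ⊓ LinearMap.ker (S.ω (S.c 0))

end Sys

end Pool.Agent.MP_00906f_gt.H46
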