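import Mathlib

/-! Row OF: orbits that span finitely generated modules. -/

namespace Pool.Agent.MP_00906f_gt.H46

section
variable {M Γ : Type*} [AddCommGroup M] [Group Γ] (π : Γ →* Module.End ℤ M)

/-- The orbit of `m` under the cyclic group generated by `g` spans a finitely generated module. -/
def OF (g : Γ) (m : M) : Prop := (Submodule.span ℤ (Set.range fun k : ℤ => π (g ^ k) m)).FG

/-- The products `g₁ ^ k₁ * ⋯ * g_r ^ k_r`. -/
def prodSet : List Γ → Set Γ
  | [] => {1}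
  | g :: l => {x | ∃ k : ℤ, ∃ y ∈ prodSet l, x = g ^ k * y}

/-- The operator `∏ (1 - π a)`. -/
def Fl : List Γ → M → M
  | [], m => m
  | a :: l, m => Fl l m - π a (Fl l m)

variable {π}

theorem act_mul (a b : Γ) (m : M) : π (a * b) m = π a (π b m) := by
  rw [map_mul]; rfl

theorem act_one (m : M) : π 1 m = m := by
  rw [map_one]; rfl

theorem OF.of_mem {g : Γ} {m : M} {P : Submodule ℤ M} (hP : P.FG)
    (h : ∀ k : ℤ, π (g ^ k) m ∈ P) : OF π g m :=
  hP.of_le (Submodule.span_le.2 (by rintro _ ⟨k, rfl⟩; exact h k))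

theorem OF.ex {g : Γ} {m : M} (h : OF π g m) :
    ∃ P : Submodule ℤ M, P.FG ∧ ∀ k : ℤ, π (g ^ k) m ∈ P :=
  ⟨_, h, fun k => Submodule.subset_span ⟨k, rfl⟩⟩

theorem OF.add' {g : Γ} {m m' : M} (h : OF π g m) (h' : OF π g m') : OF π g (m + m') := by
  obtain ⟨P, hP, h1⟩ := h.ex
  obtain ⟨P', hP', h2⟩ := h'.ex
  refine OF.of_mem (hP.sup hP') fun k => ?_
  rw [map_add]
  exact Submodule.add_mem_sup (h1 k) (h2 k)

theorem OF.smul {g : Γ} {m : M} (h : OF π g m) (c : ℤ) : OF π g (c • m) := by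
  obtain ⟨P, hP, h1⟩ := h.ex
  refine OF.of_mem hP fun k => ?_
  rw [map_smul]
  exact P.smul_mem c (h1 k)

theorem OF.of_span {g : Γ} {s : Set M} (hs : ∀ m ∈ s, OF π g m) {m : M}
    (hm : m ∈ Submodule.span ℤ s) : OF π g m := by
  induction hm using Submodule.span_induction with
  | mem x hx => exact hs x hx
  | zero => exact OF.of_mem Submodule.fg_bot fun k => by simp
  | add x y _ _ hx hy => exact hx.add' hy
  | smul c x _ hx => exact hx.smul c

theorem OF.add {g : Γ} {m m' : M} (h : OF π g m) (h' : OF π g m') : OF π g (m + m') :=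
  h.add' h'

theorem OF.neg {g : Γ} {m : M} (h : OF π g m) : OF π g (-m) := by
  simpa using h.smul (-1)

theorem OF.map {M' Γ' : Type*} [AddCommGroup M'] [Group Γ'] {π' : Γ' →* Module.End ℤ M'}
    {g : Γ} {g' : Γ'} {m : M} (φ : M →ₗ[ℤ] M') (hφ : ∀ x, φ (π g x) = π' g' (φ x))
    (h : OF π g m) : OF π' g' (φ m) := by
  have hi : ∀ x, φ (π g⁻¹ x) = π' g'⁻¹ (φ x) := by
    intro x
    have h1 := hφ (π g⁻¹ x)
    rw [← act_mul, mul_inv_cancel, act_one] at h1
    rw [h1, ← act_mul, inv_mul_cancel, act_one]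
  have hk : ∀ (k : ℤ) (x : M), φ (π (g ^ k) x) = π' (g' ^ k) (φ x) := by
    intro k
    induction k using Int.induction_on with
    | zero => intro x; rw [zpow_zero, zpow_zero, act_one, act_one]
    | succ n ih => intro x; rw [zpow_add_one, zpow_add_one, act_mul, act_mul, ih, hφ]
    | pred n ih => intro x; rw [zpow_sub_one, zpow_sub_one, act_mul, act_mul, ih, hi]
  obtain ⟨P, hP, h1⟩ := h.ex
  refine OF.of_mem (hP.map φ) fun k => ?_
  rw [← hk]
  exact Submodule.mem_map_of_mem (h1 k)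

theorem OF.inv {g : Γ} {m : M} (h : OF π g m) : OF π g⁻¹ m := by
  obtain ⟨P, hP, h1⟩ := h.ex
  refine OF.of_mem hP fun k => ?_
  rw [inv_zpow']
  exact h1 _

theorem OF.zpow {g : Γ} {m : M} (h : OF π g m) (n : ℤ) : OF π (g ^ n) m := by
  obtain ⟨P, hP, h1⟩ := h.ex
  refine OF.of_mem hP fun k => ?_
  rw [← zpow_mul]
  exact h1 _

theorem OF.of_zpow {g : Γ} {m : M} {n : ℤ} (hn : n ≠ 0) (h : OF π (g ^ n) m) : OF π g m := by
  obtain ⟨P, hP, h1⟩ := h.ex
  refine OF.of_mem (P := ⨆ r : Fin n.natAbs, P.map (π (g ^ ((r : ℕ) : ℤ))))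
    (Submodule.fg_iSup _ fun r => hP.map _) fun k => ?_
  have h0 : 0 ≤ k % n := Int.emod_nonneg k hn
  have h2 : k % n < n.natAbs := Int.emod_lt k hn
  refine Submodule.mem_iSup_of_mem (⟨(k % n).toNat, by omega⟩ : Fin n.natAbs) ?_
  refine ⟨_, h1 (k / n), ?_⟩
  rw [← act_mul, ← zpow_mul, ← zpow_add]
  congr 3
  have := Int.emod_add_mul_ediv k n
  simp only [Int.toNat_of_nonneg h0]
  exact this

theorem fg_orb {g : Γ} {P : Submodule ℤ M} (hP : P.FG) (hg : ∀ m ∈ P, OF π g m) :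
    ∃ P' : Submodule ℤ M, P'.FG ∧ ∀ k : ℤ, ∀ x ∈ P, π (g ^ k) x ∈ P' := by
  obtain ⟨s, rfl⟩ := hP
  choose Q hQ h1 using fun x : s => (hg x (Submodule.subset_span x.2)).ex
  refine ⟨⨆ x, Q x, Submodule.fg_iSup _ hQ, fun k x hx => ?_⟩
  have : Submodule.span ℤ (s : Set M) ≤ (⨆ x, Q x).comap (π (g ^ k)) :=
    Submodule.span_le.2 fun y hy => Submodule.mem_iSup_of_mem ⟨y, hy⟩ (h1 ⟨y, hy⟩ k)
  exact this hx

theorem OF.mul {g h : Γ} {Q : Submodule ℤ M} (hc : π g * π h = π h * π g)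
    (hQ : ∀ k : ℤ, ∀ m ∈ Q, π (h ^ k) m ∈ Q) (hg : ∀ m ∈ Q, OF π g m) (hh : ∀ m ∈ Q, OF π h m)
    {m : M} (hm : m ∈ Q) : OF π (g * h) m := by
  have hle : Submodule.span ℤ (Set.range fun k : ℤ => π (h ^ k) m) ≤ Q :=
    Submodule.span_le.2 (by rintro _ ⟨k, rfl⟩; exact hQ k m hm)
  obtain ⟨P', hP', h1⟩ := fg_orb (hh m hm) fun x hx => hg x (hle hx)
  refine OF.of_mem hP' fun k => ?_
  have hu : Commute (π.toHomUnits g) (π.toHomUnits h) := Units.ext hc
  have h2 : π.toHomUnits ((g * h) ^ k) = π.toHomUnits (g ^ k * h ^ k) := by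
    rw [map_zpow, map_mul, hu.mul_zpow, map_mul, map_zpow, map_zpow]
  have h3 : π ((g * h) ^ k) = π (g ^ k * h ^ k) := congrArg Units.val h2
  rw [h3, act_mul]
  exact h1 k _ (Submodule.subset_span ⟨k, rfl⟩)

theorem prodSet_mem (l : List Γ) {Q : Submodule ℤ M}
    (hQ : ∀ g ∈ l, ∀ k : ℤ, ∀ m ∈ Q, π (g ^ k) m ∈ Q) {a : Γ} (ha : a ∈ prodSet l) {m : M}
    (hm : m ∈ Q) : π a m ∈ Q := by
  induction l generalizing a with
  | nil =>
    have : a = 1 := ha
    rw [this, act_one]; exact hm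
  | cons g l ih =>
    obtain ⟨k, y, hy, rfl⟩ := ha
    rw [act_mul]
    exact hQ g List.mem_cons_self k _ (ih (fun g' hg' => hQ g' (List.mem_cons_of_mem _ hg')) hy)

theorem fg_prodSet (l : List Γ) {Q P : Submodule ℤ M}
    (hQ : ∀ g ∈ l, ∀ k : ℤ, ∀ m ∈ Q, π (g ^ k) m ∈ Q) (hl : ∀ g ∈ l, ∀ m ∈ Q, OF π g m)
    (hPQ : P ≤ Q) (hP : P.FG) :
    (Submodule.span ℤ {x | ∃ a ∈ prodSet l, ∃ m ∈ P, x = π a m}).FG := by
  induction l with
  | nil =>
    refine hP.of_le (Submodule.span_le.2 ?_)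
    rintro _ ⟨a, ha, m, hm, rfl⟩
    have : a = 1 := ha
    rw [this, act_one]; exact hm
  | cons g l ih =>
    have hQ' := fun g' hg' => hQ g' (List.mem_cons_of_mem g hg')
    have h1 := ih hQ' fun g' hg' => hl g' (List.mem_cons_of_mem g hg')
    have hle : Submodule.span ℤ {x | ∃ a ∈ prodSet l, ∃ m ∈ P, x = π a m} ≤ Q := by
      refine Submodule.span_le.2 ?_
      rintro _ ⟨a, ha, m, hm, rfl⟩
      exact prodSet_mem l hQ' ha (hPQ hm)
    obtain ⟨P', hP', h2⟩ := fg_orb h1 fun x hx => hl g List.mem_cons_self x (hle hx)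
    refine hP'.of_le (Submodule.span_le.2 ?_)
    rintro _ ⟨_, ⟨k, y, hy, rfl⟩, m, hm, rfl⟩
    rw [act_mul]
    exact h2 k _ (Submodule.subset_span ⟨y, hy, m, hm, rfl⟩)

theorem Fl_append (l l' : List Γ) (m : M) : Fl π (l ++ l') m = Fl π l (Fl π l' m) := by
  induction l with
  | nil => rfl
  | cons a l ih => simp only [List.cons_append, Fl, ih]

theorem Fl_add (l : List Γ) (m m' : M) : Fl π l (m + m') = Fl π l m + Fl π l m' := by
  induction l with
  | nil => rfl
  | cons a l ih => simp only [Fl, ih, map_add]; abel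

theorem Fl_neg (l : List Γ) (m : M) : Fl π l (-m) = -Fl π l m := by
  induction l with
  | nil => rfl
  | cons a l ih => simp only [Fl, ih, map_neg]; abel

theorem Fl_zero (l : List Γ) : Fl π l (0 : M) = 0 := by
  induction l with
  | nil => rfl
  | cons a l ih => simp only [Fl, ih, map_zero, sub_zero]

theorem Fl_mem (l : List Γ) {P : Submodule ℤ M} (hP : ∀ a, ∀ m ∈ P, π a m ∈ P) {m : M}
    (hm : m ∈ P) : Fl π l m ∈ P := by
  induction l with
  | nil => exact hm
  | cons a l ih => exact P.sub_mem ih (hP a _ ih)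

theorem Fl_map (l : List Γ) (φ : M →ₗ[ℤ] M) (e : Γ → Γ) (he : ∀ a x, φ (π a x) = π (e a) (φ x))
    (m : M) : φ (Fl π l m) = Fl π (l.map e) (φ m) := by
  induction l with
  | nil => rfl
  | cons a l ih => simp only [Fl, List.map_cons, map_sub, he, ih]

theorem OF.of_sub {t : Γ} {m : M} (h : OF π t (π t m - m)) : OF π t m := by
  obtain ⟨P, hP, h1⟩ := h.ex
  refine OF.of_mem ((Submodule.fg_span_singleton m).sup hP) fun k => ?_
  induction k using Int.induction_on with
  | zero =>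
    rw [zpow_zero, act_one]
    exact Submodule.mem_sup_left (Submodule.mem_span_singleton_self m)
  | succ n ih =>
    have e : π (t ^ ((n : ℤ) + 1)) m = π (t ^ (n : ℤ)) m + π (t ^ (n : ℤ)) (π t m - m) := by
      rw [zpow_add_one, act_mul, map_sub]; abel
    rw [e]
    exact Submodule.add_mem _ ih (Submodule.mem_sup_right (h1 _))
  | pred n ih =>
    have e : π (t ^ (-(n : ℤ) - 1)) m =
        π (t ^ (-(n : ℤ))) m - π (t ^ (-(n : ℤ) - 1)) (π t m - m) := by
      rw [map_sub, ← act_mul, ← zpow_add_one, sub_add_cancel]; abel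
    rw [e]
    exact Submodule.sub_mem _ ih (Submodule.mem_sup_right (h1 _))

end

section
variable {M A : Type*} [AddCommGroup M] [CommGroup A] {π : A →* Module.End ℤ M}

theorem act_comm (a b : A) (m : M) : π a (π b m) = π b (π a m) := by
  rw [← act_mul, ← act_mul, mul_comm]

theorem Fl_act' (l : List A) (a : A) (m : M) : Fl π l (π a m) = π a (Fl π l m) := by
  rw [Fl_map l (π a) id (fun b x => act_comm a b x), List.map_id]

theorem Fl_comm (l l' : List A) (m : M) : Fl π l (Fl π l' m) = Fl π l' (Fl π l m) := by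
  induction l' with
  | nil => rfl
  | cons a l' ih =>
    simp only [Fl]
    rw [sub_eq_add_neg, Fl_add, Fl_neg, Fl_act', ih, ← sub_eq_add_neg]

theorem Fl_act (l : List A) (a : A) (m : M) : Fl π l (π a m) = π a (Fl π l m) :=
  Fl_act' l a m

theorem one_mem_prodSet (l : List A) : (1 : A) ∈ prodSet l := by
  induction l with
  | nil => rfl
  | cons g l ih => exact ⟨0, 1, ih, by simp⟩

theorem mul_mem_prodSet (l : List A) {a b : A} (ha : a ∈ prodSet l) (hb : b ∈ prodSet l) :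
    a * b ∈ prodSet l := by
  induction l generalizing a b with
  | nil =>
    have h1 : a = 1 := ha
    have h2 : b = 1 := hb
    rw [h1, h2, mul_one]; rfl
  | cons g l ih =>
    obtain ⟨k, y, hy, rfl⟩ := ha
    obtain ⟨k', y', hy', rfl⟩ := hb
    exact ⟨k + k', y * y', ih hy hy', by rw [zpow_add, mul_mul_mul_comm]⟩

theorem inv_mem_prodSet (l : List A) {a : A} (ha : a ∈ prodSet l) : a⁻¹ ∈ prodSet l := by
  induction l generalizing a with
  | nil =>
    have h1 : a = 1 := ha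
    rw [h1, inv_one]; rfl
  | cons g l ih =>
    obtain ⟨k, y, hy, rfl⟩ := ha
    exact ⟨-k, y⁻¹, ih hy, by rw [mul_inv, zpow_neg]⟩

theorem self_mem_prodSet (l : List A) {a : A} (ha : a ∈ l) : a ∈ prodSet l := by
  induction l with
  | nil => simp at ha
  | cons g l ih =>
    rcases List.mem_cons.1 ha with rfl | h
    · exact ⟨1, 1, one_mem_prodSet l, by simp⟩
    · exact ⟨0, a, ih h, by simp⟩

/-- In a commutative group generated by the members of `l`, every element is an ordered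
product of powers. -/
theorem mem_prodSet_of_closure (l : List A) {a : A} (ha : a ∈ Subgroup.closure {x | x ∈ l}) :
    a ∈ prodSet l := by
  induction ha using Subgroup.closure_induction with
  | mem x hx => exact self_mem_prodSet l hx
  | one => exact one_mem_prodSet l
  | mul x y _ _ hx hy => exact mul_mem_prodSet l hx hy
  | inv x _ hx => exact inv_mem_prodSet l hx

theorem OF.of_act {s a : A} {m : M} (h : OF π s (π a m)) : OF π s m := by
  have := h.map (π' := π) (g' := s) (π a⁻¹) fun x => act_comm _ _ x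
  rwa [← act_mul, inv_mul_cancel, act_one] at this

theorem OF.of_diff {s : A} {m : M} {i j : ℤ} (hij : i ≠ j)
    (h : OF π s (π (s ^ i) m - π (s ^ j) m)) : OF π s m := by
  have e : π (s ^ i) m - π (s ^ j) m = π (s ^ j) (π (s ^ (i - j)) m - m) := by
    rw [map_sub, ← act_mul, ← zpow_add, add_sub_cancel]
  rw [e] at h
  exact OF.of_zpow (sub_ne_zero.2 hij) (h.of_act.zpow (i - j)).of_sub

variable (π) in
/-- The exponential sequence. -/
def ex (s : A) (j : ℤ) (m : M) : ℕ → M := fun k => π (s ^ ((k : ℤ) * j)) m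

variable (π) in
/-- Sums of exponential sequences with exponents in `T`. -/
def Low (s : A) (T : Set ℤ) : Submodule ℤ (ℕ → M) :=
  Submodule.span ℤ {φ | ∃ j ∈ T, ∃ m, φ = ex π s j m}

theorem Low_mono (s : A) {T T' : Set ℤ} (h : T ⊆ T') : Low π s T ≤ Low π s T' :=
  Submodule.span_mono fun _ ⟨j, hj, m, e⟩ => ⟨j, h hj, m, e⟩

theorem ex_mem (s : A) {T : Set ℤ} {j : ℤ} (hj : j ∈ T) (m : M) : ex π s j m ∈ Low π s T :=
  Submodule.subset_span ⟨j, hj, m, rfl⟩

variable (π) in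
/-- The difference operator. -/
def del (s : A) (j : ℤ) : (ℕ → M) →ₗ[ℤ] (ℕ → M) where
  toFun φ k := φ (k + 1) - π (s ^ j) (φ k)
  map_add' a b := by funext k; simp only [Pi.add_apply, map_add]; abel
  map_smul' c a := by funext k; simp only [Pi.smul_apply, map_smul, RingHom.id_apply, smul_sub]

theorem del_ex (s : A) (j i : ℤ) (m : M) :
    del π s j (ex π s i m) = ex π s i (π (s ^ i) m - π (s ^ j) m) := by
  funext k
  show π (s ^ (((k + 1 : ℕ) : ℤ) * i)) m - π (s ^ j) (π (s ^ ((k : ℤ) * i)) m) =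
    π (s ^ ((k : ℤ) * i)) (π (s ^ i) m - π (s ^ j) m)
  rw [map_sub, act_comm (s ^ j), ← act_mul (s ^ ((k : ℤ) * i)) (s ^ i), ← zpow_add]
  push_cast
  rw [add_mul, one_mul]

theorem elim (s : A) (P : Submodule ℤ M) (hPinv : ∀ a, ∀ m ∈ P, π a m ∈ P)
    (hP : ∀ m ∈ P, OF π s m) (J : ℤ) (T : Finset ℤ) (hT : J ∉ T) (m : M) (φ : ℕ → M)
    (hφ : ∀ k, φ k ∈ P) (h : φ - ex π s J m ∈ Low π s T) : OF π s m := by
  induction T using Finset.induction_on generalizing m φ with
  | empty =>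
    have h0 : Low π s ((∅ : Finset ℤ) : Set ℤ) ≤ ⊥ :=
      Submodule.span_le.2 fun _ ⟨j, hj, _⟩ => by simp at hj
    have h1 : φ 0 - ex π s J m 0 = 0 := congrFun ((Submodule.mem_bot ℤ).1 (h0 h)) 0
    have h2 : ex π s J m 0 = m := by simp [ex]
    rw [h2, sub_eq_zero] at h1
    exact hP m (h1 ▸ hφ 0)
  | insert j T hj ih =>
    rw [Finset.mem_insert, not_or] at hT
    refine OF.of_diff hT.1 (ih hT.2 _ (del π s j φ)
      (fun k => P.sub_mem (hφ _) (hPinv _ _ (hφ k))) ?_)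
    rw [← del_ex, ← map_sub]
    have h0 : Low π s ((insert j T : Finset ℤ) : Set ℤ) ≤ (Low π s T).comap (del π s j) := by
      refine Submodule.span_le.2 ?_
      rintro _ ⟨i, hi, x, rfl⟩
      show del π s j (ex π s i x) ∈ Low π s T
      rw [del_ex]
      rcases Finset.mem_insert.1 (Finset.mem_coe.1 hi) with rfl | hi'
      · have : ex π s i (π (s ^ i) x - π (s ^ i) x) = 0 := by funext k; simp [ex]
        rw [this]; exact Submodule.zero_mem _
      · exact ex_mem s (Finset.mem_coe.2 hi') _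
    exact h0 h

variable (π) in
/-- The shift operator. -/
def mu (s a : A) (n : ℤ) : (ℕ → M) →ₗ[ℤ] (ℕ → M) where
  toFun φ k := π (a * s ^ ((k : ℤ) * n)) (φ k)
  map_add' a b := by funext k; simp only [Pi.add_apply, map_add]
  map_smul' c a := by funext k; simp only [Pi.smul_apply, map_smul, RingHom.id_apply]

theorem mu_ex (s a : A) (n i : ℤ) (m : M) :
    mu π s a n (ex π s i m) = ex π s (i + n) (π a m) := by
  funext k
  show π (a * s ^ ((k : ℤ) * n)) (π (s ^ ((k : ℤ) * i)) m) = π (s ^ ((k : ℤ) * (i + n))) (π a m)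
  rw [← act_mul, ← act_mul, mul_add, zpow_add, mul_comm a, mul_right_comm,
    mul_comm (s ^ ((k : ℤ) * n))]

variable (π) in
/-- `φ` has leading term `ex J m`. -/
def Lead (s : A) (J : ℤ) (m : M) (φ : ℕ → M) : Prop :=
  ∃ T : Finset ℤ, (∀ j ∈ T, j < J) ∧ φ - ex π s J m ∈ Low π s T

theorem lead_step {s : A} {J : ℤ} {m : M} {φ : ℕ → M} (h : Lead π s J m φ) (a : A) {n : ℤ}
    (hn : n ≠ 0) : ∃ J' m', Lead π s J' m' (φ - mu π s a n φ) ∧ (OF π s m' → OF π s m) := by
  obtain ⟨T, hT, h⟩ := h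
  have h0 : Low π s T ≤ (Low π s (T.image (· + n) : Finset ℤ)).comap (mu π s a n) := by
    refine Submodule.span_le.2 ?_
    rintro _ ⟨i, hi, x, rfl⟩
    show mu π s a n (ex π s i x) ∈ Low π s (T.image (· + n) : Finset ℤ)
    rw [mu_ex]
    exact ex_mem s (Finset.mem_coe.2 (Finset.mem_image_of_mem (· + n) (Finset.mem_coe.1 hi))) _
  have h1 : mu π s a n φ - ex π s (J + n) (π a m) ∈ Low π s (T.image (· + n) : Finset ℤ) := by
    rw [← mu_ex, ← map_sub]; exact h0 h
  have hb : ∀ (i j : ℤ), j ∈ insert i (T ∪ T.image (· + n)) →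
      j = i ∨ j < J ∨ j < J + n := by
    intro i j hj
    rcases Finset.mem_insert.1 hj with h2 | h2
    · exact Or.inl h2
    · rcases Finset.mem_union.1 h2 with h3 | h3
      · exact Or.inr (Or.inl (hT j h3))
      · obtain ⟨x, hx, rfl⟩ := Finset.mem_image.1 h3
        have := hT x hx
        exact Or.inr (Or.inr (by omega))
  have l1 : ∀ i : ℤ, Low π s T ≤ Low π s (insert i (T ∪ T.image (· + n)) : Finset ℤ) :=
    fun i => Low_mono s (Finset.coe_subset.2
      (Finset.subset_union_left.trans (Finset.subset_insert _ _)))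
  have l2 : ∀ i : ℤ, Low π s (T.image (· + n) : Finset ℤ) ≤
      Low π s (insert i (T ∪ T.image (· + n)) : Finset ℤ) :=
    fun i => Low_mono s (Finset.coe_subset.2
      (Finset.subset_union_right.trans (Finset.subset_insert _ _)))
  rcases lt_or_gt_of_ne hn with hn | hn
  · refine ⟨J, m, ⟨insert (J + n) (T ∪ T.image (· + n)), fun j hj => ?_, ?_⟩, id⟩
    · have := hb _ j hj; omega
    · have e : φ - mu π s a n φ - ex π s J m = (φ - ex π s J m) -
          (mu π s a n φ - ex π s (J + n) (π a m)) - ex π s (J + n) (π a m) := by abel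
      rw [e]
      exact Submodule.sub_mem _ (Submodule.sub_mem _ (l1 _ h) (l2 _ h1))
        (ex_mem s (Finset.mem_coe.2 (Finset.mem_insert_self _ _)) _)
  · refine ⟨J + n, -π a m, ⟨insert J (T ∪ T.image (· + n)), fun j hj => ?_, ?_⟩, fun h2 => ?_⟩
    · have := hb _ j hj; omega
    · have e0 : ex π s (J + n) (-π a m) = -ex π s (J + n) (π a m) := by funext k; simp [ex]
      have e : φ - mu π s a n φ - ex π s (J + n) (-π a m) = (φ - ex π s J m) -
          (mu π s a n φ - ex π s (J + n) (π a m)) + ex π s J m := by rw [e0]; abel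
      rw [e]
      exact Submodule.add_mem _ (Submodule.sub_mem _ (l1 _ h) (l2 _ h1))
        (ex_mem s (Finset.mem_coe.2 (Finset.mem_insert_self _ _)) _)
    · have := h2.neg
      rw [neg_neg] at this
      exact this.of_act

theorem lead_list {s : A} {J : ℤ} {m : M} {φ : ℕ → M} (h : Lead π s J m φ) (fac : List (A × ℤ))
    (hfac : ∀ x ∈ fac, x.2 ≠ 0) : ∃ J' m', Lead π s J' m'
      (fun k : ℕ => Fl π (fac.map fun x => x.1 * s ^ ((k : ℤ) * x.2)) (φ k)) ∧
      (OF π s m' → OF π s m) := by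
  induction fac with
  | nil => exact ⟨J, m, h, id⟩
  | cons x fac ih =>
    obtain ⟨J1, m1, h1, h2⟩ := ih fun y hy => hfac y (List.mem_cons_of_mem _ hy)
    obtain ⟨J2, m2, h3, h4⟩ := lead_step h1 x.1 (hfac x List.mem_cons_self)
    exact ⟨J2, m2, h3, fun h5 => h2 (h4 h5)⟩

/-- The Vandermonde argument. -/
theorem vand (s : A) (P : Submodule ℤ M) (hPinv : ∀ a, ∀ m ∈ P, π a m ∈ P)
    (hP : ∀ m ∈ P, OF π s m) (fac : List (A × ℤ)) (hfac : ∀ x ∈ fac, x.2 ≠ 0)
    {ι : Type} [Fintype ι] [Nonempty ι] (b : ι → ℤ) (hb : Function.Injective b) (m : ι → M)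
    (h : ∀ k : ℕ, Fl π (fac.map fun x => x.1 * s ^ ((k : ℤ) * x.2))
      (∑ l, π (s ^ ((k : ℤ) * b l)) (m l)) ∈ P) :
    ∃ l, OF π s (m l) := by
  classical
  obtain ⟨l0, -, hl0⟩ := Finset.exists_max_image Finset.univ b Finset.univ_nonempty
  have h0 : Lead π s (b l0) (m l0) fun k : ℕ => ∑ l, π (s ^ ((k : ℤ) * b l)) (m l) := by
    refine ⟨(Finset.univ.erase l0).image b, fun j hj => ?_, ?_⟩
    · obtain ⟨l, hl, rfl⟩ := Finset.mem_image.1 hj
      exact lt_of_le_of_ne (hl0 l (Finset.mem_univ _)) (hb.ne (Finset.ne_of_mem_erase hl))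
    · have e : (fun k : ℕ => ∑ l, π (s ^ ((k : ℤ) * b l)) (m l)) - ex π s (b l0) (m l0) =
          ∑ l ∈ Finset.univ.erase l0, ex π s (b l) (m l) := by
        funext k
        rw [Finset.sum_apply, Pi.sub_apply, ← Finset.add_sum_erase _ _ (Finset.mem_univ l0)]
        simp only [ex, add_sub_cancel_left]
      rw [e]
      exact Submodule.sum_mem _ fun l hl =>
        ex_mem s (Finset.mem_coe.2 (Finset.mem_image_of_mem b hl)) _
  obtain ⟨J, m', ⟨T, hT, h1⟩, h2⟩ := lead_list h0 fac hfac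
  exact ⟨l0, h2 (elim s P hPinv hP J T (fun hj => lt_irrefl _ (hT J hj)) m' _ h h1)⟩

end

end Pool.Agent.MP_00906f_gt.H46
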