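import Pool.Agent.MP_00906f_gt.H46.Cov2
import Pool.Agent.MP_00906f_gt.H46.Orbit

/-! The modules `V` (abelian kernel) and `N` (its part in the point-pushing subgroup). -/

set_option linter.unusedSimpArgs false

namespace Pool.Agent.MP_00906f_gt.H46

/-- A system of even length at least six with abelian kernel. -/
structure Ctx (G H : Type*) [Group G] [AddCommGroup H] extends Sys G H where
  hN : Even N
  h6 : 6 ≤ N
  comm : ∀ a ∈ ρ.ker, ∀ b ∈ ρ.ker, a * b = b * a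

namespace Ctx

variable {G H : Type*} [Group G] [AddCommGroup H] (C : Ctx G H)

theorem h2 : 2 ≤ C.N := le_trans (by norm_num) C.h6
theorem h4 : 4 ≤ C.N := le_trans (by norm_num) C.h6

theorem mainS : C.toSys.Main := by
  obtain ⟨k, hk⟩ := C.hN
  exact Sys.main k _ (by omega)

theorem mainS' : C.toSys.shift.Main := by
  obtain ⟨k, hk⟩ := C.toSys.shift_even C.hN
  exact Sys.main k _ (by omega)

/-- The kernel, written additively. -/
def W : Type _ := Additive C.ρ.ker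

instance : AddCommGroup C.W :=
  { (inferInstance : AddGroup (Additive C.ρ.ker)) with
    add_comm := fun a b => by
      apply Additive.toMul.injective
      exact Subtype.ext (C.comm _ (Additive.toMul (α := C.ρ.ker) a).2 _
        (Additive.toMul (α := C.ρ.ker) b).2) }

variable {C}

def val (m : C.W) : G := (Additive.toMul (α := C.ρ.ker) m : C.ρ.ker)

theorem val_mem (m : C.W) : val m ∈ C.ρ.ker := (Additive.toMul (α := C.ρ.ker) m).2
theorem val_add (m m' : C.W) : val (m + m') = val m * val m' := rfl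
theorem val_neg (m : C.W) : val (-m) = (val m)⁻¹ := rfl
theorem val_zero : val (0 : C.W) = 1 := rfl
theorem val_inj {m m' : C.W} (h : val m = val m') : m = m' :=
  Additive.toMul.injective (Subtype.ext h)
theorem val_sub (m m' : C.W) : val (m - m') = val m * (val m')⁻¹ := by
  rw [sub_eq_add_neg, val_add, val_neg]

variable (C)

def cl (k : G) (hk : k ∈ C.ρ.ker) : C.W := Additive.ofMul (α := C.ρ.ker) ⟨k, hk⟩

theorem val_cl (k : G) (hk : k ∈ C.ρ.ker) : val (C.cl k hk) = k := rfl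

theorem conj_ker (g : G) {k : G} (hk : k ∈ C.ρ.ker) : g * k * g⁻¹ ∈ C.ρ.ker :=
  (MonoidHom.normal_ker C.ρ).conj_mem _ hk g

def π0 (g : G) : C.W →+ C.W where
  toFun m := C.cl (g * val m * g⁻¹) (C.conj_ker g (val_mem m))
  map_zero' := val_inj (by rw [val_cl, val_zero]; group)
  map_add' a b := val_inj (by simp only [val_cl, val_add]; group)

/-- The conjugation action. -/
def π : G →* Module.End ℤ C.W where
  toFun g := (C.π0 g).toIntLinearMap
  map_one' := by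
    ext m; apply val_inj
    change 1 * val m * 1⁻¹ = val m
    group
  map_mul' a b := by
    ext m; apply val_inj
    change a * b * val m * (a * b)⁻¹ = a * (b * val m * b⁻¹) * a⁻¹
    group

theorem val_π (g : G) (m : C.W) : val (C.π g m) = g * val m * g⁻¹ := rfl

theorem π_ker {k : G} (hk : k ∈ C.ρ.ker) (m : C.W) : C.π k m = m :=
  val_inj (by rw [val_π, C.comm _ hk _ (val_mem m)]; group)

theorem π_mul (a b : G) (m : C.W) : C.π (a * b) m = C.π a (C.π b m) := act_mul a b m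

/-- The part of the kernel in `FF`. -/
def M : Submodule ℤ C.W :=
  AddSubgroup.toIntSubmodule
    { carrier := {m | val m ∈ FF C.σ C.N}
      add_mem' := fun {a b} ha hb => (FF C.σ C.N).mul_mem (x := val a) (y := val b) ha hb
      zero_mem' := (FF C.σ C.N).one_mem
      neg_mem' := fun {a} ha => (FF C.σ C.N).inv_mem (x := val a) ha }

theorem mem_M {m : C.W} : m ∈ C.M ↔ val m ∈ FF C.σ C.N := Iff.rfl

theorem π_M {g : G} (hg : g ∈ Ga C.σ C.N) {m : C.W} (hm : m ∈ C.M) : C.π g m ∈ C.M :=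
  C.bf.conj_FF C.h2 hg hm

open Classical in
/-- The action of `Ga` on `M`. -/
noncomputable def φ (g : G) : Module.End ℤ C.M :=
  if h : g ∈ Ga C.σ C.N then (C.π g).restrict (fun _ hm => C.π_M h hm) else 0

theorem φ_coe {g : G} (hg : g ∈ Ga C.σ C.N) (m : C.M) : (C.φ g m : C.W) = C.π g m := by
  rw [φ, dif_pos hg]; rfl

theorem φ_mul {a b : G} (ha : a ∈ Ga C.σ C.N) (hb : b ∈ Ga C.σ C.N) (m : C.M) :
    C.φ (a * b) m = C.φ a (C.φ b m) :=
  Subtype.ext (by rw [C.φ_coe (mul_mem ha hb), C.φ_coe ha, C.φ_coe hb, π_mul])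

theorem φ_one (m : C.M) : C.φ 1 m = m :=
  Subtype.ext (by rw [C.φ_coe (one_mem _), act_one])

theorem φ_inv {a : G} (ha : a ∈ Ga C.σ C.N) (m : C.M) : C.φ a (C.φ a⁻¹ m) = m := by
  rw [← C.φ_mul ha (inv_mem ha), mul_inv_cancel, φ_one]

theorem φ_inv' {a : G} (ha : a ∈ Ga C.σ C.N) (m : C.M) : C.φ a⁻¹ (C.φ a m) = m := by
  rw [← C.φ_mul (inv_mem ha) ha, inv_mul_cancel, φ_one]

theorem φ_of_comm {a : G} (ha : a ∈ Ga C.σ C.N) {m : C.M} (h : a * val m.1 = val m.1 * a) :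
    C.φ a m = m :=
  Subtype.ext (val_inj (by rw [C.φ_coe ha, val_π, h]; group))

theorem φ_ker {k : G} (hk : k ∈ C.ρ.ker) (ha : k ∈ Ga C.σ C.N) (m : C.M) : C.φ k m = m :=
  C.φ_of_comm ha (C.comm _ hk _ (val_mem _))

theorem φ_s (k : ℤ) (m : C.M) : C.φ (C.σ 0 ^ k) m = m :=
  C.φ_of_comm (zpow_mem s_mem_Ga k)
    (Commute.zpow_left (C.bf.s_comm_Ga C.h2 (FF_le_Ga (C.mem_M.1 m.2))) k)

theorem φ_Tr {l : H} {f f' : G} (hf : f ∈ FF C.σ C.N) (hf' : f' ∈ FF C.σ C.N)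
    (h : C.Tr l f) (h' : C.Tr l f') (m : C.M) : C.φ f m = C.φ f' m := by
  have h1 := h'.inv.mul h
  rw [neg_add_cancel] at h1
  obtain ⟨k, hk⟩ := C.Tr_zero C.hN C.h2 (mul_mem (inv_mem hf') hf) h1
  have e : f = f' * ((f'⁻¹ * f * C.σ 0 ^ k) * C.σ 0 ^ (-k)) := by group
  have a1 := FF_le_Ga (LL_le_FF hk)
  rw [e, C.φ_mul (FF_le_Ga hf') (mul_mem a1 (zpow_mem s_mem_Ga _)),
    C.φ_mul a1 (zpow_mem s_mem_Ga _), φ_s, C.φ_ker (C.LL_le_ker hk) a1]

theorem mem_A {l : H} : l ∈ C.A ↔ l ∈ C.L ∧ C.ω (C.c 0) l = 0 := Iff.rfl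

theorem exists_Tr (l : C.A) : ∃ f ∈ FF C.σ C.N, C.Tr l f := by
  obtain ⟨f, hf, h⟩ := C.exists_E C.hN C.h2 l.2.1 l.2.2 0
  exact ⟨f, hf, l.2.2, 0, h⟩

/-- The group of translations. -/
abbrev Γ : Type _ := Multiplicative C.A

variable {C} in
/-- the underlying vector -/
def vec (a : C.Γ) : H := (a.toAdd : C.A)

theorem vec_mul (a b : C.Γ) : vec (a * b) = vec a + vec b := rfl
theorem vec_inv (a : C.Γ) : vec a⁻¹ = -vec a := rfl
theorem vec_one : vec (1 : C.Γ) = 0 := rfl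
theorem vec_zpow (a : C.Γ) (n : ℤ) : vec (a ^ n) = n • vec a := rfl
theorem vec_mem (a : C.Γ) : vec a ∈ C.A := a.toAdd.2
theorem vec_inj {a b : C.Γ} (h : vec a = vec b) : a = b :=
  Multiplicative.toAdd.injective (Subtype.ext h)

def tv (l : H) (hl : l ∈ C.A) : C.Γ := Multiplicative.ofAdd ⟨l, hl⟩

theorem vec_tv (l : H) (hl : l ∈ C.A) : vec (C.tv l hl) = l := rfl

noncomputable def fA (a : C.Γ) : G := (C.exists_Tr a.toAdd).choose

theorem fA_mem (a : C.Γ) : C.fA a ∈ FF C.σ C.N := (C.exists_Tr a.toAdd).choose_spec.1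
theorem fA_Tr (a : C.Γ) : C.Tr (vec a) (C.fA a) := (C.exists_Tr a.toAdd).choose_spec.2

/-- The action of the translations on `M`. -/
noncomputable def τ : C.Γ →* Module.End ℤ C.M where
  toFun a := C.φ (C.fA a)
  map_one' := by
    ext1 m
    rw [C.φ_Tr (C.fA_mem 1) (one_mem _) (C.fA_Tr 1) C.Tr_one, φ_one]; rfl
  map_mul' a b := by
    ext1 m
    rw [C.φ_Tr (C.fA_mem (a * b)) (mul_mem (C.fA_mem a) (C.fA_mem b)) (C.fA_Tr (a * b))
      ((C.fA_Tr a).mul (C.fA_Tr b)), C.φ_mul (FF_le_Ga (C.fA_mem a)) (FF_le_Ga (C.fA_mem b))]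
    rfl

theorem τ_def (a : C.Γ) (m : C.M) : C.τ a m = C.φ (C.fA a) m := rfl

theorem τ_eq {a : C.Γ} {f : G} (hf : f ∈ FF C.σ C.N) (h : C.Tr (vec a) f) (m : C.M) :
    C.τ a m = C.φ f m := C.φ_Tr (C.fA_mem a) hf (C.fA_Tr a) h m

theorem shift_le_A {l : H} (hl : l ∈ C.shift.L) : l ∈ C.A :=
  ⟨C.shift_L_le hl, C.ω_c0_shift hl⟩

theorem c0_mem_A : C.c 0 ∈ C.A := ⟨C.c_mem (by have := C.h2; omega), C.alt _⟩

theorem τ_c0 (m : C.M) : C.τ (C.tv _ C.c0_mem_A) m = m := by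
  rw [C.τ_eq (f := C.σ 0 ^ (-4 : ℤ)) (zpow_mem s_mem_FF _) ?_, φ_s]
  refine ⟨C.alt _, 0, fun x => ?_⟩
  have := C.E_add_c0 0 1 0 x
  rw [zero_add, one_smul] at this
  rw [vec_tv, this, C.ρ_s_zpow C.h2]; norm_num

/-- the sign by which `g` acts on `c 0` -/
def sg (g : G) : ℤ := C.ω (C.ρ g (C.c 0)) (C.c 1)

theorem sg_spec {g : G} (hg : g ∈ Ga C.σ C.N) :
    C.ρ g (C.c 0) = C.sg g • C.c 0 ∧ C.sg g * C.sg g = 1 := by
  rcases C.Ga_c0 C.h2 hg with h | h <;> simp [sg, h, C.ω01 C.h2]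

theorem ω_c0_ρ {g : G} (hg : g ∈ Ga C.σ C.N) (x : H) :
    C.ω (C.c 0) (C.ρ g x) = C.sg g * C.ω (C.c 0) x := by
  obtain ⟨h1, h2⟩ := C.sg_spec hg
  have := C.ρ_ω (Ga_le_BB C.h2 hg) (C.c 0) x
  rw [h1, map_smul, LinearMap.smul_apply, smul_eq_mul] at this
  rw [← this, ← mul_assoc, h2, one_mul]

open Classical in
/-- the linear action of `Ga` on the translations -/
noncomputable def lin (g : G) (a : C.Γ) : C.Γ :=
  if h : g ∈ Ga C.σ C.N then C.tv (C.sg g • C.ρ g (vec a))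
    (Submodule.smul_mem _ _ ⟨C.ρ_L (Ga_le_BB C.h2 h) (C.vec_mem a).1, by
      have : C.ω (C.c 0) (vec a) = 0 := (C.vec_mem a).2
      change C.ω (C.c 0) _ = 0
      rw [C.ω_c0_ρ h, this, mul_zero]⟩) else 1

theorem vec_lin {g : G} (hg : g ∈ Ga C.σ C.N) (a : C.Γ) :
    vec (C.lin g a) = C.sg g • C.ρ g (vec a) := by
  rw [lin, dif_pos hg, vec_tv]

theorem Tr_conj {g : G} (hg : g ∈ Ga C.σ C.N) {l : H} {f : G} (h : C.Tr l f) :
    C.Tr (C.sg g • C.ρ g l) (g * f * g⁻¹) := by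
  obtain ⟨h0, k, hk⟩ := h
  obtain ⟨h1, h2⟩ := C.sg_spec hg
  have hB := Ga_le_BB C.h2 hg
  refine ⟨by rw [map_smul, C.ω_c0_ρ hg, h0]; simp, k, fun x => ?_⟩
  have e1 : C.ω (C.c 0) (C.ρ g⁻¹ x) = C.sg g * C.ω (C.c 0) x := by
    rw [← C.ω_rep _ hB, h1]; simp
  have e2 : C.ω l (C.ρ g⁻¹ x) = C.ω (C.ρ g l) x := (C.ω_rep _ hB _ _).symm
  rw [Sys.ρ_mul, Sys.ρ_mul, hk]
  simp only [Sys.E, map_add, map_smul, Sys.ρ_ρ_inv, e1, e2, h1, LinearMap.smul_apply, smul_eq_mul,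
    smul_smul]
  congr 1
  · congr 1; congr 1; ring
  · congr 1; linear_combination (k * C.ω (C.c 0) x) * h2

theorem φ_τ {g : G} (hg : g ∈ Ga C.σ C.N) (a : C.Γ) (m : C.M) :
    C.φ g (C.τ a m) = C.τ (C.lin g a) (C.φ g m) := by
  have hf := C.fA_mem a
  rw [C.τ_eq (a := C.lin g a) (C.bf.conj_FF C.h2 hg hf) (by
      rw [C.vec_lin hg]; exact C.Tr_conj hg (C.fA_Tr a)), τ_def,
    ← C.φ_mul hg (FF_le_Ga hf), ← C.φ_mul (FF_le_Ga (C.bf.conj_FF C.h2 hg hf)) hg]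
  congr 2; group

/-- not a multiple of `c 0` -/
def NZ (l : H) : Prop := ∀ i : ℤ, l ≠ i • C.c 0

theorem NZ_lin {g : G} (hg : g ∈ Ga C.σ C.N) {a : C.Γ} (h : C.NZ (vec a)) :
    C.NZ (vec (C.lin g a)) := by
  intro i hi
  rw [C.vec_lin hg] at hi
  obtain ⟨h1, h2⟩ := C.sg_spec hg
  apply h i
  have h3 : C.ρ g (vec a) = C.ρ g (i • C.c 0) := by
    rw [map_smul, h1, smul_comm, ← hi, smul_smul, h2, one_smul]
  have := congrArg (C.ρ g⁻¹) h3
  rwa [Sys.ρ_inv_ρ, Sys.ρ_inv_ρ] at this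

instance : Group.FG C.Γ := by
  have h1 : C.L.FG := Submodule.fg_span ((Set.finite_Iio C.N).image C.c)
  have h2 : C.A.FG := Submodule.FG.of_le h1 inf_le_left
  have h3 : Module.Finite ℤ C.A := Module.Finite.iff_fg.2 h2
  have h4 : AddGroup.FG C.A := Module.Finite.iff_addGroup_fg.1 h3
  infer_instance

theorem fg_orbit {Q P : Submodule ℤ C.M} (hQ : ∀ a, ∀ m ∈ Q, C.τ a m ∈ Q)
    (hl : ∀ a, ∀ m ∈ Q, OF C.τ a m) (hPQ : P ≤ Q) (hP : P.FG) :
    (Submodule.span ℤ {x | ∃ a, ∃ m ∈ P, x = C.τ a m}).FG := by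
  obtain ⟨s, hs, hfin⟩ := Group.fg_iff.1 (inferInstance : Group.FG C.Γ)
  have h := fg_prodSet (π := C.τ) hfin.toFinset.toList (Q := Q) (P := P)
    (fun g _ k m hm => hQ _ m hm) (fun g _ m hm => hl g m hm) hPQ hP
  refine Submodule.FG.of_le h (Submodule.span_mono ?_)
  rintro x ⟨a, m, hm, rfl⟩
  refine ⟨a, mem_prodSet_of_closure _ ?_, m, hm, rfl⟩
  have : {x | x ∈ hfin.toFinset.toList} = s := by ext; simp
  rw [this, hs]; trivial

/-- Irreducibility: a saturated invariant subgroup of translations that contains `c 0` and a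
vector off the line of `c 0` is everything. -/
theorem irred (I : Subgroup C.Γ) (h0 : C.tv _ C.c0_mem_A ∈ I)
    (hsat : ∀ (a : C.Γ) (n : ℤ), n ≠ 0 → a ^ n ∈ I → a ∈ I)
    (hinv : ∀ c ∈ CC C.σ C.N, ∀ a ∈ I, C.lin c a ∈ I) {u : C.Γ} (hu : u ∈ I)
    (hu' : C.NZ (vec u)) (a : C.Γ) : a ∈ I := by
  have h2 := C.h2
  have h6 := C.h6
  have cA : ∀ j, j < C.N - 2 → C.c (j + 2) ∈ C.A := fun j hj =>
    C.shift_le_A (C.shift.c_mem (i := j) hj)
  have step : ∀ a ∈ I, ∀ j (hj : j < C.N - 2), C.ω (vec a) (C.c (j + 2)) ≠ 0 →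
      C.tv _ (cA j hj) ∈ I := by
    intro a ha j hj hne
    have a0 : C.ω (C.c 0) (vec a) = 0 := (C.vec_mem a).2
    obtain ⟨c, hc, hc0, i, hi⟩ : ∃ c ∈ CC C.σ C.N, C.ρ c (C.c 0) = C.c 0 ∧ ∃ i : ℤ,
        C.ρ c (vec a) = vec a + (2 * C.ω (vec a) (C.c (j + 2))) • C.c (j + 2) + i • C.c 0 := by
      have e2 : ∀ x, C.ρ (C.σ (j + 2) ^ 2) x = x + (2 * C.ω x (C.c (j + 2))) • C.c (j + 2) := by
        intro x
        have := C.ρσ_zpow (i := j + 2) (by omega) 2 x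
        rwa [zpow_two, ← sq] at this
      have z0 : C.ω (C.c 0) (C.c (j + 2)) = 0 := (cA j hj).2
      rcases Nat.eq_zero_or_pos j with rfl | hpos
      · refine ⟨(C.σ 0 * C.σ 1 * C.σ 2) ^ 4,
          Subgroup.subset_closure (Or.inl (Or.inr ⟨by omega, rfl⟩)), ?_, ?_⟩
        · rw [C.bf.D4_eq (by omega), Sys.ρ_mul, Sys.ρ_mul, Sys.ρ_mul, e2, z0, mul_zero, zero_smul,
            add_zero, C.ρ_yy h2 (j := 1) (by omega), C.Rf_c0 (C.ω_c0_ww (by omega)), map_neg, C.ρ_y0 h2,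
            C.Rf_c0 (C.ω01 h2), neg_neg, ← zpow_natCast, ← zpow_neg, C.ρ_s_zpow h2,
            C.E_c0 (by simp)]
        · rw [C.bf.D4_eq (by omega), Sys.ρ_mul, e2]
          obtain ⟨i, hi⟩ := C.FF_act h2 (f := (C.σ 0 ^ 2)⁻¹ * yy C.σ 0 * yy C.σ 1)
            (mul_mem (mul_mem (inv_mem (pow_mem s_mem_FF 2)) (yy_mem_FF h2)) (yy_mem_FF (by omega)))
            (x := vec a + (2 * C.ω (vec a) (C.c (0 + 2))) • C.c (0 + 2)) (by simp [a0, z0])
          exact ⟨_, hi⟩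
      · have hm : C.σ (j + 2) ∈ CC C.σ C.N :=
          Subgroup.subset_closure (Or.inr ⟨j + 2, ⟨by omega, by omega⟩, rfl⟩)
        refine ⟨C.σ (j + 2) ^ 2, pow_mem hm 2, ?_, 0, ?_⟩
        · rw [e2, z0]; simp
        · rw [e2]; simp
    have hcG := C.bf.CC_le_Ga h2 hc
    have hs : C.sg c = 1 := by rw [sg, hc0, C.ω01 h2]
    refine hsat _ (2 * C.ω (vec a) (C.c (j + 2))) (by omega) ?_
    have e : C.tv _ (cA j hj) ^ (2 * C.ω (vec a) (C.c (j + 2))) =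
        C.lin c a * a⁻¹ * (C.tv _ C.c0_mem_A ^ i)⁻¹ := by
      apply C.vec_inj
      rw [vec_mul, vec_mul, vec_inv, vec_inv, vec_zpow, vec_zpow, vec_tv, vec_tv, C.vec_lin hcG, hs,
        one_smul, hi]
      abel
    rw [e]
    exact mul_mem (mul_mem (hinv c hc a ha) (inv_mem ha)) (inv_mem (zpow_mem h0 i))
  obtain ⟨u', hu'L, i, e⟩ := C.decomp C.hN h2 (C.vec_mem u).1 (C.vec_mem u).2
  have hne : u' ≠ 0 := by
    rintro rfl
    exact hu' i (by rw [e, zero_add])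
  obtain ⟨j0, hj0, hj0'⟩ : ∃ j, j < C.N - 2 ∧ C.ω u' (C.c (j + 2)) ≠ 0 := by
    by_contra hcon
    push Not at hcon
    exact hne (C.shift.nondeg (C.shift_even C.hN) hu'L hcon)
  have q0 : C.tv _ (cA j0 hj0) ∈ I := by
    refine step u hu j0 hj0 ?_
    have z0 : C.ω (C.c 0) (C.c (j0 + 2)) = 0 := (cA j0 hj0).2
    rw [e]; simpa [z0] using hj0'
  have up : ∀ j (hj : j < C.N - 2) (hj' : j + 1 < C.N - 2),
      (C.tv _ (cA j hj) ∈ I ↔ C.tv _ (cA (j + 1) hj') ∈ I) := by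
    intro j hj hj'
    have e1 : C.ω (C.c (j + 2)) (C.c (j + 1 + 2)) = 1 := C.ch1 (j + 2) (by omega)
    constructor
    · intro h
      exact step _ h _ hj' (by rw [vec_tv, e1]; norm_num)
    · intro h
      exact step _ h _ hj (by rw [vec_tv, C.skew, e1]; norm_num)
  have all0 : ∀ j (hj : j < C.N - 2), (C.tv _ (cA 0 (by omega)) ∈ I ↔ C.tv _ (cA j hj) ∈ I) := by
    intro j
    induction j with
    | zero => intro _; rfl
    | succ j ih => intro hj; exact (ih (by omega)).trans (up j (by omega) hj)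
  have all : ∀ j (hj : j < C.N - 2), C.tv _ (cA j hj) ∈ I := fun j hj =>
    (all0 j hj).1 ((all0 j0 hj0).2 q0)
  have hsh : ∀ l (hl : l ∈ C.shift.L), C.tv l (C.shift_le_A hl) ∈ I := by
    intro l hl
    induction hl using Submodule.span_induction with
    | mem x hx =>
      obtain ⟨j, hj, rfl⟩ := hx
      exact all j hj
    | zero => exact one_mem I
    | add x y _ _ hx hy => exact mul_mem hx hy
    | smul n x _ hx => exact zpow_mem hx n
  obtain ⟨a', ha', k, e'⟩ := C.decomp C.hN h2 (C.vec_mem a).1 (C.vec_mem a).2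
  have : a = C.tv a' (C.shift_le_A ha') * C.tv _ C.c0_mem_A ^ k := C.vec_inj e'
  rw [this]
  exact mul_mem (hsh a' ha') (zpow_mem h0 k)

end Ctx

end Pool.Agent.MP_00906f_gt.H46
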