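import Pool.Agent.MP_00906f_gt.H46.FG1

/-! The module `M` is finitely generated. -/

set_option linter.unusedSimpArgs false

namespace Pool.Agent.MP_00906f_gt.H46

/-- The four-point relation in a free group. -/
theorem adam {G : Type*} [Group G] (a b c d : G) :
    (b * c * d) ^ 2 * ((a * c * d) ^ 2)⁻¹ =
      (b * c * d ^ 2 * (b * c)⁻¹) * (b * c * d⁻¹ * b ^ 2 * (b * c * d⁻¹)⁻¹) *
      (b * c * d⁻¹ * b⁻¹ * a⁻¹ * d⁻¹ * c ^ 2 * (b * c * d⁻¹ * b⁻¹ * a⁻¹ * d⁻¹)⁻¹)⁻¹ *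
      (b * c * d⁻¹ * b⁻¹ * a⁻¹ * d⁻¹ * c * a ^ 2 * (b * c * d⁻¹ * b⁻¹ * a⁻¹ * d⁻¹ * c)⁻¹)⁻¹ *
      (b * c * (((a * b * c) ^ 2)⁻¹ * (a * b * d) ^ 2)⁻¹ * (b * c)⁻¹) := by
  simp only [sq]; group

namespace Ctx

variable {G H : Type*} [Group G] [AddCommGroup H] (C : Ctx G H)

theorem T3_eq : T3 C.σ = yy C.σ 0 ^ 2 := by simp only [T3, yy]; group

theorem T3_FF : T3 C.σ ∈ FF C.σ C.N := by
  rw [T3_eq]; exact pow_mem (yy_mem_FF C.h2) 2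

theorem cc_FF {i j k : ℕ} (hi : i + 2 ≤ C.N) (hj : j + 2 ≤ C.N) (hk : k + 2 ≤ C.N) :
    cc C.σ i j k ∈ FF C.σ C.N :=
  mul_mem (pow_mem (mul_mem (mul_mem (yy_mem_FF hi) (yy_mem_FF hj)) (yy_mem_FF hk)) 2)
    (inv_mem (pow_mem s_mem_FF 8))

def p1 : C.M := ⟨C.cl _ (C.T3_ker C.h2), C.T3_FF⟩

def q1 : C.M := ⟨C.cl _ (C.cc012_ker C.h4),
  C.cc_FF (by have := C.h6; omega) (by have := C.h6; omega) (by have := C.h6; omega)⟩

noncomputable def p (g : G) : C.M := C.φ g C.p1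

noncomputable def q (g : G) : C.M := C.φ g C.q1

theorem val_φ {g : G} (hg : g ∈ Ga C.σ C.N) (m : C.M) :
    val (C.φ g m).1 = g * val m.1 * g⁻¹ := by rw [C.φ_coe hg, val_π]

theorem val_p {g : G} (hg : g ∈ Ga C.σ C.N) : val (C.p g).1 = g * T3 C.σ * g⁻¹ := C.val_φ hg _

theorem val_q {g : G} (hg : g ∈ Ga C.σ C.N) : val (C.q g).1 = g * cc C.σ 0 1 2 * g⁻¹ :=
  C.val_φ hg _

theorem M_ext {m m' : C.M} (h : val m.1 = val m'.1) : m = m' := Subtype.ext (val_inj h)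

theorem φ_p {a b : G} (ha : a ∈ Ga C.σ C.N) (hb : b ∈ Ga C.σ C.N) : C.φ a (C.p b) = C.p (a * b) :=
  (C.φ_mul ha hb _).symm

theorem φ_q {a b : G} (ha : a ∈ Ga C.σ C.N) (hb : b ∈ Ga C.σ C.N) : C.φ a (C.q b) = C.q (a * b) :=
  (C.φ_mul ha hb _).symm

theorem p_CC {c : G} (hc : c ∈ CC C.σ C.N) : C.p c = C.p1 := by
  refine C.φ_of_comm (C.bf.CC_le_Ga C.h2 hc) ?_
  have : Commute c C.δ := Sys.CC_δ C.h2 hc
  exact this.pow_right 6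

theorem PW {g g' : G} (hg : g ∈ Ga C.σ C.N) (hg' : g' ∈ Ga C.σ C.N) (i : ℤ)
    (h : C.ρ g (C.c 1) = C.ρ g' (C.c 1) + i • C.c 0) : C.p g = C.p g' := by
  have h2 := C.h2
  obtain ⟨h1, -⟩ := C.sg_spec (inv_mem hg')
  have h3 : C.ρ (C.σ 0 ^ (i * C.sg g'⁻¹) * (g'⁻¹ * g)) (C.c 1) = C.c 1 := by
    rw [Sys.ρ_mul, Sys.ρ_mul, h, map_add, Sys.ρ_inv_ρ, map_smul, h1, C.ρσ_zpow (by omega)]
    simp only [map_add, map_smul, LinearMap.add_apply, LinearMap.smul_apply, C.alt, C.ω10 h2,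
      smul_eq_mul]
    module
  have hm := mul_mem (zpow_mem s_mem_Ga (i * C.sg g'⁻¹)) (mul_mem (inv_mem hg') hg)
  obtain ⟨k, hk, c, hc, e⟩ := C.C2 C.hN h2 hm (Or.inl h3)
  have hkG := FF_le_Ga (LL_le_FF hk)
  have hcG := C.bf.CC_le_Ga h2 hc
  have e2 : g = g' * (C.σ 0 ^ (-(i * C.sg g'⁻¹)) * (k * c)) := by rw [← e]; group
  rw [e2, ← C.φ_p hg' (mul_mem (zpow_mem s_mem_Ga _) (mul_mem hkG hcG)),
    ← C.φ_p (zpow_mem s_mem_Ga _) (mul_mem hkG hcG), φ_s, ← C.φ_p hkG hcG,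
    C.φ_ker (C.LL_le_ker hk) hkG, C.p_CC hc]
  rfl

/-- `m` is carried into `P` by a product of operators `1 - τ a` with `a` off the line of `c 0`. -/
def Kill (P : Submodule ℤ C.M) (m : C.M) : Prop :=
  ∃ l : List C.Γ, (∀ a ∈ l, C.NZ (vec a)) ∧ Fl C.τ l m ∈ P

variable {C}

theorem Kill.common {P : Submodule ℤ C.M} (hP : ∀ a, ∀ m ∈ P, C.τ a m ∈ P) {s : Set C.M}
    (hs : s.Finite) (h : ∀ m ∈ s, C.Kill P m) :
    ∃ l : List C.Γ, (∀ a ∈ l, C.NZ (vec a)) ∧ ∀ m ∈ s, Fl C.τ l m ∈ P := by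
  induction s, hs using Set.Finite.induction_on with
  | empty => exact ⟨[], by simp, by simp⟩
  | @insert x s _ _ ih =>
    obtain ⟨l, hl, hl'⟩ := ih fun m hm => h m (Set.mem_insert_of_mem _ hm)
    obtain ⟨l2, hl2, hl2'⟩ := h x (Set.mem_insert _ _)
    refine ⟨l ++ l2, fun a ha => (List.mem_append.1 ha).elim (hl a) (hl2 a), ?_⟩
    rintro m (rfl | hm)
    · rw [Fl_append]; exact Fl_mem l hP hl2'
    · rw [Fl_append, Fl_comm]; exact Fl_mem l2 hP (hl' m hm)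

variable (C)

theorem NZ_ww {i j : ℕ} (hij : i ≠ j) (hi : i + 2 ≤ C.N) (hj : j + 2 ≤ C.N) :
    C.NZ (C.ww i - C.ww j) := by
  intro k hk
  have := congrArg (C.pt (i + 2)) hk
  rw [map_sub, C.pair_ww hi, C.pair_ww hj, C.pt_zsmul, C.pt_c0 C.h2 (by omega), mul_zero,
    if_pos (Or.inr rfl), if_neg (by omega)] at this
  exact absurd this (by decide)

theorem ww_sub_A {i j : ℕ} (hi : i + 2 ≤ C.N) (hj : j + 2 ≤ C.N) : C.ww i - C.ww j ∈ C.A :=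
  ⟨sub_mem (C.ww_mem hi) (C.ww_mem hj), (C.Tr_yy C.h2 hi hj).1⟩

theorem kill_q1 : C.Kill ⊥ C.q1 := by
  have h2 := C.h2
  have h4 := C.h4
  have h6 := C.h6
  refine ⟨[C.tv _ (C.ww_sub_A (i := 0) (j := 1) (by omega) (by omega)),
    C.tv _ (C.ww_sub_A (i := 3) (j := 4) (by omega) (by omega))], ?_, ?_⟩
  · intro a ha
    simp only [List.mem_cons, List.not_mem_nil, or_false] at ha
    rcases ha with rfl | rfl
    · exact C.NZ_ww (by omega) (by omega) (by omega)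
    · exact C.NZ_ww (by omega) (by omega) (by omega)
  have T1 := C.Tr_yy h2 (i := 0) (j := 1) (by omega) (by omega)
  have T2 := C.Tr_yy h2 (i := 3) (j := 4) (by omega) (by omega)
  have F1 : yy C.σ 0 * yy C.σ 1 ∈ FF C.σ C.N := mul_mem (yy_mem_FF (by omega)) (yy_mem_FF (by omega))
  have F2 : yy C.σ 3 * yy C.σ 4 ∈ FF C.σ C.N := mul_mem (yy_mem_FF (by omega)) (yy_mem_FF (by omega))
  have hω : C.ω (C.ww 0 - C.ww 1) (C.ww 3 - C.ww 4) = 0 := by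
    have e1 : C.ww 0 - C.ww 1 = -C.c 2 := by simp only [Sys.ww]; abel
    have e2 : C.ww 3 - C.ww 4 = -C.c 5 := by simp only [Sys.ww]; abel
    rw [e1, e2]; simp [C.ch2 2 5 (by omega) (by omega)]
  have hT : T3 (sh C.σ) ∈ C.ρ.ker := by
    rw [C.bf.T3_sh h4]
    simpa using C.conj_ker (nn C.σ)⁻¹ (C.T3_ker h2)
  have hTB : T3 (sh C.σ) ∈ BB C.σ 4 :=
    pow_mem (mul_mem (mem_BB (i := 2) (by omega)) (mem_BB (i := 3) (by omega))) 6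
  have htB : yy C.σ 0 * yy C.σ 1 ∈ BB C.σ 4 :=
    Ga_le_BB (by omega) (mul_mem (yy_mem_Ga (by omega)) (yy_mem_Ga (by omega)))
  have hc1 : Commute (T3 (sh C.σ)) (yy C.σ 3 * yy C.σ 4) := by
    have a : ∀ i j, i ≤ 1 → 3 ≤ j → j ≤ 4 → Commute (C.σ (i + 2)) (yy C.σ j) := fun i j a b c =>
      C.bf.sh_comm_yy (by omega) (by omega) (by omega) (by omega)
    exact Commute.pow_left (Commute.mul_left
      (Commute.mul_right (a 0 3 (by omega) (by omega) (by omega)) (a 0 4 (by omega) (by omega) (by omega)))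
      (Commute.mul_right (a 1 3 (by omega) (by omega) (by omega)) (a 1 4 (by omega) (by omega) (by omega)))) 6
  rw [Submodule.mem_bot]
  simp only [Fl, map_sub]
  rw [C.τ_eq (a := C.tv _ (C.ww_sub_A (i := 3) (j := 4) (by omega) (by omega))) F2 T2,
    C.τ_eq (a := C.tv _ (C.ww_sub_A (i := 0) (j := 1) (by omega) (by omega))) F1 T1,
    C.τ_eq (a := C.tv _ (C.ww_sub_A (i := 0) (j := 1) (by omega) (by omega))) F1 T1,
    ← C.φ_mul (FF_le_Ga F1) (FF_le_Ga F2)]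
  generalize yy C.σ 0 * yy C.σ 1 = t at *
  generalize yy C.σ 3 * yy C.σ 4 = t' at *
  have hr : t * t' * t⁻¹ * t'⁻¹ ∈ C.ρ.ker := by
    obtain ⟨a1, k1, e1⟩ := T1
    obtain ⟨a2, k2, e2⟩ := T2
    have e : ∀ x, C.ρ (t * t') x = C.ρ (t' * t) x := by
      intro x
      rw [Sys.ρ_mul, Sys.ρ_mul, e1, e2, e2, e1, C.E_E a1 a2, C.E_E a2 a1, hω,
        C.skew (C.ww 3 - C.ww 4), hω, add_comm (C.ww 0 - C.ww 1), add_comm k1, neg_zero]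
    refine C.mem_ker_of fun x => ?_
    have e3 : t * t' * t⁻¹ * t'⁻¹ = (t * t') * (t' * t)⁻¹ := by group
    rw [e3, Sys.ρ_mul, e, Sys.ρ_ρ_inv]
  have e5 := C.bf.T5_comm h4 (mul_mem (mul_mem (inv_mem hTB) htB) hTB)
  have ec := C.bf.cc012 h4
  have hcc := C.cc012_ker h4
  have e6 : (T3 (sh C.σ))⁻¹ * t * T3 (sh C.σ) = cc C.σ 0 1 2 * t * (cc C.σ 0 1 2)⁻¹ := by
    rw [ec]
    calc (T3 (sh C.σ))⁻¹ * t * T3 (sh C.σ)
        = (T3 (sh C.σ))⁻¹ * t * T3 (sh C.σ) * T5 C.σ * (T5 C.σ)⁻¹ := by group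
      _ = _ := by rw [e5]; group
  have e7 : cc C.σ 0 1 2 * t * (cc C.σ 0 1 2)⁻¹ * t' * (cc C.σ 0 1 2 * t * (cc C.σ 0 1 2)⁻¹)⁻¹ *
      t'⁻¹ = t * t' * t⁻¹ * t'⁻¹ := by
    rw [← e6]
    have e8 : t' = (T3 (sh C.σ))⁻¹ * t' * T3 (sh C.σ) := by
      rw [mul_assoc, ← hc1.eq]; group
    calc _ = (T3 (sh C.σ))⁻¹ * t * T3 (sh C.σ) * ((T3 (sh C.σ))⁻¹ * t' * T3 (sh C.σ)) *
          ((T3 (sh C.σ))⁻¹ * t * T3 (sh C.σ))⁻¹ * ((T3 (sh C.σ))⁻¹ * t' * T3 (sh C.σ))⁻¹ := by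
            rw [← e8]
      _ = (T3 (sh C.σ))⁻¹ * ((t * t' * t⁻¹ * t'⁻¹) * T3 (sh C.σ)) := by group
      _ = _ := by rw [C.comm _ hr _ hT]; group
  have G1 := FF_le_Ga F1
  have G2 := FF_le_Ga F2
  have e9 : C.φ t' C.q1 = C.φ (t * t' * t⁻¹) C.q1 := by
    have : t * t' * t⁻¹ = (t * t' * t⁻¹ * t'⁻¹) * t' := by group
    have G3 := mul_mem (mul_mem (mul_mem G1 G2) (inv_mem G1)) (inv_mem G2)
    rw [this, C.φ_mul G3 G2, C.φ_ker hr G3]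
  have e10 : C.q1 - C.φ t C.q1 + C.φ (t * t') C.q1 - C.φ (t * t' * t⁻¹) C.q1 = 0 := by
    apply C.M_ext
    simp only [Submodule.coe_sub, Submodule.coe_add, val_sub, val_add, C.val_φ G1,
      C.val_φ (mul_mem G1 G2), C.val_φ (mul_mem (mul_mem G1 G2) (inv_mem G1)),
      ZeroMemClass.coe_zero, val_zero]
    change cc C.σ 0 1 2 * (t * cc C.σ 0 1 2 * t⁻¹)⁻¹ * (t * t' * cc C.σ 0 1 2 * (t * t')⁻¹) *
      (t * t' * t⁻¹ * cc C.σ 0 1 2 * (t * t' * t⁻¹)⁻¹)⁻¹ = 1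
    calc _ = (cc C.σ 0 1 2 * t * (cc C.σ 0 1 2)⁻¹ * t' *
          (cc C.σ 0 1 2 * t * (cc C.σ 0 1 2)⁻¹)⁻¹ * t'⁻¹) * (t * t' * t⁻¹ * t'⁻¹)⁻¹ := by group
      _ = 1 := by rw [e7]; group
  rw [e9, ← e10]; abel

theorem kill_q {g : G} (hg : g ∈ Ga C.σ C.N) : C.Kill ⊥ (C.q g) := by
  obtain ⟨l, hl, hl'⟩ := C.kill_q1
  refine ⟨l.map (C.lin g), ?_, ?_⟩
  · intro a ha
    obtain ⟨b, hb, rfl⟩ := List.mem_map.1 ha
    exact C.NZ_lin hg (hl b hb)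
  · rw [Submodule.mem_bot] at hl' ⊢
    rw [q, ← Fl_map l (C.φ g) (C.lin g) (C.φ_τ hg), hl', map_zero]

theorem generic (l : List H) (hl : ∀ h ∈ l, h ∈ C.A ∧ C.NZ h) :
    ∃ u, C.shift.V u ∧ ∀ h ∈ l, C.ω h u ≠ 0 := by
  have h2 := C.h2
  have h6 := C.h6
  obtain ⟨Λ, hω, hV⟩ := C.shift.exists_lat (C.shift_even C.hN)
  have : ∀ h : {h // h ∈ l}, ∃ x : C.shift.L, x ≠ 0 ∧ ∃ i : ℤ, h.1 = x + i • C.c 0 := by
    rintro ⟨h, hh⟩
    obtain ⟨x, hx, i, e⟩ := C.decomp C.hN h2 (hl h hh).1.1 (hl h hh).1.2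
    refine ⟨⟨x, hx⟩, fun h0 => (hl h hh).2 i ?_, i, e⟩
    have : x = 0 := congrArg Subtype.val h0
    rw [e, this, zero_add]
  choose f hf0 hf using this
  have hc : C.shift.V (C.shift.c 0) :=
    C.shift.V_c (C.shift_even C.hN) (by simp only [Sys.shift]; omega)
  obtain ⟨u, hu, hu'⟩ := Λ.generic ⟨_, hc.1⟩ ((hV _).2 hc) (l.attach.map f) (by
    intro h hh
    obtain ⟨x, -, rfl⟩ := List.mem_map.1 hh
    exact hf0 x)
  refine ⟨u, (hV u).1 hu, fun h hh => ?_⟩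
  have h1 := hu' (f ⟨h, hh⟩) (List.mem_map.2 ⟨⟨h, hh⟩, List.mem_attach _ _, rfl⟩)
  obtain ⟨i, e⟩ := hf ⟨h, hh⟩
  rw [hω] at h1
  change h = _ at e
  change C.ω _ _ ≠ 0 at h1
  rw [e, map_add, map_smul, LinearMap.add_apply, LinearMap.smul_apply, C.ω_c0_shift u.2]
  simpa using h1

end Ctx

namespace Sys

variable {G H : Type*} [Group G] [AddCommGroup H] (S : Sys G H)

theorem ρ_conj_σ {b : G} (hb : b ∈ S.B) (h0 : 0 < S.N) {u : H} (h : PM (S.ρ b (S.c 0)) u) (n : ℤ)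
    (x : H) : S.ρ ((b * S.σ 0 * b⁻¹) ^ n) x = x + (n * S.ω x u) • u := by
  rw [conj_zpow, ρ_mul, ρ_mul, S.ρσ_zpow h0, map_add, ρ_ρ_inv, map_smul, ← S.ρ_ω hb, ρ_ρ_inv]
  rcases h with h | h <;> simp [h]

end Sys

namespace Ctx

variable {G H : Type*} [Group G] [AddCommGroup H] (C : Ctx G H)

theorem exists_bu {u : H} (hu : C.shift.V u) : ∃ b ∈ Ga C.σ C.N,
    ∀ (n : ℤ) (x : H), C.ρ (b ^ n) x = x + (n * C.ω x u) • u := by
  obtain ⟨b, hb, h⟩ := C.mainS'.1 u hu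
  have h0 : 0 < C.shift.N := by have := C.h6; simp only [Sys.shift]; omega
  exact ⟨b * C.shift.σ 0 * b⁻¹, BB_sh_le_Ga (mul_mem (mul_mem hb (mem_BB h0)) (inv_mem hb)),
    C.shift.ρ_conj_σ hb h0 h⟩

theorem lin_bu {u : H} (hu : u ∈ C.A) {b : G} (hb : b ∈ Ga C.σ C.N)
    (h : ∀ (n : ℤ) (x : H), C.ρ (b ^ n) x = x + (n * C.ω x u) • u) (k : ℤ) (a : C.Γ) :
    C.lin (b ^ (2 * k)) a = a * C.tv u hu ^ (k * (2 * C.ω (vec a) u)) := by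
  apply C.vec_inj
  have hs : C.sg (b ^ (2 * k)) = 1 := by
    have : C.ω (C.c 0) u = 0 := hu.2
    rw [sg, h, this]; simp [C.ω01 C.h2]
  rw [C.vec_lin (zpow_mem hb _), hs, one_smul, h, vec_mul, vec_zpow, vec_tv]
  congr 2; ring

theorem p_bu {u : H} (hu : u ∈ C.A) {b : G} (hb : b ∈ Ga C.σ C.N)
    (h : ∀ (n : ℤ) (x : H), C.ρ (b ^ n) x = x + (n * C.ω x u) • u) (k : ℤ) {g : G}
    (hg : g ∈ Ga C.σ C.N) :
    C.φ (b ^ (2 * k)) (C.p g) =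
      C.τ (C.tv u hu ^ (k * C.ω (C.sg g • C.ρ g (C.c 1)) u)) (C.p g) := by
  set a := C.tv u hu ^ (k * C.ω (C.sg g • C.ρ g (C.c 1)) u) with ha
  obtain ⟨-, j, hj⟩ := C.fA_Tr a
  rw [τ_def, C.φ_p (zpow_mem hb _) hg, C.φ_p (FF_le_Ga (C.fA_mem a)) hg]
  symm
  refine C.PW (mul_mem (FF_le_Ga (C.fA_mem a)) hg) (mul_mem (zpow_mem hb _) hg)
    (2 * C.ω (vec a) (C.ρ g (C.c 1)) + j * C.ω (C.c 0) (C.ρ g (C.c 1))) ?_
  rw [Sys.ρ_mul, Sys.ρ_mul, hj, h, Sys.E]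
  congr 2
  rw [ha, vec_zpow, vec_tv, smul_smul, C.ω_c0_ρ hg, C.ω01 C.h2, map_smul, LinearMap.smul_apply,
    smul_eq_mul]
  congr 1
  linear_combination (2 * k * C.ω (C.ρ g (C.c 1)) u) * (C.sg_spec hg).2

theorem val_p_aa {f : G} (hf : f ∈ Ga C.σ C.N) {j : ℕ} (hj : j + 2 ≤ C.N) :
    val (C.p (f * aa (sh C.σ) j)).1 = f * yy C.σ j ^ 2 * f⁻¹ := by
  rw [C.val_p (mul_mem hf (C.aa_mem_Ga hj)), T3_eq, yy_eq j]
  simp only [sq]; group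

theorem NZ_pts {f f' : G} (hf : f ∈ FF C.σ C.N) (hf' : f' ∈ FF C.σ C.N) {i j : ℕ} (hij : i ≠ j)
    (hi : i + 2 ≤ C.N) (hj : j + 2 ≤ C.N) :
    C.sg (f * aa (sh C.σ) i) • C.ρ (f * aa (sh C.σ) i) (C.c 1) -
      C.sg (f' * aa (sh C.σ) j) • C.ρ (f' * aa (sh C.σ) j) (C.c 1) ∈ C.A ∧
    C.NZ (C.sg (f * aa (sh C.σ) i) • C.ρ (f * aa (sh C.σ) i) (C.c 1) -
      C.sg (f' * aa (sh C.σ) j) • C.ρ (f' * aa (sh C.σ) j) (C.c 1)) := by
  have h2 := C.h2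
  have g1 := mul_mem (FF_le_Ga hf) (C.aa_mem_Ga hi)
  have g2 := mul_mem (FF_le_Ga hf') (C.aa_mem_Ga hj)
  have c1L : C.c 1 ∈ C.L := C.c_mem (by omega)
  have odd : ∀ g ∈ Ga C.σ C.N, ((C.sg g : ℤ) : ZMod 2) = 1 := by
    intro g hg
    rcases Int.eq_one_or_neg_one_of_mul_eq_one (C.sg_spec hg).2 with h | h <;> rw [h] <;> decide
  refine ⟨⟨sub_mem (Submodule.smul_mem _ _ (C.ρ_L (Ga_le_BB h2 g1) c1L))
    (Submodule.smul_mem _ _ (C.ρ_L (Ga_le_BB h2 g2) c1L)), ?_⟩, fun k hk => ?_⟩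
  · change C.ω (C.c 0) _ = 0
    rw [map_sub, map_smul, map_smul, C.ω_c0_ρ g1, C.ω_c0_ρ g2, C.ω01 h2]
    simp only [mul_one, smul_eq_mul, (C.sg_spec g1).2, (C.sg_spec g2).2, sub_self]
  · have := congrArg (C.pt (i + 2)) hk
    rw [map_sub, C.pt_zsmul, C.pt_zsmul, C.pt_zsmul, odd _ g1, odd _ g2, Sys.ρ_mul, Sys.ρ_mul,
      C.FF_pt h2 hf (by omega), C.FF_pt h2 hf' (by omega), C.ρ_aa_c1 hi, C.ρ_aa_c1 hj,
      C.pair_ww hi, C.pair_ww hj, C.pt_c0 h2 (by omega), mul_zero,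
      if_pos (Or.inr rfl), if_neg (by omega)] at this
    exact absurd this (by decide)

theorem exists_q {i j k : ℕ} (hij : i < j) (hjk : j < k) (hk : k + 2 ≤ C.N) :
    ∃ β ∈ Ga C.σ C.N, val (C.q β).1 = cc C.σ i j k := by
  obtain ⟨β, hβ, e⟩ := C.bf.cc_conj hij hjk hk
  exact ⟨β, BB_sh_le_Ga hβ, by rw [C.val_q (BB_sh_le_Ga hβ), e]⟩

/-- One translation off the line of `c 0` acts on `p1` with finitely generated orbit span. -/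
theorem exists_OF_p1 : ∃ u : C.Γ, C.NZ (vec u) ∧ OF C.τ u C.p1 := by
  have h2 := C.h2
  have h6 := C.h6
  have ya : yy C.σ 0 ∈ FF C.σ C.N := yy_mem_FF (by omega)
  have yb : yy C.σ 1 ∈ FF C.σ C.N := yy_mem_FF (by omega)
  have yc : yy C.σ 2 ∈ FF C.σ C.N := yy_mem_FF (by omega)
  have yd : yy C.σ 3 ∈ FF C.σ C.N := yy_mem_FF (by omega)
  have hid := adam (yy C.σ 0) (yy C.σ 1) (yy C.σ 2) (yy C.σ 3)
  have f1 := mul_mem yb yc
  have f2 := mul_mem f1 (inv_mem yd)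
  have f3 := mul_mem (mul_mem (mul_mem f2 (inv_mem yb)) (inv_mem ya)) (inv_mem yd)
  have f4 := mul_mem f3 yc
  let ff : Fin 4 → G := ![yy C.σ 1 * yy C.σ 2, yy C.σ 1 * yy C.σ 2 * (yy C.σ 3)⁻¹,
    yy C.σ 1 * yy C.σ 2 * (yy C.σ 3)⁻¹ * (yy C.σ 1)⁻¹ * (yy C.σ 0)⁻¹ * (yy C.σ 3)⁻¹,
    yy C.σ 1 * yy C.σ 2 * (yy C.σ 3)⁻¹ * (yy C.σ 1)⁻¹ * (yy C.σ 0)⁻¹ * (yy C.σ 3)⁻¹ * yy C.σ 2]
  let jj : Fin 4 → ℕ := ![3, 1, 2, 0]
  let ee : Fin 4 → ℤ := ![1, 1, -1, -1]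
  have hff : ∀ l, ff l ∈ FF C.σ C.N := by
    intro l; fin_cases l
    exacts [f1, f2, f3, f4]
  have hjj : ∀ l, jj l + 2 ≤ C.N := by
    intro l; fin_cases l <;> simp [jj] <;> omega
  have jinj : Function.Injective jj := by decide
  let gg : Fin 4 → G := fun l => ff l * aa (sh C.σ) (jj l)
  have hgg : ∀ l, gg l ∈ Ga C.σ C.N := fun l => mul_mem (FF_le_Ga (hff l)) (C.aa_mem_Ga (hjj l))
  obtain ⟨β1, b1, e1⟩ := C.exists_q (i := 1) (j := 2) (k := 3) (by omega) (by omega) (by omega)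
  obtain ⟨β2, b2, e2⟩ := C.exists_q (i := 0) (j := 2) (k := 3) (by omega) (by omega) (by omega)
  obtain ⟨β3, b3, e3⟩ := C.exists_q (i := 0) (j := 1) (k := 3) (by omega) (by omega) (by omega)
  have g1 := FF_le_Ga f1
  have rel : C.q β1 - C.q β2 = C.p (gg 0) + C.p (gg 1) - C.p (gg 2) - C.p (gg 3) -
      C.φ (yy C.σ 1 * yy C.σ 2) (-C.q1 + C.q β3) := by
    apply C.M_ext
    simp only [Submodule.coe_sub, Submodule.coe_add, Submodule.coe_neg, val_sub, val_add, val_neg,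
      C.val_φ g1, e1, e2, e3, gg, C.val_p_aa (FF_le_Ga (hff _)) (hjj _)]
    have s1 : cc C.σ 1 2 3 * (cc C.σ 0 2 3)⁻¹ = (yy C.σ 1 * yy C.σ 2 * yy C.σ 3) ^ 2 *
        ((yy C.σ 0 * yy C.σ 2 * yy C.σ 3) ^ 2)⁻¹ := by simp only [cc]; group
    have s2 : (val C.q1.1)⁻¹ * cc C.σ 0 1 3 = ((yy C.σ 0 * yy C.σ 1 * yy C.σ 2) ^ 2)⁻¹ *
        (yy C.σ 0 * yy C.σ 1 * yy C.σ 3) ^ 2 := by
      have hc : Commute (C.σ 0 ^ 8) (((yy C.σ 0 * yy C.σ 1 * yy C.σ 2) ^ 2)⁻¹ *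
          (yy C.σ 0 * yy C.σ 1 * yy C.σ 3) ^ 2) :=
        Commute.pow_left (C.bf.s_comm_Ga h2 (FF_le_Ga (mul_mem
          (inv_mem (pow_mem (mul_mem (mul_mem ya yb) yc) 2))
          (pow_mem (mul_mem (mul_mem ya yb) yd) 2)))) 8
      calc (val C.q1.1)⁻¹ * cc C.σ 0 1 3 = C.σ 0 ^ 8 * (((yy C.σ 0 * yy C.σ 1 * yy C.σ 2) ^ 2)⁻¹ *
            (yy C.σ 0 * yy C.σ 1 * yy C.σ 3) ^ 2) * (C.σ 0 ^ 8)⁻¹ := by
              change (cc C.σ 0 1 2)⁻¹ * _ = _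
              simp only [cc]; group
        _ = _ := by rw [hc.eq]; group
    rw [s1, s2, hid]
    simp only [ff, jj, Matrix.cons_val_zero, Matrix.cons_val_one, Matrix.cons_val]
    group
  obtain ⟨l, hl, hl'⟩ := Kill.common (C := C) (P := ⊥) (by simp)
    (s := {C.q β1, C.q β2, C.q (yy C.σ 1 * yy C.σ 2), C.q (yy C.σ 1 * yy C.σ 2 * β3)})
    (Set.toFinite _) (by
      rintro m (rfl | rfl | rfl | rfl)
      exacts [C.kill_q b1, C.kill_q b2, C.kill_q g1, C.kill_q (mul_mem g1 b3)])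
  have hψ : Fl C.τ l (∑ i, ee i • C.p (gg i)) = 0 := by
    have e : ∑ i, ee i • C.p (gg i) = C.q β1 + -C.q β2 + -C.q (yy C.σ 1 * yy C.σ 2) +
        C.q (yy C.σ 1 * yy C.σ 2 * β3) := by
      rw [map_add, map_neg, C.φ_q g1 b3] at rel
      change _ = _ - (-C.q (yy C.σ 1 * yy C.σ 2) + _) at rel
      rw [← sub_eq_add_neg (C.q β1), rel, Fin.sum_univ_four]
      simp only [ee, Matrix.cons_val_zero, Matrix.cons_val_one, Matrix.cons_val]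
      module
    simp only [Submodule.mem_bot] at hl'
    rw [e, Fl_add, Fl_add, Fl_add, Fl_neg, Fl_neg, hl' _ (by simp), hl' _ (by simp),
      hl' _ (by simp), hl' _ (by simp)]
    simp
  let W : Fin 4 → H := fun i => C.sg (gg i) • C.ρ (gg i) (C.c 1)
  obtain ⟨u, hu, hu'⟩ := C.generic (l.map vec ++
      ((Finset.univ.filter fun x : Fin 4 × Fin 4 => x.1 ≠ x.2).toList.map
        fun x => W x.1 - W x.2)) (by
    intro h hh
    rcases List.mem_append.1 hh with hh | hh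
    · obtain ⟨a, ha, rfl⟩ := List.mem_map.1 hh
      exact ⟨C.vec_mem a, hl a ha⟩
    · obtain ⟨x, hx, rfl⟩ := List.mem_map.1 hh
      have hx' : x.1 ≠ x.2 := by simpa using hx
      exact C.NZ_pts (hff _) (hff _) (fun e => hx' (jinj e)) (hjj _) (hjj _))
  have huA : u ∈ C.A := C.shift_le_A hu.1
  obtain ⟨b, hb, hb'⟩ := C.exists_bu hu
  obtain ⟨i, hi⟩ := vand (π := C.τ) (C.tv u huA) ⊥ (by simp) (by
      intro m hm
      rw [(Submodule.mem_bot ℤ).1 hm]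
      exact OF.of_mem Submodule.fg_bot (by simp))
    (l.map fun a => (a, 2 * C.ω (vec a) u)) (by
      intro x hx
      obtain ⟨a, ha, rfl⟩ := List.mem_map.1 hx
      have := hu' (vec a) (List.mem_append_left _ (List.mem_map.2 ⟨a, ha, rfl⟩))
      simp only [ne_eq]; omega)
    (fun i => C.ω (W i) u) (by
      intro i j hij
      by_contra hne
      refine hu' (W i - W j) (List.mem_append_right _ (List.mem_map.2 ⟨(i, j), by simpa using hne,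
        rfl⟩)) ?_
      rw [map_sub, LinearMap.sub_apply, sub_eq_zero]; exact hij)
    (fun i => ee i • C.p (gg i)) (by
      intro k
      have h1 := congrArg (C.φ (b ^ (2 * (k : ℤ)))) hψ
      rw [Fl_map l _ _ (C.φ_τ (zpow_mem hb _)), map_zero, map_sum] at h1
      rw [Submodule.mem_bot, ← h1, List.map_map]
      congr 1
      · exact List.map_congr_left fun a _ => (C.lin_bu huA hb hb' k a).symm
      · refine Finset.sum_congr rfl fun i _ => ?_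
        rw [map_smul (C.φ _), map_smul (C.τ _), C.p_bu huA hb hb' k (hgg i)])
  have hi' : OF C.τ (C.tv u huA) (C.p (gg i)) := by
    have := hi.smul (ee i)
    rw [smul_smul] at this
    have e : ee i * ee i = 1 := by fin_cases i <;> rfl
    rwa [e, one_smul] at this
  refine ⟨C.lin (gg i)⁻¹ (C.tv u huA), C.NZ_lin (inv_mem (hgg i)) ?_, ?_⟩
  · intro j hj
    obtain ⟨-, h0⟩ := C.decomp_uniq C.hN h2 hu.1 hj
    obtain ⟨-, ⟨y, -, hy⟩, -⟩ := hu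
    rw [h0] at hy
    simp at hy
  · have := hi'.map (C.φ (gg i)⁻¹) (C.φ_τ (inv_mem (hgg i)) _)
    rwa [p, C.φ_inv' (hgg i)] at this

end Ctx

end Pool.Agent.MP_00906f_gt.H46
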