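import Pool.Agent.MP_00906f_gt.H46.FG2

/-! `M` is finitely generated. -/

set_option linter.unusedSimpArgs false

namespace Pool.Agent.MP_00906f_gt.H46

namespace Ctx

variable {G H : Type*} [Group G] [AddCommGroup H] (C : Ctx G H)

theorem OF_c0 (m : C.M) : OF C.τ (C.tv _ C.c0_mem_A) m := by
  refine OF.of_mem (P := Submodule.span ℤ {m}) (Submodule.fg_span (Set.finite_singleton m)) ?_
  intro k
  have : C.τ (C.tv _ C.c0_mem_A ^ k) m = m := by
    induction k using Int.induction_on with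
    | zero => simp
    | succ n ih => rw [zpow_add_one, act_mul, τ_c0, ih]
    | pred n ih =>
      rw [zpow_sub_one, act_mul]
      have : C.τ (C.tv _ C.c0_mem_A)⁻¹ m = m := by
        conv_lhs => rw [← C.τ_c0 m]
        rw [← act_mul, inv_mul_cancel, act_one]
      rw [this, ih]
  rw [this]
  exact Submodule.mem_span_singleton_self m

/-- The translates of `p1`. -/
noncomputable def Q0 : Submodule ℤ C.M := Submodule.span ℤ (Set.range fun a => C.τ a C.p1)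

theorem span_inv {M : Type*} [AddCommGroup M] (f : Module.End ℤ M) {s : Set M}
    {P : Submodule ℤ M} (h : ∀ x ∈ s, f x ∈ P) {m : M} (hm : m ∈ Submodule.span ℤ s) : f m ∈ P :=
  (Submodule.span_le (p := P.comap f)).2 h hm

theorem Q0_inv (a : C.Γ) {m : C.M} (hm : m ∈ C.Q0) : C.τ a m ∈ C.Q0 := by
  refine span_inv _ ?_ hm
  rintro _ ⟨b, rfl⟩
  exact Submodule.subset_span ⟨a * b, act_mul a b _⟩

theorem OF_Q0 {a : C.Γ} (h : OF C.τ a C.p1) {m : C.M} (hm : m ∈ C.Q0) : OF C.τ a m := by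
  refine OF.of_span ?_ hm
  rintro _ ⟨b, rfl⟩
  exact h.map (C.τ b) fun x => act_comm b a x

theorem p1_mem_Q0 : C.p1 ∈ C.Q0 := Submodule.subset_span ⟨1, act_one _⟩

theorem τ_comm (a b : C.Γ) : C.τ a * C.τ b = C.τ b * C.τ a := by
  rw [← map_mul, ← map_mul, mul_comm]

theorem Q0_fg : C.Q0.FG := by
  obtain ⟨u, hu, hu'⟩ := C.exists_OF_p1
  let I : Subgroup C.Γ :=
    { carrier := {a | OF C.τ a C.p1}
      mul_mem' := fun {a b} ha hb => OF.mul (Q := C.Q0) (C.τ_comm a b)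
        (fun k m hm => C.Q0_inv _ hm) (fun m hm => C.OF_Q0 ha hm) (fun m hm => C.OF_Q0 hb hm)
        C.p1_mem_Q0
      one_mem' := by simpa using (C.OF_c0 C.p1).zpow 0
      inv_mem' := fun ha => OF.inv ha }
  have hall := C.irred I (C.OF_c0 _) (fun a n hn ha => OF.of_zpow hn ha) (fun c hc a ha => by
    have := OF.map (C.φ c) (C.φ_τ (C.bf.CC_le_Ga C.h2 hc) a) ha
    rwa [show C.φ c C.p1 = C.p1 from C.p_CC hc] at this) hu' hu
  have := C.fg_orbit (Q := C.Q0) (P := Submodule.span ℤ {C.p1}) (fun a m hm => C.Q0_inv a hm)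
    (fun a m hm => C.OF_Q0 (hall a) hm)
    (Submodule.span_le.2 (by simpa using C.p1_mem_Q0)) (Submodule.fg_span (Set.finite_singleton _))
  refine Submodule.FG.of_le this (Submodule.span_mono ?_)
  rintro _ ⟨a, rfl⟩
  exact ⟨a, _, Submodule.mem_span_singleton_self _, rfl⟩

/-- The span of the conjugates of `T3` under `Ga`. -/
noncomputable def Np : Submodule ℤ C.M := Submodule.span ℤ {m | ∃ g ∈ Ga C.σ C.N, m = C.p g}

theorem Np_φ {g : G} (hg : g ∈ Ga C.σ C.N) {m : C.M} (hm : m ∈ C.Np) : C.φ g m ∈ C.Np := by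
  refine span_inv _ ?_ hm
  rintro _ ⟨b, hb, rfl⟩
  exact Submodule.subset_span ⟨g * b, mul_mem hg hb, C.φ_p hg hb⟩

theorem Np_τ (a : C.Γ) (m : C.M) (hm : m ∈ C.Np) : C.τ a m ∈ C.Np :=
  C.Np_φ (FF_le_Ga (C.fA_mem a)) hm

theorem φ_FF {f : G} (hf : f ∈ FF C.σ C.N) :
    ∃ a : C.Γ, (∀ m, C.φ f m = C.τ a m) ∨ (∀ m, C.φ f m = C.τ a (C.φ (yy C.σ 0) m)) := by
  obtain ⟨l, hl, h | h⟩ := C.FF_cases C.h2 hf
  · exact ⟨C.tv l (C.shift_le_A hl), Or.inl fun m => (C.τ_eq (a := C.tv l _) hf h m).symm⟩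
  · refine ⟨C.tv l (C.shift_le_A hl), Or.inr fun m => ?_⟩
    have h1 := mul_mem hf (inv_mem (yy_mem_FF (j := 0) C.h2))
    rw [C.τ_eq (a := C.tv l _) h1 h, ← C.φ_mul (FF_le_Ga h1) y0_mem_Ga, inv_mul_cancel_right]

theorem Np_fg : C.Np.FG := by
  have h2 := C.h2
  refine Submodule.FG.of_le (Submodule.fg_biSup (Finset.range C.N)
    (fun j => C.Q0.map (C.φ (aa (sh C.σ) j))) fun j _ => C.Q0_fg.map _) (Submodule.span_le.2 ?_)
  rintro _ ⟨g, hg, rfl⟩
  obtain ⟨f, hf, j, hj, c, hc, rfl⟩ := C.Ga_form h2 hg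
  have ha := C.aa_mem_Ga hj
  have hf' := C.bf.conj_FF h2 (inv_mem ha) hf
  have hcG := C.bf.CC_le_Ga h2 hc
  have e : f * aa (sh C.σ) j * c =
      aa (sh C.σ) j * (((aa (sh C.σ) j)⁻¹ * f * (aa (sh C.σ) j)⁻¹⁻¹) * c) := by group
  rw [e, ← C.φ_p ha (mul_mem (FF_le_Ga hf') hcG), ← C.φ_p (FF_le_Ga hf') hcG, C.p_CC hc]
  refine Submodule.mem_iSup_of_mem j (Submodule.mem_iSup_of_mem (Finset.mem_range.2 (by omega))
    (Submodule.mem_map_of_mem ?_))
  obtain ⟨a, h | h⟩ := C.φ_FF hf'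
  · rw [h]; exact C.Q0_inv a C.p1_mem_Q0
  · rw [h, show C.φ (yy C.σ 0) C.p1 = C.p1 from C.p_CC C.y0_mem_CC]
    exact C.Q0_inv a C.p1_mem_Q0

/-- A finite set of conjugates of `cc 0 1 2`. -/
def Z0 : Set C.M := {m | ∃ j k, 0 < j ∧ j < k ∧ k + 2 ≤ C.N ∧
  (val m.1 = cc C.σ 0 j k ∨ val m.1 = yy C.σ 0 * cc C.σ 0 j k * (yy C.σ 0)⁻¹)}

theorem Z0_finite : C.Z0.Finite := by
  have h1 : ((fun x : ℕ × ℕ => cc C.σ 0 x.1 x.2) '' (Set.Iio C.N ×ˢ Set.Iio C.N) ∪
      (fun x : ℕ × ℕ => yy C.σ 0 * cc C.σ 0 x.1 x.2 * (yy C.σ 0)⁻¹) ''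
        (Set.Iio C.N ×ˢ Set.Iio C.N)).Finite :=
    (((Set.finite_Iio _).prod (Set.finite_Iio _)).image _).union
      (((Set.finite_Iio _).prod (Set.finite_Iio _)).image _)
  refine (h1.preimage (f := fun m : C.M => val m.1) fun a _ b _ h => C.M_ext h).subset ?_
  rintro m ⟨j, k, h0, hjk, hk, h | h⟩
  · exact Or.inl ⟨(j, k), ⟨by simp; omega, by simp; omega⟩, h.symm⟩
  · exact Or.inr ⟨(j, k), ⟨by simp; omega, by simp; omega⟩, h.symm⟩

theorem Z0_kill {m : C.M} (hm : m ∈ C.Z0) : C.Kill C.Np m := by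
  obtain ⟨j, k, h0, hjk, hk, h⟩ := hm
  obtain ⟨β, hβ, e⟩ := C.exists_q h0 hjk hk
  have key : ∀ g ∈ Ga C.σ C.N, C.Kill C.Np (C.q g) := by
    intro g hg
    obtain ⟨l, hl, hl'⟩ := C.kill_q hg
    exact ⟨l, hl, bot_le (a := C.Np) hl'⟩
  rcases h with h | h
  · rw [C.M_ext (h.trans e.symm)]; exact key β hβ
  · have : m = C.q (yy C.σ 0 * β) := by
      apply C.M_ext
      rw [← C.φ_q y0_mem_Ga hβ, C.val_φ y0_mem_Ga, e, h]
    rw [this]; exact key _ (mul_mem y0_mem_Ga hβ)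

theorem M_gen (m : C.M) :
    m ∈ C.Np ⊔ Submodule.span ℤ {x | ∃ a, ∃ z ∈ C.Z0, x = C.τ a z} := by
  have h2 := C.h2
  have key : ∀ x ∈ LL C.σ C.N, ∀ m : C.M, val m.1 = x →
      m ∈ C.Np ⊔ Submodule.span ℤ {x | ∃ a, ∃ z ∈ C.Z0, x = C.τ a z} := by
    intro x hx
    induction hx using Subgroup.closure_induction with
    | mem x hx =>
      intro m hm
      obtain ⟨f, hf, ⟨j, hj, rfl⟩ | ⟨j, k, h0, hjk, hk, rfl⟩⟩ := hx
      · refine Submodule.mem_sup_left (Submodule.subset_span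
          ⟨_, mul_mem (FF_le_Ga hf) (C.aa_mem_Ga hj), C.M_ext ?_⟩)
        rw [hm, C.val_p_aa (FF_le_Ga hf) hj]
      · obtain ⟨β, hβ, e⟩ := C.exists_q h0 hjk hk
        have e1 : m = C.φ f (C.q β) := C.M_ext (by rw [hm, C.val_φ (FF_le_Ga hf), e])
        refine Submodule.mem_sup_right (Submodule.subset_span ?_)
        obtain ⟨a, h | h⟩ := C.φ_FF hf
        · exact ⟨a, _, ⟨j, k, h0, hjk, hk, Or.inl e⟩, by rw [e1, h]⟩
        · exact ⟨a, _, ⟨j, k, h0, hjk, hk, Or.inr (by rw [C.val_φ y0_mem_Ga, e])⟩, by rw [e1, h]⟩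
    | one =>
      intro m hm
      rw [C.M_ext (m' := 0) hm]; exact zero_mem _
    | mul x y hx hy ihx ihy =>
      intro m hm
      have := add_mem (ihx ⟨C.cl x (C.LL_le_ker hx), LL_le_FF hx⟩ rfl)
        (ihy ⟨C.cl y (C.LL_le_ker hy), LL_le_FF hy⟩ rfl)
      have e : m = (⟨C.cl x (C.LL_le_ker hx), LL_le_FF hx⟩ : C.M) +
        (⟨C.cl y (C.LL_le_ker hy), LL_le_FF hy⟩ : C.M) := C.M_ext hm
      rw [e]
      exact this
    | inv x hx ih =>
      intro m hm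
      have := neg_mem (ih ⟨C.cl x (C.LL_le_ker hx), LL_le_FF hx⟩ rfl)
      have e : m = -(⟨C.cl x (C.LL_le_ker hx), LL_le_FF hx⟩ : C.M) := C.M_ext hm
      rw [e]
      exact this
  exact key _ (C.ker_FF_le_LL C.hN h2 m.2 (val_mem _)) m rfl

theorem M_fg : C.M.FG := by
  have h2 := C.h2
  obtain ⟨l, hl, hl'⟩ := Kill.common C.Np_τ C.Z0_finite fun m hm => C.Z0_kill hm
  have hall : ∀ m, Fl C.τ l m ∈ C.Np := by
    intro m
    obtain ⟨x, hx, y, hy, rfl⟩ := Submodule.mem_sup.1 (C.M_gen m)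
    rw [Fl_add]
    refine add_mem (Fl_mem l C.Np_τ hx) ?_
    clear hx
    induction hy using Submodule.span_induction with
    | mem y hy =>
      obtain ⟨a, z, hz, rfl⟩ := hy
      rw [Fl_act]; exact C.Np_τ _ _ (hl' z hz)
    | zero => rw [Fl_zero]; exact zero_mem _
    | add a b _ _ ha hb => rw [Fl_add]; exact add_mem ha hb
    | smul n a _ ha =>
      have := Fl_map (π := C.τ) l (n • LinearMap.id) id (by simp) a
      simp only [LinearMap.smul_apply, LinearMap.id_coe, id_eq, List.map_id] at this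
      rw [← this]; exact Submodule.smul_mem _ _ ha
  obtain ⟨u, hu, hu'⟩ := C.generic (l.map vec) (by
    intro h hh
    obtain ⟨a, ha, rfl⟩ := List.mem_map.1 hh
    exact ⟨C.vec_mem a, hl a ha⟩)
  have huA : u ∈ C.A := C.shift_le_A hu.1
  obtain ⟨b, hb, hb'⟩ := C.exists_bu hu
  have hOF : ∀ m, OF C.τ (C.tv u huA) m := by
    intro m
    obtain ⟨i, hi⟩ := vand (π := C.τ) (C.tv u huA) C.Np C.Np_τ
      (fun m hm => OF.of_mem C.Np_fg fun k => C.Np_τ _ _ hm)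
      (l.map fun a => (a, 2 * C.ω (vec a) u)) (by
        intro x hx
        obtain ⟨a, ha, rfl⟩ := List.mem_map.1 hx
        have := hu' (vec a) (List.mem_map.2 ⟨a, ha, rfl⟩)
        simp only [ne_eq]; omega)
      (ι := Unit) (fun _ => 0) (fun _ _ _ => rfl) (fun _ => m) (by
        intro k
        have hbk := zpow_mem hb (2 * (k : ℤ))
        have h1 := C.Np_φ hbk (hall (C.φ (b ^ (2 * (k : ℤ)))⁻¹ m))
        rw [Fl_map l _ _ (C.φ_τ hbk), C.φ_inv hbk] at h1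
        rw [List.map_map]
        have e : l.map ((fun x : C.Γ × ℤ => x.1 * C.tv u huA ^ ((k : ℤ) * x.2)) ∘
            fun a => (a, 2 * C.ω (vec a) u)) = l.map (C.lin (b ^ (2 * (k : ℤ)))) :=
          List.map_congr_left fun a _ => (C.lin_bu huA hb hb' k a).symm
        rw [e]
        simpa using h1)
    exact hi
  let I : Subgroup C.Γ :=
    { carrier := {a | ∀ m, OF C.τ a m}
      mul_mem' := fun {a b} ha hb m => OF.mul (Q := ⊤) (C.τ_comm a b)
        (fun _ _ _ => trivial) (fun m _ => ha m) (fun m _ => hb m) trivial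
      one_mem' := fun m => by simpa using (C.OF_c0 m).zpow 0
      inv_mem' := fun ha m => OF.inv (ha m) }
  have hI := C.irred I C.OF_c0 (fun a n hn ha m => OF.of_zpow hn (ha m)) (fun c hc a ha m => by
    have hcG := C.bf.CC_le_Ga C.h2 hc
    have := OF.map (C.φ c) (C.φ_τ hcG a) (ha (C.φ c⁻¹ m))
    rwa [C.φ_inv hcG] at this) (u := C.tv u huA) hOF (by
      intro j hj
      obtain ⟨-, h0⟩ := C.decomp_uniq C.hN h2 hu.1 hj
      obtain ⟨-, ⟨y, -, hy⟩, -⟩ := hu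
      rw [h0] at hy
      simp at hy)
  have := C.fg_orbit (Q := ⊤) (P := Submodule.span ℤ C.Z0) (fun _ _ _ => trivial)
    (fun a m _ => hI a m) le_top (Submodule.fg_span C.Z0_finite)
  rw [← Submodule.fg_top]
  refine Submodule.FG.of_le (C.Np_fg.sup this) fun m _ => ?_
  obtain ⟨x, hx, y, hy, rfl⟩ := Submodule.mem_sup.1 (C.M_gen m)
  refine Submodule.add_mem_sup hx (Submodule.span_mono ?_ hy)
  rintro _ ⟨a, z, hz, rfl⟩
  exact ⟨a, z, Submodule.subset_span hz, rfl⟩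

end Ctx

end Pool.Agent.MP_00906f_gt.H46
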