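import Pool.Agent.MP_00906f_gt.H46.FG3
import Pool.Agent.MP_00906f_gt.H46.Fin

/-! The whole kernel is finitely generated. -/

set_option linter.unusedSimpArgs false

namespace Pool.Agent.MP_00906f_gt.H46

namespace Ctx

variable {G H : Type*} [Group G] [AddCommGroup H] (C : Ctx G H)

theorem π_J {j : G} (hj : j ∈ C.J) {m : C.W} (hm : m ∈ C.M) : C.π j m ∈ C.M := by
  obtain ⟨k, hk, g, hg, rfl⟩ := C.J_form C.h2 hj
  rw [π_mul, C.π_ker (C.K0_le_ker hk)]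
  exact C.π_M hg hm

theorem OF_conj {g : G} {m : C.W} (h : OF C.π g m) (a : G) : OF C.π (a * g * a⁻¹) (C.π a m) :=
  h.map (C.π a) fun x => by rw [← π_mul, ← π_mul, inv_mul_cancel_right]

theorem exists_γ (y : H) : ∃ γ ∈ BB C.σ 2, C.ω (C.ρ γ (C.c 0)) y = 0 := by
  have h2 := C.h2
  by_cases h0 : C.ω (C.c 0) y = 0
  · exact ⟨1, one_mem _, by rw [Sys.ρ_one, h0]⟩
  obtain ⟨a, b, hab, ea, eb⟩ := Int.exists_gcd_one
    (m := C.ω (C.c 0) y) (n := C.ω (C.c 1) y) (Int.gcd_pos_of_ne_zero_left _ h0)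
  have hV := (C.toSys.trunc 2 h2).V_two_dim rfl b (-a)
    (IsCoprime.neg_right (Int.isCoprime_iff_gcd_eq_one.2 hab).symm)
  obtain ⟨γ, hγ, e⟩ := (Sys.main 1 (C.toSys.trunc 2 h2) rfl).1 _ hV
  refine ⟨γ, hγ, ?_⟩
  have e' : PM (C.ρ γ (C.c 0)) (b • C.c 0 + (-a) • C.c 1) := e
  rw [← abs_eq_zero, C.PM_ω e' (PM.refl y), abs_eq_zero, map_add, map_smul, map_smul,
    LinearMap.add_apply, LinearMap.smul_apply, LinearMap.smul_apply, smul_eq_mul, smul_eq_mul]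
  generalize (Int.gcd (C.ω (C.c 0) y) (C.ω (C.c 1) y) : ℤ) = d at ea eb
  rw [ea, eb]; ring

theorem OF_M {T : G} (hT : T ∈ C.J) {m : C.W} (hm : m ∈ C.M) : OF C.π T m :=
  OF.of_mem C.M_fg fun k => C.π_J (zpow_mem hT k) hm

theorem exists_γ_J {b : G} (hb : b ∈ C.B) :
    ∃ γ ∈ BB C.σ 2, γ⁻¹ * b * C.σ 0 * (γ⁻¹ * b)⁻¹ ∈ C.J := by
  have h2 := C.h2
  obtain ⟨γ, hγ, e⟩ := C.exists_γ (C.ρ b (C.c 0))
  have hγB : γ ∈ C.B := BB_mono h2 hγ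
  have hb' := mul_mem (inv_mem hγB) hb
  refine ⟨γ, hγ, C.mainS.2.1 _ (mul_mem (mul_mem hb' (mem_BB (by omega))) (inv_mem hb')) ?_⟩
  have := C.ρ_conj_σ hb' (by omega) (PM.refl _) 1 (C.c 0)
  rw [zpow_one, Sys.ρ_mul C.toSys γ⁻¹, ← C.ω_rep _ hγB, e] at this
  left; simpa using this

theorem OF_T3 {b : G} (hb : b ∈ C.B) : OF C.π (b * C.σ 0 * b⁻¹) C.p1.1 := by
  obtain ⟨γ, hγ, hJ⟩ := C.exists_γ_J hb
  have := C.OF_conj (C.OF_M hJ C.p1.2) γ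
  have e1 : γ * (γ⁻¹ * b * C.σ 0 * (γ⁻¹ * b)⁻¹) * γ⁻¹ = b * C.σ 0 * b⁻¹ := by group
  have e2 : C.π γ C.p1.1 = C.p1.1 := val_inj (by
    rw [val_π]
    change γ * T3 C.σ * γ⁻¹ = T3 C.σ
    rw [C.bf.T3_comm C.h2 hγ]; group)
  rwa [e1, e2] at this

theorem OF_T3' {b h : G} (hb : b ∈ C.B) (hh : h ∈ C.B) :
    OF C.π (b * C.σ 0 * b⁻¹) (C.π h C.p1.1) := by
  have := C.OF_conj (C.OF_T3 (mul_mem (inv_mem hh) hb)) h
  have e1 : h * (h⁻¹ * b * C.σ 0 * (h⁻¹ * b)⁻¹) * h⁻¹ = b * C.σ 0 * b⁻¹ := by group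
  rwa [e1] at this

/-- the class of `T5` -/
noncomputable def t5 : C.W := C.q1.1 + C.π (nn C.σ)⁻¹ C.p1.1

theorem val_t5 : val C.t5 = T5 C.σ := by
  rw [t5, val_add, val_π]
  change cc C.σ 0 1 2 * ((nn C.σ)⁻¹ * T3 C.σ * (nn C.σ)⁻¹⁻¹) = _
  rw [inv_inv, ← C.bf.T3_sh C.h4, C.bf.cc012 C.h4]; group

theorem OF_T5 {b : G} (hb : b ∈ C.B) : OF C.π (b * C.σ 0 * b⁻¹) C.t5 := by
  obtain ⟨γ, hγ, hJ⟩ := C.exists_γ_J hb
  have hγB : γ ∈ C.B := BB_mono C.h2 hγ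
  have h1 : OF C.π (γ⁻¹ * b * C.σ 0 * (γ⁻¹ * b)⁻¹) C.t5 :=
    (C.OF_M hJ C.q1.2).add (C.OF_T3' (mul_mem (inv_mem hγB) hb) (inv_mem (nn_mem C.h4)))
  have := C.OF_conj h1 γ
  have e1 : γ * (γ⁻¹ * b * C.σ 0 * (γ⁻¹ * b)⁻¹) * γ⁻¹ = b * C.σ 0 * b⁻¹ := by group
  have e2 : C.π γ C.t5 = C.t5 := val_inj (by
    rw [val_π, val_t5, C.bf.T5_comm C.h4 (BB_mono (by omega) hγ)]; group)
  rwa [e1, e2] at this

theorem W_gen (hK : C.ρ.ker ≤ C.B) (m : C.W) :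
    m ∈ Submodule.span ℤ {x | ∃ h ∈ C.B, x = C.π h C.p1.1 ∨ x = C.π h C.t5} := by
  have key : ∀ x ∈ K0 C.σ C.N, ∀ m : C.W, val m = x →
      m ∈ Submodule.span ℤ {x | ∃ h ∈ C.B, x = C.π h C.p1.1 ∨ x = C.π h C.t5} := by
    intro x hx
    induction hx using Subgroup.closure_induction with
    | mem x hx =>
      intro m hm
      obtain ⟨g, hg, ⟨-, rfl⟩ | ⟨-, rfl⟩⟩ := hx
      · exact Submodule.subset_span ⟨g, hg, Or.inl (val_inj hm)⟩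
      · exact Submodule.subset_span ⟨g, hg, Or.inr (val_inj (by rw [hm, val_π, val_t5]))⟩
    | one =>
      intro m hm
      rw [val_inj (m' := 0) hm]; exact zero_mem _
    | mul x y hx hy ihx ihy =>
      intro m hm
      rw [val_inj (m := m) (m' := C.cl x (C.K0_le_ker hx) + C.cl y (C.K0_le_ker hy)) hm]
      exact add_mem (ihx _ rfl) (ihy _ rfl)
    | inv x hx ih =>
      intro m hm
      rw [val_inj (m := m) (m' := -C.cl x (C.K0_le_ker hx)) hm]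
      exact neg_mem (ih _ rfl)
  exact key _ (C.mainS.2.2 _ (hK (val_mem m)) (val_mem m)) m rfl

theorem OF_all (hK : C.ρ.ker ≤ C.B) {b : G} (hb : b ∈ C.B) (m : C.W) :
    OF C.π (b * C.σ 0 * b⁻¹) m := by
  refine OF.of_span ?_ (C.W_gen hK m)
  rintro _ ⟨h, hh, rfl | rfl⟩
  · exact C.OF_T3' hb hh
  · have := C.OF_conj (C.OF_T5 (mul_mem (inv_mem hh) hb)) h
    have e1 : h * (h⁻¹ * b * C.σ 0 * (h⁻¹ * b)⁻¹) * h⁻¹ = b * C.σ 0 * b⁻¹ := by group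
    rwa [e1] at this

theorem exists_T (hK : C.ρ.ker ≤ C.B) {y : H} (hy : C.V y) : ∃ T ∈ C.B,
    (∀ (n : ℤ) (x : H), C.ρ (T ^ n) x = x + (n * C.ω x y) • y) ∧ ∀ m, OF C.π T m := by
  have h2 := C.h2
  obtain ⟨b, hb, e⟩ := C.mainS.1 y hy
  exact ⟨b * C.σ 0 * b⁻¹, mul_mem (mul_mem hb (mem_BB (by omega))) (inv_mem hb),
    C.ρ_conj_σ hb (by omega) e, C.OF_all hK hb⟩

theorem exists_list (hK : C.ρ.ker ≤ C.B) (n : ℕ) (hn : n ≤ C.N - 2) :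
    ∃ l : List G, (∀ g ∈ l, g ∈ C.B ∧ ∀ m, OF C.π g m) ∧
      ∀ y ∈ Submodule.span ℤ (sh C.c '' {i | i < n}), ∀ w, C.ω (C.c 0) w = 1 →
        ∃ a ∈ prodSet l, ∃ e : ℤ, C.ρ a w = w + (2 : ℤ) • y + e • C.c 0 := by
  have h2 := C.h2
  induction n with
  | zero =>
    refine ⟨[], by simp, fun y hy w _ => ⟨1, rfl, 0, ?_⟩⟩
    have : y = 0 := by simpa using hy
    rw [this, Sys.ρ_one]; simp
  | succ n ih =>
    obtain ⟨l, hl, hl'⟩ := ih (by omega)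
    have hcV : C.V (C.c (n + 2)) := C.V_c C.hN (by omega)
    have hcL : C.c (n + 2) ∈ C.shift.L := C.shift.c_mem (i := n) (by simp only [Sys.shift]; omega)
    have z0 := C.ω_c0_shift hcL
    have z1 : C.ω (C.c (n + 2)) (C.c 0) = 0 := by rw [C.skew, z0, neg_zero]
    have hcV' : C.V (C.c (n + 2) + (2 : ℤ) • C.c 0) := by
      obtain ⟨-, ⟨ζ, hζ, hz⟩, -⟩ := (C.V_shift C.hN h2 hcL).2 hcV
      refine C.V_two hcV (C.c_mem (by omega)) (C.shift_L_le hζ) ?_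
      have hz' : C.ω (C.c (n + 2)) ζ = 1 := hz
      simp [hz', C.ω_c0_shift hζ]
    obtain ⟨T1, b1, e1, o1⟩ := C.exists_T hK hcV
    obtain ⟨T2, b2, e2, o2⟩ := C.exists_T hK hcV'
    refine ⟨T2 :: T1 :: l, ?_, fun y hy w hw => ?_⟩
    · intro g hg
      simp only [List.mem_cons] at hg
      rcases hg with rfl | rfl | hg
      exacts [⟨b2, o2⟩, ⟨b1, o1⟩, hl g hg]
    · have es : sh C.c '' {i | i < n + 1} = insert (C.c (n + 2)) (sh C.c '' {i | i < n}) := by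
        rw [show {i | i < n + 1} = insert n {i | i < n} by ext; simp; omega, Set.image_insert_eq]
        rfl
      rw [es, Submodule.mem_span_insert] at hy
      obtain ⟨k, y', hy', rfl⟩ := hy
      obtain ⟨a, ha, e, he⟩ := hl' y' hy' w hw
      have hy'0 : C.ω (C.c 0) y' = 0 := C.ω_c0_shift (Submodule.span_mono
        (Set.image_mono fun i (hi : i < n) => (show i < C.N - 2 by omega)) hy')
      have hw' : C.ω (C.ρ a w) (C.c 0) = -1 := by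
        rw [C.skew, he]; simp [hw, hy'0, C.alt]
      refine ⟨T2 ^ (-k) * (T1 ^ k * a), ⟨-k, _, ⟨k, a, ha, rfl⟩, rfl⟩,
        e + 4 * k - 2 * k * C.ω (C.ρ a w) (C.c (n + 2)), ?_⟩
      rw [Sys.ρ_mul, Sys.ρ_mul, e1, e2]
      simp only [map_add, map_smul, LinearMap.add_apply, LinearMap.smul_apply, hw', z1, C.alt,
        smul_eq_mul]
      generalize C.ω (C.ρ a w) (C.c (n + 2)) = t
      rw [he]; module

theorem prodSet_B {l : List G} (hl : ∀ g ∈ l, g ∈ C.B) {a : G} (ha : a ∈ prodSet l) : a ∈ C.B := by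
  induction l generalizing a with
  | nil => rw [show a = 1 from ha]; exact one_mem _
  | cons g l ih =>
    obtain ⟨k, y, hy, rfl⟩ := ha
    exact mul_mem (zpow_mem (hl g (by simp)) k) (ih (fun g hg => hl g (by simp [hg])) hy)

/-- One step in the graph. -/
def Up (P : Submodule ℤ C.W) : Submodule ℤ C.W :=
  Submodule.span ℤ {x | ∃ d, C.D d ∧ ∃ m ∈ P, x = C.π d m}

theorem Up_J (P : Submodule ℤ C.W) {j : G} (hj : j ∈ C.J) {m : C.W} (hm : m ∈ C.Up P) :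
    C.π j m ∈ C.Up P := by
  refine span_inv _ ?_ hm
  rintro _ ⟨d, hd, m, hm, rfl⟩
  exact Submodule.subset_span ⟨j * d, hd.left hj, m, hm, (C.π_mul _ _ _).symm⟩

theorem Up_fg (hK : C.ρ.ker ≤ C.B) {P : Submodule ℤ C.W} (hP : P.FG)
    (hJ : ∀ j ∈ C.J, ∀ m ∈ P, C.π j m ∈ P) : (C.Up P).FG := by
  have h2 := C.h2
  obtain ⟨l, hl, hl'⟩ := C.exists_list hK (C.N - 2) le_rfl
  have hs : ∀ m, OF C.π (C.σ 0) m := fun m => by simpa using C.OF_all hK (one_mem _) m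
  have h1 := fg_prodSet (π := C.π) (C.σ 0 :: l) (Q := ⊤)
    (P := ⨆ j ∈ Finset.range C.N, P.map (C.π (aa (sh C.σ) j * C.δ))) (fun _ _ _ _ _ => trivial)
    (by
      intro g hg m _
      rcases List.mem_cons.1 hg with rfl | hg
      exacts [hs m, (hl g hg).2 m]) le_top (Submodule.fg_biSup _ _ fun j _ => hP.map _)
  refine Submodule.FG.of_le h1 (Submodule.span_mono ?_)
  rintro _ ⟨d, hd, m, hm, rfl⟩
  have hdB := hd.mem_B h2
  have hV := C.ρ_V hdB (C.V_c C.hN (by omega : 0 < C.N))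
  obtain ⟨w, hw, hw0, hwd⟩ : ∃ w, C.V w ∧ C.ω (C.c 0) w = 1 ∧ PM w (C.ρ d (C.c 0)) := by
    rcases Sys.abs_one_cases (hd.omega h2) with h | h
    · exact ⟨_, hV, h, PM.refl _⟩
    · exact ⟨_, C.V_neg hV, by rw [map_neg, h, neg_neg], Or.inr rfl⟩
  obtain ⟨j, hj, y, hy, hy0, e, rfl⟩ := C.nb_form h2 hw hw0
  obtain ⟨y', hy', i, rfl⟩ := C.decomp C.hN h2 hy hy0
  obtain ⟨a, ha, e', he'⟩ := hl' y' hy' (C.ww j) (C.ω_c0_ww hj)
  have haB := C.prodSet_B (fun g hg => (hl g hg).1) ha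
  have hx : C.σ 0 ^ (e' - e - 2 * i) * a * (aa (sh C.σ) j * C.δ) ∈ C.B :=
    mul_mem (mul_mem (zpow_mem (mem_BB (by omega)) _) haB)
      (mul_mem (BB_sh_le (aa_mem (by omega))) (C.δ_mem h2))
  have hv : C.ρ (C.σ 0 ^ (e' - e - 2 * i) * a * (aa (sh C.σ) j * C.δ)) (C.c 0) =
      C.ww j + (2 : ℤ) • (y' + i • C.c 0) + e • C.c 0 := by
    rw [Sys.ρ_mul, Sys.ρ_mul, Sys.ρ_mul, C.ρ_δ_c0 h2, C.ρ_aa_c1 hj, he', C.ρσ_zpow (by omega)]
    simp only [map_add, map_smul, LinearMap.add_apply, LinearMap.smul_apply, C.alt,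
      C.skew (C.ww j) (C.c 0), C.skew y' (C.c 0), C.ω_c0_ww hj, C.ω_c0_shift hy', smul_eq_mul]
    module
  have hj' := C.mainS.2.1 _ (mul_mem (inv_mem hx) hdB) (by
    rw [Sys.ρ_mul]
    have := hwd.symm.map (C.ρ (C.σ 0 ^ (e' - e - 2 * i) * a * (aa (sh C.σ) j * C.δ))⁻¹)
    rwa [← hv, Sys.ρ_inv_ρ] at this)
  refine ⟨C.σ 0 ^ (e' - e - 2 * i) * a, ⟨_, a, ha, rfl⟩, C.π (aa (sh C.σ) j * C.δ) (C.π _ m),
    Submodule.mem_iSup_of_mem j (Submodule.mem_iSup_of_mem (Finset.mem_range.2 (by omega))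
      (Submodule.mem_map_of_mem (hJ _ hj' m hm))), ?_⟩
  rw [← π_mul, ← π_mul, mul_inv_cancel_left]

theorem diam3 {h : G} (hh : h ∈ C.B) :
    ∃ d1 d2 d3, C.D d1 ∧ C.D d2 ∧ C.D d3 ∧ h = d1 * (d2 * d3) := by
  have h2 := C.h2
  have h6 := C.h6
  obtain ⟨Λ, hω, hV⟩ := C.exists_lat C.hN
  have V0 : C.V (C.c 0) := C.V_c C.hN (by omega)
  have Vz := C.ρ_V hh V0
  obtain ⟨w, w', hw, hw', a1, a2, a3⟩ := Λ.diam ⟨_, V0.1⟩ ⟨_, Vz.1⟩ ((hV _).2 V0) ((hV _).2 Vz) (by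
    intro w hw
    rw [hω] at hw
    change C.ω (C.c 0) w = 1 at hw
    refine ⟨⟨C.c 2 + C.ω w (C.c 2) • C.c 0, add_mem (C.c_mem (by omega))
      (Submodule.smul_mem _ _ V0.1)⟩, fun h0 => ?_, ?_, ?_⟩
    · have := congrArg (fun x : C.L => C.ω x (C.c 3)) h0
      simp [C.ch1 2 (by omega), C.ch2 0 3 (by omega) (by omega)] at this
    · rw [hω]; simp [C.ch2 0 2 (by omega) (by omega), C.alt]
    · rw [hω]; simp [C.skew w (C.c 0), hw])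
  rw [hω] at a1 a2 a3
  rw [hV] at hw hw'
  change |C.ω (C.c 0) w| = 1 at a1
  change |C.ω w' (C.ρ h (C.c 0))| = 1 at a3
  obtain ⟨d1, D1, p1⟩ := Sys.D_lift C.hN h2 hw a1
  have B1 := D1.mem_B h2
  obtain ⟨d2, D2, p2⟩ := Sys.D_lift C.hN h2 (C.ρ_V (inv_mem B1) hw')
    (by rw [← C.ω_rep _ B1, C.PM_ω p1 (PM.refl _), a2])
  have B2 := D2.mem_B h2
  have p2' : PM (C.ρ (d1 * d2) (C.c 0)) w' := by
    have := p2.map (C.ρ d1)
    rwa [Sys.ρ_ρ_inv, ← Sys.ρ_mul] at this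
  obtain ⟨d3, D3, p3⟩ := Sys.D_lift C.hN h2 (C.ρ_V (inv_mem (mul_mem B1 B2)) Vz)
    (by rw [← C.ω_rep _ (mul_mem B1 B2), C.PM_ω p2' (PM.refl _), a3])
  have B3 := D3.mem_B h2
  have hj := C.mainS.2.1 _ (mul_mem (inv_mem B3) (mul_mem (inv_mem (mul_mem B1 B2)) hh)) (by
    have := p3.symm.map (C.ρ d3⁻¹)
    rwa [Sys.ρ_inv_ρ, ← Sys.ρ_mul, ← Sys.ρ_mul, mul_assoc] at this)
  exact ⟨d1, d2, _, D1, D2, D3.right hj, by group⟩

theorem ker_fg (hK : C.ρ.ker ≤ C.B) : C.ρ.ker.FG := by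
  have f1 := C.Up_fg hK C.M_fg fun j hj m hm => C.π_J hj hm
  have f2 := C.Up_fg hK f1 fun j hj m hm => C.Up_J _ hj hm
  have f3 := C.Up_fg hK f2 fun j hj m hm => C.Up_J _ hj hm
  have key : ∀ h ∈ C.B, ∀ m ∈ C.M, C.π h m ∈ C.Up (C.Up (C.Up C.M)) := by
    intro h hh m hm
    obtain ⟨d1, d2, d3, D1, D2, D3, rfl⟩ := C.diam3 hh
    rw [π_mul, π_mul]
    exact Submodule.subset_span ⟨d1, D1, _, Submodule.subset_span ⟨d2, D2, _,
      Submodule.subset_span ⟨d3, D3, m, hm, rfl⟩, rfl⟩, rfl⟩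
  have top : (⊤ : Submodule ℤ C.W).FG := by
    refine Submodule.FG.of_le f3 fun m _ => Submodule.span_le.2 ?_ (C.W_gen hK m)
    rintro _ ⟨h, hh, rfl | rfl⟩
    · exact key h hh _ C.p1.2
    · rw [t5, map_add, ← π_mul]
      exact add_mem (key h hh _ C.q1.2) (key _ (mul_mem hh (inv_mem (nn_mem C.h4))) _ C.p1.2)
  have h1 : Module.Finite ℤ C.W := ⟨top⟩
  have h2 : AddGroup.FG C.W := Module.Finite.iff_addGroup_fg.1 h1
  exact (Group.fg_iff_subgroup_fg _).1 (GroupFG.iff_add_fg.2 h2)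

end Ctx

theorem abstractFG : AbstractFG := by
  intro G H _ _ S g hg hN hc hK
  exact Ctx.ker_fg ⟨S, ⟨g, by omega⟩, by omega, hc⟩ hK

end Pool.Agent.MP_00906f_gt.H46
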