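import Pool.Agent.MP_00906f_gt.H46.BraidStr
import Pool.Agent.MP_00906f_gt.H46.SysLat

/-! The action of the stabiliser of the first arc. -/

set_option linter.unusedSimpArgs false

namespace Pool.Agent.MP_00906f_gt.H46

theorem PM.refl {H : Type*} [AddCommGroup H] (x : H) : PM x x := Or.inl rfl

theorem PM.symm {H : Type*} [AddCommGroup H] {x y : H} (h : PM x y) : PM y x := by
  rcases h with rfl | rfl
  · exact Or.inl rfl
  · exact Or.inr (neg_neg _).symm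

theorem PM.trans {H : Type*} [AddCommGroup H] {x y z : H} (h : PM x y) (h' : PM y z) : PM x z := by
  rcases h with rfl | rfl <;> rcases h' with rfl | rfl
  · exact Or.inl rfl
  · exact Or.inr rfl
  · exact Or.inr rfl
  · exact Or.inl (neg_neg _)

theorem PM.neg_right {H : Type*} [AddCommGroup H] {x y : H} (h : PM x y) : PM x (-y) :=
  h.trans (Or.inr (neg_neg _).symm)

theorem PM.neg_left {H : Type*} [AddCommGroup H] {x y : H} (h : PM x y) : PM (-x) y :=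
  PM.trans (Or.inr rfl) h

theorem PM.map {H : Type*} [AddCommGroup H] {x y : H} (h : PM x y) (f : Module.End ℤ H) :
    PM (f x) (f y) := by
  rcases h with rfl | rfl
  · exact Or.inl rfl
  · exact Or.inr (map_neg f y)

namespace Sys

variable {G H : Type*} [Group G] [AddCommGroup H] (S : Sys G H)

theorem ρ_mul (a b : G) (x : H) : S.ρ (a * b) x = S.ρ a (S.ρ b x) := by
  rw [map_mul]; rfl

theorem ρ_one (x : H) : S.ρ 1 x = x := by rw [map_one]; rfl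

theorem ρ_inv_ρ (a : G) (x : H) : S.ρ a⁻¹ (S.ρ a x) = x := by
  rw [← ρ_mul, inv_mul_cancel, ρ_one]

theorem ρ_ρ_inv (a : G) (x : H) : S.ρ a (S.ρ a⁻¹ x) = x := by
  rw [← ρ_mul, mul_inv_cancel, ρ_one]

theorem ρ_of_ker {a : G} (ha : a ∈ S.ρ.ker) (x : H) : S.ρ a x = x := by
  rw [MonoidHom.mem_ker] at ha; rw [ha]; rfl

theorem mem_ker_of {a : G} (h : ∀ x, S.ρ a x = x) : a ∈ S.ρ.ker := by
  rw [MonoidHom.mem_ker]; ext x; exact h x

theorem PM_ω {x x' y y' : H} (h : PM x x') (h' : PM y y') : |S.ω x y| = |S.ω x' y'| := by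
  rcases h with rfl | rfl <;> rcases h' with rfl | rfl <;> simp

theorem ω01 (h2 : 2 ≤ S.N) : S.ω (S.c 0) (S.c 1) = 1 := S.ch1 0 (by omega)

theorem ω10 (h2 : 2 ≤ S.N) : S.ω (S.c 1) (S.c 0) = -1 := by rw [S.skew, S.ω01 h2]

theorem ρ_δ (h2 : 2 ≤ S.N) (x : H) : S.ρ (S.σ 0 * S.σ 1) x =
    x + S.ω x (S.c 1) • S.c 1 + (S.ω x (S.c 0) - S.ω x (S.c 1)) • S.c 0 := by
  rw [ρ_mul, S.ρσ 1 (by omega), S.ρσ 0 (by omega)]
  simp only [map_add, map_smul, LinearMap.add_apply, LinearMap.smul_apply, S.ω10 h2, smul_eq_mul]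
  module

theorem ρ_δ_c0 (h2 : 2 ≤ S.N) : S.ρ (S.σ 0 * S.σ 1) (S.c 0) = S.c 1 := by
  rw [S.ρ_δ h2, S.ω01 h2, S.alt]; module

theorem ρ_y0 (h2 : 2 ≤ S.N) (x : H) : S.ρ (yy S.σ 0) x = S.Rf (S.c 1) x := by
  have e : yy S.σ 0 = (S.σ 0 * S.σ 1) * ((S.σ 0 * S.σ 1) * (S.σ 0 * S.σ 1)) := by
    rw [yy, pow_three]
  rw [e, S.ρ_mul (S.σ 0 * S.σ 1), S.ρ_mul (S.σ 0 * S.σ 1), S.ρ_δ h2, S.ρ_δ h2, S.ρ_δ h2, Rf]
  simp only [map_add, map_smul, LinearMap.add_apply, LinearMap.smul_apply, S.ω10 h2, S.ω01 h2,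
    S.alt, smul_eq_mul, S.skew (S.c 0) x, S.skew (S.c 1) x]
  module

theorem ρ_sh_c0 {β : G} (hβ : β ∈ BB (sh S.σ) (S.N - 2)) : S.ρ β (S.c 0) = S.c 0 :=
  S.shift.ρ_fix (b := β) hβ fun i hi => S.ch2 0 (i + 2) (by omega) (by
    have : i < S.N - 2 := hi
    omega)

theorem ρ_Rf {b : G} (hb : b ∈ S.B) (h0 : S.ρ b (S.c 0) = S.c 0) (w x : H) :
    S.ρ b (S.Rf w x) = S.Rf (S.ρ b w) (S.ρ b x) := by
  have e1 : S.ω (S.c 0) (S.ρ b x) = S.ω (S.c 0) x := by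
    conv_lhs => rw [← h0]
    exact S.ρ_ω hb _ _
  simp only [Rf, map_add, map_sub, map_smul, h0, e1, S.ρ_ω hb]

theorem ρ_yy (h2 : 2 ≤ S.N) {j : ℕ} (hj : j + 2 ≤ S.N) (x : H) :
    S.ρ (yy S.σ j) x = S.Rf (S.ww j) x := by
  have ha : aa (sh S.σ) j ∈ BB (sh S.σ) (S.N - 2) := aa_mem (by omega)
  rw [yy_eq, ρ_mul, ρ_mul, S.ρ_y0 h2, S.ρ_Rf (BB_sh_le ha) (S.ρ_sh_c0 ha), S.ρ_aa_c1 hj, ρ_ρ_inv]

theorem E_E {l l' : H} (hl : S.ω (S.c 0) l = 0) (hl' : S.ω (S.c 0) l' = 0) (k k' : ℤ) (x : H) :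
    S.E l k (S.E l' k' x) = S.E (l + l') (k + k' + 4 * S.ω l l') x := by
  have h1 : S.ω l (S.c 0) = 0 := by rw [S.skew, hl, neg_zero]
  simp only [E, map_add, map_smul, LinearMap.add_apply, hl', h1, S.alt, smul_eq_mul]
  module

theorem E_zero (x : H) : S.E 0 0 x = x := by simp [E]

theorem E_add_c0 (l : H) (j k : ℤ) (x : H) : S.E (l + j • S.c 0) k x = S.E l (k + 4 * j) x := by
  simp only [E, map_add, map_smul, LinearMap.add_apply, LinearMap.smul_apply, smul_eq_mul]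
  module

theorem ρ_s_zpow (h2 : 2 ≤ S.N) (k : ℤ) (x : H) : S.ρ (S.σ 0 ^ k) x = S.E 0 (-k) x := by
  rw [S.ρσ_zpow (by omega), E, S.skew x]
  simp only [map_zero, LinearMap.zero_apply]
  module

theorem Rf_Rf {w w' : H} (hw : S.ω (S.c 0) w = 1) (hw' : S.ω (S.c 0) w' = 1) (x : H) :
    S.Rf w (S.Rf w' x) = S.E (w - w') (-4 * S.ω w w') x := by
  have h1 : S.ω w (S.c 0) = -1 := by rw [S.skew, hw]
  simp only [E, Rf, map_add, map_sub, map_smul, LinearMap.sub_apply, hw', h1, S.alt, smul_eq_mul]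
  module

theorem E_c0 {l : H} (hl : S.ω (S.c 0) l = 0) (k : ℤ) : S.E l k (S.c 0) = S.c 0 := by
  have h1 : S.ω l (S.c 0) = 0 := by rw [S.skew, hl, neg_zero]
  simp [E, S.alt, h1]

theorem Rf_c0 {w : H} (hw : S.ω (S.c 0) w = 1) : S.Rf w (S.c 0) = -S.c 0 := by
  have h1 : S.ω w (S.c 0) = -1 := by rw [S.skew, hw]
  simp only [Rf, S.alt, h1]; module

theorem Rf_self {w : H} (hw : S.ω (S.c 0) w = 1) : S.Rf w w = -w := by
  simp only [Rf, S.alt, hw]; module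

theorem E_neg (l : H) (k : ℤ) (x : H) : S.E l k (-x) = -S.E l k x := by
  simp only [E, map_neg]; module

theorem T3_ker (h2 : 2 ≤ S.N) : T3 S.σ ∈ S.ρ.ker := by
  apply S.mem_ker_of
  intro x
  have e : T3 S.σ = yy S.σ 0 * yy S.σ 0 := by simp only [T3, yy]; group
  rw [e, ρ_mul, S.ρ_y0 h2, S.ρ_y0 h2, S.Rf_Rf (S.ω01 h2) (S.ω01 h2), sub_self, S.alt, mul_zero,
    E_zero]

theorem cc012_ker (h4 : 4 ≤ S.N) : cc S.σ 0 1 2 ∈ S.ρ.ker := by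
  have h2 : 2 ≤ S.N := by omega
  apply S.mem_ker_of
  intro x
  have e : cc S.σ 0 1 2 = (yy S.σ 0 * yy S.σ 1) * ((yy S.σ 2 * yy S.σ 0) *
      ((yy S.σ 1 * yy S.σ 2) * S.σ 0 ^ (-8 : ℤ))) := by
    simp only [cc, sq]; group
  have w0 := S.ω_c0_ww (j := 0) (by omega)
  have w1 := S.ω_c0_ww (j := 1) (by omega)
  have w2 := S.ω_c0_ww (j := 2) (by omega)
  have a12 := S.ch1 1 (by omega)
  have a23 := S.ch1 2 (by omega)
  have a13 := S.ch2 1 3 (by omega) (by omega)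
  have p01 : S.ω (S.ww 0) (S.ww 1) = 1 := by simp [ww, S.alt, a12]
  have p02 : S.ω (S.ww 0) (S.ww 2) = 1 := by simp [ww, S.alt, a12, a13]
  have p12 : S.ω (S.ww 1) (S.ww 2) = 1 := by
    simp [ww, S.alt, a12, a13, a23, S.skew (S.c 2) (S.c 1)]
  have p10 : S.ω (S.ww 1) (S.ww 0) = -1 := by rw [S.skew, p01]
  have p20 : S.ω (S.ww 2) (S.ww 0) = -1 := by rw [S.skew, p02]
  have p21 : S.ω (S.ww 2) (S.ww 1) = -1 := by rw [S.skew, p12]
  rw [e]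
  simp only [ρ_mul]
  rw [S.ρ_s_zpow h2, S.ρ_yy h2 (j := 2) (by omega), S.ρ_yy h2 (j := 1) (by omega),
    S.ρ_yy h2 (j := 0) (by omega), S.ρ_yy h2 (j := 2) (by omega), S.ρ_yy h2 (j := 1) (by omega),
    S.ρ_yy h2 (j := 0) (by omega), S.Rf_Rf w0 w1 (S.Rf _ (S.Rf _ _)), S.Rf_Rf w2 w0, S.Rf_Rf w1 w2,
    S.E_E (by simp [w0, w1, w2]) (by simp [w0, w1, w2]),
    S.E_E (by simp [w0, w1, w2]) (by simp [w0, w1, w2]),
    S.E_E (by simp [w0, w1, w2]) (by simp [w0, w1, w2])]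
  simp only [map_add, map_sub, map_zero, LinearMap.sub_apply, LinearMap.add_apply, S.alt, p01, p02,
    p12, p10, p20, p21]
  have e2 : S.ww 0 - S.ww 1 + (S.ww 2 - S.ww 0) + (S.ww 1 - S.ww 2) + 0 = 0 := by abel
  rw [e2]
  norm_num [E_zero]

theorem K0_le_ker : K0 S.σ S.N ≤ S.ρ.ker := by
  rw [K0, Subgroup.closure_le]
  rintro x ⟨g, -, ⟨h2, rfl⟩ | ⟨h4, rfl⟩⟩
  · exact (MonoidHom.normal_ker S.ρ).conj_mem _ (S.T3_ker h2) g
  · refine (MonoidHom.normal_ker S.ρ).conj_mem _ ?_ g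
    have e : T5 S.σ = cc S.σ 0 1 2 * ((nn S.σ)⁻¹ * T3 S.σ * (nn S.σ)⁻¹⁻¹) := by
      rw [S.bf.cc012 h4, inv_inv, ← S.bf.T3_sh h4]; group
    rw [e]
    exact mul_mem (S.cc012_ker h4)
      ((MonoidHom.normal_ker S.ρ).conj_mem _ (S.T3_ker (by omega)) _)

theorem LL_le_ker : LL S.σ S.N ≤ S.ρ.ker := le_trans S.bf.LL_le_K0 S.K0_le_ker

theorem ρ_t (h2 : 2 ≤ S.N) {j : ℕ} (hj : j + 2 ≤ S.N) (x : H) :
    S.ρ (yy S.σ j * yy S.σ 0) x = S.E (S.ww j - S.c 1) (-4 * S.ω (S.ww j) (S.c 1)) x := by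
  rw [ρ_mul, S.ρ_y0 h2, S.ρ_yy h2 hj, S.Rf_Rf (S.ω_c0_ww hj) (S.ω01 h2)]

/-- `f` acts as a translation by `l`. -/
def Tr (l : H) (f : G) : Prop := S.ω (S.c 0) l = 0 ∧ ∃ k : ℤ, ∀ x, S.ρ f x = S.E l k x

theorem Tr.mul {S : Sys G H} {l l' : H} {f f' : G} (h : S.Tr l f) (h' : S.Tr l' f') :
    S.Tr (l + l') (f * f') := by
  obtain ⟨hl, k, hk⟩ := h
  obtain ⟨hl', k', hk'⟩ := h'
  refine ⟨by simp [hl, hl'], k + k' + 4 * S.ω l l', fun x => ?_⟩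
  rw [ρ_mul, hk, hk', S.E_E hl hl']

theorem Tr_one : S.Tr 0 1 := ⟨by simp, 0, fun x => by rw [ρ_one, E_zero]⟩

theorem Tr.inv {S : Sys G H} {l : H} {f : G} (h : S.Tr l f) : S.Tr (-l) f⁻¹ := by
  obtain ⟨hl, k, hk⟩ := h
  refine ⟨by simp [hl], -k, fun x => ?_⟩
  have : S.ρ f (S.E (-l) (-k) x) = x := by
    rw [hk, S.E_E hl (by simp [hl])]; simp [S.alt, E_zero]
  conv_lhs => rw [← this]
  rw [ρ_inv_ρ]

theorem Tr.zpow {S : Sys G H} {l : H} {f : G} (h : S.Tr l f) (n : ℤ) : S.Tr (n • l) (f ^ n) := by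
  induction n using Int.induction_on with
  | zero => simpa using S.Tr_one
  | succ n ih => rw [zpow_add_one, add_smul, one_smul]; exact ih.mul h
  | pred n ih => rw [zpow_sub_one, sub_smul, one_smul, sub_eq_add_neg]; exact ih.mul h.inv

theorem Tr_s (h2 : 2 ≤ S.N) (k : ℤ) : S.Tr 0 (S.σ 0 ^ k) :=
  ⟨by simp, -k, S.ρ_s_zpow h2 k⟩

theorem Tr_ker {f : G} (hf : f ∈ S.ρ.ker) : S.Tr 0 f :=
  ⟨by simp, 0, fun x => by rw [S.ρ_of_ker hf, E_zero]⟩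

theorem Tr_t (h2 : 2 ≤ S.N) {j : ℕ} (hj : j + 2 ≤ S.N) :
    S.Tr (S.ww j - S.c 1) (yy S.σ j * yy S.σ 0) :=
  ⟨by simp [S.ω_c0_ww hj, S.ω01 h2], _, S.ρ_t h2 hj⟩

theorem Tr_tp (h2 : 2 ≤ S.N) (a : ℕ → ℤ) {n : ℕ} (hn : n + 2 ≤ S.N) :
    S.Tr (∑ j ∈ Finset.range n, a j • (S.ww (j + 1) - S.c 1)) (tp S.σ a n) := by
  induction n with
  | zero => simpa [tp] using S.Tr_one
  | succ n ih =>
    rw [Finset.sum_range_succ, tp]
    exact (ih (by omega)).mul ((S.Tr_t h2 hn).zpow _)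

theorem sum_mem_shift (a : ℕ → ℤ) {n : ℕ} (hn : n + 2 ≤ S.N) :
    ∑ j ∈ Finset.range n, a j • (S.ww (j + 1) - S.c 1) ∈ S.shift.L :=
  Submodule.sum_mem _ fun j hj => Submodule.smul_mem _ _
    (S.ww_sub_mem (by have := Finset.mem_range.1 hj; omega))

/-- Every element of `FF` is a translation, or a translation times `yy 0`. -/
theorem FF_cases (h2 : 2 ≤ S.N) {f : G} (hf : f ∈ FF S.σ S.N) :
    ∃ l ∈ S.shift.L, S.Tr l f ∨ S.Tr l (f * (yy S.σ 0)⁻¹) := by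
  obtain ⟨a, k, l, hl, h⟩ := S.bf.NF h2 hf
  have h1 := ((S.Tr_ker (S.LL_le_ker hl)).mul (S.Tr_s h2 k)).mul
    (S.Tr_tp h2 a (n := S.N - 2) (by omega))
  rw [zero_add, zero_add] at h1
  refine ⟨_, S.sum_mem_shift a (n := S.N - 2) (by omega), ?_⟩
  rcases h with rfl | rfl
  · exact Or.inl h1
  · right; rw [mul_inv_cancel_right]; exact h1

theorem exists_Tr_shift (h2 : 2 ≤ S.N) {l : H} (hl : l ∈ S.shift.L) :
    ∃ f ∈ FF S.σ S.N, S.Tr l f := by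
  induction hl using Submodule.span_induction with
  | mem x hx =>
    obtain ⟨i, hi, rfl⟩ := hx
    have hi' : i < S.N - 2 := hi
    have h1 := (S.Tr_t h2 (j := i + 1) (by omega)).mul (S.Tr_t h2 (j := i) (by omega)).inv
    have e : S.ww (i + 1) - S.c 1 + -(S.ww i - S.c 1) = S.shift.c i := by
      simp only [ww, shift, sh]; abel
    rw [e] at h1
    exact ⟨_, mul_mem (mul_mem (yy_mem_FF (by omega)) (yy_mem_FF h2))
      (inv_mem (mul_mem (yy_mem_FF (by omega)) (yy_mem_FF h2))), h1⟩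
  | zero => exact ⟨1, one_mem _, S.Tr_one⟩
  | add x y _ _ hx hy =>
    obtain ⟨f, hf, h⟩ := hx
    obtain ⟨f', hf', h'⟩ := hy
    exact ⟨_, mul_mem hf hf', h.mul h'⟩
  | smul n x _ hx =>
    obtain ⟨f, hf, h⟩ := hx
    exact ⟨_, zpow_mem hf n, h.zpow n⟩

theorem exists_E (hN : Even S.N) (h2 : 2 ≤ S.N) {l : H} (hl : l ∈ S.L) (h0 : S.ω (S.c 0) l = 0)
    (k : ℤ) : ∃ f ∈ FF S.σ S.N, ∀ x, S.ρ f x = S.E l k x := by
  obtain ⟨l', hl', j, rfl⟩ := S.decomp hN h2 hl h0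
  obtain ⟨f, hf, h0', k', hk'⟩ := S.exists_Tr_shift h2 hl'
  refine ⟨f * S.σ 0 ^ (k' - k - 4 * j), mul_mem hf (zpow_mem s_mem_FF _), fun x => ?_⟩
  rw [ρ_mul, hk', S.ρ_s_zpow h2, S.E_E h0' (by simp), E_add_c0]
  simp only [add_zero, map_zero, mul_zero]
  congr 1; ring

theorem c0_ne_neg (h2 : 2 ≤ S.N) : S.c 0 ≠ -S.c 0 := by
  intro h
  have := S.ω01 h2
  rw [h, map_neg, LinearMap.neg_apply, S.ω01 h2] at this
  omega

/-- A translation by `l` in the shifted lattice that fixes `± c 1` is trivial. -/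
theorem E_c1_fix (hN : Even S.N) (h2 : 2 ≤ S.N) {l : H} (hl : l ∈ S.shift.L) {k : ℤ}
    (h : PM (S.E l k (S.c 1)) (S.c 1)) : l = 0 ∧ k = 0 := by
  have h0 := S.ω_c0_shift hl
  rcases h with h | h
  · have e : (2 : ℤ) • l = (-(2 * S.ω l (S.c 1) + k)) • S.c 0 := by
      simp only [E, S.ω01 h2, mul_one] at h
      have : (2 : ℤ) • l + (2 * S.ω l (S.c 1) + k) • S.c 0 = 0 := by
        have h' := congrArg (fun y => y - S.c 1) h
        simp only [sub_self] at h'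
        rw [← h']; abel
      rw [neg_smul]; exact eq_neg_of_add_eq_zero_left this
    obtain ⟨h1, h3⟩ := S.decomp_uniq hN h2 (Submodule.smul_mem _ _ hl) e
    have h4 : l = 0 := S.torsionFree hN (S.shift_L_le hl) (by norm_num) h3
    subst h4
    refine ⟨rfl, ?_⟩
    simpa using h1
  · exfalso
    have := congrArg (S.ω (S.c 0)) h
    simp [E, S.ω01 h2, h0, S.alt] at this

theorem ker_FF_le_LL (hN : Even S.N) (h2 : 2 ≤ S.N) {f : G} (hf : f ∈ FF S.σ S.N)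
    (hk : f ∈ S.ρ.ker) : f ∈ LL S.σ S.N := by
  obtain ⟨a, k, l, hl, h⟩ := S.bf.NF h2 hf
  have hlk := S.LL_le_ker hl
  obtain ⟨h0, k', hk'⟩ := S.Tr_tp h2 a (n := S.N - 2) (by omega)
  have hm := S.sum_mem_shift a (n := S.N - 2) (by omega)
  rcases h with rfl | rfl
  · have h1 := S.ρ_of_ker hk (S.c 1)
    rw [ρ_mul, ρ_mul, S.ρ_of_ker hlk, hk', S.ρ_s_zpow h2, S.E_E (by simp) h0, zero_add] at h1
    obtain ⟨h3, -⟩ := S.E_c1_fix hN h2 hm (Or.inl h1)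
    have h4 := S.ww_indep hN a h3
    have h5 : ∀ n, n ≤ S.N - 2 → tp S.σ a n = 1 := by
      intro n hn
      induction n with
      | zero => rfl
      | succ n ih => rw [tp, ih (by omega), h4 n (by omega)]; simp
    rw [h5 _ le_rfl, mul_one] at hk ⊢
    have h6 := S.ρ_of_ker hk (S.c 1)
    rw [ρ_mul, S.ρ_of_ker hlk, S.ρ_s_zpow h2] at h6
    obtain ⟨-, h7⟩ := S.E_c1_fix hN h2 (Submodule.zero_mem _) (Or.inl h6)
    have : k = 0 := by omega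
    subst this
    simpa using hl
  · exfalso
    have h1 := S.ρ_of_ker hk (S.c 0)
    rw [ρ_mul, ρ_mul, ρ_mul, S.ρ_of_ker hlk, S.ρ_y0 h2, S.Rf_c0 (S.ω01 h2), hk', E_neg, S.E_c0 h0,
      S.ρ_s_zpow h2, E_neg, S.E_c0 (by simp)] at h1
    exact S.c0_ne_neg h2 h1.symm

end Sys

end Pool.Agent.MP_00906f_gt.H46
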