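import Pool.Agent.MP_00906f_gt.H46.GA1

/-! Transitivity and stabiliser statements for the stabiliser of the first arc. -/

set_option linter.unusedSimpArgs false

namespace Pool.Agent.MP_00906f_gt.H46

namespace Sys

variable {G H : Type*} [Group G] [AddCommGroup H] (S : Sys G H)

theorem PM_inv {g : G} {x : H} (h : PM (S.ρ g x) x) : PM (S.ρ g⁻¹ x) x := by
  have := h.map (S.ρ g⁻¹)
  rw [ρ_inv_ρ] at this
  exact this.symm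

theorem Ga_c0 (h2 : 2 ≤ S.N) {g : G} (hg : g ∈ Ga S.σ S.N) : PM (S.ρ g (S.c 0)) (S.c 0) := by
  induction hg using Subgroup.closure_induction with
  | mem x hx =>
    rcases hx with (rfl | rfl) | ⟨i, ⟨hi, hi'⟩, rfl⟩
    · left; rw [S.ρσ 0 (by omega), S.alt]; simp
    · right; rw [S.ρ_y0 h2, S.Rf_c0 (S.ω01 h2)]
    · left; rw [S.ρσ i hi', S.ch2 0 i (by omega) hi']; simp
  | one => left; exact S.ρ_one _
  | mul a b _ _ ha hb => rw [ρ_mul]; exact (hb.map _).trans ha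
  | inv a _ ha => exact S.PM_inv ha

theorem E_perp (l : H) (k : ℤ) {x : H} (hx : S.ω (S.c 0) x = 0) :
    S.E l k x = x + (2 * S.ω l x) • S.c 0 := by
  simp [E, hx]

theorem FF_act (h2 : 2 ≤ S.N) {f : G} (hf : f ∈ FF S.σ S.N) {x : H} (hx : S.ω (S.c 0) x = 0) :
    ∃ j : ℤ, S.ρ f x = x + (2 * j) • S.c 0 := by
  obtain ⟨l, -, ⟨h0, k, hk⟩ | ⟨h0, k, hk⟩⟩ := S.FF_cases h2 hf
  · exact ⟨_, by rw [hk, S.E_perp l k hx]⟩
  · have e : f = f * (yy S.σ 0)⁻¹ * yy S.σ 0 := by group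
    have h1 : S.ω l (S.c 0) = 0 := by rw [S.skew, h0, neg_zero]
    refine ⟨S.ω (S.c 1) x + S.ω l x, ?_⟩
    rw [e, ρ_mul, hk, S.ρ_y0 h2, S.E_perp l k (by simp [Rf, hx, S.alt])]
    simp only [Rf, hx, map_add, map_sub, map_smul, h1, smul_eq_mul]
    module

theorem pt_c0 (h2 : 2 ≤ S.N) {k : ℕ} (hk : 2 ≤ k) : S.pt k (S.c 0) = 0 := by
  rw [S.pt_c 0 (by omega), if_neg (by omega)]

theorem pt_two_mul (k : ℕ) (n : ℤ) (x : H) : S.pt k ((2 * n) • x) = 0 := by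
  rw [mul_smul, S.pt_two]

theorem pt_neg (k : ℕ) (x : H) : S.pt k (-x) = S.pt k x := by
  rw [map_neg, ZMod.neg_eq_self_mod_two]

theorem PM_pt {x y : H} (h : PM x y) (k : ℕ) : S.pt k x = S.pt k y := by
  rcases h with rfl | rfl
  · rfl
  · exact S.pt_neg k y

theorem FF_pt (h2 : 2 ≤ S.N) {f : G} (hf : f ∈ FF S.σ S.N) {k : ℕ} (hk : 2 ≤ k) (x : H) :
    S.pt k (S.ρ f x) = S.pt k x := by
  have hE : ∀ l j y, S.pt k (S.E l j y) = S.pt k y := by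
    intro l j y
    simp only [E, map_add, S.pt_two_mul, add_zero]
    rw [S.pt_zsmul, S.pt_c0 h2 hk, mul_zero, add_zero]
  obtain ⟨l, -, ⟨h0, j, hj⟩ | ⟨h0, j, hj⟩⟩ := S.FF_cases h2 hf
  · rw [hj, hE]
  · have e : f = f * (yy S.σ 0)⁻¹ * yy S.σ 0 := by group
    rw [e, ρ_mul, hj, hE, S.ρ_y0 h2]
    simp only [Rf, map_add, map_sub, S.pt_two_mul, sub_zero, add_zero]

theorem abs_one_cases {a : ℤ} (h : |a| = 1) : a = 1 ∨ a = -1 := by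
  rcases abs_cases a with ⟨h1, -⟩ | ⟨h1, -⟩ <;> omega

theorem cast_of_abs_one {a : ℤ} (h : |a| = 1) : (a : ZMod 2) = 1 := by
  rcases abs_one_cases h with rfl | rfl <;> decide

/-- The neighbours of `c 0`. -/
theorem nb_form (h2 : 2 ≤ S.N) {w : H} (hw : S.V w) (h : S.ω (S.c 0) w = 1) :
    ∃ j, j + 2 ≤ S.N ∧ ∃ y ∈ S.L, S.ω (S.c 0) y = 0 ∧ ∃ e : ℤ,
      w = S.ww j + (2 : ℤ) • y + e • S.c 0 := by
  obtain ⟨hL, -, i, j, hij, hj, hp⟩ := hw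
  have h1 := S.ω_pair hL (S.c_mem (by omega : 0 < S.N)) (by omega : 0 ≠ 0 + 1)
    (S.pair_c (by omega : 0 < S.N))
  rw [S.skew, h, hp, hp] at h1
  have hc : (i = 0 ∧ 2 ≤ j) ∨ (i = 1 ∧ 2 ≤ j) := by
    by_contra hcon
    split_ifs at h1 with a b b
    · exact absurd h1 (by decide)
    · omega
    · omega
    · exact absurd h1 (by decide)
  obtain ⟨j, rfl⟩ : ∃ j', j = j' + 2 := ⟨j - 2, by omega⟩
  have hpw := S.pair_ww hj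
  have key : ∀ e : ℤ, (∀ k, S.pt k (w - S.ww j - e • S.c 0) = 0) →
      ∃ y ∈ S.L, S.ω (S.c 0) y = 0 ∧ ∃ e : ℤ, w = S.ww j + (2 : ℤ) • y + e • S.c 0 := by
    intro e he
    obtain ⟨y, hy, hy'⟩ := S.two_of_pt (sub_mem (sub_mem hL (S.ww_mem hj))
      (Submodule.smul_mem _ e (S.c_mem (by omega : 0 < S.N)))) he
    refine ⟨y, hy, ?_, e, by rw [← hy']; abel⟩
    have := congrArg (S.ω (S.c 0)) hy'
    simp only [map_sub, map_smul, h, S.ω_c0_ww hj, S.alt, smul_eq_mul] at this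
    omega
  refine ⟨j, hj, ?_⟩
  rcases hc with ⟨rfl, -⟩ | ⟨rfl, -⟩
  · apply key 1
    intro k
    rw [map_sub, map_sub, one_smul, hp, hpw, S.pt_c 0 (by omega)]
    split_ifs <;> first | omega | decide
  · apply key 0
    intro k
    rw [zero_smul, sub_zero, map_sub, hp, hpw, sub_self]

theorem aa_mem_Ga {j : ℕ} (hj : j + 2 ≤ S.N) : aa (sh S.σ) j ∈ Ga S.σ S.N :=
  BB_sh_le_Ga (aa_mem (by omega))

theorem C1 (hN : Even S.N) (h2 : 2 ≤ S.N) {w : H} (hw : S.V w) (h : |S.ω (S.c 0) w| = 1) :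
    ∃ g ∈ Ga S.σ S.N, PM (S.ρ g (S.c 1)) w := by
  have key : ∀ w, S.V w → S.ω (S.c 0) w = 1 → ∃ g ∈ Ga S.σ S.N, S.ρ g (S.c 1) = w := by
    intro w hw h
    obtain ⟨j, hj, y, hy, hy0, e, rfl⟩ := S.nb_form h2 hw h
    obtain ⟨f, hf, hf'⟩ := S.exists_E hN h2 hy hy0 (e - 2 * S.ω y (S.ww j))
    refine ⟨f * aa (sh S.σ) j, mul_mem (FF_le_Ga hf) (S.aa_mem_Ga hj), ?_⟩
    rw [ρ_mul, S.ρ_aa_c1 hj, hf', E, S.ω_c0_ww hj]
    module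
  rcases abs_one_cases h with h | h
  · obtain ⟨g, hg, e⟩ := key w hw h
    exact ⟨g, hg, Or.inl e⟩
  · obtain ⟨g, hg, e⟩ := key (-w) (S.V_neg hw) (by rw [map_neg, h, neg_neg])
    exact ⟨g, hg, Or.inr e⟩

theorem CC_c (h2 : 2 ≤ S.N) {c : G} (hc : c ∈ CC S.σ S.N) :
    (S.ρ c (S.c 0) = S.c 0 ∧ S.ρ c (S.c 1) = S.c 1) ∨
    (S.ρ c (S.c 0) = -S.c 0 ∧ S.ρ c (S.c 1) = -S.c 1) := by
  obtain ⟨h0, h1⟩ := S.bf.CC_comm h2 hc
  have e : c * (S.σ 0 * S.σ 1) = (S.σ 0 * S.σ 1) * c := by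
    rw [← mul_assoc, h0, mul_assoc, h1, mul_assoc]
  have e2 : S.ρ c (S.c 1) = S.ρ (S.σ 0 * S.σ 1) (S.ρ c (S.c 0)) := by
    rw [← ρ_mul, ← e, ρ_mul, S.ρ_δ_c0 h2]
  rcases S.Ga_c0 h2 (S.bf.CC_le_Ga h2 hc) with h | h
  · left; exact ⟨h, by rw [e2, h, S.ρ_δ_c0 h2]⟩
  · right; exact ⟨h, by rw [e2, h, map_neg, S.ρ_δ_c0 h2]⟩

theorem CC_c1 (h2 : 2 ≤ S.N) {c : G} (hc : c ∈ CC S.σ S.N) : PM (S.ρ c (S.c 1)) (S.c 1) := by
  rcases S.CC_c h2 hc with h | h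
  exacts [Or.inl h.2, Or.inr h.2]

/-- Normal form `f * aa j * c` for the elements of `Ga`. -/
theorem Ga_form (h2 : 2 ≤ S.N) {g : G} (hg : g ∈ Ga S.σ S.N) :
    ∃ f ∈ FF S.σ S.N, ∃ j, j + 2 ≤ S.N ∧ ∃ c ∈ CC S.σ S.N, g = f * aa (sh S.σ) j * c := by
  obtain ⟨f, hf, β, hβ, rfl⟩ := S.bf.Ga_decomp h2 hg
  obtain ⟨j, hj, β0, hβ0, rfl⟩ := S.bf.shift.stab hβ
  obtain ⟨c, hc, hf'⟩ := S.bf.B1_to_CC h2 hβ0
  have hj' : j + 2 ≤ S.N := by omega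
  refine ⟨f * (aa (sh S.σ) j * (β0 * c⁻¹) * (aa (sh S.σ) j)⁻¹),
    mul_mem hf (S.bf.conj_FF h2 (S.aa_mem_Ga hj') hf'), j, hj', c, hc, by group⟩

theorem y0_mem_CC : yy S.σ 0 ∈ CC S.σ S.N :=
  Subgroup.subset_closure (Or.inl (Or.inl rfl))

theorem C2 (hN : Even S.N) (h2 : 2 ≤ S.N) {g : G} (hg : g ∈ Ga S.σ S.N)
    (h : PM (S.ρ g (S.c 1)) (S.c 1)) : ∃ k ∈ LL S.σ S.N, ∃ c ∈ CC S.σ S.N, g = k * c := by
  obtain ⟨f, hf, j, hj, c, hc, rfl⟩ := S.Ga_form h2 hg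
  have h1 : PM (S.ρ f (S.ww j)) (S.c 1) := by
    refine PM.trans ?_ h
    rw [ρ_mul, ρ_mul, ← S.ρ_aa_c1 hj]
    exact (((S.CC_c1 h2 hc).map _).map _).symm
  have h3 := S.PM_pt h1 (j + 2)
  rw [S.FF_pt h2 hf (by omega), S.pair_ww hj, S.pt_c 1 (by omega), if_pos (Or.inr rfl)] at h3
  have hj0 : j = 0 := by
    by_contra hcon
    rw [if_neg (by omega)] at h3
    exact absurd h3 (by decide)
  subst hj0
  simp only [aa, mul_one]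
  change PM (S.ρ f (S.c 1)) (S.c 1) at h1
  obtain ⟨l, hl, ⟨h0, k, hk⟩ | ⟨h0, k, hk⟩⟩ := S.FF_cases h2 hf
  · rw [hk] at h1
    obtain ⟨rfl, rfl⟩ := S.E_c1_fix hN h2 hl h1
    exact ⟨f, S.ker_FF_le_LL hN h2 hf (S.mem_ker_of fun x => by rw [hk, E_zero]), c, hc, rfl⟩
  · have e : f = f * (yy S.σ 0)⁻¹ * yy S.σ 0 := by group
    rw [e, ρ_mul, hk, S.ρ_y0 h2, S.Rf_self (S.ω01 h2), E_neg] at h1
    obtain ⟨rfl, rfl⟩ := S.E_c1_fix hN h2 hl (by simpa using h1.neg_left)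
    refine ⟨f * (yy S.σ 0)⁻¹, S.ker_FF_le_LL hN h2 (mul_mem hf (inv_mem (yy_mem_FF h2)))
      (S.mem_ker_of fun x => by rw [hk, E_zero]), yy S.σ 0 * c, mul_mem S.y0_mem_CC hc, by group⟩

theorem shift_even (hN : Even S.N) : Even S.shift.N := by
  obtain ⟨k, hk⟩ := hN
  exact ⟨k - 1, by simp only [shift]; omega⟩

theorem GA4 (hN : Even S.N) (h2 : 2 ≤ S.N)
    (ih : ∀ β ∈ BB (sh S.σ) (S.N - 2), β ∈ S.ρ.ker → β ∈ K0 (sh S.σ) (S.N - 2))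
    {g : G} (hg : g ∈ Ga S.σ S.N) (hk : g ∈ S.ρ.ker) : g ∈ K0 S.σ S.N := by
  obtain ⟨f, hf, β, hβ, rfl⟩ := S.bf.Ga_decomp h2 hg
  have hβk : β ∈ S.ρ.ker := by
    refine S.shift.ρ_eq_one (S.shift_even hN) hβ fun i hi => ?_
    have hx : S.shift.c i ∈ S.shift.L := S.shift.c_mem hi
    have hx' : S.ρ β (S.shift.c i) ∈ S.shift.L := S.shift.ρ_L hβ hx
    obtain ⟨j, hj⟩ := S.FF_act h2 hf (S.ω_c0_shift hx')
    have h1 := S.ρ_of_ker hk (S.shift.c i)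
    rw [ρ_mul, hj] at h1
    obtain ⟨-, h3⟩ := S.decomp_uniq hN h2 (sub_mem hx hx') (j := 2 * j) (by rw [sub_eq_iff_eq_add']; exact h1.symm)
    exact (sub_eq_zero.1 h3).symm
  have hfk : f ∈ S.ρ.ker := by
    have := mul_mem hk (inv_mem hβk)
    simpa using this
  exact mul_mem (S.bf.LL_le_K0 (S.ker_FF_le_LL hN h2 hf hfk)) (S.bf.K0_sh_le (ih β hβ hβk))

theorem B1_pt {β : G} (hβ : β ∈ B1 S.σ S.N) : ∀ x, S.pt 0 (S.ρ β x) = S.pt 0 x := by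
  induction hβ using Subgroup.closure_induction with
  | mem y hy =>
    intro x
    rcases hy with ⟨h0, rfl⟩ | ⟨i, ⟨hi, hi'⟩, rfl⟩
    · have := S.ρσ_zpow h0 2 x
      rw [zpow_two, ← sq] at this
      rw [this, map_add, S.pt_two_mul, add_zero]
    · rw [S.ρσ i hi', map_add, S.pt_zsmul, S.pt_c i hi', if_neg (by omega), mul_zero, add_zero]
  | one => intro x; rw [ρ_one]
  | mul a b _ _ ha hb => intro x; rw [ρ_mul, ha, hb]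
  | inv a _ ha => intro x; rw [← ha (S.ρ a⁻¹ x), ρ_ρ_inv]

theorem ρ_aa_c1' {j : ℕ} (hj : j + 2 ≤ S.N) : S.ρ (aa S.σ (j + 2)) (S.c 1) = -S.c 0 := by
  have h2 : 2 ≤ S.N := by omega
  induction j with
  | zero =>
    simp only [aa, mul_one, zero_add]
    rw [ρ_mul, S.ρσ 0 (by omega), S.ρσ 1 (by omega)]
    simp only [map_add, map_smul, LinearMap.add_apply, LinearMap.smul_apply, S.ω10 h2, S.ω01 h2,
      S.alt, smul_eq_mul]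
    module
  | succ j ih =>
    rw [show j + 1 + 2 = (j + 2) + 1 by ring, aa, ρ_mul, ih (by omega), map_neg,
      S.ρσ (j + 2) (by omega), S.ch2 0 (j + 2) (by omega) (by omega)]
    simp

theorem TR (h2 : 2 ≤ S.N) (hTr : ∀ z, S.V z → ∃ b ∈ S.B, PM (S.ρ b (S.c 0)) z) {u : H}
    (hu : S.V u) : ∃ β ∈ B1 S.σ S.N,
      (S.pt 0 u = 1 ∧ PM (S.ρ β (S.c 0)) u) ∨ (S.pt 0 u = 0 ∧ PM (S.ρ β (S.c 1)) u) := by
  obtain ⟨b, hb, h⟩ := hTr u hu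
  obtain ⟨j, hj, β, hβ, e⟩ := S.bf.stab (inv_mem hb)
  have e' : b = β⁻¹ * (aa S.σ j)⁻¹ := by rw [← mul_inv_rev, ← e, inv_inv]
  refine ⟨β⁻¹, inv_mem hβ, ?_⟩
  rw [e', ρ_mul] at h
  have case0 : S.ρ (aa S.σ j) (S.c 0) = S.c 0 → S.pt 0 u = 1 ∧ PM (S.ρ β⁻¹ (S.c 0)) u := by
    intro h0
    have : S.ρ (aa S.σ j)⁻¹ (S.c 0) = S.c 0 := by
      conv_lhs => rw [← h0]
      rw [ρ_inv_ρ]
    rw [this] at h
    refine ⟨?_, h⟩
    rw [← S.PM_pt h, S.B1_pt (inv_mem hβ), S.pt_c 0 (by omega), if_pos (Or.inl rfl)]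
  match j, hj with
  | 0, _ => exact Or.inl (case0 (S.ρ_one _))
  | 1, _ =>
    refine Or.inl (case0 ?_)
    simp only [aa, mul_one]
    rw [S.ρσ 0 (by omega), S.alt]; simp
  | j + 2, hj =>
    right
    have : S.ρ (aa S.σ (j + 2))⁻¹ (S.c 0) = -S.c 1 := by
      rw [← neg_neg (S.c 0), ← S.ρ_aa_c1' hj, map_neg, ρ_inv_ρ]
    rw [this, map_neg] at h
    have h' : PM (S.ρ β⁻¹ (S.c 1)) u := by simpa using h.neg_left
    refine ⟨?_, h'⟩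
    rw [← S.PM_pt h', S.B1_pt (inv_mem hβ), S.pt_c 1 (by omega), if_neg (by omega)]

/-- Elements of `B1` of the shifted family lift to `CC`. -/
theorem CC_lift (h2 : 2 ≤ S.N) {β : G} (hβ : β ∈ B1 (sh S.σ) (S.N - 2)) :
    ∃ c ∈ CC S.σ S.N, ∀ x ∈ S.shift.L, ∃ j : ℤ, S.ρ c x = S.ρ β x + (2 * j) • S.c 0 := by
  obtain ⟨c, hc, hf⟩ := S.bf.B1_to_CC h2 hβ
  refine ⟨c, hc, fun x hx => ?_⟩
  have e : c = (β * c⁻¹)⁻¹ * β := by group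
  have hx' : S.ρ β x ∈ S.shift.L := S.shift.ρ_L (B1_le_BB hβ) hx
  obtain ⟨j, hj⟩ := S.FF_act h2 (inv_mem hf) (S.ω_c0_shift hx')
  exact ⟨j, by rw [e, ρ_mul, hj]⟩

end Sys

end Pool.Agent.MP_00906f_gt.H46
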