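import Pool.Agent.MP_00906f_gt.H46.GA2

/-! The action of `Ga` on the vectors orthogonal to `c 0`. -/

set_option linter.unusedSimpArgs false

namespace Pool.Agent.MP_00906f_gt.H46

namespace Sys

variable {G H : Type*} [Group G] [AddCommGroup H] (S : Sys G H)

/-- The subgroup `K0 · Ga`. -/
def J : Subgroup G := K0 S.σ S.N ⊔ Ga S.σ S.N

theorem J_le_B (h2 : 2 ≤ S.N) : S.J ≤ S.B := sup_le K0_le_BB (Ga_le_BB h2)

theorem J_form (h2 : 2 ≤ S.N) {g : G} (hg : g ∈ S.J) :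
    ∃ k ∈ K0 S.σ S.N, ∃ g' ∈ Ga S.σ S.N, g = k * g' := by
  rw [J, Subgroup.sup_eq_closure] at hg
  induction hg using Subgroup.closure_induction with
  | mem x hx =>
    rcases hx with hx | hx
    · exact ⟨x, hx, 1, one_mem _, by simp⟩
    · exact ⟨1, one_mem _, x, hx, by simp⟩
  | one => exact ⟨1, one_mem _, 1, one_mem _, by simp⟩
  | mul a b _ _ ha hb =>
    obtain ⟨k, hk, g, hg, rfl⟩ := ha
    obtain ⟨k', hk', g', hg', rfl⟩ := hb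
    exact ⟨k * (g * k' * g⁻¹), mul_mem hk (K0_conj (Ga_le_BB h2 hg) hk'), g * g', mul_mem hg hg',
      by group⟩
  | inv a _ ha =>
    obtain ⟨k, hk, g, hg, rfl⟩ := ha
    exact ⟨g⁻¹ * k⁻¹ * g⁻¹⁻¹, K0_conj (inv_mem (Ga_le_BB h2 hg)) (inv_mem hk), g⁻¹, inv_mem hg,
      by group⟩

theorem J_c0 (h2 : 2 ≤ S.N) {g : G} (hg : g ∈ S.J) : PM (S.ρ g (S.c 0)) (S.c 0) := by
  obtain ⟨k, hk, g', hg', rfl⟩ := S.J_form h2 hg
  rw [ρ_mul, S.ρ_of_ker (S.K0_le_ker hk)]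
  exact S.Ga_c0 h2 hg'

theorem K0_mem_J {k : G} (hk : k ∈ K0 S.σ S.N) : k ∈ S.J := Subgroup.mem_sup_left hk

theorem Ga_mem_J {k : G} (hk : k ∈ Ga S.σ S.N) : k ∈ S.J := Subgroup.mem_sup_right hk

theorem pair_of_pt01 {x : H} (hx : S.V x) (h0 : S.pt 0 x = 1) (h1 : S.pt 1 x = 1) :
    S.Pair x 0 1 := by
  obtain ⟨-, -, i, j, hij, -, hp⟩ := hx
  rw [hp] at h0 h1
  have a0 : 0 = i ∨ 0 = j := by
    by_contra h; rw [if_neg h] at h0; exact absurd h0 (by decide)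
  have a1 : 1 = i ∨ 1 = j := by
    by_contra h; rw [if_neg h] at h1; exact absurd h1 (by decide)
  have : i = 0 ∧ j = 1 := by omega
  obtain ⟨rfl, rfl⟩ := this
  exact hp

theorem pt01_of_perp (h2 : 2 ≤ S.N) {x : H} (hx : x ∈ S.L) (h : S.ω (S.c 0) x = 0) :
    S.pt 0 x = S.pt 1 x := by
  have h1 := S.ω_pair hx (S.c_mem (by omega : 0 < S.N)) (by omega : 0 ≠ 0 + 1)
    (S.pair_c (by omega : 0 < S.N))
  rw [S.skew, h] at h1
  simp only [neg_zero, Int.cast_zero, zero_add] at h1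
  generalize S.pt 0 x = a at *
  generalize S.pt 1 x = b at *
  revert a b; decide

theorem zmod2_cases (a : ZMod 2) : a = 0 ∨ a = 1 := by revert a; decide

/-- Splitting of a distinguished vector orthogonal to `c 0` whose pair avoids the point `0`. -/
theorem V_split (hN : Even S.N) (h2 : 2 ≤ S.N) {x y : H} (hx : S.V x) (h : S.ω (S.c 0) x = 0)
    (hp : S.pt 0 x = 0) (hy : y ∈ S.L) (hy0 : S.ω (S.c 0) y = 0) (hxy : |S.ω x y| = 1) :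
    ∃ x0, x0 ∈ S.shift.L ∧ S.shift.V x0 ∧ ∃ i : ℤ, x = x0 + (2 * i) • S.c 0 := by
  obtain ⟨x0, hx0, j, rfl⟩ := S.decomp hN h2 hx.1 h
  rw [map_add, (S.pt_shift_L hx0).1, S.pt_zsmul, S.pt_c 0 (by omega), if_pos (Or.inl rfl),
    zero_add, mul_one] at hp
  obtain ⟨i, rfl⟩ : ∃ i, j = 2 * i := (ZMod.intCast_zmod_eq_zero_iff_dvd j 2).1 hp
  refine ⟨x0, hx0, (S.V_shift hN h2 hx0).2 ?_, i, rfl⟩
  have e : x0 = x0 + (2 * i) • S.c 0 + (2 : ℤ) • (-(i • S.c 0)) := by module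
  rw [e]
  refine S.V_two hx (neg_mem (Submodule.smul_mem _ _ (S.c_mem (by omega)))) hy ?_
  rw [← e]
  simpa [hy0] using hxy

theorem O2 (hN : Even S.N) (h4 : 4 ≤ S.N)
    (hTr : ∀ z, S.shift.V z → ∃ b ∈ S.shift.B, PM (S.ρ b (S.c 2)) z) {v w : H}
    (hv : S.V v) (hw : S.V w) (hv0 : S.ω (S.c 0) v = 0) (hw0 : S.ω (S.c 0) w = 0)
    (hvw : |S.ω v w| = 1) :
    ∃ g ∈ Ga S.σ S.N, PM (S.ρ g (S.c 2)) v ∧ PM (S.ρ g (S.c 3)) w := by
  have h2 : 2 ≤ S.N := by omega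
  have hwv : |S.ω w v| = 1 := by rw [S.skew, abs_neg, hvw]
  have key : ∀ x y : H, S.V x → S.V y → S.ω (S.c 0) x = 0 → S.ω (S.c 0) y = 0 → |S.ω y x| = 1 →
      S.pt 0 x = 0 := by
    intro x y hx hy hx0 hy0 hxy
    rcases zmod2_cases (S.pt 0 x) with h | h
    · exact h
    · exfalso
      have hp := S.pair_of_pt01 hx h (by rw [← S.pt01_of_perp h2 hx.1 hx0, h])
      have h1 := S.ω_pair hy.1 hx.1 (by omega) hp
      rw [cast_of_abs_one hxy, S.pt01_of_perp h2 hy.1 hy0] at h1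
      rcases zmod2_cases (S.pt 1 y) with h' | h' <;> rw [h'] at h1 <;> exact absurd h1 (by decide)
  obtain ⟨v0, hv0L, hv0V, i, rfl⟩ := S.V_split hN h2 hv hv0 (key v w hv hw hv0 hw0 hwv) hw.1 hw0 hvw
  obtain ⟨w0, hw0L, hw0V, i', rfl⟩ :=
    S.V_split hN h2 hw hw0 (key _ _ hw hv hw0 hv0 hvw) hv.1 hv0 hwv
  have a1 := S.ω_c0_shift hv0L
  have a2 := S.ω_c0_shift hw0L
  have a3 : S.ω v0 (S.c 0) = 0 := by rw [S.skew, a1, neg_zero]
  have hvw0 : |S.ω v0 w0| = 1 := by simpa [a1, a2, a3, S.alt] using hvw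
  obtain ⟨b, hb, hbv⟩ := hTr v0 hv0V
  have hu : S.shift.V (S.ρ b⁻¹ w0) := S.shift.ρ_V (inv_mem hb) hw0V
  have hcu : |S.shift.ω (S.shift.c 0) (S.ρ b⁻¹ w0)| = 1 := by
    rw [← S.shift.ρ_ω hb]
    change |S.ω (S.ρ b (S.c 2)) (S.ρ b (S.ρ b⁻¹ w0))| = 1
    rw [ρ_ρ_inv, S.PM_ω hbv (PM.refl _), hvw0]
  have h2' : 2 ≤ S.shift.N := by simp only [shift]; omega
  obtain ⟨g', hg', hg'w⟩ := S.shift.C1 (S.shift_even hN) h2' hu hcu
  have hg'0 : PM (S.ρ g' (S.c 2)) (S.c 2) := S.shift.Ga_c0 h2' hg'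
  have hβ : b * g' ∈ BB (sh S.σ) (S.N - 2) := mul_mem hb (Ga_le_BB h2' hg')
  have e1 : PM (S.ρ (b * g') (S.c 2)) v0 := by rw [ρ_mul]; exact (hg'0.map _).trans hbv
  have e2 : PM (S.ρ (b * g') (S.c 3)) w0 := by
    rw [ρ_mul]
    have := hg'w.map (S.ρ b)
    rw [ρ_ρ_inv] at this
    exact this
  have hsq : S.ω v0 w0 * S.ω v0 w0 = 1 := by
    rcases abs_one_cases hvw0 with h | h <;> rw [h] <;> norm_num
  obtain ⟨f, hf, hf'⟩ := S.exists_E hN h2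
    (l := (S.ω v0 w0 * i') • v0 - (S.ω v0 w0 * i) • w0)
    (sub_mem (Submodule.smul_mem _ _ (S.shift_L_le hv0L)) (Submodule.smul_mem _ _ (S.shift_L_le hw0L)))
    (by simp [a1, a2]) 0
  have f1 : S.ρ f v0 = v0 + (2 * i) • S.c 0 := by
    rw [hf', S.E_perp _ _ a1]
    simp only [map_sub, map_smul, LinearMap.sub_apply, LinearMap.smul_apply, S.alt, smul_eq_mul,
      S.skew w0 v0]
    congr 2
    linear_combination (2 * i) * hsq
  have f2 : S.ρ f w0 = w0 + (2 * i') • S.c 0 := by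
    rw [hf', S.E_perp _ _ a2]
    simp only [map_sub, map_smul, LinearMap.sub_apply, LinearMap.smul_apply, S.alt, smul_eq_mul]
    congr 2
    linear_combination (2 * i') * hsq
  refine ⟨f * (b * g'), mul_mem (FF_le_Ga hf) (BB_sh_le_Ga hβ), ?_, ?_⟩
  · rw [ρ_mul, ← f1]; exact e1.map _
  · rw [ρ_mul, ← f2]; exact e2.map _

theorem Tr_yy (h2 : 2 ≤ S.N) {i j : ℕ} (hi : i + 2 ≤ S.N) (hj : j + 2 ≤ S.N) :
    S.Tr (S.ww i - S.ww j) (yy S.σ i * yy S.σ j) :=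
  ⟨by simp [S.ω_c0_ww hi, S.ω_c0_ww hj], _, fun x => by
    rw [ρ_mul, S.ρ_yy h2 hj, S.ρ_yy h2 hi, S.Rf_Rf (S.ω_c0_ww hi) (S.ω_c0_ww hj)]⟩

theorem Tr_zero (hN : Even S.N) (h2 : 2 ≤ S.N) {f : G} (hf : f ∈ FF S.σ S.N) (h : S.Tr 0 f) :
    ∃ k : ℤ, f * S.σ 0 ^ k ∈ LL S.σ S.N := by
  obtain ⟨-, k, hk⟩ := h
  refine ⟨k, S.ker_FF_le_LL hN h2 (mul_mem hf (zpow_mem s_mem_FF k)) (S.mem_ker_of fun x => ?_)⟩
  rw [ρ_mul, hk, S.ρ_s_zpow h2, S.E_E (by simp) (by simp)]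
  simp [E_zero]

theorem O1 (hN : Even S.N) (h4 : 4 ≤ S.N)
    (hSt : ∀ β ∈ S.shift.B, PM (S.ρ β (S.c 2)) (S.c 2) → β ∈ S.shift.J) {g : G}
    (hg : g ∈ Ga S.σ S.N) (h : PM (S.ρ g (S.c 2)) (S.c 2)) :
    nn S.σ * g * (nn S.σ)⁻¹ ∈ S.J := by
  have h2 : 2 ≤ S.N := by omega
  have h2' : 2 ≤ S.shift.N := by simp only [shift]; omega
  let W : Subgroup G := S.J.comap (MulAut.conj (nn S.σ)).toMonoidHom
  have hW : ∀ x, x ∈ W ↔ nn S.σ * x * (nn S.σ)⁻¹ ∈ S.J := fun x => Iff.rfl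
  rw [← hW]
  have hK : ∀ k ∈ K0 S.σ S.N, k ∈ W := fun k hk => S.K0_mem_J (K0_conj (nn_mem h4) hk)
  have hc2 : S.c 2 ∈ S.shift.L := S.shift.c_mem (i := 0) (by omega)
  obtain ⟨f, hf, β, hβ, rfl⟩ := S.bf.Ga_decomp h2 hg
  have hx' : S.ρ β (S.c 2) ∈ S.shift.L := S.shift.ρ_L hβ hc2
  obtain ⟨j, hj⟩ := S.FF_act h2 hf (S.ω_c0_shift hx')
  rw [ρ_mul, hj] at h
  have h1 : PM (S.ρ β (S.c 2)) (S.c 2) ∧ j = 0 := by
    rcases h with h | h
    · obtain ⟨h3, h5⟩ := S.decomp_uniq hN h2 (sub_mem hc2 hx') (j := 2 * j)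
        (by rw [sub_eq_iff_eq_add']; exact h.symm)
      exact ⟨Or.inl (sub_eq_zero.1 h5).symm, by omega⟩
    · obtain ⟨h3, h5⟩ := S.decomp_uniq hN h2 (sub_mem (neg_mem hc2) hx') (j := 2 * j)
        (by rw [sub_eq_iff_eq_add']; exact h.symm)
      exact ⟨Or.inr (sub_eq_zero.1 h5).symm, by omega⟩
  obtain ⟨h1, rfl⟩ := h1
  have hβW : β ∈ W := by
    obtain ⟨k, hk, g', hg', rfl⟩ := S.shift.J_form h2' (hSt β hβ h1)
    exact mul_mem (hK k (S.bf.K0_sh_le hk)) (S.Ga_mem_J (S.bf.nn_Ga_sh h4 hN hg'))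
  refine mul_mem ?_ hβW
  have hf2 : S.ρ f (S.c 2) = S.c 2 := by
    simp only [mul_zero, zero_smul, add_zero] at hj
    rcases h1 with h1 | h1
    · rwa [h1] at hj
    · rw [h1, map_neg] at hj; exact neg_injective hj
  have hsW : S.σ 0 ∈ W := by
    rw [hW, (S.bf.nn_conj h4).1]
    exact S.Ga_mem_J (Subgroup.subset_closure (Or.inr ⟨3, ⟨by omega, by omega⟩, rfl⟩))
  have hyW : ∀ j, 2 ≤ j → j + 2 ≤ S.N → yy S.σ j ∈ W := fun j a b =>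
    S.Ga_mem_J (S.bf.nn_yy h4 a b)
  have key : ∀ f ∈ FF S.σ S.N, ∀ l ∈ S.shift.L, S.Tr l f → S.ρ f (S.c 2) = S.c 2 → f ∈ W := by
    intro f hf l hl hT hf2
    have hl0 : S.shift.ω (S.shift.c 0) l = 0 := by
      obtain ⟨-, k, hk⟩ := hT
      rw [hk, S.E_perp _ _ (S.ω_c0_shift hc2), add_eq_left] at hf2
      obtain ⟨h3, -⟩ := S.decomp_uniq hN h2 (Submodule.zero_mem _) hf2.symm
      change S.ω (S.c 2) l = 0
      rw [S.skew]; omega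
    obtain ⟨l', hl', i, rfl⟩ := S.shift.decomp (S.shift_even hN) h2' hl hl0
    have ha : ∃ f0 ∈ FF S.σ S.N, f0 ∈ W ∧ S.Tr l' f0 := by
      clear hl hT hl0
      induction hl' using Submodule.span_induction with
      | mem x hx =>
        obtain ⟨i, hi, rfl⟩ := hx
        have hi' : i < S.N - 2 - 2 := hi
        have h1 := S.Tr_yy h2 (i := i + 3) (j := i + 2) (by omega) (by omega)
        have e : S.ww (i + 3) - S.ww (i + 2) = S.shift.shift.c i := by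
          simp only [ww, shift, sh]; abel
        rw [e] at h1
        exact ⟨_, mul_mem (yy_mem_FF (by omega)) (yy_mem_FF (by omega)),
          mul_mem (hyW _ (by omega) (by omega)) (hyW _ (by omega) (by omega)), h1⟩
      | zero => exact ⟨1, one_mem _, one_mem _, S.Tr_one⟩
      | add x y _ _ hx hy =>
        obtain ⟨f, hf, hw, h⟩ := hx
        obtain ⟨f', hf', hw', h'⟩ := hy
        exact ⟨_, mul_mem hf hf', mul_mem hw hw', h.mul h'⟩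
      | smul n x _ hx =>
        obtain ⟨f, hf, hw, h⟩ := hx
        exact ⟨_, zpow_mem hf n, zpow_mem hw n, h.zpow n⟩
    obtain ⟨f0, hf0, hf0W, hT0⟩ := ha
    have hT1 := (S.Tr_yy h2 (i := 0) (j := 1) (by omega) (by omega)).zpow i
    have hF1 : (yy S.σ 0 * yy S.σ 1) ^ i ∈ FF S.σ S.N :=
      zpow_mem (mul_mem (yy_mem_FF (by omega)) (yy_mem_FF (by omega))) i
    have hW1 : (yy S.σ 0 * yy S.σ 1) ^ i ∈ W := 
      zpow_mem ((hW _).2 (S.Ga_mem_J (S.bf.nn_y01 h4))) i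
    have hT2 := (hT.mul hT0.inv).mul hT1
    have e : l' + i • S.shift.c 0 + -l' + i • (S.ww 0 - S.ww 1) = 0 := by
      simp only [ww, shift, sh]; module
    rw [e] at hT2
    obtain ⟨k, hk⟩ := S.Tr_zero hN h2 (mul_mem (mul_mem hf (inv_mem hf0)) hF1) hT2
    have h5 := hK _ (S.bf.LL_le_K0 hk)
    have e2 : f = f * f0⁻¹ * (yy S.σ 0 * yy S.σ 1) ^ i * S.σ 0 ^ k * (S.σ 0 ^ k)⁻¹ *
        ((yy S.σ 0 * yy S.σ 1) ^ i)⁻¹ * f0 := by group
    rw [e2]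
    exact mul_mem (mul_mem (mul_mem h5 (inv_mem (zpow_mem hsW k))) (inv_mem hW1)) hf0W
  obtain ⟨l, hl, hT | hT⟩ := S.FF_cases h2 hf
  · exact key f hf l hl hT hf2
  · have hT1 := (S.Tr_yy h2 (i := 2) (j := 0) (by omega) (by omega)).inv
    have hy2 : S.ρ (yy S.σ 2) (S.c 2) = S.c 2 := by
      have a12 := S.ch1 1 (by omega)
      have a23 := S.ch1 2 (by omega)
      rw [S.ρ_yy h2 (by omega), Rf, S.ω_c0_shift hc2]
      simp [ww, a12, S.skew (S.c 3) (S.c 2), a23, S.alt]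
    have hT2 : S.Tr (l + -(S.ww 2 - S.ww 0)) (f * yy S.σ 2) := by
      obtain ⟨a, k, hk⟩ := hT.mul (S.Tr_yy h2 (i := 0) (j := 2) (by omega) (by omega))
      have e : f * (yy S.σ 0)⁻¹ * (yy S.σ 0 * yy S.σ 2) = f * yy S.σ 2 := by group
      rw [e] at hk
      rw [neg_sub]
      exact ⟨a, k, hk⟩
    have h6 := key (f * yy S.σ 2) (mul_mem hf (yy_mem_FF (by omega))) _
      (add_mem hl (neg_mem (S.ww_sub_mem (j := 2) (by omega)))) hT2 (by rw [ρ_mul, hy2, hf2])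
    have := mul_mem h6 (inv_mem (hyW 2 le_rfl (by omega)))
    simpa using this

end Sys

end Pool.Agent.MP_00906f_gt.H46
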