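import Mathlib

/-! The hyperelliptic mapping class group (Birman-Hilden presentation) and its action on the first
homology of the surface. -/

namespace Pool.Agent.MP_00906f_gt.HT

/-- The first integral homology of the closed genus `g` surface, in a symplectic basis
`a_0, …, a_{g-1}, b_0, …, b_{g-1}`. -/
abbrev Hom1 (g : ℕ) : Type := (Fin g → ℤ) × (Fin g → ℤ)

/-- The intersection form, with `a_i · b_i = 1`. -/
def form {g : ℕ} (x y : Hom1 g) : ℤ := ∑ i, (x.1 i * y.2 i - x.2 i * y.1 i)

/-- The homology class of the `i`-th curve of the standard chain of `2g+1` curves: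
`c_{2k} = a_k - a_{k-1}` (with `a_{-1} = a_g = 0`) and `c_{2k+1} = b_k`. -/
def chain (g : ℕ) (i : ℕ) : Hom1 g :=
  (fun k => (if i = 2 * k.val then 1 else 0) - (if i = 2 * k.val + 2 then 1 else 0),
   fun k => if i = 2 * k.val + 1 then 1 else 0)

/-- The transvection in `c`. -/
def transv {g : ℕ} (c x : Hom1 g) : Hom1 g := x + form x c • c

/-- The index set of the generators `t_0, …, t_{2g}`. -/
abbrev Idx (g : ℕ) : Type := Fin (2 * g + 1)

/-- The free group on the generators. -/
abbrev Fr (g : ℕ) : Type := FreeGroup (Idx g)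

/-- The relator of `x y x = y x y`. -/
def brd {g : ℕ} (x y : Fr g) : Fr g := x * y * x * (y * x * y)⁻¹

/-- The relator of `x y = y x`. -/
def cmm {g : ℕ} (x y : Fr g) : Fr g := x * y * (y * x)⁻¹

/-- The product `t_0 t_1 ⋯ t_{2g}`. -/
def upWord (g : ℕ) : Fr g := (List.ofFn FreeGroup.of).prod

/-- The hyperelliptic involution `t_0 ⋯ t_{2g} t_{2g} ⋯ t_0`. -/
def iota (g : ℕ) : Fr g := upWord g * (List.ofFn FreeGroup.of).reverse.prod

/-- The Birman-Hilden relators. -/
def bhRels (g : ℕ) : Set (Fr g) :=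
  {r | (∃ i j : Idx g, i.val + 1 = j.val ∧ r = brd (.of i) (.of j)) ∨
       (∃ i j : Idx g, i.val + 2 ≤ j.val ∧ r = cmm (.of i) (.of j)) ∨
       r = upWord g ^ (2 * g + 2) ∨ r = iota g ^ 2 ∨ (∃ i : Idx g, r = cmm (iota g) (.of i))}

/-- The hyperelliptic mapping class group of genus `g`, given by its presentation. -/
abbrev HypMCG (g : ℕ) : Type := PresentedGroup (bhRels g)

/-- `ρ` is the action on homology: the `i`-th Dehn twist acts by the transvection in `c_i`. -/
def IsHomologyAction (g : ℕ) (ρ : HypMCG g →* Equiv.Perm (Hom1 g)) : Prop :=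
  ∀ (i : Idx g) (x : Hom1 g), ρ (PresentedGroup.of i) x = transv (chain g i) x

end Pool.Agent.MP_00906f_gt.HT
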